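import Mathlib

/-!
# E_8(8), theorem FF: the three finite certificates, definitions and statements

The torus elements `H_v(c)` (letter `(false, c)`) and `H_v'(c)` (letter `(true, c)`) act on

* the collinear module with basis `v, v'` (`colX`, `colY`; parameter `q`),
* the symplectic module with basis `v, w_0, v', v_0` (`symX`, `symY`; parameters `q, d`),
* the special module with basis `v, v', x*, y*, w1, v1, c0, d0` (`speX`, `speY`; parameters
  `q, D1, D2`)

(normalised by `p = 1`).  A word is a list of letters, the head is applied first.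
The theorems `col_cert`, `sym_cert`, `spe_cert` (file `CertP`) say that outside the exceptional
parameters there is a word which violates the consequences of `g v ~ v ⇒ [g, H_v] = 1`.
Words (exponents `k` of the letters `ζ^k`, `ζ^3 = ζ + 1`, starting with `H_v'` applied to `v`,
letters alternate):
`col`: `q = ζ: 123`, `ζ^3: 115`, `ζ^2: 135`, ... (3 letters),
`sym`: 3 letters (27 pairs) or 5 letters (28 pairs), `spe`: 3 letters (279) or 7 letters (168).
-/

namespace Pool.Agent.H26.E2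

variable {K : Type} [Field K]

/-! ### the collinear module -/

/-- `H_v(c)`: `v ↦ c²v`, `v' ↦ c v' + (c² + c) q v` -/
def colX (q c : K) (x : K × K) : K × K := (c ^ 2 * x.1 + (c ^ 2 + c) * q * x.2, c * x.2)

/-- `H_v'(c)`: `v' ↦ c²v'`, `v ↦ c v + (c² + c) v'` -/
def colY (c : K) (x : K × K) : K × K := (c * x.1, c ^ 2 * x.2 + (c ^ 2 + c) * x.1)

/-- action of a word, the head acts first -/
def colRun (q : K) : List (Bool × K) → K × K → K × K
  | [], x => x
  | (b, c) :: l, x => colRun q l (if b then colY c x else colX q c x)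

/-- `x = g v`, `y = g (v' + q v)` -/
def colViol (q : K) (x y : K × K) : Prop := x.2 = 0 ∧ y.1 ≠ q * y.2

/-! ### the symplectic module -/

/-- coordinates with respect to `v, w_0, v', v_0` -/
@[ext] structure V4 (K : Type) where
  a0 : K
  a1 : K
  a2 : K
  a3 : K

/-- `H_v(c)` -/
def symX (q d c : K) (x : V4 K) : V4 K where
  a0 := c ^ 2 * x.a0 + (c ^ 2 + c) * q * x.a2 + (c ^ 2 + c) * d * x.a3
  a1 := x.a1 + (1 + c) * x.a2 + (1 + c) * x.a3
  a2 := c * x.a2
  a3 := c * x.a3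

/-- `H_v'(c)` -/
def symY (q d c : K) (x : V4 K) : V4 K where
  a0 := c * x.a0
  a1 := c * x.a1
  a2 := c ^ 2 * x.a2 + (c ^ 2 + c) * x.a0 + (c ^ 2 + c) * d * x.a1
  a3 := x.a3 + (1 + c) * x.a0 + (1 + c) * q * x.a1

/-- action of a word, the head acts first -/
def symRun (q d : K) : List (Bool × K) → V4 K → V4 K
  | [], x => x
  | (b, c) :: l, x => symRun q d l (if b then symY q d c x else symX q d c x)

/-- `B'(v, x)` -/
def symBv (x : V4 K) : K := x.a1 + x.a2 + x.a3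
/-- `B'(w_0, x)` -/
def symBw (q d : K) (x : V4 K) : K := x.a0 + q * x.a2 + d * x.a3
/-- `B'(v', x)` -/
def symBv' (q : K) (x : V4 K) : K := x.a0 + q * x.a1 + x.a3
/-- `B'(v_0, x)` -/
def symBw' (d : K) (x : V4 K) : K := x.a0 + d * x.a1 + x.a2

/-- `x = g v`, `y = g w_0` -/
def symViol (q d : K) (x y : V4 K) : Prop :=
  symBv x = 0 ∧ symBw q d x ≠ 0 ∧
    (symBv' q x ≠ symBw q d x ∨ symBw' d x ≠ symBw q d x ∨
      symBw q d y ≠ 0 ∨ symBv' q y ≠ q * symBv y ∨ symBw' d y ≠ d * symBv y)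

/-! ### the special module -/

/-- coordinates with respect to `v, v', x*, y*, w1, v1, c0, d0` -/
@[ext] structure V8 (K : Type) where
  a0 : K
  a1 : K
  a2 : K
  a3 : K
  a4 : K
  a5 : K
  a6 : K
  a7 : K

/-- `ω(v, x)` -/
def speO (q : K) (x : V8 K) : K := x.a1 + x.a2 + x.a3 + x.a5 + q * x.a7
/-- `ω(v', x)` -/
def speO' (q : K) (x : V8 K) : K := x.a0 + q * x.a2 + x.a3 + q * x.a4 + q * x.a6
/-- `B(w, x)` -/
def speB (q D1 D2 : K) (x : V8 K) : K :=
  x.a0 + q * x.a1 + D2 * x.a3 + (D1 + D2) * x.a5 + q * (D1 + D2) * x.a7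
/-- `B(w', x)` -/
def speB' (D1 D2 : K) (x : V8 K) : K :=
  x.a0 + x.a1 + D2 * x.a2 + (D1 + D2) * x.a4 + (D1 + D2) * x.a6

/-- `[v, [w, x]]` modulo `z` -/
def speP (q D1 : K) (x : V8 K) : V8 K where
  a0 := D1 * x.a3 + q * D1 * x.a7
  a1 := 0
  a2 := 0
  a3 := x.a3 + q * x.a7
  a4 := x.a1 + x.a4 + (1 + D1) * x.a7
  a5 := x.a3 + q * x.a7
  a6 := x.a3 + x.a5 + x.a6 + q * x.a7
  a7 := 0

/-- `[v', [w', x]]` modulo `z` -/
def speP' (D1 : K) (x : V8 K) : V8 K where
  a0 := 0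
  a1 := D1 * x.a2 + D1 * x.a6
  a2 := x.a2 + x.a6
  a3 := 0
  a4 := x.a2 + x.a6
  a5 := x.a0 + x.a5 + (1 + D1) * x.a6
  a6 := 0
  a7 := x.a2 + x.a4 + x.a6 + x.a7

/-- `H_v(c)` -/
def speX (q D1 D2 c : K) (x : V8 K) : V8 K where
  a0 := x.a0 + (c ^ 2 + 1) * speB q D1 D2 x + (c + 1) * (speP q D1 x).a0
  a1 := x.a1
  a2 := x.a2 + (c⁻¹ + 1) * speO q x
  a3 := x.a3 + (c + 1) * (speP q D1 x).a3
  a4 := x.a4 + (c + 1) * (speP q D1 x).a4
  a5 := x.a5 + (c + 1) * (speP q D1 x).a5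
  a6 := x.a6 + (c + 1) * (speP q D1 x).a6
  a7 := x.a7

/-- `H_v'(c)` -/
def speY (q D1 D2 c : K) (x : V8 K) : V8 K where
  a0 := x.a0
  a1 := x.a1 + (c ^ 2 + 1) * speB' D1 D2 x + (c + 1) * (speP' D1 x).a1
  a2 := x.a2 + (c + 1) * (speP' D1 x).a2
  a3 := x.a3 + (c⁻¹ + 1) * speO' q x
  a4 := x.a4 + (c + 1) * (speP' D1 x).a4
  a5 := x.a5 + (c + 1) * (speP' D1 x).a5
  a6 := x.a6
  a7 := x.a7 + (c + 1) * (speP' D1 x).a7

/-- action of a word, the head acts first -/
def speRun (q D1 D2 : K) : List (Bool × K) → V8 K → V8 K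
  | [], x => x
  | (b, c) :: l, x => speRun q D1 D2 l (if b then speY q D1 D2 c x else speX q D1 D2 c x)

/-- `x = g v`, `y = g x*`: `α = speB x` is the coefficient of `v`,
`speO' (speP x)` a functional of the weight one part, `speO' x + speO' (speP x) + α` a functional
of the weight zero part -/
def speViol (q D1 D2 : K) (x y : V8 K) : Prop :=
  speO q x = 0 ∧
    ((speB q D1 D2 x ≠ 0 ∧ (speO' q (speP q D1 x) ≠ 0 ∨
        speO' q x + speO' q (speP q D1 x) + speB q D1 D2 x ≠ 0 ∨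
        speB q D1 D2 y ≠ 0 ∨ speO' q y ≠ q * speO q y)) ∨
      (speO' q (speP q D1 x) ≠ 0 ∧
        speO' q x + speO' q (speP q D1 x) + speB q D1 D2 x ≠ 0))

end Pool.Agent.H26.E2
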