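import Pool.Agent.H26.E2.CertS
import Pool.Agent.H26.E2.CertD

/-!
# E_8(8), theorem FF: the three finite certificates

`K` a field with 8 elements.  See `Cert` for the definitions.  (helper25)
-/

namespace Pool.Agent.H26.E2

open Pool.Agent.H27.Q8

namespace CW

variable {K : Type} [Field K] {z : K}

theorem bit_of_land {a b i : ℕ} (h : Nat.land a b = 0) (ha : a.testBit i = true) :
    b.testBit i = false := by
  have e := and_bit a b i
  rw [h, Nat.zero_testBit, ha, Bool.true_and] at e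
  exact e.symm

theorem nz_of_land {a b n i : ℕ} (h : Nat.land a b = mask n) (hi : i < 2 ^ n) :
    a.testBit i = true ∧ b.testBit i = true := by
  have e := and_bit a b i
  rw [h, testBit_mask hi] at e
  simpa using e.symm

theorem oneW_bit {n i : ℕ} (hi : i < 2 ^ n) : (oneW n).a.testBit i = true := by
  rw [oneW]
  exact testBit_mask hi

theorem ev_oneW {n i : ℕ} (hi : i < 2 ^ n) : (oneW n).ev z i = 1 := by
  rw [oneW]
  exact ev_one i _ (testBit_mask hi)

theorem digit0 {a b c : ℕ} (ha : a < 8) (hb : b < 8) (hc : c < 8) :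
    (a + 8 * b + 64 * c) / 8 ^ 0 % 8 = a ∧ (a + 8 * b + 64 * c) / 8 ^ 1 % 8 = b ∧
      (a + 8 * b + 64 * c) / 8 ^ 2 % 8 = c ∧ a + 8 * b + 64 * c < 2 ^ 9 := by
  norm_num
  omega

theorem symM_bit {m : ℕ} (h : Gen z) (h1 : (vr 6 0).ev z m ≠ 0)
    (h2 : ¬ ((vr 6 0).ev z m = (oneW 6).ev z m ∧ (vr 6 1).ev z m = 0)) :
    symM.testBit m = true := by
  unfold symM
  generalize vr 6 0 = x at *
  generalize vr 6 1 = y at *
  generalize oneW 6 = o at *
  rw [and_bit, or_bit, Bool.and_eq_true, Bool.or_eq_true, nz_true h, nz_add_true h, nz_true h]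
  refine ⟨h1, ?_⟩
  by_contra hc
  push Not at hc
  exact h2 hc

theorem speM_bit {m : ℕ} (h : Gen z) (h1 : (vr 9 0).ev z m ≠ 0)
    (h2 : ¬ ((vr 9 0).ev z m = (oneW 9).ev z m ∧ (vr 9 1).ev z m = 0 ∧ (vr 9 2).ev z m = 0)) :
    speM.testBit m = true := by
  unfold speM
  generalize vr 9 0 = x at *
  generalize vr 9 1 = y at *
  generalize vr 9 2 = t at *
  generalize oneW 9 = o at *
  rw [and_bit, or_bit, or_bit, Bool.and_eq_true, Bool.or_eq_true, Bool.or_eq_true, nz_true h,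
    nz_add_true h, nz_true h, nz_true h]
  refine ⟨h1, ?_⟩
  by_contra hc
  push Not at hc
  exact h2 hc

theorem run7 (h : Gen z) (i : ℕ) (one q D1 D2 c1 c2 c3 c4 c5 c6 c7 : W) (x : V8 W)
    (h1 : one.ev z i = 1) (p8 : ∀ x : K, x ^ 8 = x) (n1 : c1.ev z i ≠ 0) (n2 : c2.ev z i ≠ 0)
    (n3 : c3.ev z i ≠ 0) (n4 : c4.ev z i ≠ 0) (n5 : c5.ev z i ≠ 0) (n6 : c6.ev z i ≠ 0)
    (n7 : c7.ev z i ≠ 0) :
    ev8 z i (pY one q D1 D2 c7 (pX one q D1 D2 c6 (pY one q D1 D2 c5 (pX one q D1 D2 c4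
      (pY one q D1 D2 c3 (pX one q D1 D2 c2 (pY one q D1 D2 c1 x))))))) =
    speRun (q.ev z i) (D1.ev z i) (D2.ev z i) [(true, c1.ev z i), (false, c2.ev z i),
      (true, c3.ev z i), (false, c4.ev z i), (true, c5.ev z i), (false, c6.ev z i),
      (true, c7.ev z i)] (ev8 z i x) := by
  rw [ev_pY h _ _ _ _ _ _ _ h1 n7 (p8 _), ev_pX h _ _ _ _ _ _ _ h1 n6 (p8 _),
    ev_pY h _ _ _ _ _ _ _ h1 n5 (p8 _), ev_pX h _ _ _ _ _ _ _ h1 n4 (p8 _),
    ev_pY h _ _ _ _ _ _ _ h1 n3 (p8 _), ev_pX h _ _ _ _ _ _ _ h1 n2 (p8 _),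
    ev_pY h _ _ _ _ _ _ _ h1 n1 (p8 _)]
  simp only [speRun, if_true, Bool.false_eq_true, if_false]

end CW

open CW

attribute [local irreducible] vr mask oneW W.nz W.add W.mul

variable {K : Type} [Field K]

theorem col_cert (hK : Nat.card K = 8) (q : K) (hq : q ≠ 0) (hq1 : q ≠ 1) :
    ∃ l : List (Bool × K), (∀ t ∈ l, t.2 ≠ 0) ∧
      colViol q (colRun q l (1, 0)) (colRun q l (q, 1)) := by
  obtain ⟨z, h⟩ := exists_gen hK
  obtain ⟨m, hm, rfl⟩ := dec_surj hK h q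
  have hi : m < 2 ^ 3 := hm
  have hv : (vr 3 0).ev z m = dec z m := by
    rw [ev_vr (by norm_num) hi]
    congr 1
    omega
  have h1 : (oneW 3).ev z m = 1 := ev_oneW hi
  have hM : colM.testBit m = true := by
    rw [colM, and_bit, Bool.and_eq_true, nz_true h, nz_add_true h, hv, h1]
    exact ⟨hq, hq1⟩
  have hv2 := cBad_sound h m _ _ _ _ (testBit_mask hi) (bit_of_land col_chk hM)
  obtain ⟨n1, n2⟩ := nz_of_land col_nz hi
  rw [and_bit, Bool.and_eq_true] at n2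
  rw [nz_true h] at n1
  rw [nz_true h, nz_true h] at n2
  refine ⟨[(true, colH1.ev z m), (false, colH2.ev z m), (true, colH3.ev z m)], ?_, ?_⟩
  · intro t ht
    simp only [List.mem_cons, List.not_mem_nil, or_false] at ht
    rcases ht with rfl | rfl | rfl
    · exact n1
    · exact n2.1
    · exact n2.2
  · have key : ∀ x : W × W, ((colF x).1.ev z m, (colF x).2.ev z m) =
        colRun (dec z m) [(true, colH1.ev z m), (false, colH2.ev z m), (true, colH3.ev z m)]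
          (x.1.ev z m, x.2.ev z m) := by
      intro x
      rw [colF, ev_cY h, ev_cX h, ev_cY h, hv]
      rfl
    rw [key, key, hv, h1, ev_zero] at hv2
    exact hv2

theorem sym_cert (hK : Nat.card K = 8) (q d : K) (hq : q ≠ 0) (h1 : ¬ (q = 1 ∧ d = 0)) :
    ∃ l : List (Bool × K), (∀ t ∈ l, t.2 ≠ 0) ∧
      symViol q d (symRun q d l ⟨1, 0, 0, 0⟩) (symRun q d l ⟨0, 1, 0, 0⟩) := by
  obtain ⟨z, h⟩ := exists_gen hK
  obtain ⟨a, ha, rfl⟩ := dec_surj hK h q
  obtain ⟨b, hb, rfl⟩ := dec_surj hK h d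
  have hi : a + 8 * b < 2 ^ 6 := by norm_num; omega
  set m := a + 8 * b with hm
  have ma : m / 8 ^ 0 % 8 = a := by norm_num; omega
  have mb : m / 8 ^ 1 % 8 = b := by norm_num; omega
  have hv0 : (vr 6 0).ev z m = dec z a := by rw [ev_vr (by norm_num) hi, ma]
  have hv1 : (vr 6 1).ev z m = dec z b := by rw [ev_vr (by norm_num) hi, mb]
  have ho : (oneW 6).ev z m = 1 := ev_oneW hi
  have hM : symM.testBit m = true := symM_bit h (by rwa [hv0]) (by rwa [hv0, hv1, ho])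
  have hv2 := sBad_sound h m _ _ _ _ _ (testBit_mask hi) (bit_of_land sym_chk hM)
  obtain ⟨n1, n2⟩ := nz_of_land sym_nz hi
  simp only [and_bit, Bool.and_eq_true, nz_true h] at n1 n2
  refine ⟨[(true, symH1.ev z m), (false, symH2.ev z m), (true, symH3.ev z m),
    (false, symH4.ev z m), (true, symH5.ev z m)], ?_, ?_⟩
  · intro t ht
    simp only [List.mem_cons, List.not_mem_nil, or_false] at ht
    rcases ht with rfl | rfl | rfl | rfl | rfl
    · exact n1
    · exact n2.1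
    · exact n2.2.1
    · exact n2.2.2.1
    · exact n2.2.2.2
  · have key : ∀ x : V4 W, ev4 z m (symF x) = symRun (dec z a) (dec z b)
        [(true, symH1.ev z m), (false, symH2.ev z m), (true, symH3.ev z m),
          (false, symH4.ev z m), (true, symH5.ev z m)] (ev4 z m x) := by
      intro x
      rw [symF, ev_sY h _ _ _ _ _ _ ho, ev_sX h _ _ _ _ _ _ ho, ev_sY h _ _ _ _ _ _ ho,
        ev_sX h _ _ _ _ _ _ ho, ev_sY h _ _ _ _ _ _ ho, hv0, hv1]
      rfl
    rw [key, key, hv0, hv1] at hv2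
    simp only [ev4, ho, ev_zero] at hv2
    exact hv2

theorem spe_cert (hK : Nat.card K = 8) (q D1 D2 : K) (hq : q ≠ 0)
    (h1 : ¬ (q = 1 ∧ D1 = 0 ∧ D2 = 0)) :
    ∃ l : List (Bool × K), (∀ t ∈ l, t.2 ≠ 0) ∧
      speViol q D1 D2 (speRun q D1 D2 l ⟨1, 0, 0, 0, 0, 0, 0, 0⟩)
        (speRun q D1 D2 l ⟨0, 0, 1, 0, 0, 0, 0, 0⟩) := by
  obtain ⟨z, h⟩ := exists_gen hK
  obtain ⟨a, ha, rfl⟩ := dec_surj hK h q
  obtain ⟨b, hb, rfl⟩ := dec_surj hK h D1
  obtain ⟨c, hc, rfl⟩ := dec_surj hK h D2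
  obtain ⟨m, ma, mb, mc, hi⟩ : ∃ m : ℕ, m / 8 ^ 0 % 8 = a ∧ m / 8 ^ 1 % 8 = b ∧
      m / 8 ^ 2 % 8 = c ∧ m < 2 ^ 9 := ⟨_, digit0 ha hb hc⟩
  have hv0 : (vr 9 0).ev z m = dec z a := by rw [ev_vr (by norm_num) hi, ma]
  have hv1 : (vr 9 1).ev z m = dec z b := by rw [ev_vr (by norm_num) hi, mb]
  have hv2 : (vr 9 2).ev z m = dec z c := by rw [ev_vr (by norm_num) hi, mc]
  have ho : (oneW 9).ev z m = 1 := ev_oneW hi
  have hM : speM.testBit m = true := speM_bit h (by rwa [hv0]) (by rwa [hv0, hv1, hv2, ho])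
  have ho' : (oneW 9).a.testBit m = true := oneW_bit hi
  have hb := bit_of_land spe_chk hM
  have hs := pBad_sound h m _ _ _ _ _ _ ho ho' hb
  obtain ⟨n1, n2⟩ := nz_of_land (n := 9) spe_nz hi
  simp only [and_bit, Bool.and_eq_true, nz_true h] at n1 n2
  obtain ⟨n2, n3, n4, n5, n6, n7⟩ := n2
  have p8 : ∀ x : K, x ^ 8 = x := pow8 hK
  refine ⟨[(true, speH1.ev z m), (false, speH2.ev z m), (true, speH3.ev z m),
    (false, speH4.ev z m), (true, speH5.ev z m), (false, speH6.ev z m),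
    (true, speH7.ev z m)], ?_, ?_⟩
  · intro t ht
    simp only [List.mem_cons, List.not_mem_nil, or_false] at ht
    rcases ht with rfl | rfl | rfl | rfl | rfl | rfl | rfl <;> assumption
  · have key : ∀ x : V8 W, ev8 z m (speF x) = speRun (dec z a) (dec z b) (dec z c)
        [(true, speH1.ev z m), (false, speH2.ev z m), (true, speH3.ev z m),
          (false, speH4.ev z m), (true, speH5.ev z m), (false, speH6.ev z m),
          (true, speH7.ev z m)] (ev8 z m x) := by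
      intro x
      rw [speF, run7 h m _ _ _ _ _ _ _ _ _ _ _ _ ho p8 n1 n2 n3 n4 n5 n6 n7, hv0, hv1, hv2]
    have e0 : ev8 z m ⟨oneW 9, zero, zero, zero, zero, zero, zero, zero⟩ =
        (⟨1, 0, 0, 0, 0, 0, 0, 0⟩ : V8 K) := by
      simp only [ev8, ho, ev_zero]
    have e1 : ev8 z m ⟨zero, zero, oneW 9, zero, zero, zero, zero, zero⟩ =
        (⟨0, 0, 1, 0, 0, 0, 0, 0⟩ : V8 K) := by
      simp only [ev8, ho, ev_zero]
    rw [key, key, hv0, hv1, hv2, e0, e1] at hs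
    exact hs

end Pool.Agent.H26.E2
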