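import Pool.Agent.H26.E2.CertW

/-!
# E_8(8), theorem FF: evaluation of the bit-sliced modules (helper25)
-/

namespace Pool.Agent.H26.E2

open Pool.Agent.H27.Q8

namespace CW

variable {K : Type} [Field K] {z : K}

theorem and_bit (m n i : ℕ) : (Nat.land m n).testBit i = (m.testBit i && n.testBit i) :=
  Nat.testBit_and m n i

theorem or_bit (m n i : ℕ) : (Nat.lor m n).testBit i = (m.testBit i || n.testBit i) :=
  Nat.testBit_or m n i

theorem xor_bit (m n i : ℕ) : (Nat.xor m n).testBit i = (m.testBit i ^^ n.testBit i) :=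
  Nat.testBit_xor m n i

theorem ev_zero (i : ℕ) : zero.ev z i = 0 := by
  simp [zero, W.ev]

theorem ev_inv (h : Gen z) (i : ℕ) (c : W) (hc : c.ev z i ≠ 0) (h8 : (c.ev z i) ^ 8 = c.ev z i) :
    (inv c).ev z i = (c.ev z i)⁻¹ := by
  rw [inv, ev_mul h, ev_sq h, ev_sq h, ev_sq h]
  refine (inv_eq_of_mul_eq_one_right ?_).symm
  have : c.ev z i * (c.ev z i ^ 7 - 1) = 0 := by linear_combination h8
  rcases mul_eq_zero.1 this with h0 | h0
  · exact absurd h0 hc
  · linear_combination h0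

theorem two_add (h : Gen z) (x : K) : x + x = 0 := by
  linear_combination x * h.two

theorem nz_true (h : Gen z) (i : ℕ) (x : W) : x.nz.testBit i = true ↔ x.ev z i ≠ 0 := by
  rw [Ne, ev_eq_zero h, Bool.not_eq_false]

theorem nz_add_true (h : Gen z) (i : ℕ) (x y : W) :
    (x.add y).nz.testBit i = true ↔ x.ev z i ≠ y.ev z i := by
  rw [nz_true h, ev_add h, Ne, Ne, not_iff_not]
  constructor
  · intro e
    linear_combination e - two_add h (y.ev z i)
  · intro e
    rw [e]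
    exact two_add h _

/-! ### collinear module -/

theorem ev_cX (h : Gen z) (i : ℕ) (q c : W) (x : W × W) :
    (((cX q c x).1).ev z i, ((cX q c x).2).ev z i) =
      colX (q.ev z i) (c.ev z i) (x.1.ev z i, x.2.ev z i) := by
  simp only [cX, colX, ev_add h, ev_mul h, ev_sq h]

theorem ev_cY (h : Gen z) (i : ℕ) (c : W) (x : W × W) :
    (((cY c x).1).ev z i, ((cY c x).2).ev z i) =
      colY (c.ev z i) (x.1.ev z i, x.2.ev z i) := by
  simp only [cY, colY, ev_add h, ev_mul h, ev_sq h]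

theorem cBad_sound (h : Gen z) (i : ℕ) (q : W) (one : ℕ) (x y : W × W)
    (h1 : one.testBit i = true) (hb : (cBad q one x y).testBit i = false) :
    colViol (q.ev z i) (x.1.ev z i, x.2.ev z i) (y.1.ev z i, y.2.ev z i) := by
  simp only [cBad, or_bit, xor_bit, h1, Bool.or_eq_false_iff, Bool.true_bne,
    Bool.not_eq_false'] at hb
  obtain ⟨ha, hc⟩ := hb
  rw [← ev_eq_zero h] at ha
  rw [nz_add_true h, ev_mul h] at hc
  exact ⟨ha, hc⟩

/-! ### symplectic module -/

/-- the `i`-th entry -/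
def ev4 (z : K) (i : ℕ) (x : V4 W) : V4 K := ⟨x.a0.ev z i, x.a1.ev z i, x.a2.ev z i, x.a3.ev z i⟩

theorem ev_sX (h : Gen z) (i : ℕ) (one q d c : W) (x : V4 W) (h1 : one.ev z i = 1) :
    ev4 z i (sX one q d c x) = symX (q.ev z i) (d.ev z i) (c.ev z i) (ev4 z i x) := by
  simp only [sX, symX, ev4, ev_add h, ev_mul h, ev_sq h, h1]

theorem ev_sY (h : Gen z) (i : ℕ) (one q d c : W) (x : V4 W) (h1 : one.ev z i = 1) :
    ev4 z i (sY one q d c x) = symY (q.ev z i) (d.ev z i) (c.ev z i) (ev4 z i x) := by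
  simp only [sY, symY, ev4, ev_add h, ev_mul h, ev_sq h, h1]

theorem sBad_sound (h : Gen z) (i : ℕ) (q d : W) (one : ℕ) (x y : V4 W)
    (h1 : one.testBit i = true) (hb : (sBad q d one x y).testBit i = false) :
    symViol (q.ev z i) (d.ev z i) (ev4 z i x) (ev4 z i y) := by
  simp only [sBad, or_bit, xor_bit, h1, Bool.or_eq_false_iff, Bool.not_eq_false', Bool.true_xor,
    Bool.or_eq_true, nz_add_true h] at hb
  simp only [nz_true h, ← ev_eq_zero h, sBv, sBw, sBv', sBw', ev_add h, ev_mul h] at hb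
  exact hb

/-! ### special module -/

/-- the `i`-th entry -/
def ev8 (z : K) (i : ℕ) (x : V8 W) : V8 K :=
  ⟨x.a0.ev z i, x.a1.ev z i, x.a2.ev z i, x.a3.ev z i, x.a4.ev z i, x.a5.ev z i, x.a6.ev z i,
    x.a7.ev z i⟩

theorem ev_pO (h : Gen z) (i : ℕ) (q : W) (x : V8 W) :
    (pO q x).ev z i = speO (q.ev z i) (ev8 z i x) := by
  simp only [pO, speO, ev8, ev_add h, ev_mul h]

theorem ev_pO' (h : Gen z) (i : ℕ) (q : W) (x : V8 W) :
    (pO' q x).ev z i = speO' (q.ev z i) (ev8 z i x) := by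
  simp only [pO', speO', ev8, ev_add h, ev_mul h]

theorem ev_pB (h : Gen z) (i : ℕ) (q D1 D2 : W) (x : V8 W) :
    (pB q D1 D2 x).ev z i = speB (q.ev z i) (D1.ev z i) (D2.ev z i) (ev8 z i x) := by
  simp only [pB, speB, ev8, ev_add h, ev_mul h]

theorem ev_pB' (h : Gen z) (i : ℕ) (D1 D2 : W) (x : V8 W) :
    (pB' D1 D2 x).ev z i = speB' (D1.ev z i) (D2.ev z i) (ev8 z i x) := by
  simp only [pB', speB', ev8, ev_add h, ev_mul h]

theorem ev_pP (h : Gen z) (i : ℕ) (one q D1 : W) (x : V8 W) (h1 : one.ev z i = 1) :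
    ev8 z i (pP one q D1 x) = speP (q.ev z i) (D1.ev z i) (ev8 z i x) := by
  simp only [pP, speP, ev8, ev_add h, ev_mul h, h1, ev_zero]

theorem ev_pP' (h : Gen z) (i : ℕ) (one D1 : W) (x : V8 W) (h1 : one.ev z i = 1) :
    ev8 z i (pP' one D1 x) = speP' (D1.ev z i) (ev8 z i x) := by
  simp only [pP', speP', ev8, ev_add h, ev_mul h, h1, ev_zero]

theorem ev_pX (h : Gen z) (i : ℕ) (one q D1 D2 c : W) (x : V8 W) (h1 : one.ev z i = 1)
    (hc : c.ev z i ≠ 0) (h8 : (c.ev z i) ^ 8 = c.ev z i) :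
    ev8 z i (pX one q D1 D2 c x) =
      speX (q.ev z i) (D1.ev z i) (D2.ev z i) (c.ev z i) (ev8 z i x) := by
  rw [speX, ← ev_pP h i one q D1 x h1, ← ev_pB h, ← ev_pO h]
  simp only [pX, ev8, ev_add h, ev_mul h, ev_sq h, h1, ev_inv h i c hc h8]

theorem ev_pY (h : Gen z) (i : ℕ) (one q D1 D2 c : W) (x : V8 W) (h1 : one.ev z i = 1)
    (hc : c.ev z i ≠ 0) (h8 : (c.ev z i) ^ 8 = c.ev z i) :
    ev8 z i (pY one q D1 D2 c x) =
      speY (q.ev z i) (D1.ev z i) (D2.ev z i) (c.ev z i) (ev8 z i x) := by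
  rw [speY, ← ev_pP' h i one D1 x h1, ← ev_pB' h, ← ev_pO' h]
  simp only [pY, ev8, ev_add h, ev_mul h, ev_sq h, h1, ev_inv h i c hc h8]

theorem pBad_sound (h : Gen z) (i : ℕ) (one q D1 D2 : W) (x y : V8 W)
    (h1 : one.ev z i = 1) (h1' : one.a.testBit i = true)
    (hb : (pBad one q D1 D2 x y).testBit i = false) :
    speViol (q.ev z i) (D1.ev z i) (D2.ev z i) (ev8 z i x) (ev8 z i y) := by
  simp only [pBad, or_bit, xor_bit, and_bit, h1', Bool.or_eq_false_iff, Bool.not_eq_false',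
    Bool.true_xor, Bool.or_eq_true, Bool.and_eq_true] at hb
  rw [nz_add_true h i (pO' q y)] at hb
  simp only [nz_true h, ← ev_eq_zero h, ev_add h, ev_mul h, ev_pO h, ev_pO' h, ev_pB h,
    ev_pP h i one q D1 x h1] at hb
  exact hb

end CW

end Pool.Agent.H26.E2
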