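import Pool.Agent.H26.E2.Cert
import Pool.Agent.H27.Q8.EvS
import Pool.Agent.H27.Q8.Pl

/-!
# E_8(8), theorem FF: bit-sliced versions of the three modules (helper25)

All parameters are treated at once: an element of `W` is a vector of elements of `F_8`, the `i`-th
entry belongs to the `i`-th tuple of parameters (`q`, `q, d` or `q, D1, D2`, three bits each).
The letters of the words are vectors too (different words for different parameters).
-/

namespace Pool.Agent.H26.E2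

open Pool.Agent.H27.Q8

namespace CW


/-- `c⁻¹ = c^2 c^4` -/
def inv (c : W) : W := W.mul (W.sq c) (W.sq (W.sq c))

/-! ### collinear module -/

def cX (q c : W) (x : W × W) : W × W :=
  (W.add (W.mul (W.sq c) x.1) (W.mul (W.mul (W.add (W.sq c) c) q) x.2), W.mul c x.2)

def cY (c : W) (x : W × W) : W × W :=
  (W.mul c x.1, W.add (W.mul (W.sq c) x.2) (W.mul (W.add (W.sq c) c) x.1))

/-- bits: no violation -/
def cBad (q : W) (one : Nat) (x y : W × W) : Nat :=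
  Nat.lor (W.nz x.2) (Nat.xor one (W.nz (W.add y.1 (W.mul q y.2))))

/-! ### symplectic module -/

def sX (one q d c : W) (x : V4 W) : V4 W where
  a0 := W.add (W.add (W.mul (W.sq c) x.a0) (W.mul (W.mul (W.add (W.sq c) c) q) x.a2)) (W.mul (W.mul (W.add (W.sq c) c) d) x.a3)
  a1 := W.add (W.add x.a1 (W.mul (W.add one c) x.a2)) (W.mul (W.add one c) x.a3)
  a2 := W.mul c x.a2
  a3 := W.mul c x.a3

def sY (one q d c : W) (x : V4 W) : V4 W where
  a0 := W.mul c x.a0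
  a1 := W.mul c x.a1
  a2 := W.add (W.add (W.mul (W.sq c) x.a2) (W.mul (W.add (W.sq c) c) x.a0)) (W.mul (W.mul (W.add (W.sq c) c) d) x.a1)
  a3 := W.add (W.add x.a3 (W.mul (W.add one c) x.a0)) (W.mul (W.mul (W.add one c) q) x.a1)

def sBv (x : V4 W) : W := W.add (W.add x.a1 x.a2) x.a3
def sBw (q d : W) (x : V4 W) : W := W.add (W.add x.a0 (W.mul q x.a2)) (W.mul d x.a3)
def sBv' (q : W) (x : V4 W) : W := W.add (W.add x.a0 (W.mul q x.a1)) x.a3
def sBw' (d : W) (x : V4 W) : W := W.add (W.add x.a0 (W.mul d x.a1)) x.a2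

/-- bits: no violation -/
def sBad (q d : W) (one : Nat) (x y : V4 W) : Nat :=
  Nat.lor (W.nz (sBv x)) (Nat.lor (Nat.xor one (W.nz (sBw q d x)))
    (Nat.xor one (Nat.lor (W.nz (W.add (sBv' q x) (sBw q d x))) (Nat.lor (W.nz (W.add (sBw' d x) (sBw q d x)))
      (Nat.lor (W.nz (sBw q d y)) (Nat.lor (W.nz (W.add (sBv' q y) (W.mul q (sBv y))))
        (W.nz (W.add (sBw' d y) (W.mul d (sBv y))))))))))

/-! ### special module -/

def pO (q : W) (x : V8 W) : W := W.add (W.add (W.add (W.add x.a1 x.a2) x.a3) x.a5) (W.mul q x.a7)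
def pO' (q : W) (x : V8 W) : W := W.add (W.add (W.add (W.add x.a0 (W.mul q x.a2)) x.a3) (W.mul q x.a4)) (W.mul q x.a6)
def pB (q D1 D2 : W) (x : V8 W) : W :=
  W.add (W.add (W.add (W.add x.a0 (W.mul q x.a1)) (W.mul D2 x.a3)) (W.mul (W.add D1 D2) x.a5)) (W.mul (W.mul q (W.add D1 D2)) x.a7)
def pB' (D1 D2 : W) (x : V8 W) : W :=
  W.add (W.add (W.add (W.add x.a0 x.a1) (W.mul D2 x.a2)) (W.mul (W.add D1 D2) x.a4)) (W.mul (W.add D1 D2) x.a6)

def zero : W := ⟨0, 0, 0⟩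

def pP (one q D1 : W) (x : V8 W) : V8 W where
  a0 := W.add (W.mul D1 x.a3) (W.mul (W.mul q D1) x.a7)
  a1 := zero
  a2 := zero
  a3 := W.add x.a3 (W.mul q x.a7)
  a4 := W.add (W.add x.a1 x.a4) (W.mul (W.add one D1) x.a7)
  a5 := W.add x.a3 (W.mul q x.a7)
  a6 := W.add (W.add (W.add x.a3 x.a5) x.a6) (W.mul q x.a7)
  a7 := zero

def pP' (one D1 : W) (x : V8 W) : V8 W where
  a0 := zero
  a1 := W.add (W.mul D1 x.a2) (W.mul D1 x.a6)
  a2 := W.add x.a2 x.a6
  a3 := zero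
  a4 := W.add x.a2 x.a6
  a5 := W.add (W.add x.a0 x.a5) (W.mul (W.add one D1) x.a6)
  a6 := zero
  a7 := W.add (W.add (W.add x.a2 x.a4) x.a6) x.a7

def pX (one q D1 D2 c : W) (x : V8 W) : V8 W where
  a0 := W.add (W.add x.a0 (W.mul (W.add (W.sq c) one) (pB q D1 D2 x))) (W.mul (W.add c one) (pP one q D1 x).a0)
  a1 := x.a1
  a2 := W.add x.a2 (W.mul (W.add (inv c) one) (pO q x))
  a3 := W.add x.a3 (W.mul (W.add c one) (pP one q D1 x).a3)
  a4 := W.add x.a4 (W.mul (W.add c one) (pP one q D1 x).a4)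
  a5 := W.add x.a5 (W.mul (W.add c one) (pP one q D1 x).a5)
  a6 := W.add x.a6 (W.mul (W.add c one) (pP one q D1 x).a6)
  a7 := x.a7

def pY (one q D1 D2 c : W) (x : V8 W) : V8 W where
  a0 := x.a0
  a1 := W.add (W.add x.a1 (W.mul (W.add (W.sq c) one) (pB' D1 D2 x))) (W.mul (W.add c one) (pP' one D1 x).a1)
  a2 := W.add x.a2 (W.mul (W.add c one) (pP' one D1 x).a2)
  a3 := W.add x.a3 (W.mul (W.add (inv c) one) (pO' q x))
  a4 := W.add x.a4 (W.mul (W.add c one) (pP' one D1 x).a4)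
  a5 := W.add x.a5 (W.mul (W.add c one) (pP' one D1 x).a5)
  a6 := x.a6
  a7 := W.add x.a7 (W.mul (W.add c one) (pP' one D1 x).a7)

/-- bits: no violation -/
def pBad (one q D1 D2 : W) (x y : V8 W) : Nat :=
  Nat.lor (W.nz (pO q x)) (Nat.xor one.a (Nat.lor
    (Nat.land (W.nz (pB q D1 D2 x)) (Nat.lor (W.nz (pO' q (pP one q D1 x)))
      (Nat.lor (W.nz (W.add (W.add (pO' q x) (pO' q (pP one q D1 x))) (pB q D1 D2 x)))
        (Nat.lor (W.nz (pB q D1 D2 y)) (W.nz (W.add (pO' q y) (W.mul q (pO q y))))))))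
    (Nat.land (W.nz (pO' q (pP one q D1 x)))
      (W.nz (W.add (W.add (pO' q x) (pO' q (pP one q D1 x))) (pB q D1 D2 x))))))

end CW

end Pool.Agent.H26.E2
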