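import Pool.Agent.H26.E2.FPS

/-!
# E2-07: words

`ru br B v w v' w' l`: the group element of a word `l : List (Bool × K)`, the head acts first:
`(false, c)` is `te v w c`, `(true, c)` is `te v' w' c`.

* `ru_mem`: in `F`.
* `ru_real`: if `M` is any type of coordinates, `Rel : M → L → Prop` a relation, `act` a
  coordinate action of letters compatible with `Rel`, then `Rel (run l x) (ru l y)`.
-/

namespace Pool.Agent.H26.E2

variable {K L : Type} [Field K] [AddCommGroup L] [Module K L]

/-- the group element of a word -/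
noncomputable def ru (br : L →ₗ[K] L →ₗ[K] L) (B : L →ₗ[K] L →ₗ[K] K) (v w v' w' : L) :
    List (Bool × K) → (L ≃ₗ[K] L)
  | [] => 1
  | (b, c) :: l => ru br B v w v' w' l * (if b then te br B v' w' c else te br B v w c)

variable {br : L →ₗ[K] L →ₗ[K] L} {B : L →ₗ[K] L →ₗ[K] K} {F : Subgroup (L ≃ₗ[K] L)}
  {FP : L → L → Prop} {v w v' w' : L}

theorem ru_mem (A : FPS br B F FP) (h : FP v w) (h' : FP v' w') (l : List (Bool × K))
    (hl : ∀ t ∈ l, t.2 ≠ 0) : ru br B v w v' w' l ∈ F := by
  induction l with
  | nil => exact F.one_mem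
  | cons t l ih =>
    obtain ⟨b, c⟩ := t
    have hc : c ≠ 0 := hl (b, c) List.mem_cons_self
    have ih' := ih (fun t ht => hl t (List.mem_cons_of_mem _ ht))
    show ru br B v w v' w' l * (if b then te br B v' w' c else te br B v w c) ∈ F
    refine F.mul_mem ih' ?_
    cases b with
    | false => exact te_mem A h hc
    | true => exact te_mem A h' hc

theorem ru_real (A : FPS br B F FP) (h : FP v w) (h' : FP v' w') {M : Type}
    (Rel : M → L → Prop) (act : Bool × K → M → M) (run : List (Bool × K) → M → M)
    (hrun0 : ∀ x, run [] x = x) (hrun1 : ∀ t l x, run (t :: l) x = run l (act t x))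
    (h0 : ∀ c : K, c ≠ 0 → ∀ x y, Rel x y → Rel (act (false, c) x) (tr br B v w c y))
    (h1 : ∀ c : K, c ≠ 0 → ∀ x y, Rel x y → Rel (act (true, c) x) (tr br B v' w' c y))
    (l : List (Bool × K)) (hl : ∀ t ∈ l, t.2 ≠ 0) (x : M) (y : L) (hxy : Rel x y) :
    Rel (run l x) (ru br B v w v' w' l y) := by
  induction l generalizing x y with
  | nil =>
    rw [hrun0]
    exact hxy
  | cons t l ih =>
    obtain ⟨b, c⟩ := t
    have hc : c ≠ 0 := hl (b, c) List.mem_cons_self
    have hl' : ∀ t ∈ l, t.2 ≠ 0 := fun t ht => hl t (List.mem_cons_of_mem _ ht)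
    rw [hrun1]
    show Rel (run l (act (b, c) x))
      ((ru br B v w v' w' l * (if b then te br B v' w' c else te br B v w c)) y)
    rw [LinearEquiv.mul_apply]
    refine ih hl' _ _ ?_
    cases b with
    | false =>
      show Rel (act (false, c) x) (te br B v w c y)
      rw [te_apply A h hc]
      exact h0 c hc x y hxy
    | true =>
      show Rel (act (true, c) x) (te br B v' w' c y)
      rw [te_apply A h' hc]
      exact h1 c hc x y hxy

end Pool.Agent.H26.E2
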