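import Pool.Agent.H26.E2.Wt

/-!
# E2-03: identities for two pairs with `[v, v'] = 0`

Notation: `h = [v,w]`, `h' = [v',w']`, `p = B v w'`, `q = B w v'`, `D = B h h'`,
`th v x y = [v,[x,y]] + B v y x + B x y v` (bilinear in `x, y` for fixed `v`),
`w0 = th v v' w`, `v0 = th v v' w'`, `delta = B w v0`.

* `sc_B`: (P2) for `v` with `x = v'`, `y = w`: `0 = B v [w,v'] v + B v v' h`
  (`B v w • [v,v'] = 0`).  Apply `B w`: `B v [w,v'] = 0` (`B w h = 0`, `B w v = 1`), so
  `B v v' • h = 0`, `h ≠ 0`.  `B h v' = B v [w,v'] = 0` (`H.inv`); `B h' v = 0` by symmetry.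
* `th_symm`: `th v v' y = th v' v y`: Jacobi and `[v,v'] = 0`.
* `th_w0 v x`: for `x = w0`: `w0 = [v,[v',w]] + v' + q v` (as `B v w = 1`, `B v' w = q`), so
  `[v,[w0,y]] = [v,[[v,s],y]] + [v,[v',y]]`, `s = [v',w]`, (`[v,[v,y]] = 0`), and
  `[v,[[v,s],y]] = [v,[v,[s,y]]] + [v,[s,[v,y]]] = B v [s,y] v + B v s [v,y] + B v y [v,s]`,
  `B v s = B v [v',w] = B h v' = 0` (up to symmetry), `B v [s,y] = B [v,s] y`.  Sum up:
  `th v w0 y = th v v' y`.
* `th v v0 y = p th v v' y`: `v0 = [v,h'] + p v' + v` and
  `[v,[[v,h'],y]] = B [v,h'] y v + B v h' [v,y] + B v y [v,h']`, `B v h' = 0`.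
* `sc_col`: if `w0 = 0` then `[v,[w,v']] = v' + q v` and for all `y`:
  `[v,[v',y]] = [v,[[v,[w,v']],y]] = B v [x,y] v + B v x [v,y] + B v y [v,x]` with `x = [w,v']`,
  `B v x = 0`, `B v [x,y] = B [v,x] y = B (v' + q v) y`, `[v,x] = v' + q v`: so `th v v' y = 0`.
* the torus: all vectors `x` of `M = <v, w0, v', v0>` satisfy `B v x = 0`, `B h x = 0`,
  `[v,x] = 0`; `[v,[w,v']] = v' + w0 + q v` (definition of `w0`),
  `[v,[w,v0]] = v0 + delta v + p w0` (`th v v0 w = p w0`), `[w,w0] = 0` ((P2) for `w`: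
  `[w,[v,[w,v']]] = B w [v,v'] w + [w,v'] + q h`), `B w w0 = 0`.
-/

namespace Pool.Agent.H26.E2

variable {K L : Type} [Field K] [AddCommGroup L] [Module K L]

/-- the symmetric operator of two commuting extremal elements -/
def th (br : L →ₗ[K] L →ₗ[K] L) (B : L →ₗ[K] L →ₗ[K] K) (v x y : L) : L :=
  br v (br x y) + B v y • x + B x y • v

variable {br : L →ₗ[K] L →ₗ[K] L} {B : L →ₗ[K] L →ₗ[K] K} {v w v' w' : L}

theorem th_add (x x' y : L) : th br B v (x + x') y = th br B v x y + th br B v x' y := by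
  simp only [th, map_add, LinearMap.add_apply, smul_add, add_smul]
  abel

theorem th_smul (a : K) (x y : L) : th br B v (a • x) y = a • th br B v x y := by
  simp only [th, map_smul, LinearMap.smul_apply, smul_eq_mul, smul_add, mul_smul,
    smul_comm (B v y) a x]

theorem th_self (H : LB br B) (P : Ext2 br B v) (y : L) : th br B v v y = 0 := by
  unfold th
  rw [P.p0, zero_add, H.add_self]

private theorem Sc_B1 (H : LB br B) (P : Pair2 br B v w) (hz : br v v' = 0) :
    B v v' = 0 ∧ B (br v w) v' = 0 := by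
  have h1 := P.ev.p2 v' w
  rw [hz, map_zero, map_zero, smul_zero, add_zero] at h1
  have h2 := congrArg (B w) h1
  rw [map_zero, map_add, map_smul, map_smul, P.one' H, H.bsymm w, P.bh' H, smul_zero, add_zero,
    smul_eq_mul, mul_one] at h2
  rw [← h2, zero_smul, zero_add] at h1
  refine ⟨?_, ?_⟩
  · rcases smul_eq_zero.1 h1.symm with h | h
    · exact h
    · exact absurd h P.hne
  · rw [H.inv, ← h2]

theorem sc_B (H : LB br B) (P : Pair2 br B v w) (P' : Pair2 br B v' w') (hz : br v v' = 0) :
    B v v' = 0 ∧ B (br v w) v' = 0 ∧ B (br v' w') v = 0 := by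
  obtain ⟨h1, h2⟩ := Sc_B1 H P hz
  obtain ⟨-, h3⟩ := Sc_B1 H P' (by rw [H.symm]; exact hz)
  exact ⟨h1, h2, h3⟩

theorem th_symm (H : LB br B) (hz : br v v' = 0) (y : L) :
    th br B v v' y = th br B v' v y := by
  have h1 := H.jac v v' y
  rw [hz, map_zero, LinearMap.zero_apply] at h1
  have h2 : br v (br v' y) = br v' (br v y) := by
    rw [H.eq_iff]
    exact h1.symm
  unfold th
  rw [h2]
  abel

private theorem Sc_ad (H : LB br B) (E : Ext2 br B v) (s y : L) (hs : B v s = 0) :
    br v (br (br v s) y) = B (br v s) y • v + B v y • br v s := by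
  rw [H.jac v s y, map_add, E.p0, zero_add, E.p2 y s, hs, zero_smul, add_zero, ← H.inv]

private theorem Sc_w0 (H : LB br B) (P : Pair2 br B v w) :
    th br B v v' w = br v (br v' w) + v' + B w v' • v := by
  unfold th
  rw [P.one, one_smul, H.bsymm v' w]

private theorem Sc_v0 (P' : Pair2 br B v' w') :
    th br B v v' w' = br v (br v' w') + B v w' • v' + v := by
  unfold th
  rw [P'.one, one_smul]

private theorem Sc_add (x x' y : L) : th br B v (x + x') y = th br B v x y + th br B v x' y := by
  simp only [th, map_add, LinearMap.add_apply, smul_add, add_smul]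
  abel

private theorem Sc_smul (a : K) (x y : L) : th br B v (a • x) y = a • th br B v x y := by
  simp only [th, map_smul, LinearMap.smul_apply, smul_eq_mul, smul_add, mul_smul,
    smul_comm (B v y) a x]

private theorem Sc_th_ad (H : LB br B) (E : Ext2 br B v) (s y : L) (hs : B v s = 0) :
    th br B v (br v s) y = 0 := by
  unfold th
  rw [Sc_ad H E s y hs]
  have h1 := H.add_self (B (br v s) y • v)
  have h2 := H.add_self (B v y • br v s)
  calc B (br v s) y • v + B v y • br v s + B v y • br v s + B (br v s) y • v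
      = (B (br v s) y • v + B (br v s) y • v) + (B v y • br v s + B v y • br v s) := by abel
    _ = 0 := by rw [h1, h2, add_zero]

theorem th_w0 (H : LB br B) (P : Pair2 br B v w) (P' : Pair2 br B v' w') (hz : br v v' = 0)
    (y : L) : th br B v (th br B v v' w) y = th br B v v' y := by
  have hs : B v (br v' w) = 0 := by rw [← H.inv, hz, map_zero, LinearMap.zero_apply]
  rw [Sc_w0 H P, Sc_add, Sc_add, Sc_smul, th_self H P.ev, Sc_th_ad H P.ev _ y hs, smul_zero,
    add_zero, zero_add]

theorem th_v0 (H : LB br B) (P : Pair2 br B v w) (P' : Pair2 br B v' w') (hz : br v v' = 0)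
    (y : L) : th br B v (th br B v v' w') y = B v w' • th br B v v' y := by
  have hs : B v (br v' w') = 0 := by
    rw [H.bsymm]
    exact (sc_B H P P' hz).2.2
  rw [Sc_v0 P', Sc_add, Sc_add, Sc_smul, th_self H P.ev, Sc_th_ad H P.ev _ y hs, add_zero,
    zero_add]

/-- the collinear case -/
theorem sc_col (H : LB br B) (P : Pair2 br B v w) (P' : Pair2 br B v' w') (hz : br v v' = 0)
    (h0 : th br B v v' w = 0) (y : L) : th br B v v' y = 0 := by
  rw [← th_w0 H P P' hz y, h0]
  unfold th
  simp

theorem sc_brw (H : LB br B) (P : Pair2 br B v w) (P' : Pair2 br B v' w') (hz : br v v' = 0) :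
    br v (br w v') = v' + th br B v v' w + B w v' • v := by
  rw [Sc_w0 H P, H.symm w v']
  have h1 := H.add_self v'
  have h2 := H.add_self (B w v' • v)
  calc br v (br v' w) = br v (br v' w) + (v' + v') + (B w v' • v + B w v' • v) := by
        rw [h1, h2, add_zero, add_zero]
    _ = v' + (br v (br v' w) + v' + B w v' • v) + B w v' • v := by abel

theorem sc_brw0 (H : LB br B) (P : Pair2 br B v w) (P' : Pair2 br B v' w') (hz : br v v' = 0) :
    br v (br w (th br B v v' w')) = th br B v v' w' + B v w' • th br B v v' w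
      + B w (th br B v v' w') • v := by
  have h1 := th_v0 H P P' hz w
  have h2 : th br B v (th br B v v' w') w = br v (br w (th br B v v' w')) + th br B v v' w' +
      B w (th br B v v' w') • v := by
    rw [Sc_w0 H P, H.symm w]
  rw [h2] at h1
  have h3 := H.add_self (th br B v v' w')
  have h4 := H.add_self (B w (th br B v v' w') • v)
  rw [← h1]
  calc br v (br w (th br B v v' w')) = br v (br w (th br B v v' w')) +
        (th br B v v' w' + th br B v v' w') +
        (B w (th br B v v' w') • v + B w (th br B v v' w') • v) := by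
        rw [h3, h4, add_zero, add_zero]
    _ = _ := by abel

/-- `w0`, `v0` and `v'` are killed by `ad v`, `B v` and `B h` -/
theorem sc_zero (H : LB br B) (P : Pair2 br B v w) (P' : Pair2 br B v' w') (hz : br v v' = 0) :
    (br v (th br B v v' w) = 0 ∧ B v (th br B v v' w) = 0 ∧ B (br v w) (th br B v v' w) = 0) ∧
    (br v (th br B v v' w') = 0 ∧ B v (th br B v v' w') = 0 ∧
      B (br v w) (th br B v v' w') = 0) := by
  have hB := sc_B H P P' hz
  have key : ∀ y, br v (th br B v v' y) = 0 ∧ B v (th br B v v' y) = 0 ∧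
      B (br v w) (th br B v v' y) = 0 := by
    intro y
    unfold th
    refine ⟨?_, ?_, ?_⟩
    · rw [map_add, map_add, P.ev.p0, map_smul, map_smul, hz, H.alt, smul_zero, smul_zero,
        add_zero, add_zero]
    · rw [map_add, map_add, ← H.inv, H.alt, map_smul, map_smul, hB.1, H.balt, smul_zero,
        smul_zero, map_zero, LinearMap.zero_apply, add_zero, add_zero]
    · rw [map_add, map_add, ← H.inv, H.symm (br v w) v, P.brh H, map_smul, map_smul, hB.2.1,
        P.bh H, smul_zero, smul_zero, map_zero, LinearMap.zero_apply, add_zero, add_zero]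
  exact ⟨key w, key w'⟩

theorem sc_w0 (H : LB br B) (P : Pair2 br B v w) (P' : Pair2 br B v' w') (hz : br v v' = 0) :
    br w (th br B v v' w) = 0 ∧ B w (th br B v v' w) = 0 := by
  rw [Sc_w0 H P]
  refine ⟨?_, ?_⟩
  · have h1 := P.ew.p2 v' v
    rw [hz, map_zero, zero_smul, zero_add, P.one' H, one_smul, H.symm w v'] at h1
    rw [map_add, map_add, h1, map_smul]
    have h3 := H.add_self (br v' w)
    have h4 := H.add_self (B w v' • br w v)
    rw [H.symm w v']
    calc br v' w + B w v' • br w v + br v' w + B w v' • br w v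
        = (br v' w + br v' w) + (B w v' • br w v + B w v' • br w v) := by abel
      _ = 0 := by rw [h3, h4, add_zero]
  · have h1 : B w (br v (br v' w)) = 0 := by
      rw [← H.inv, H.symm w v, H.symm v' w, ← H.inv, H.symm (br v w) w, P.brh' H, map_zero,
        LinearMap.zero_apply]
    rw [map_add, map_add, h1, map_smul, P.one' H, smul_eq_mul, mul_one, zero_add, H.add_self']

/-- `B w v0 = B w' w0` -/
theorem sc_delta (H : LB br B) (P : Pair2 br B v w) (P' : Pair2 br B v' w') (hz : br v v' = 0) :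
    B w' (th br B v v' w) = B w (th br B v v' w') := by
  rw [Sc_w0 H P, Sc_v0 P']
  have h1 : B w (br v (br v' w')) = B w' (br v (br v' w)) := by
    have h2 := H.jac w v v'
    rw [hz, map_zero, zero_add] at h2
    rw [← H.inv, ← H.inv, h2, H.symm w v', H.bsymm]
  rw [map_add, map_add, map_add, map_add, h1, map_smul, map_smul, P'.one' H, P.one' H,
    smul_eq_mul, smul_eq_mul, H.bsymm w' v]
  ring

theorem sc_tr_v' (H : LB br B) (P : Pair2 br B v w) (P' : Pair2 br B v' w') (hz : br v v' = 0)
    (c : K) : tr br B v w c v' = c • v' + (1 + c) • th br B v v' w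
      + ((c ^ 2 + c) * B w v') • v := by
  have hB := sc_B H P P' hz
  unfold tr
  rw [hB.1, hB.2.1, hz, map_zero, sc_brw H P P' hz]
  have h2 : ∀ x : L, (2 : K) • x = 0 := fun x => by rw [H.two, zero_smul]
  rw [← sub_eq_zero]
  calc _ = (2 : K) • (v' + (1 + c) • (B w v' • v) - c • (B w v' • v)) := by module
    _ = 0 := h2 _

theorem sc_tr_w0 (H : LB br B) (P : Pair2 br B v w) (P' : Pair2 br B v' w') (hz : br v v' = 0)
    (c : K) : tr br B v w c (th br B v v' w) = th br B v v' w := by
  obtain ⟨⟨h1, h2, h3⟩, -⟩ := sc_zero H P P' hz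
  obtain ⟨h4, h5⟩ := sc_w0 H P P' hz
  unfold tr
  rw [h1, h2, h3, h4, h5]
  simp

theorem sc_tr_v0 (H : LB br B) (P : Pair2 br B v w) (P' : Pair2 br B v' w') (hz : br v v' = 0)
    (c : K) : tr br B v w c (th br B v v' w') = c • th br B v v' w'
      + ((1 + c) * B v w') • th br B v v' w + ((c ^ 2 + c) * B w (th br B v v' w')) • v := by
  obtain ⟨-, ⟨h1, h2, h3⟩⟩ := sc_zero H P P' hz
  unfold tr
  rw [h1, h2, h3, map_zero, sc_brw0 H P P' hz]
  have h2 : ∀ x : L, (2 : K) • x = 0 := fun x => by rw [H.two, zero_smul]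
  rw [← sub_eq_zero]
  calc _ = (2 : K) • (th br B v v' w' + (1 + c) • (B w (th br B v v' w') • v)
        - c • (B w (th br B v v' w') • v)) := by module
    _ = 0 := h2 _

end Pool.Agent.H26.E2
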