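import Pool.Agent.H26.E2.Exc
import Pool.Agent.H26.E2.Run
import Pool.Agent.H26.E2.Sc
import Pool.Agent.H26.E2.CertP

/-!
# E2-09: collinear pairs

`[v,v'] = 0`, `th v v' w = 0`.  Then `th v v' = 0` (`sc_col`), also for the exchanged pairs
(`th_symm`), and by `sc_tr_v'` (for both orders; `p = B v w'`, `q = B w v'`)
`tr v w c v' = c v' + (c² + c) q v`, `tr v' w' c v = c v + (c² + c) p v'`, `tr_v`.

* `v' ∈ K v`: `Cm.of_prop`.  So assume `v, v'` linearly independent.
* `p = 0`: `tr v' w' z v = z v` (`z` a generator, `exists_zeta`), `Cm.of_fix`.  `q = 0`: the same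
  for the exchanged pairs, `Cm.symm`.
* Replace `(v',w')` by `(p v', p⁻¹ w')` (`A.sc`, `Cm.scale`, `th_smul`): `p = 1`.
* `q = 1`: `exc` with `n = 2`, `M 1 = K (v + v')`, `M 2 = <v + v', v>`, scalars `z, z²`:
  both maps send `v + v'` to `z (v + v')`; `tr v w z v = z² v`;
  `tr v' w' z v = z v + (z² + z) v' = z² v + (z² + z)(v + v')`.
* `q ≠ 0, 1`: `col_cert`: word `l`, `g = ru l ∈ F`, `g v = x1 v + x2 v'`, `g (v' + q v) = y1 v + y2 v'`
  with `(x1,x2) = colRun l (1,0)`, `(y1,y2) = colRun l (q,1)` (`ru_real` with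
  `Rel x y := y = x.1 • v + x.2 • v'`), `x2 = 0`, `y1 ≠ q y2`.  `x1 ≠ 0` (`g` injective).  By `v0a`
  `g` commutes with `te v w z`; `te v w z (v' + q v) = z (v' + q v)`, so
  `y = g (v' + q v)` is an eigenvector for `z`: `tr v w z (y1 v + y2 v') =
  z² y1 v + y2 (z v' + (z² + z) q v)`, the coefficient of `v`: `z² y1 + (z² + z) q y2 = z y1`, so
  `y1 = q y2` (`z² ≠ z`).  Contradiction.
-/

namespace Pool.Agent.H26.E2

variable {K L : Type} [Field K] [AddCommGroup L] [Module K L]
variable {br : L →ₗ[K] L →ₗ[K] L} {B : L →ₗ[K] L →ₗ[K] K} {F : Subgroup (L ≃ₗ[K] L)}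
  {FP : L → L → Prop} {v w v' w' : L}

private theorem Col_tr (A : FPS br B F FP) (h : FP v w) (h' : FP v' w') (hz : br v v' = 0)
    (h0 : th br B v v' w = 0) (c : K) :
    tr br B v w c v' = c • v' + ((c ^ 2 + c) * B w v') • v ∧
      tr br B v' w' c v = c • v + ((c ^ 2 + c) * B v w') • v' := by
  have P := A.pair _ _ h
  have P' := A.pair _ _ h'
  have hz' : br v' v = 0 := by rw [A.lb.symm, hz]
  have h0' : th br B v' v w' = 0 := by
    rw [← th_symm A.lb hz, sc_col A.lb P P' hz h0]
  constructor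
  · rw [sc_tr_v' A.lb P P' hz, h0, smul_zero, add_zero]
  · rw [sc_tr_v' A.lb P' P hz', h0', smul_zero, add_zero, A.lb.bsymm w' v]

private theorem Col_sq_ne {z : K} (hz : z ≠ 0) (hz1 : z ≠ 1) (h2 : (2 : K) = 0) :
    z ^ 2 + z ≠ 0 := by
  intro h
  have : z * (z - 1) = 0 := by linear_combination h - z * h2
  rcases mul_eq_zero.mp this with h0 | h0
  · exact hz h0
  · exact hz1 (by linear_combination h0)

/-- the exceptional parameters -/
theorem col_exc (A : FPS br B F FP) (h : FP v w) (h' : FP v' w') (hz : br v v' = 0)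
    (h0 : th br B v v' w = 0) (hp : B v w' = 1) (hq : B w v' = 1) : Cm br B v w v' w' := by
  have P := A.pair _ _ h
  have P' := A.pair _ _ h'
  have := A.lb.charP
  have h2 := A.lb.two
  obtain ⟨z, hz0, hz3, hz7, hzk, hzg⟩ := exists_zeta A.card A.lb.two
  obtain ⟨e1, e2⟩ := Col_tr A h h' hz h0 z
  rw [hq, mul_one] at e1
  rw [hp, mul_one] at e2
  have e3 := tr_v A.lb P z
  have e4 := tr_v A.lb P' z
  have f1 : ∀ a : K, tr br B v w z (a • (v + v')) = (a * z) • (v + v') := by
    intro a
    rw [tr_smul, tr_add, e1, e3]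
    match_scalars <;> grind
  have f2 : ∀ a : K, tr br B v' w' z (a • (v + v')) = (a * z) • (v + v') := by
    intro a
    rw [tr_smul, tr_add, e2, e4]
    match_scalars <;> grind
  refine exc A h h' hz0 hzg
    (fun n => if n = 0 then ⊥ else if n = 1 then Submodule.span K {v + v'}
      else Submodule.span K {v + v', v}) (fun n => if n = 0 then z else z ^ 2) 2 (by norm_num)
    (by simp) ?_ ?_ ?_ ?_ ?_ ?_
  · intro i hi
    interval_cases i
    · simp
    · simp only [one_ne_zero, if_false, if_true]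
      exact Submodule.span_mono (by simp)
  · intro i hi
    interval_cases i
    · simpa using hz0
    · simpa using hz0
  · simp only [OfNat.ofNat_ne_zero, OfNat.ofNat_ne_one, if_false]
    exact Submodule.subset_span (by simp)
  · simp only [OfNat.ofNat_ne_zero, OfNat.ofNat_ne_one, if_false]
    rw [Submodule.mem_span_pair]
    refine ⟨1, 1, ?_⟩
    match_scalars <;> grind
  · intro i hi x hx
    interval_cases i
    · simp only [zero_add, one_ne_zero, if_false, if_true] at hx ⊢
      obtain ⟨a, rfl⟩ := Submodule.mem_span_singleton.mp hx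
      rw [f1, Submodule.mem_bot]
      module
    · simp only [Nat.reduceAdd, OfNat.ofNat_ne_zero, OfNat.ofNat_ne_one, one_ne_zero, if_false,
        if_true] at hx ⊢
      obtain ⟨a, b, rfl⟩ := Submodule.mem_span_pair.mp hx
      rw [Submodule.mem_span_singleton, tr_add, f1, tr_smul, e3]
      exact ⟨a * z - a * z ^ 2, by module⟩
  · intro i hi x hx
    interval_cases i
    · simp only [zero_add, one_ne_zero, if_false, if_true] at hx ⊢
      obtain ⟨a, rfl⟩ := Submodule.mem_span_singleton.mp hx
      rw [f2, Submodule.mem_bot]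
      module
    · simp only [Nat.reduceAdd, OfNat.ofNat_ne_zero, OfNat.ofNat_ne_one, one_ne_zero, if_false,
        if_true] at hx ⊢
      obtain ⟨a, b, rfl⟩ := Submodule.mem_span_pair.mp hx
      rw [Submodule.mem_span_singleton, tr_add, f2, tr_smul, e2]
      refine ⟨a * z - a * z ^ 2 + b * (z ^ 2 + z), ?_⟩
      match_scalars <;> grind

/-- the other parameters -/
theorem col_gen (A : FPS br B F FP) (h : FP v w) (h' : FP v' w') (hz : br v v' = 0)
    (h0 : th br B v v' w = 0) (hi : LinearIndependent K ![v, v']) (hp : B v w' = 1)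
    (hq : B w v' ≠ 0) (hq1 : B w v' ≠ 1) : Cm br B v w v' w' := by
  exfalso
  have P := A.pair _ _ h
  have P' := A.pair _ _ h'
  have := A.lb.charP
  have h2 := A.lb.two
  obtain ⟨z, hz0, hz3, hz7, hzk, hzg⟩ := exists_zeta A.card A.lb.two
  have hz1 : z ≠ 1 := by simpa using hzk 1 (by norm_num) (by norm_num)
  obtain ⟨l, hl, hx2, hy⟩ := col_cert A.card (B w v') hq hq1
  have hv : ∀ c x y, y = x.1 • v + x.2 • v' →
      tr br B v w c y = (colX (B w v') c x).1 • v + (colX (B w v') c x).2 • v' := by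
    rintro c x y rfl
    have e := (Col_tr A h h' hz h0 c).1
    rw [tr_add, tr_smul, tr_smul, e, tr_v A.lb P]
    simp only [colX]
    module
  have hr := ru_real A h h' (M := K × K) (fun x y => y = x.1 • v + x.2 • v')
    (fun t x => if t.1 then colY t.2 x else colX (B w v') t.2 x) (colRun (B w v'))
    (fun x => rfl) (fun t l x => rfl)
    (by
      intro c _ x y hxy
      simpa using hv c x y hxy)
    (by
      rintro c _ x y rfl
      have e := (Col_tr A h h' hz h0 c).2
      rw [hp, mul_one] at e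
      rw [tr_add, tr_smul, tr_smul, e, tr_v A.lb P']
      simp only [colY, if_true]
      module)
    l hl
  have hm := ru_mem A h h' l hl
  have r1 := hr (1, 0) v (by simp)
  have r2 := hr (B w v', 1) (v' + B w v' • v) (by simp [add_comm])
  rw [hx2, zero_smul, add_zero] at r1
  have hv0 : v ≠ 0 := by
    intro hv0
    have := P.one
    rw [hv0] at this
    simp at this
  have hx1 : (colRun (B w v') l (1, 0)).1 ≠ 0 := by
    intro hx1
    rw [hx1, zero_smul] at r1
    exact hv0 ((LinearEquiv.map_eq_zero_iff _).mp r1)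
  have hc := (v0a A h hm hx1 r1).2 z hz0
  have hc2 := LinearEquiv.congr_fun hc (v' + B w v' • v)
  rw [LinearEquiv.mul_apply, LinearEquiv.mul_apply, te_apply A h hz0, te_apply A h hz0] at hc2
  have e5 : tr br B v w z (v' + B w v' • v) = z • (v' + B w v' • v) := by
    rw [tr_add, tr_smul, (Col_tr A h h' hz h0 z).1, tr_v A.lb P]
    match_scalars <;> grind
  rw [e5, map_smul, hv z _ _ r2, r2] at hc2
  set y := colRun (B w v') l (B w v', 1)
  have hc3 : (z * y.1 - (colX (B w v') z y).1) • v + (z * y.2 - (colX (B w v') z y).2) • v' = 0 := by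
    rw [smul_add, smul_smul, smul_smul] at hc2
    rw [sub_smul, sub_smul, sub_add_sub_comm, hc2, sub_self]
  have hc4 := (LinearIndependent.pair_iff.mp hi _ _ hc3).1
  simp only [colX] at hc4
  apply hy
  have : (z ^ 2 + z) * (y.1 - B w v' * y.2) = 0 := by
    linear_combination - hc4 + (z * y.1 - (z ^ 2 + z) * B w v' * y.2) * h2
  rcases mul_eq_zero.mp this with h6 | h6
  · exact absurd h6 (Col_sq_ne hz0 hz1 h2)
  · linear_combination h6

theorem col (A : FPS br B F FP) (h : FP v w) (h' : FP v' w') (hz : br v v' = 0)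
    (h0 : th br B v v' w = 0) : Cm br B v w v' w' := by
  have P := A.pair _ _ h
  have P' := A.pair _ _ h'
  have hv0 : v ≠ 0 := by
    intro hv0
    have := P.one
    rw [hv0] at this
    simp at this
  have hv0' : v' ≠ 0 := by
    intro hv0
    have := P'.one
    rw [hv0] at this
    simp at this
  by_cases hi : LinearIndependent K ![v, v']
  · obtain ⟨z, hz0, -, -, hzk, -⟩ := exists_zeta A.card A.lb.two
    have hz1 : z ≠ 1 := by simpa using hzk 1 (by norm_num) (by norm_num)
    obtain ⟨e1, e2⟩ := Col_tr A h h' hz h0 z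
    by_cases hp : B v w' = 0
    · refine Cm.of_fix A h h' hz0 hz1 hz0 ?_
      rw [e2, hp, mul_zero, zero_smul, add_zero]
    by_cases hq : B w v' = 0
    · refine (Cm.of_fix A h' h hz0 hz1 hz0 ?_).symm
      rw [e1, hq, mul_zero, zero_smul, add_zero]
    rw [← Cm.scale A h h' hp]
    have h'' := A.sc _ _ h' _ hp
    have g1 : br v (B v w' • v') = 0 := by rw [map_smul, hz, smul_zero]
    have g2 : th br B v (B v w' • v') w = 0 := by rw [th_smul, h0, smul_zero]
    have g3 : B v ((B v w')⁻¹ • w') = 1 := by rw [map_smul, smul_eq_mul, inv_mul_cancel₀ hp]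
    have g4 : B w (B v w' • v') ≠ 0 := by
      rw [map_smul, smul_eq_mul]
      exact mul_ne_zero hp hq
    by_cases hq1 : B w (B v w' • v') = 1
    · exact col_exc A h h'' g1 g2 g3 hq1
    · refine col_gen A h h'' g1 g2 ?_ g3 g4 hq1
      rw [LinearIndependent.pair_iff] at hi ⊢
      intro s t hst
      rw [smul_smul] at hst
      obtain ⟨a1, a2⟩ := hi _ _ hst
      exact ⟨a1, (mul_eq_zero.mp a2).resolve_right hp⟩
  · rw [LinearIndependent.pair_iff' hv0] at hi
    push Not at hi
    obtain ⟨a, ha⟩ := hi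
    refine Cm.of_prop A h h' (l := a) ?_ ha.symm
    rintro rfl
    rw [zero_smul] at ha
    exact hv0' ha.symm

end Pool.Agent.H26.E2
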