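import Mathlib

/-!
# E2-08a: group theoretic part of `exc`

The finite group `X` is nilpotent: its elements `g^16` are central in `X`, so the quotient by the
centre has exponent dividing 16, it is a 2-group (`IsPGroup.isNilpotent`), and `X` is nilpotent
(`Group.isNilpotent_of_..`, `isNilpotent_of_ker_le_center`).  So its Sylow 2-subgroup `P` is
normal in `X` (`isNilpotent_of_finite_tfae`): it is the set of all elements of 2-power order, so
`a P a⁻¹ ≤ P` by `h3`, and `a` centralises `P` by `h4`.  Every `g ∈ X` is a product of a power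
of 2-power order and a power of `g^16`: order `2^k m`, `m` odd, Bezout
`1 = s m + t 2^(k+4)`, `g = (g^m)^s (g^(2^(k+4)))^t`; both factors commute with `a`.
-/

namespace Pool.Agent.H26.E2

/-- a finite group whose 16th powers are central is nilpotent -/
theorem ExcG_nil {X : Type*} [Group X] [Finite X]
    (h1 : ∀ g u : X, g ^ 16 * u = u * g ^ 16) : Group.IsNilpotent X := by
  have : Fact (Nat.Prime 2) := ⟨Nat.prime_two⟩
  have h : IsPGroup 2 (X ⧸ Subgroup.center X) := by
    intro x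
    induction x using QuotientGroup.induction_on with
    | H g =>
      refine ⟨4, ?_⟩
      rw [← QuotientGroup.mk_pow, QuotientGroup.eq_one_iff, Subgroup.mem_center_iff]
      intro u
      exact (h1 g u).symm
  have h2 : Group.IsNilpotent (X ⧸ Subgroup.center X) := h.isNilpotent
  exact Subgroup.isNilpotent_of_ker_le_center (QuotientGroup.mk' (Subgroup.center X))
    (le_of_eq (QuotientGroup.ker_mk' _))

/-- elements of 2-power order are in the Sylow 2-subgroup -/
theorem ExcG_mem {X : Type*} [Group X] [Finite X] [Fact (Nat.Prime 2)] (P : Sylow 2 X)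
    (hP : (P : Subgroup X).Normal) {x : X} {k : ℕ} (hx : x ^ 2 ^ k = 1) : x ∈ P := by
  have h1 : IsPGroup 2 (Subgroup.zpowers x) := by
    rintro ⟨y, hy⟩
    obtain ⟨n, rfl⟩ := Subgroup.mem_zpowers_iff.1 hy
    refine ⟨k, ?_⟩
    apply Subtype.ext
    rw [Subgroup.coe_pow, Subgroup.coe_one]
    show (x ^ n) ^ 2 ^ k = 1
    rw [← zpow_natCast, ← zpow_mul, mul_comm, zpow_mul, zpow_natCast, hx, one_zpow]
  obtain ⟨Q, hQ⟩ := h1.exists_le_sylow
  have h2 := Sylow.unique_of_normal P hP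
  have h3 : Q = P := Subsingleton.elim _ _
  rw [← h3]
  exact hQ (Subgroup.mem_zpowers x)

/-- group theoretic part: `X` a finite subgroup, every `g ∈ X` has `g^16` commuting with all
elements of `X` and with `a`, `a` normalises `X`, and `a` commutes with the elements of all
2-subgroups of `X` normalised by `a`.  Then `a` commutes with all elements of `X`. -/
theorem exc_group {G : Type*} [Group G] [Finite G] (X : Subgroup G) (a : G)
    (h1 : ∀ g ∈ X, ∀ u ∈ X, g ^ 16 * u = u * g ^ 16) (h2 : ∀ g ∈ X, g ^ 16 * a = a * g ^ 16)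
    (h3 : ∀ g ∈ X, a * g * a⁻¹ ∈ X)
    (h4 : ∀ Q : Subgroup G, Q ≤ X → IsPGroup 2 Q → (∀ g ∈ Q, a * g * a⁻¹ ∈ Q) →
      ∀ g ∈ Q, a * g = g * a) : ∀ g ∈ X, a * g = g * a := by
  have : Fact (Nat.Prime 2) := ⟨Nat.prime_two⟩
  have hnil : Group.IsNilpotent X := by
    apply ExcG_nil
    intro g u
    apply Subtype.ext
    exact h1 g g.2 u u.2
  have P : Sylow 2 X := default
  have hP : (P : Subgroup X).Normal :=
    (Group.isNilpotent_of_finite_tfae.out 0 3 rfl rfl |>.mp hnil) 2 ‹_› P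
  have key : ∀ g ∈ X, ∀ k : ℕ, g ^ 2 ^ k = 1 → a * g = g * a := by
    intro g hg k hk
    refine h4 ((P : Subgroup X).map X.subtype) ?_ (P.isPGroup'.map _) ?_ g ?_
    · rintro _ ⟨y, -, rfl⟩
      exact y.2
    · rintro _ ⟨y, hy, rfl⟩
      obtain ⟨j, hj⟩ := P.isPGroup' ⟨y, hy⟩
      have hj1 : y ^ 2 ^ j = 1 := congrArg Subtype.val hj
      refine ⟨⟨a * y * a⁻¹, h3 y y.2⟩, ExcG_mem P hP (k := j) ?_, rfl⟩
      apply Subtype.ext
      rw [Subgroup.coe_pow, Subgroup.coe_one]
      show (a * y * a⁻¹) ^ 2 ^ j = 1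
      rw [conj_pow, ← Subgroup.coe_pow, hj1, Subgroup.coe_one, mul_one, mul_inv_cancel]
    · refine ⟨⟨g, hg⟩, ExcG_mem P hP (k := k) ?_, rfl⟩
      apply Subtype.ext
      rw [Subgroup.coe_pow, Subgroup.coe_one]
      exact hk
  intro g hg
  obtain ⟨k, m, hm, ho⟩ := Nat.exists_eq_two_pow_mul_odd (orderOf_pos g).ne'
  have hc : Nat.Coprime m (2 ^ (k + 4)) := (Nat.Coprime.pow_right _ hm.coprime_two_right)
  have hb := Nat.gcd_eq_gcd_ab m (2 ^ (k + 4))
  rw [hc] at hb
  have e1 : Commute a (g ^ m) := by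
    apply key (g ^ m) (X.pow_mem hg m) k
    rw [← pow_mul, mul_comm, ← ho, pow_orderOf_eq_one]
  have e2 : Commute a (g ^ 2 ^ (k + 4)) := by
    rw [pow_add, pow_mul]
    exact (h2 _ (X.pow_mem hg (2 ^ k))).symm
  have e3 : g = (g ^ m) ^ (Nat.gcdA m (2 ^ (k + 4))) * (g ^ 2 ^ (k + 4)) ^
      (Nat.gcdB m (2 ^ (k + 4))) := by
    rw [← zpow_natCast, ← zpow_natCast, ← zpow_mul, ← zpow_mul, ← zpow_add, ← hb]
    simp
  have e4 : Commute a ((g ^ m) ^ (Nat.gcdA m (2 ^ (k + 4))) * (g ^ 2 ^ (k + 4)) ^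
      (Nat.gcdB m (2 ^ (k + 4)))) := (e1.zpow_right _).mul_right (e2.zpow_right _)
  rw [← e3] at e4
  exact e4

end Pool.Agent.H26.E2
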