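import Pool.Agent.H26.E2.FPS
import Pool.Agent.H26.E2.ExcG

/-!
# E2-08: equal characters (EXC)

`a = te v w z`, `b = te v' w' z` (`z` a generator of `K^*`), a flag `M 0 = ⊥ ≤ M 1 ≤ .. ≤ M n`,
`n ≤ 16`, `v, v' ∈ M n`, and `a`, `b` act on `M (i+1) / M i` as the same scalar `k i ≠ 0`.  Then the
tori commute.

Proof.  `J = closure {a, b} ≤ F`.  By induction (`Subgroup.closure_induction`) every `g ∈ J` maps
every `M i` to itself and acts on `M (i+1) / M i` as a scalar `l ≠ 0` (for `a`, `b`: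
`x ∈ M (i+1)` implies `a x - k i • x ∈ M i`; inverse: `a` is bijective on the finite set `M i`).
`X = {g ∈ J : ∀ i < n, ∀ x ∈ M (i+1), g x - x ∈ M i}` is a subgroup, normalised by `J`
(scalars commute), `a * b⁻¹ ∈ X`.  For `g ∈ X`: `(g - 1)^n` is zero on `M n`, so also
`(g - 1)^16 = g^16 - 1` (characteristic two: `add_pow_char_pow` / `sub_pow_char_pow` in the
commutative ring generated by `g`, or `Commute.add_pow..`; `16 = 2^4`; or prove by hand four times
`(g-1)^2 = g^2 - 1`).  So `g^16` fixes `v` and `v'`, by `v0a` it commutes with `a` and with `b`, so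
it is in the centre of `J`.
Now apply `exc_group` (file `ExcG`) to `X` and `a`; its proof:
the finite group `X` is nilpotent: the quotient by the central subgroup `X ∩ centre J` has
exponent dividing 16, so it is a 2-group (`IsPGroup`, `IsPGroup.isNilpotent`,
`isNilpotent_of_ker_le_center`).  So its Sylow 2-subgroup `P` is normal in `X`
(`isNilpotent_of_finite_tfae`), so it is the set of all elements of `X` of 2-power order, and it is
normalised by `J`.  By `A.two` the element `a` commutes with all elements of `P`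
(`te v w c` for all `c`, as `te v w c` is a power of `a`).  Every `g ∈ X` is a product of a power of
`g` of 2-power order and a power of `g^16` (Bezout for the order `2^k m`, `m` odd:
`1 = s m + t 2^(k+4)`, `g = (g^m)^s (g^(2^(k+4)))^t`).  So `a` commutes with `a b⁻¹`, so with `b`,
and `Cm.of_gen`.
-/

namespace Pool.Agent.H26.E2

variable {K L : Type} [Field K] [AddCommGroup L] [Module K L]
variable {br : L →ₗ[K] L →ₗ[K] L} {B : L →ₗ[K] L →ₗ[K] K} {F : Subgroup (L ≃ₗ[K] L)}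
  {FP : L → L → Prop} {v w v' w' : L}

/-- `g` acts on the flag with scalars `l` -/
def Exc_S (M : ℕ → Submodule K L) (n : ℕ) (g : L ≃ₗ[K] L) (l : ℕ → K) : Prop :=
  ∀ i, i < n → ∀ x ∈ M (i + 1), g x - l i • x ∈ M i

theorem Exc_map {M : ℕ → Submodule K L} {n : ℕ} (hM0 : M 0 = ⊥)
    (hM : ∀ i, i < n → M i ≤ M (i + 1)) {g : L ≃ₗ[K] L} {l : ℕ → K} (h : Exc_S M n g l) :
    ∀ i, i ≤ n → ∀ x ∈ M i, g x ∈ M i := by
  intro i hi x hx
  cases i with
  | zero =>
    rw [hM0, Submodule.mem_bot] at hx ⊢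
    rw [hx, map_zero]
  | succ i =>
    have h1 : g x = (g x - l i • x) + l i • x := by rw [sub_add_cancel]
    rw [h1]
    exact (M (i + 1)).add_mem (hM i (by omega) (h i (by omega) x hx))
      ((M (i + 1)).smul_mem _ hx)

theorem Exc_mul {M : ℕ → Submodule K L} {n : ℕ} (hM0 : M 0 = ⊥)
    (hM : ∀ i, i < n → M i ≤ M (i + 1)) {g g' : L ≃ₗ[K] L} {l l' : ℕ → K} (h : Exc_S M n g l)
    (h' : Exc_S M n g' l') : Exc_S M n (g * g') (fun i => l i * l' i) := by
  intro i hi x hx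
  have h1 : (g * g') x - (l i * l' i) • x = g (g' x - l' i • x) + l' i • (g x - l i • x) := by
    rw [LinearEquiv.mul_apply, map_sub, map_smul, smul_sub, smul_smul, mul_comm (l i)]
    abel
  rw [h1]
  exact (M i).add_mem (Exc_map hM0 hM h i hi.le _ (h' i hi x hx))
    ((M i).smul_mem _ (h i hi x hx))

theorem Exc_one {M : ℕ → Submodule K L} {n : ℕ} : Exc_S M n (1 : L ≃ₗ[K] L) (fun _ => 1) := by
  intro i hi x hx
  have h1 : (1 : L ≃ₗ[K] L) x - (1 : K) • x = 0 := by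
    rw [one_smul]
    exact sub_self x
  rw [h1]
  exact (M i).zero_mem

theorem Exc_pow {M : ℕ → Submodule K L} {n : ℕ} (hM0 : M 0 = ⊥)
    (hM : ∀ i, i < n → M i ≤ M (i + 1)) {g : L ≃ₗ[K] L} {l : ℕ → K} (h : Exc_S M n g l)
    (j : ℕ) : Exc_S M n (g ^ j) (fun i => l i ^ j) := by
  induction j with
  | zero =>
    simp only [pow_zero]
    exact Exc_one
  | succ j ih =>
    simp only [pow_succ]
    exact Exc_mul hM0 hM ih h

theorem Exc_inv [Finite (L ≃ₗ[K] L)] {M : ℕ → Submodule K L} {n : ℕ} (hM0 : M 0 = ⊥)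
    (hM : ∀ i, i < n → M i ≤ M (i + 1)) {g : L ≃ₗ[K] L} {l : ℕ → K} (h : Exc_S M n g l) :
    ∃ l' : ℕ → K, Exc_S M n g⁻¹ l' := by
  have h3 : g⁻¹ = g ^ (Nat.card (L ≃ₗ[K] L) - 1) := by
    rw [inv_eq_iff_mul_eq_one, ← pow_succ']
    have h4 : Nat.card (L ≃ₗ[K] L) - 1 + 1 = Nat.card (L ≃ₗ[K] L) :=
      Nat.sub_add_cancel Nat.card_pos
    rw [h4]
    exact pow_card_eq_one'
  rw [h3]
  exact ⟨_, Exc_pow hM0 hM h _⟩

/-- the elements acting by scalars on the flag -/
def Exc_J [Finite (L ≃ₗ[K] L)] (M : ℕ → Submodule K L) (n : ℕ) (hM0 : M 0 = ⊥)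
    (hM : ∀ i, i < n → M i ≤ M (i + 1)) : Subgroup (L ≃ₗ[K] L) where
  carrier := {g | ∃ l, Exc_S M n g l}
  one_mem' := ⟨_, Exc_one⟩
  mul_mem' := by
    rintro a b ⟨l, h⟩ ⟨l', h'⟩
    exact ⟨_, Exc_mul hM0 hM h h'⟩
  inv_mem' := by
    rintro a ⟨l, h⟩
    exact Exc_inv hM0 hM h

theorem Exc_J_map [Finite (L ≃ₗ[K] L)] {M : ℕ → Submodule K L} {n : ℕ} (hM0 : M 0 = ⊥)
    (hM : ∀ i, i < n → M i ≤ M (i + 1)) {g : L ≃ₗ[K] L} (h : g ∈ Exc_J M n hM0 hM) :
    ∀ i, i ≤ n → ∀ x ∈ M i, g x ∈ M i := by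
  obtain ⟨l, hl⟩ := h
  exact Exc_map hM0 hM hl

/-- the elements acting trivially on the factors of the flag -/
def Exc_X [Finite (L ≃ₗ[K] L)] (M : ℕ → Submodule K L) (n : ℕ) (hM0 : M 0 = ⊥)
    (hM : ∀ i, i < n → M i ≤ M (i + 1)) (J : Subgroup (L ≃ₗ[K] L))
    (hJ : J ≤ Exc_J M n hM0 hM) : Subgroup (L ≃ₗ[K] L) where
  carrier := {g | g ∈ J ∧ ∀ i, i < n → ∀ x ∈ M (i + 1), g x - x ∈ M i}
  one_mem' := by
    refine ⟨J.one_mem, ?_⟩
    intro i hi x hx
    have h1 : (1 : L ≃ₗ[K] L) x - x = 0 := sub_self x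
    rw [h1]
    exact (M i).zero_mem
  mul_mem' := by
    rintro a b ⟨ha, ha'⟩ ⟨hb, hb'⟩
    refine ⟨J.mul_mem ha hb, ?_⟩
    intro i hi x hx
    have h1 : (a * b) x - x = a (b x - x) + (a x - x) := by
      rw [LinearEquiv.mul_apply, map_sub]
      abel
    rw [h1]
    exact (M i).add_mem (Exc_J_map hM0 hM (hJ ha) i hi.le _ (hb' i hi x hx)) (ha' i hi x hx)
  inv_mem' := by
    rintro a ⟨ha, ha'⟩
    refine ⟨J.inv_mem ha, ?_⟩
    intro i hi x hx
    have h1 : a⁻¹ x - x = -(a⁻¹ (a x - x)) := by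
      rw [map_sub]
      have h2 : a⁻¹ (a x) = x := by
        rw [← LinearEquiv.mul_apply, inv_mul_cancel]
        rfl
      rw [h2]
      abel
    rw [h1]
    exact (M i).neg_mem (Exc_J_map hM0 hM (hJ (J.inv_mem ha)) i hi.le _ (ha' i hi x hx))

theorem Exc_ring {R : Type*} [Ring R] (h2 : (2 : R) = 0) (x : R) : (x - 1) ^ 16 = x ^ 16 - 1 := by
  have h : ∀ x : R, (x - 1) ^ 2 = x ^ 2 - 1 := by
    intro x
    have h1 : (x - 1) ^ 2 = x ^ 2 - 1 + 2 * (1 - x) := by
      rw [two_mul, pow_two, pow_two, mul_sub, sub_mul, sub_mul, one_mul, mul_one, mul_one]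
      abel
    rw [h1, h2, zero_mul, add_zero]
  have e : ∀ y : R, y ^ 16 = (((y ^ 2) ^ 2) ^ 2) ^ 2 := by
    intro y
    rw [← pow_mul, ← pow_mul, ← pow_mul]
  rw [e, h, h, h, h, e x]

theorem Exc_16 (h2 : (2 : K) = 0) {M : ℕ → Submodule K L} {n : ℕ} (hn : n ≤ 16)
    (hM0 : M 0 = ⊥) {g : L ≃ₗ[K] L}
    (hg : ∀ i, i < n → ∀ x ∈ M (i + 1), g x - x ∈ M i) {x : L} (hx : x ∈ M n) :
    (g ^ 16) x = x := by
  have key : ∀ j, j ≤ n → (((g : L →ₗ[K] L) - 1 : Module.End K L) ^ j) x ∈ M (n - j) := by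
    intro j
    induction j with
    | zero =>
      intro _
      rw [pow_zero, Nat.sub_zero]
      exact hx
    | succ j ih =>
      intro hj
      rw [pow_succ', Module.End.mul_apply]
      have h3 : n - j = (n - (j + 1)) + 1 := by omega
      have h4 := ih (by omega)
      rw [h3] at h4
      exact hg _ (by omega) _ h4
  have h5 := key n le_rfl
  rw [Nat.sub_self, hM0, Submodule.mem_bot] at h5
  have h6 : (((g : L →ₗ[K] L) - 1 : Module.End K L) ^ 16) x = 0 := by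
    have h7 : (16 : ℕ) = (16 - n) + n := by omega
    rw [h7, pow_add, Module.End.mul_apply, h5, map_zero]
  have h8 : (2 : Module.End K L) = 0 := by
    have h9 : (2 : Module.End K L) = (2 : K) • (1 : Module.End K L) := by
      rw [two_smul, one_add_one_eq_two]
    rw [h9, h2, zero_smul]
  rw [Exc_ring h8, LinearMap.sub_apply, Module.End.one_apply, sub_eq_zero] at h6
  have h10 : ∀ j : ℕ, ∀ y : L, (g ^ j) y = (((g : L →ₗ[K] L) : Module.End K L) ^ j) y := by
    intro j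
    induction j with
    | zero => intro y; rfl
    | succ j ih =>
      intro y
      rw [pow_succ, pow_succ, LinearEquiv.mul_apply, Module.End.mul_apply, ih]
      rfl
  rw [h10, h6]

theorem Exc_comm {G : Type*} [Group G] {a b g : G} (ha : g * a = a * g) (hb : g * b = b * g)
    {u : G} (hu : u ∈ Subgroup.closure ({a, b} : Set G)) : g * u = u * g := by
  induction hu using Subgroup.closure_induction with
  | mem x hx =>
    rcases hx with rfl | hx
    · exact ha
    · rw [Set.mem_singleton_iff] at hx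
      subst hx
      exact hb
  | one => rw [mul_one, one_mul]
  | mul x y _ _ hx hy => rw [← mul_assoc, hx, mul_assoc, hy, mul_assoc]
  | inv x _ hx =>
    have h : Commute g x := hx
    exact h.inv_right

theorem exc (A : FPS br B F FP) (h : FP v w) (h' : FP v' w') {z : K} (hz : z ≠ 0)
    (hz' : ∀ c : K, c ≠ 0 → ∃ k : ℕ, k < 7 ∧ c = z ^ k) (M : ℕ → Submodule K L) (k : ℕ → K)
    (n : ℕ) (hn : n ≤ 16) (hM0 : M 0 = ⊥) (hM : ∀ i, i < n → M i ≤ M (i + 1))
    (hk : ∀ i, i < n → k i ≠ 0) (hv : v ∈ M n) (hv' : v' ∈ M n)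
    (ha : ∀ i, i < n → ∀ x ∈ M (i + 1), tr br B v w z x - k i • x ∈ M i)
    (hb : ∀ i, i < n → ∀ x ∈ M (i + 1), tr br B v' w' z x - k i • x ∈ M i) :
    Cm br B v w v' w' := by
  have hfin : Finite (L ≃ₗ[K] L) := A.fin
  obtain ⟨a, haa⟩ : ∃ a, a = te br B v w z := ⟨_, rfl⟩
  obtain ⟨b, hbb⟩ : ∃ b, b = te br B v' w' z := ⟨_, rfl⟩
  have haF : a ∈ F := by
    rw [haa]
    exact te_mem A h hz
  have hbF : b ∈ F := by
    rw [hbb]
    exact te_mem A h' hz
  have ha' : ∀ i, i < n → ∀ x ∈ M (i + 1), a x - k i • x ∈ M i := by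
    intro i hi x hx
    rw [haa, te_apply A h hz]
    exact ha i hi x hx
  have hb' : ∀ i, i < n → ∀ x ∈ M (i + 1), b x - k i • x ∈ M i := by
    intro i hi x hx
    rw [hbb, te_apply A h' hz]
    exact hb i hi x hx
  have hJ : Subgroup.closure ({a, b} : Set (L ≃ₗ[K] L)) ≤ Exc_J M n hM0 hM := by
    rw [Subgroup.closure_le]
    rintro x (rfl | hx)
    · exact ⟨k, ha'⟩
    · rw [Set.mem_singleton_iff] at hx
      subst hx
      exact ⟨k, hb'⟩
  have hJF : Subgroup.closure ({a, b} : Set (L ≃ₗ[K] L)) ≤ F := by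
    rw [Subgroup.closure_le]
    rintro x (rfl | hx)
    · exact haF
    · rw [Set.mem_singleton_iff] at hx
      subst hx
      exact hbF
  have haJ : a ∈ Subgroup.closure ({a, b} : Set (L ≃ₗ[K] L)) :=
    Subgroup.subset_closure (Or.inl rfl)
  have hbJ : b ∈ Subgroup.closure ({a, b} : Set (L ≃ₗ[K] L)) :=
    Subgroup.subset_closure (Or.inr rfl)
  have hfix : ∀ g ∈ Exc_X M n hM0 hM _ hJ, ∀ x ∈ M n, (g ^ 16) x = x := by
    intro g hg x hx
    exact Exc_16 A.lb.two hn hM0 hg.2 hx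
  have hca : ∀ g ∈ Exc_X M n hM0 hM _ hJ, g ^ 16 * a = a * g ^ 16 := by
    intro g hg
    have h1 := (v0a A h (F.pow_mem (hJF hg.1) 16) one_ne_zero
      (by rw [one_smul]; exact hfix g hg v hv)).2 z hz
    rw [haa]
    exact h1
  have hcb : ∀ g ∈ Exc_X M n hM0 hM _ hJ, g ^ 16 * b = b * g ^ 16 := by
    intro g hg
    have h1 := (v0a A h' (F.pow_mem (hJF hg.1) 16) one_ne_zero
      (by rw [one_smul]; exact hfix g hg v' hv')).2 z hz
    rw [hbb]
    exact h1
  have hpow : ∀ j : ℕ, te br B v w (z ^ j) = a ^ j := by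
    intro j
    induction j with
    | zero => rw [pow_zero, pow_zero, te_one A h]
    | succ j ih => rw [pow_succ, ← te_mul A h (pow_ne_zero j hz) hz, ih, haa, pow_succ]
  have main := exc_group (Exc_X M n hM0 hM _ hJ) a
    (fun g hg u hu => Exc_comm (hca g hg) (hcb g hg) hu.1) hca ?_ ?_
  · have hab : a * b⁻¹ ∈ Exc_X M n hM0 hM _ hJ := by
      refine ⟨Subgroup.mul_mem _ haJ (Subgroup.inv_mem _ hbJ), ?_⟩
      intro i hi x hx
      have h1 : b⁻¹ x ∈ M (i + 1) :=
        Exc_J_map hM0 hM (hJ (Subgroup.inv_mem _ hbJ)) (i + 1) (by omega) x hx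
      have h2 : x = b (b⁻¹ x) := by
        rw [← LinearEquiv.mul_apply, mul_inv_cancel]
        rfl
      have h3 : (a * b⁻¹) x - x = (a (b⁻¹ x) - k i • b⁻¹ x) - (b (b⁻¹ x) - k i • b⁻¹ x) := by
        rw [← h2, LinearEquiv.mul_apply]
        abel
      rw [h3]
      exact (M i).sub_mem (ha' i hi _ h1) (hb' i hi _ h1)
    have h5 := main _ hab
    have h6 : a * b⁻¹ = b⁻¹ * a := by
      rw [mul_assoc] at h5
      exact mul_left_cancel h5
    have h7 : Commute a b := by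
      have h8 : Commute a b⁻¹ := h6
      rw [Commute.inv_right_iff] at h8
      exact h8
    refine Cm.of_gen A h h' hz hz' ?_
    rw [← haa, ← hbb]
    exact h7
  · rintro g ⟨hg, hg'⟩
    refine ⟨Subgroup.mul_mem _ (Subgroup.mul_mem _ haJ hg) (Subgroup.inv_mem _ haJ), ?_⟩
    intro i hi x hx
    have h1 : a⁻¹ x ∈ M (i + 1) :=
      Exc_J_map hM0 hM (hJ (Subgroup.inv_mem _ haJ)) (i + 1) (by omega) x hx
    have h2 : x = a (a⁻¹ x) := by
      rw [← LinearEquiv.mul_apply, mul_inv_cancel]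
      rfl
    have h3 : (a * g * a⁻¹) x - x = a (g (a⁻¹ x) - a⁻¹ x) := by
      rw [map_sub, ← h2, LinearEquiv.mul_apply, LinearEquiv.mul_apply]
    rw [h3]
    exact Exc_J_map hM0 hM (hJ haJ) i hi.le _ (hg' i hi _ h1)
  · intro Q hQX hQ2 hQ g hg
    have h1 : ∀ j : ℕ, ∀ q ∈ Q, a ^ j * q * (a ^ j)⁻¹ ∈ Q := by
      intro j
      induction j with
      | zero =>
        intro q hq
        rw [pow_zero, one_mul, inv_one, mul_one]
        exact hq
      | succ j ih =>
        intro q hq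
        have h2 : a ^ (j + 1) * q * (a ^ (j + 1))⁻¹ = a * (a ^ j * q * (a ^ j)⁻¹) * a⁻¹ := by
          rw [pow_succ']
          group
        rw [h2]
        exact hQ _ (ih q hq)
    have h2 := A.two v w h Q (fun q hq => hJF (hQX hq).1) hQ2 ?_ g hg z hz
    · rw [haa]
      exact h2
    · intro c hc q hq
      obtain ⟨j, -, rfl⟩ := hz' c hc
      rw [hpow]
      exact h1 j q hq

end Pool.Agent.H26.E2
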