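import Pool.Agent.H26.E2.Wt
import Pool.Agent.H27.Q8.Fld

/-!
# E2-02: systems of pairs of a finite group

`te br B v w c` is the linear automorphism with values `tr br B v w c x` (if there is one).
`FPS br B F FP`: `F` is a finite group of automorphisms of bracket and form, `FP v w` a relation
(the `F`-pairs, images under `F` of the pairs of opposite root vectors):
* `v0`: if `FP v w`, `FP v w'` then `w = w'`;
* `com1`: `FP v w`, `FP v' w'`, `t = te v' w' d`, `d ≠ 0, 1`: if the tori of `(v,w)` and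
  `(t v, t w)` commute then the tori of `(v,w)` and `(v',w')` commute;
* `two`: every 2-subgroup of `F` normalised by the torus of `(v,w)` is centralised by it.

Proofs.
* `te_apply`: `Classical.choose_spec`.
* `te_conj`: `map_tr` and extensionality.
* `te_mul`: `tr_tr`.  `te_swap`, `te_scale`: `tr_swap`, `tr_scale`.
* `v0a`: `f v = l v`: `(l v, f w)` and `(l v, l⁻¹ w)` are in `FP`, so `f w = l⁻¹ w` by `v0`;
  `f te(v,w) f⁻¹ = te(l v, l⁻¹ w) = te(v,w)`.
* `Cm` does not depend on scalars and order.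
* `eig`: `te v w c` commutes with `te v' w' ζ`, so it preserves its `ζ²`-eigenspace, which is `K v'`
  (`weight_two`; `ζ ≠ 0`, `ζ^k ≠ 1` for `k = 1,2,3,4`).
-/

namespace Pool.Agent.H26.E2

variable {K L : Type} [Field K] [AddCommGroup L] [Module K L]

open Classical in
/-- the torus element as a linear automorphism -/
noncomputable def te (br : L →ₗ[K] L →ₗ[K] L) (B : L →ₗ[K] L →ₗ[K] K) (v w : L) (c : K) :
    L ≃ₗ[K] L :=
  if h : ∃ t : L ≃ₗ[K] L, ∀ x, t x = tr br B v w c x then h.choose else 1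

/-- the tori of two pairs commute -/
def Cm (br : L →ₗ[K] L →ₗ[K] L) (B : L →ₗ[K] L →ₗ[K] K) (v w v' w' : L) : Prop :=
  ∀ c d : K, c ≠ 0 → d ≠ 0 →
    te br B v w c * te br B v' w' d = te br B v' w' d * te br B v w c

/-- a system of pairs of a finite group -/
structure FPS (br : L →ₗ[K] L →ₗ[K] L) (B : L →ₗ[K] L →ₗ[K] K) (F : Subgroup (L ≃ₗ[K] L))
    (FP : L → L → Prop) : Prop where
  lb : LB br B
  card : Nat.card K = 8
  fin : Finite (L ≃ₗ[K] L)
  aut : ∀ f ∈ F, (∀ x y, f (br x y) = br (f x) (f y)) ∧ ∀ x y, B (f x) (f y) = B x y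
  pair : ∀ v w, FP v w → Pair2 br B v w
  mv : ∀ f ∈ F, ∀ v w, FP v w → FP (f v) (f w)
  sw : ∀ v w, FP v w → FP w v
  sc : ∀ v w, FP v w → ∀ c : K, c ≠ 0 → FP (c • v) (c⁻¹ • w)
  tor : ∀ v w, FP v w → ∀ c : K, c ≠ 0 → ∃ t ∈ F, ∀ x, t x = tr br B v w c x
  v0 : ∀ v w w', FP v w → FP v w' → w' = w
  com1 : ∀ v w v' w', FP v w → FP v' w' → ∀ d : K, d ≠ 0 → d ≠ 1 →
    Cm br B v w (tr br B v' w' d v) (tr br B v' w' d w) → Cm br B v w v' w'
  two : ∀ v w, FP v w → ∀ Q : Subgroup (L ≃ₗ[K] L), Q ≤ F → IsPGroup 2 Q →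
    (∀ c : K, c ≠ 0 → ∀ q ∈ Q, te br B v w c * q * (te br B v w c)⁻¹ ∈ Q) →
    ∀ q ∈ Q, ∀ c : K, c ≠ 0 → te br B v w c * q = q * te br B v w c

variable {br : L →ₗ[K] L →ₗ[K] L} {B : L →ₗ[K] L →ₗ[K] K} {F : Subgroup (L ≃ₗ[K] L)}
  {FP : L → L → Prop} {v w v' w' : L}

/-- every element `d ≠ 0, 1` generates the multiplicative group -/
theorem pow_gen8 (hK : Nat.card K = 8) {d : K} (hd : d ≠ 0) (hd1 : d ≠ 1) (c : K) (hc : c ≠ 0) :
    ∃ k : ℕ, k < 7 ∧ c = d ^ k := by
  have h7 : ∀ x : K, x ≠ 0 → x ^ 7 = 1 := by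
    intro x hx
    have h8 := Pool.Agent.H27.Q8.pow8 hK x
    have : x * (x ^ 7 - 1) = 0 := by linear_combination h8
    rcases mul_eq_zero.1 this with h0 | h0
    · exact absurd h0 hx
    · linear_combination h0
  have hp : Fact (Nat.Prime 7) := ⟨by norm_num⟩
  have ho : orderOf d = 7 := orderOf_eq_prime (h7 d hd) hd1
  have hr : IsPrimitiveRoot d 7 := by
    have := IsPrimitiveRoot.orderOf d
    rwa [ho] at this
  obtain ⟨i, hi, hi2⟩ := hr.eq_pow_of_pow_eq_one (h7 c hc)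
  exact ⟨i, hi, hi2.symm⟩

/-- a field with 8 elements has an element `z` with `z^3 = z + 1`, all non zero elements are
its powers, and `z^k ≠ 1` for `1 ≤ k ≤ 6`, `z^7 = 1` -/
theorem exists_zeta (hK : Nat.card K = 8) (_h2 : (2 : K) = 0) :
    ∃ z : K, z ≠ 0 ∧ z ^ 3 = z + 1 ∧ z ^ 7 = 1 ∧ (∀ k : ℕ, 0 < k → k < 7 → z ^ k ≠ 1) ∧
      ∀ c : K, c ≠ 0 → ∃ k : ℕ, k < 7 ∧ c = z ^ k := by
  obtain ⟨z, h⟩ := Pool.Agent.H27.Q8.exists_gen hK
  have h0 : z ≠ 0 := (h.val_ne Pool.Agent.H27.Q8.C.z1).1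
  have h1 : z ≠ 1 := (h.val_ne Pool.Agent.H27.Q8.C.z1).2
  refine ⟨z, h0, h.cub, h.z7, ?_, pow_gen8 hK h0 h1⟩
  intro k hk hk7 hz
  have hp : Fact (Nat.Prime 7) := ⟨by norm_num⟩
  have ho : orderOf z = 7 := orderOf_eq_prime h.z7 h1
  have := orderOf_dvd_of_pow_eq_one hz
  rw [ho] at this
  have := Nat.le_of_dvd hk this
  omega

theorem te_apply (A : FPS br B F FP) (h : FP v w) {c : K} (hc : c ≠ 0) (x : L) :
    te br B v w c x = tr br B v w c x := by
  obtain ⟨t, -, ht⟩ := A.tor v w h c hc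
  have hex : ∃ t : L ≃ₗ[K] L, ∀ x, t x = tr br B v w c x := ⟨t, ht⟩
  unfold te
  rw [dif_pos hex]
  exact hex.choose_spec x

theorem te_mem (A : FPS br B F FP) (h : FP v w) {c : K} (hc : c ≠ 0) : te br B v w c ∈ F := by
  obtain ⟨t, ht, ht'⟩ := A.tor v w h c hc
  have : te br B v w c = t := by
    ext x
    rw [te_apply A h hc, ht']
  rw [this]
  exact ht

theorem te_mul (A : FPS br B F FP) (h : FP v w) {c d : K} (hc : c ≠ 0) (hd : d ≠ 0) :
    te br B v w c * te br B v w d = te br B v w (c * d) := by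
  ext x
  rw [LinearEquiv.mul_apply, te_apply A h hc, te_apply A h hd, te_apply A h (mul_ne_zero hc hd),
    tr_tr A.lb (A.pair _ _ h) c d hc hd]

theorem te_one (A : FPS br B F FP) (h : FP v w) : te br B v w (1 : K) = 1 := by
  ext x
  rw [te_apply A h one_ne_zero, tr_one A.lb]
  rfl

theorem te_inv (A : FPS br B F FP) (h : FP v w) {c : K} (hc : c ≠ 0) :
    (te br B v w c)⁻¹ = te br B v w c⁻¹ := by
  refine inv_eq_of_mul_eq_one_right ?_
  rw [te_mul A h hc (inv_ne_zero hc), mul_inv_cancel₀ hc, te_one A h]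

theorem te_swap (A : FPS br B F FP) (h : FP v w) {c : K} (hc : c ≠ 0) :
    te br B w v c = te br B v w c⁻¹ := by
  ext x
  rw [te_apply A (A.sw _ _ h) hc, te_apply A h (inv_ne_zero hc), tr_swap A.lb]

theorem te_scale (A : FPS br B F FP) (h : FP v w) {c a : K} (hc : c ≠ 0) (ha : a ≠ 0) :
    te br B (a • v) (a⁻¹ • w) c = te br B v w c := by
  ext x
  rw [te_apply A (A.sc _ _ h a ha) hc, te_apply A h hc, tr_scale c a ha]

theorem te_conj (A : FPS br B F FP) (h : FP v w) {f : L ≃ₗ[K] L} (hf : f ∈ F) {c : K}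
    (hc : c ≠ 0) : f * te br B v w c * f⁻¹ = te br B (f v) (f w) c := by
  ext x
  have e : f (f⁻¹ x) = x := by
    rw [← LinearEquiv.mul_apply, mul_inv_cancel]
    rfl
  rw [LinearEquiv.mul_apply, LinearEquiv.mul_apply, te_apply A h hc, te_apply A (A.mv f hf _ _ h) hc,
    map_tr f (A.aut f hf).1 (A.aut f hf).2, e]

/-- `g v = l v` implies that `g` commutes with the torus of `(v, w)` -/
theorem v0a (A : FPS br B F FP) (h : FP v w) {f : L ≃ₗ[K] L} (hf : f ∈ F) {l : K} (hl : l ≠ 0)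
    (h1 : f v = l • v) : f w = l⁻¹ • w ∧
      ∀ c : K, c ≠ 0 → f * te br B v w c = te br B v w c * f := by
  have h2 := A.mv f hf _ _ h
  rw [h1] at h2
  have h3 : f w = l⁻¹ • w := A.v0 _ _ _ (A.sc _ _ h l hl) h2
  refine ⟨h3, ?_⟩
  intro c hc
  have h4 := te_conj A h hf hc
  rw [h1, h3, te_scale A h hc hl] at h4
  exact mul_inv_eq_iff_eq_mul.mp h4

/-- pairs with proportional first vectors have the same torus -/
theorem te_prop (A : FPS br B F FP) (h : FP v w) (h' : FP v' w') {l : K} (hl : l ≠ 0)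
    (h1 : v' = l • v) {c : K} (hc : c ≠ 0) : te br B v' w' c = te br B v w c := by
  subst h1
  have h3 : w' = l⁻¹ • w := A.v0 _ _ _ (A.sc _ _ h l hl) h'
  rw [h3, te_scale A h hc hl]

theorem Cm.symm (h : Cm br B v w v' w') : Cm br B v' w' v w :=
  fun c d hc hd => (h d c hd hc).symm

theorem Cm.swap (A : FPS br B F FP) (h : FP v w) (_h' : FP v' w') (hc : Cm br B v w v' w') :
    Cm br B w v v' w' := by
  intro c d hc0 hd0
  rw [te_swap A h hc0]
  exact hc _ _ (inv_ne_zero hc0) hd0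

theorem Cm.scale (A : FPS br B F FP) (_h : FP v w) (h' : FP v' w') {a : K} (ha : a ≠ 0) :
    Cm br B v w (a • v') (a⁻¹ • w') ↔ Cm br B v w v' w' := by
  constructor
  · intro hc c d hc0 hd0
    have := hc c d hc0 hd0
    rwa [te_scale A h' hd0 ha] at this
  · intro hc c d hc0 hd0
    rw [te_scale A h' hd0 ha]
    exact hc c d hc0 hd0

theorem te_pow (A : FPS br B F FP) (h : FP v w) {z : K} (hz : z ≠ 0) (k : ℕ) :
    te br B v w (z ^ k) = te br B v w z ^ k := by
  induction k with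
  | zero => rw [pow_zero, pow_zero, te_one A h]
  | succ n ih => rw [pow_succ, pow_succ, ← te_mul A h (pow_ne_zero n hz) hz, ih]

/-- it suffices to consider generators -/
theorem Cm.of_gen (A : FPS br B F FP) (h : FP v w) (h' : FP v' w') {z : K} (hz : z ≠ 0)
    (hz' : ∀ c : K, c ≠ 0 → ∃ k : ℕ, k < 7 ∧ c = z ^ k)
    (hc : te br B v w z * te br B v' w' z = te br B v' w' z * te br B v w z) :
    Cm br B v w v' w' := by
  intro c d hc0 hd0
  obtain ⟨k, -, rfl⟩ := hz' c hc0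
  obtain ⟨l, -, rfl⟩ := hz' d hd0
  rw [te_pow A h hz, te_pow A h' hz]
  have hc' : Commute (te br B v w z) (te br B v' w' z) := hc
  exact hc'.pow_pow k l

/-- if the tori commute then `v'` is an eigenvector of the torus of `(v, w)` -/
theorem Cm.eig (A : FPS br B F FP) (h : FP v w) (h' : FP v' w') (hc : Cm br B v w v' w')
    {c : K} (hc0 : c ≠ 0) : ∃ k : K, tr br B v w c v' = k • v' := by
  obtain ⟨z, hz, hz3, hz7, hzk, -⟩ := exists_zeta A.card A.lb.two
  have e : z * z⁻¹ = 1 := mul_inv_cancel₀ hz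
  refine ⟨B w' (tr br B v w c v'), ?_⟩
  refine weight_two A.lb (A.pair _ _ h') (c := z) ?_ ?_ ?_ ?_ ?_
  · intro hz2
    refine hzk 4 (by norm_num) (by norm_num) ?_
    calc z ^ 4 = z ^ 2 * z ^ 2 := by ring
      _ = z⁻¹ ^ 2 * z ^ 2 := by rw [← hz2]
      _ = (z * z⁻¹) ^ 2 := by ring
      _ = 1 := by rw [e, one_pow]
  · intro hz2
    refine hzk 1 (by norm_num) (by norm_num) ?_
    have : z * (z - 1) = 0 := by linear_combination hz2
    rcases mul_eq_zero.mp this with h0 | h0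
    · exact absurd h0 hz
    · linear_combination h0
  · intro hz2
    refine hzk 3 (by norm_num) (by norm_num) ?_
    calc z ^ 3 = z * z ^ 2 := by ring
      _ = z * z⁻¹ := by rw [hz2]
      _ = 1 := e
  · exact hzk 2 (by norm_num) (by norm_num)
  · have h1 := hc c z hc0 hz
    have h2 := LinearEquiv.congr_fun h1 v'
    rw [LinearEquiv.mul_apply, LinearEquiv.mul_apply, te_apply A h' hz, te_apply A h hc0,
      te_apply A h' hz, te_apply A h hc0, tr_v A.lb (A.pair _ _ h'), tr_smul] at h2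
    exact h2.symm

/-- parallel first vectors: the tori commute -/
theorem Cm.of_prop (A : FPS br B F FP) (h : FP v w) (h' : FP v' w') {l : K} (hl : l ≠ 0)
    (h1 : v' = l • v) : Cm br B v w v' w' := by
  intro c d hc0 hd0
  rw [te_prop A h h' hl h1 hd0, te_mul A h hc0 hd0, te_mul A h hd0 hc0, mul_comm]

/-- if `te v' w' d v` is proportional to `v`, `d ≠ 1`, then the tori commute -/
theorem Cm.of_fix (A : FPS br B F FP) (h : FP v w) (h' : FP v' w') {d l : K} (hd : d ≠ 0)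
    (hd1 : d ≠ 1) (hl : l ≠ 0) (h1 : tr br B v' w' d v = l • v) : Cm br B v w v' w' := by
  have h2 : te br B v' w' d v = l • v := by rw [te_apply A h' hd, h1]
  have h3 := (v0a A h (te_mem A h' hd) hl h2).2
  intro a b ha hb
  obtain ⟨k, -, rfl⟩ := pow_gen8 A.card hd hd1 b hb
  rw [te_pow A h' hd]
  have h4 : Commute (te br B v' w' d) (te br B v w a) := h3 a ha
  exact (h4.pow_left k).symm

end Pool.Agent.H26.E2
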