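import Pool.Agent.H26.E2.SpeE

/-!
# E2-16: special pairs

`SpH br B v w v' w'` (see `SpeI`), `z = [v,v'] ≠ 0`, `p = B v w'`, `q = B w v'`,
`D1 = B h h'`, `D2 = B z [w,w']`.
`R x = x.a0 v + x.a1 v' + x.a2 sx + x.a3 sy + x.a4 w1 + x.a5 v1 + x.a6 c0 + x.a7 d0`,
`Rel x y := ∃ t, y = R x + t z`.

E2-13, E2-14 (`p = 1`; files `SpeR`, `SpeS`).
`spe_vR`: `[v, R x] = speO x • z`, `[v', R x] = speO' x • z` (`spe_X_*` and exchange, `[v,z] = 0`),
`B w (R x) = speB x`, `B w' (R x) = speB' x`, `B v`, `B v'`, `B h`, `B h'` vanish on `R x`, and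
`B v z = B w z = B w' z = B h z = 0`.
`spe_P`: `[v,[w,R x]] = R (speP x) + t z` for some `t` (`spe_P_*`, `[v,[w,v']] = w1`,
`[v,[w,v1]] = c0`), and the same with `'`.
`spe_realX`: `Rel x y → Rel (speX c x) (tr v w c y)`: by definition of `tr` with
`B v y = B h y = 0`, `[v,y] = speO x • z`, `[w,z] = sx`, `[v,[w,z]] = z` (so
`tr v w c z = c z`), `c ≠ 0`.
`spe_realY`: the same for the exchanged pairs.  (It may be convenient to prove `spe_realY` by
symmetry: exchange of coordinates `a0 a1`, `a2 a3`, `a4 a5`, `a6 a7`; but `p = 1` and `q` are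
exchanged, so prove the statements first for general `p`.)

E2-15 (`spe_p0`; file `SpeE`): `p = 0`: `x = tr v' w' z0 v` (`z0` a generator) is `v + (z0+1) v1 + (z0⁻¹+1) sy`
(`B w' v = p = 0`, `[w',v]..`, `[v',v] = z`, `[w',z] = sy`), so
`[v,x] = ((z0+1) p + (z0⁻¹+1) p) z = 0`; `sc` for `(v,w)`, `(t v, t w)`, and `A.com1`.
(`spe_exc`): `p = q = 1`, `D1 = D2 = 0`: `exc` with `n = 9`, `M 1 = <z>` and adding
`sx+v1+c0`, `sy+w1+d0`, `sx+w1+v1`, `v1+d0`, `sy`, `v+v'+v1`, `v1`, `v`; scalars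
`z0, 1, 1, z0, z0, z0⁻¹, 1, z0, z0²`.  (Images, with `c = z0`, modulo `z`:
`te v w c - k`: `0`, `0`, `(c+1)(sx+v1+c0)`, `(c+1)(sy+w1+d0)`,
`sy ↦ c⁻¹ sy + ..` : compute with `speX`, `speY`, all differences are in the span of the previous
vectors, this was checked by computer for all `c`.)
E2-16 (`spe_gen`): `spe_cert` gives `l`, `x`, `y`, `g = ru l`, `Rel x (g v)`, `Rel y (g sx)`,
and `g z = m z`, `m ≠ 0` (`tr v w c z = c z`, `tr v' w' c z = c z`).
`[v, g v] = speO x • z = 0`, so by `sc` the tori of `(v,w)`, `(g v, g w)` commute, `Cm.eig`: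
`tr v w z0 (g v) = k g v`.  `α = speB x = B w (g v)`.
If `α ≠ 0`: `k = z0²` (`tr_eig`), `g v = α v` (`weight_two`).  Then `speO' x • z = [v', g v] = α z`,
`speO' (speP x) • z = [v',[v,[w,g v]]] = 0`; by `v0a` `g w = α⁻¹ w`, so
`g sx = [g w, g z] = α⁻¹ m sx`, so `speB y = B w (g sx) = 0`, `speO y • z = [v, g sx] = α⁻¹ m z`,
`speO' y • z = [v', g sx] = α⁻¹ m q z`.  Contradiction to `speViol`.
If `α = 0`: `speO' (speP x) ≠ 0` implies `q1 (g v) = [v,[w,g v]] ≠ 0` so `k = z0`, and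
`speO' x + speO' (speP x) ≠ 0` implies `q0 (g v) = g v + [v,[w,g v]] ≠ 0`, so `k = 1`:
contradiction.
-/

namespace Pool.Agent.H26.E2

variable {K L : Type} [Field K] [AddCommGroup L] [Module K L]
variable {br : L →ₗ[K] L →ₗ[K] L} {B : L →ₗ[K] L →ₗ[K] K} {F : Subgroup (L ≃ₗ[K] L)}
  {FP : L → L → Prop} {v w v' w' : L}

/-- `tr v w c z = c z` -/
private theorem spe_tr_z (H : LB br B) (S : SpH br B v w v' w') (c : K) :
    tr br B v w c (br v v') = c • br v v' := by
  have h1 : B w (br v v') = 0 := by rw [← H.inv, H.symm w v, S.b1]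
  have h2 : B v (br v v') = 0 := by rw [← H.inv, H.alt, map_zero, LinearMap.zero_apply]
  have h3 : B (br v w) (br v v') = 0 := by
    rw [← H.inv, H.symm (br v w) v, S.P.brh H, map_zero, LinearMap.zero_apply]
  have h4 : br v (br v v') = 0 := S.P.ev.p0 v'
  unfold tr
  rw [h1, h2, h3, h4, spe_X_sx H S, map_zero, mul_zero, mul_zero, zero_smul, zero_smul, zero_smul,
    add_zero, add_zero, add_zero, smul_zero, add_zero, add_smul, one_smul, add_comm,
    add_assoc, H.add_self, add_zero]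

private theorem spe_zeta {z : K} (hz : z ≠ 0) (h7 : z ^ 7 = 1)
    (hk : ∀ k : ℕ, 0 < k → k < 7 → z ^ k ≠ 1) :
    z ^ 2 ≠ z⁻¹ ^ 2 ∧ z ^ 2 ≠ z ∧ z ^ 2 ≠ z⁻¹ ∧ z ^ 2 ≠ 1 ∧ z ≠ 1 := by
  have e : z * z⁻¹ = 1 := mul_inv_cancel₀ hz
  refine ⟨?_, ?_, ?_, hk 2 (by norm_num) (by norm_num), ?_⟩
  · intro hz2
    refine hk 4 (by norm_num) (by norm_num) ?_
    calc z ^ 4 = z ^ 2 * z ^ 2 := by ring
      _ = z⁻¹ ^ 2 * z ^ 2 := by rw [← hz2]
      _ = (z * z⁻¹) ^ 2 := by ring
      _ = 1 := by rw [e, one_pow]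
  · intro hz2
    refine hk 1 (by norm_num) (by norm_num) ?_
    have : z * (z - 1) = 0 := by linear_combination hz2
    rcases mul_eq_zero.mp this with h0 | h0
    · exact absurd h0 hz
    · linear_combination h0
  · intro hz2
    refine hk 3 (by norm_num) (by norm_num) ?_
    calc z ^ 3 = z * z ^ 2 := by ring
      _ = z * z⁻¹ := by rw [hz2]
      _ = 1 := e
  · intro h
    exact hk 1 (by norm_num) (by norm_num) (by rw [pow_one, h])

theorem spe_gen (A : FPS br B F FP) (h : FP v w) (h' : FP v' w') (S : SpH br B v w v' w')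
    (hz : br v v' ≠ 0) (hp : B v w' = 1) (hq : B w v' ≠ 0)
    (hd : ¬ (B w v' = 1 ∧ B (br v w) (br v' w') = 0 ∧ B (br v v') (br w w') = 0)) :
    Cm br B v w v' w' := by
  exfalso
  have H := A.lb
  obtain ⟨l, hl, hv⟩ := spe_cert A.card (B w v') (B (br v w) (br v' w')) (B (br v v') (br w w'))
    hq hd
  obtain ⟨z, hz0, hz3, hz7, hzk, -⟩ := exists_zeta A.card H.two
  obtain ⟨k1, k2, k3, k4, k5⟩ := spe_zeta hz0 hz7 hzk
  have hgF := ru_mem A h h' l hl
  -- coordinates
  have hreal : ∀ (x : V8 K) (y : L), Rel8 br v w v' w' x y →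
      Rel8 br v w v' w' (speRun (B w v') (B (br v w) (br v' w')) (B (br v v') (br w w')) l x)
        (ru br B v w v' w' l y) := by
    intro x y hxy
    refine ru_real A h h' (Rel8 br v w v' w')
      (fun t x => if t.1 then speY (B w v') (B (br v w) (br v' w')) (B (br v v') (br w w')) t.2 x
        else speX (B w v') (B (br v w) (br v' w')) (B (br v v') (br w w')) t.2 x)
      (speRun (B w v') (B (br v w) (br v' w')) (B (br v v') (br w w')))
      (fun _ => rfl) (fun _ _ _ => rfl) ?_ ?_ l hl x y hxy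
    · intro c _ x y hxy
      exact spe_realX H S hp c hxy
    · intro c _ x y hxy
      exact spe_realY H S hp c hxy
  have hzz : ∀ c : K, tr br B v' w' c (br v v') = c • br v v' := by
    intro c
    have := spe_tr_z H (S.swap H) c
    rwa [H.symm v' v] at this
  have hrealz : ∃ m : K, ru br B v w v' w' l (br v v') = m • br v v' := by
    refine ⟨_, ru_real A h h' (fun (m : K) (y : L) => y = m • br v v')
      (fun t x => t.2 * x) (fun l x => l.foldl (fun x t => t.2 * x) x)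
      (fun _ => rfl) (fun _ _ _ => rfl) ?_ ?_ l hl 1 (br v v') (one_smul K _).symm⟩
    · intro c _ x y hxy
      show tr br B v w c y = (c * x) • br v v'
      rw [hxy, tr_smul, spe_tr_z H S, smul_smul, mul_comm]
    · intro c _ x y hxy
      show tr br B v' w' c y = (c * x) • br v v'
      rw [hxy, tr_smul, hzz, smul_smul, mul_comm]
  have hx := hreal ⟨1, 0, 0, 0, 0, 0, 0, 0⟩ v ⟨0, by
    unfold R8
    simp⟩
  have hy := hreal ⟨0, 0, 1, 0, 0, 0, 0, 0⟩ (br w (br v v')) ⟨0, by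
    unfold R8
    simp⟩
  obtain ⟨m, hm⟩ := hrealz
  revert hv hx hy
  generalize speRun (B w v') (B (br v w) (br v' w')) (B (br v v') (br w w')) l
    ⟨1, 0, 0, 0, 0, 0, 0, 0⟩ = x
  generalize speRun (B w v') (B (br v w) (br v' w')) (B (br v v') (br w w')) l
    ⟨0, 0, 1, 0, 0, 0, 0, 0⟩ = y
  intro hv hx hy
  revert hgF hm hx hy
  generalize ru br B v w v' w' l = g
  intro hgF hm hx hy
  obtain ⟨hv1, hv2⟩ := hv
  obtain ⟨f1, f2, f3, f4, f5, f6, f7, f8⟩ := spe_fun H S hp hx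
  obtain ⟨e1, e2, e3, e4, e5, e6, e7, e8⟩ := spe_fun H S hp hy
  obtain ⟨p1, p2, -⟩ := spe_fun H S hp (spe_PX H S hp hx)
  rw [hv1, zero_smul] at f1
  have hFg := A.mv g hgF _ _ h
  have hcm := sc A h hFg f1
  obtain ⟨k, hk⟩ := hcm.eig A h hFg hz0
  obtain ⟨a1, -, a3, -, a5⟩ := tr_eig H S.P hk
  have hsz : ∀ a : K, a • br v v' = 0 → a = 0 := fun a ha => (smul_eq_zero.1 ha).resolve_right hz
  have hq1 : q1 br B v w (g v) = 0 → speO' (B w v') (speP (B w v') (B (br v w) (br v' w')) x) = 0 := by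
    intro h0
    unfold q1 at h0
    rw [f7, zero_smul, add_zero] at h0
    apply hsz
    rw [← p2, h0, map_zero]
  have hq0 : q0 br B v w (g v) = 0 → speO' (B w v') x +
      speO' (B w v') (speP (B w v') (B (br v w) (br v' w')) x) +
      speB (B w v') (B (br v w) (br v' w')) (B (br v v') (br w w')) x = 0 := by
    intro h0
    unfold q0 at h0
    rw [f5, f1, map_zero, zero_smul, add_zero, add_zero, f3] at h0
    apply hsz
    have := congrArg (br v') h0
    rw [map_add, map_add, map_smul, f2, p2, map_zero, H.symm v' v] at this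
    rw [← this]
    module
  rcases hv2 with ⟨hα, hv3⟩ | ⟨hv3, hv4⟩
  · have hk2 : k = z ^ 2 := a1.resolve_right (by rw [f3]; exact hα)
    have b3 := a3.resolve_left (by rw [hk2]; exact k2)
    have b5 := a5.resolve_left (by rw [hk2]; exact k4)
    rw [hk2] at hk
    have hgv := weight_two H S.P k1 k2 k3 k4 hk
    rw [f3] at hgv
    have hgw := (v0a A h hgF hα hgv).1
    have hgs : g (br w (br v v')) = ((speB (B w v') (B (br v w) (br v' w')) (B (br v v') (br w w')) x)⁻¹ * m) •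
        br w (br v v') := by
      rw [(A.aut g hgF).1, hgw, hm, map_smul, map_smul, LinearMap.smul_apply, smul_smul, mul_comm]
    rcases hv3 with h1 | h1 | h1 | h1
    · exact h1 (hq1 b3)
    · exact h1 (hq0 b5)
    · apply h1
      have h0 : B w (br w (br v v')) = 0 := by
        rw [← H.inv w w (br v v'), H.alt, map_zero, LinearMap.zero_apply]
      rw [← e3, hgs, map_smul, h0, smul_zero]
    · apply h1
      rw [hgs, map_smul, spe_X_sx H S] at e1
      rw [hgs, map_smul] at e2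
      have h2 := spe_X_sy H (S.swap H)
      rw [H.symm v' v, H.bsymm v' w] at h2
      rw [h2, smul_smul] at e2
      have e1' := smul_left_injective K hz e1
      have e2' := smul_left_injective K hz e2
      rw [← e2', ← e1']
      ring
  · have c3 : k = z := a3.resolve_right fun h0 => hv3 (hq1 h0)
    have c5 : k = 1 := a5.resolve_right fun h0 => hv4 (hq0 h0)
    exact k5 (c3.symm.trans c5)

/-- Theorem FF: pairs without opposition have commuting tori -/
theorem ff (A : FPS br B F FP) (h : FP v w) (h' : FP v' w') (b0 : B v v' = 0)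
    (b1 : B (br v w) v' = 0) (b2 : B (br v' w') v = 0) : Cm br B v w v' w' := by
  have H := A.lb
  by_cases hz : br v v' = 0
  · exact sc A h h' hz
  have S : SpH br B v w v' w' := ⟨A.pair _ _ h, A.pair _ _ h', b0, b1, b2⟩
  by_cases hp : B v w' = 0
  · exact spe_p0 A h h' S hp
  by_cases hq : B w v' = 0
  · exact (spe_p0 A h' h (S.swap H) (by rw [H.bsymm, hq])).symm
  rw [← Cm.scale A h h' hp]
  have h2 := A.sc _ _ h' _ hp
  have e : B v w' * (B v w')⁻¹ = 1 := mul_inv_cancel₀ hp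
  have S2 : SpH br B v w (B v w' • v') ((B v w')⁻¹ • w') := by
    refine ⟨A.pair _ _ h, A.pair _ _ h2, ?_, ?_, ?_⟩
    · rw [map_smul, b0, smul_zero]
    · rw [map_smul, b1, smul_zero]
    · rw [map_smul, map_smul, LinearMap.map_smul₂, LinearMap.smul_apply, LinearMap.map_smul₂, b2,
        smul_zero, smul_zero]
  have hp2 : B v ((B v w')⁻¹ • w') = 1 := by
    rw [map_smul, smul_eq_mul, mul_comm, e]
  have hq2 : B w (B v w' • v') ≠ 0 := by
    rw [map_smul, smul_eq_mul]
    exact mul_ne_zero hp hq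
  have hz2 : br v (B v w' • v') ≠ 0 := by
    rw [map_smul]
    exact smul_ne_zero hp hz
  by_cases hd : B w (B v w' • v') = 1 ∧
      B (br v w) (br (B v w' • v') ((B v w')⁻¹ • w')) = 0 ∧
      B (br v (B v w' • v')) (br w ((B v w')⁻¹ • w')) = 0
  · exact spe_exc A h h2 S2 hp2 hd.1 hd.2.1 hd.2.2
  · exact spe_gen A h h2 S2 hz2 hp2 hq2 hd

end Pool.Agent.H26.E2
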