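import Pool.Agent.H26.E2.Fr5
import Pool.Agent.H26.E2.Spe
import Pool.Agent.H27.Q8.All

/-!
# E2-26: Proposition C for a field with 8 elements

`cm_all (fps H X) (ff ..)`: the tori of all `F`-pairs commute.  So for `g ∈ F` and roots `a`, `b`:
`g h_a(c) g⁻¹` commutes with `h_b(d)` (`te_f` for `g` and for `1`), so with `T1`, so it is in `TT`
(`mem_TT_of_comm`).  So `g T1 g⁻¹ ≤ TT` (`T1` is generated by the `h_a(c)`), `g ∈ NN`
(`mem_NN_of_conj_TT`).  So `F ≤ NN`, contradiction to `X.hN`.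
-/

namespace Pool.Agent.H26.E2

open Pool.Agent.H33.EQ Pool.Agent.H27.Q8

variable {n : ℕ} {C : Matrix (Fin n) (Fin n) ℤ} {K : Type} [Field K] [Fintype (Rt C)]
variable {F : Subgroup (LL C K ≃ₗ[K] LL C K)}

theorem no_ctx8 (H : Hyp C K) (X : Ctx F) : False := by
  apply X.hN
  intro g hg
  have A := fps H X
  refine mem_NN_of_conj_TT H (X.hF hg) fun t ht => ?_
  have hle : T1 C K ≤ (TT C K).comap (MulAut.conj g).toMonoidHom := by
    rw [T1, Subgroup.closure_le]
    rintro _ ⟨a, c, rfl⟩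
    change g * hd C a.1 c * g⁻¹ ∈ TT C K
    have hgF : g * hd C a.1 c * g⁻¹ ∈ F :=
      mul_mem (mul_mem hg (X.hT (hd_mem_T1 H _ _))) (inv_mem hg)
    refine mem_TT_of_comm H (X.hF hgF) fun t ht => ?_
    have hle2 : T1 C K ≤ Subgroup.centralizer {g * hd C a.1 c * g⁻¹} := by
      rw [T1, Subgroup.closure_le]
      rintro _ ⟨b, d, rfl⟩
      have h1 : FPr F (g (e K a)) (g (e K (ng a))) := ⟨g, hg, a, rfl, rfl⟩
      have h2 : FPr F (e K b) (e K (ng b)) := ⟨1, one_mem _, b, rfl, rfl⟩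
      have h3 := cm_all A (fun v w v' w' h h' b0 b1 b2 => ff A h h' b0 b1 b2) h1 h2
        (c : K) (d : K) c.ne_zero d.ne_zero
      have e1 := te_f H (X.hF hg) a c
      have e2 : te (br : LL C K →ₗ[K] LL C K →ₗ[K] LL C K) fm (e K b) (e K (ng b)) (d : K)
          = hd C b.1 d := by
        have := te_f H (one_mem (GG C K)) b d
        rw [one_mul, inv_one, mul_one] at this
        exact this
      rw [e1, e2] at h3
      exact Subgroup.mem_centralizer_singleton_iff.2 h3.symm
    exact (Subgroup.mem_centralizer_singleton_iff.1 (hle2 ht)).symm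
  exact hle ht

end Pool.Agent.H26.E2
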