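import Pool.Agent.H33.EQ.Nor
import Pool.Agent.H26.E2.FPS

/-!
# E2-20: the root pairs

* `lbE`: `fm` is alternating, `2 = 0` (`H.two`), Jacobi identity and invariance of `fm` (files `Jac`,
  `Inv`; signs disappear since `-x = x`).
* `ext_e`: (P0), (P2) for `e a` (the definition of `IsExt` in `EQ.Defs` and the theorem that root
  vectors are extremal; signs do not matter).
* `pair_e`: `fm (e a) (e (ng a)) = ±1 = 1`, `br (e a) (e (ng a)) = ± h_a ≠ 0` (`h_a = 0` would give
  `(a,y) = 0` in `K` for all `y`, but there is a root `y` with `(y,a) = 1`: `H.ra`).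
* `tr_e`: the torus element of the pair `(e a, e (ng a))` is `hd a c`: both sides are linear
  (`tr_add`, `tr_smul`), compare on `hh h` (`B w h = 0`, `[w,h] = (h,a) w`,
  `[v,[w,h]] = (h,a) h_a`, `B h_a h = (h,a)`: sum 0) and on `e b`: `(a,b) = 1`:
  `[v,[w,e b]] = e b` (`e_(-a)`, `e_(b-a)`), `B h_a (e b) = 0`, `[v, e b] = 0`; `(a,b) = -1`:
  `[w,[v,e b]] = e b`, `[w, e b] = 0`; `(a,b) = 0`: both brackets 0; `b = ±a`: `tr_v`, `tr_w`.
-/

namespace Pool.Agent.H26.E2

open Pool.Agent.H33.EQ

variable {n : ℕ} {C : Matrix (Fin n) (Fin n) ℤ} {K : Type} [Field K] [Fintype (Rt C)]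

theorem fr0_neg (H : Hyp C K) {M : Type*} [AddCommGroup M] [Module K M] (x : M) : -x = x := by
  rw [neg_eq_iff_add_eq_zero, ← two_smul K x, H.two, zero_smul]

theorem fr0_one (H : Hyp C K) : (-1 : K) = 1 := fr0_neg H (1 : K)

theorem fr0_11 (H : Hyp C K) : (1 : K) + 1 = 0 := by rw [one_add_one_eq_two, H.two]

theorem fr0_dd (H : Hyp C K) {M : Type*} [AddCommGroup M] [Module K M] (x : M) :
    x + x = 0 := by
  rw [← two_smul K x, H.two, zero_smul]

theorem fr0_ek (H : Hyp C K) (x y : Fin n → ℤ) : ek K C x y = 1 := by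
  unfold ek
  rcases Int.units_eq_one_or (eps C x y) with h | h
  · rw [h]
    simp
  · rw [h]
    simpa using fr0_one H

theorem lbE (H : Hyp C K) : LB (br : LL C K →ₗ[K] LL C K →ₗ[K] LL C K) fm where
  two := H.two
  alt := fun x => br_self H x
  jac := fun x y z => by
    rw [jac H x y z, add_assoc, fr0_dd H, add_zero]
  balt := fun x => fm_self H x
  inv := fun x y z => by
    rw [br_skew H x y, map_neg, LinearMap.neg_apply, fm_inv H y x z, neg_neg]

theorem ext_e (H : Hyp C K) (a : Rt C) :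
    Ext2 (br : LL C K →ₗ[K] LL C K →ₗ[K] LL C K) fm (e K a) := by
  have h0 : ∀ x : LL C K, br (e K a) (br (e K a) x) = 0 := by
    intro x
    rw [(isExt_e H a).1 x, H.two, neg_zero, zero_mul, zero_smul]
  refine ⟨h0, fun x y => ?_⟩
  have h1 := (isExt_e H a).2 y x
  rw [jac H (e K a) y (br (e K a) x), h0 x, map_zero, add_zero, h1, sub_eq_add_neg,
    sub_eq_add_neg, lneg H, lneg H]
  abel

theorem pair_e (H : Hyp C K) (a : Rt C) :
    Pair2 (br : LL C K →ₗ[K] LL C K →ₗ[K] LL C K) fm (e K a) (e K (ng a)) where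
  ev := ext_e H a
  ew := ext_e H (ng a)
  one := by rw [fm_e_left, e_snd_self, fr0_one H]
  hne := by
    rw [br_e_ng H a]
    intro h
    obtain ⟨y, hy⟩ := exists_one H a
    have h1 : (zk a.1 : Fin n → K) = 0 := by
      have h2 := congrArg Prod.fst (neg_eq_zero.1 h)
      exact h2
    have h2 : fk C (zk y.1 : Fin n → K) (zk a.1) = 1 := by
      rw [fk_zk_zk, hy, Int.cast_one]
    rw [h1, fk_zero_right] at h2
    exact zero_ne_one h2

theorem fr0_fm_ee {a b : Rt C} (h : b ≠ ng a) : fm (e K a) (e K b) = 0 := by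
  rw [fm_e_left, e_snd_ne (fun h1 => h h1.symm), neg_zero]

theorem fr0_hB (H : Hyp C K) (a b : Rt C) :
    fm (br (e K a) (e K (ng a)) : LL C K) (e K b) = 0 := by
  rw [br_e_ng H a, map_neg, LinearMap.neg_apply, fm_hh_left, e_fst, fk_zero_right, neg_zero]

theorem fr0_brw (H : Hyp C K) {a b : Rt C} (h : ip C a.1 b.1 = 1) :
    br (e K a) (br (e K (ng a)) (e K b)) = e K b := by
  have h1 : ip C (b.1 - a.1) (b.1 - a.1) = 2 := root_sub H (by rw [ip_comm H.symm]; exact h)
  have e1 : br (e K (ng a)) (e K b) = ek K C (ng a).1 b.1 • e K (⟨b.1 - a.1, h1⟩ : Rt C) :=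
    br_e_e_add H (by rw [ng_val]; exact sub_eq_neg_add _ _)
  have e2 : br (e K a) (e K (⟨b.1 - a.1, h1⟩ : Rt C)) = ek K C a.1 (b.1 - a.1) • e K b :=
    br_e_e_add H (add_sub_cancel a.1 b.1).symm
  rw [e1, map_smul, e2, fr0_ek H, fr0_ek H, one_smul, one_smul]

theorem tr_e (H : Hyp C K) (a : Rt C) (c : Kˣ) (x : LL C K) :
    tr (br : LL C K →ₗ[K] LL C K →ₗ[K] LL C K) fm (e K a) (e K (ng a)) (c : K) x
      = hd C a.1 c x := by
  have L := lbE H
  have P := pair_e H a
  have key : (⟨⟨fun x => tr (br : LL C K →ₗ[K] LL C K →ₗ[K] LL C K) fm (e K a) (e K (ng a)) (c : K) x,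
      tr_add _⟩, tr_smul _⟩ : LL C K →ₗ[K] LL C K) = (hd C a.1 c).toLinearMap := by
    refine ext_basis ?_ ?_
    · intro h
      show tr (br : LL C K →ₗ[K] LL C K →ₗ[K] LL C K) fm (e K a) (e K (ng a)) (c : K) (hh C h)
        = hd C a.1 c (hh C h)
      have e1 : fm (e K (ng a)) (hh C h) = 0 := by rw [fm_e_left, hh_snd, neg_zero]
      have e2 : fm (e K a) (hh C h) = 0 := by rw [fm_e_left, hh_snd, neg_zero]
      have e3 : br (e K a) (br (e K (ng a)) (hh C h)) +
          fm (br (e K a) (e K (ng a)) : LL C K) (hh C h) • br (e K a) (e K (ng a)) = 0 := by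
        rw [br_e_hh, map_smul, br_e_ng H a, map_neg, LinearMap.neg_apply, fm_hh_left, hh_fst,
          ng_val, zk_neg, fk_neg_right, fk_comm H h, neg_neg]
        simp only [fr0_neg H]
        exact fr0_dd H _
      have e4 : br (e K (ng a)) (br (e K a) (hh C h)) +
          fm (br (e K a) (e K (ng a)) : LL C K) (hh C h) • br (e K a) (e K (ng a)) = 0 := by
        rw [br_e_hh, map_smul, L.symm (e K (ng a)) (e K a), br_e_ng H a, map_neg,
          LinearMap.neg_apply, fm_hh_left, hh_fst, fk_comm H h]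
        simp only [fr0_neg H]
        exact fr0_dd H _
      unfold tr
      rw [e1, e2, e3, e4, hd_hh]
      simp
    · intro b
      show tr (br : LL C K →ₗ[K] LL C K →ₗ[K] LL C K) fm (e K a) (e K (ng a)) (c : K) (e K b)
        = hd C a.1 c (e K b)
      rw [hd_e]
      rcases ip_cases H a b with h | h | h | h | h
      · subst h
        rw [tr_w L P, ng_val, ip_neg_right, a.2]
        congr 1
        rw [zpow_neg, Units.val_inv_eq_inv_val, inv_pow]
        norm_cast
      · have hb1 : b ≠ ng a := by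
          intro h1
          rw [h1, ng_val, ip_neg_right, a.2] at h
          omega
        have hb2 : b ≠ ng (ng a) := by
          rw [ng_ng]
          intro h1
          rw [h1, a.2] at h
          omega
        have h' : ip C (ng a).1 b.1 = 1 := by rw [ng_val, ip_neg_left, h, neg_neg]
        have e1 : br (e K (ng a)) (e K b) = 0 := br_e_e_zero H (by rw [h']; norm_num)
        have e2 := fr0_brw H h'
        rw [ng_ng] at e2
        unfold tr
        rw [fr0_fm_ee hb1, fr0_fm_ee hb2, fr0_hB H, e1, e2, h]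
        simp only [map_zero, mul_zero, zero_smul, add_zero, smul_zero]
        rw [add_smul, one_smul, add_comm, add_assoc, fr0_dd H, add_zero, zpow_neg, zpow_one,
          Units.val_inv_eq_inv_val]
      · have hb1 : b ≠ ng a := by
          intro h1
          rw [h1, ng_val, ip_neg_right, a.2] at h
          omega
        have hb2 : b ≠ ng (ng a) := by
          rw [ng_ng]
          intro h1
          rw [h1, a.2] at h
          omega
        have h' : ip C (ng a).1 b.1 = 0 := by rw [ng_val, ip_neg_left, h, neg_zero]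
        have e1 : br (e K (ng a)) (e K b) = 0 := br_e_e_zero H (by rw [h'])
        have e2 : br (e K a) (e K b) = 0 := br_e_e_zero H (by rw [h])
        unfold tr
        rw [fr0_fm_ee hb1, fr0_fm_ee hb2, fr0_hB H, e1, e2, h]
        simp
      · have hb1 : b ≠ ng a := by
          intro h1
          rw [h1, ng_val, ip_neg_right, a.2] at h
          omega
        have hb2 : b ≠ ng (ng a) := by
          rw [ng_ng]
          intro h1
          rw [h1, a.2] at h
          omega
        have e1 : br (e K a) (e K b) = 0 := br_e_e_zero H (by rw [h]; norm_num)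
        have e2 := fr0_brw H h
        unfold tr
        rw [fr0_fm_ee hb1, fr0_fm_ee hb2, fr0_hB H, e1, e2, h]
        simp only [map_zero, mul_zero, zero_smul, add_zero, smul_zero]
        rw [add_smul, one_smul, add_comm, add_assoc, fr0_dd H, add_zero, zpow_one]
      · subst h
        rw [tr_v L P, b.2]
        congr 1
  have h2 := LinearMap.congr_fun key x
  exact h2

/-- automorphisms preserve the identities -/
theorem pair_g (H : Hyp C K) {g : LL C K ≃ₗ[K] LL C K} (hg : g ∈ GG C K) (a : Rt C) :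
    Pair2 (br : LL C K →ₗ[K] LL C K →ₗ[K] LL C K) fm (g (e K a)) (g (e K (ng a))) := by
  have hex : ∀ b : Rt C, Ext2 (br : LL C K →ₗ[K] LL C K →ₗ[K] LL C K) fm (g (e K b)) := by
    intro b
    have hb := ext_e H b
    refine ⟨fun x => ?_, fun x y => ?_⟩
    · obtain ⟨x, rfl⟩ := g.surjective x
      rw [← hg.1, ← hg.1, hb.p0, map_zero]
    · obtain ⟨x, rfl⟩ := g.surjective x
      obtain ⟨y, rfl⟩ := g.surjective y
      rw [← hg.1, ← hg.1, ← hg.1, hb.p2, ← hg.1, hg.2, hg.2, hg.2, ← hg.1, map_add, map_add,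
        map_smul, map_smul, map_smul]
  have P := pair_e H a
  refine ⟨hex a, hex (ng a), by rw [hg.2]; exact P.one, ?_⟩
  rw [← hg.1]
  intro h
  exact P.hne ((map_eq_zero_iff g g.injective).1 h)

theorem tr_g (H : Hyp C K) {g : LL C K ≃ₗ[K] LL C K} (hg : g ∈ GG C K) (a : Rt C) (c : Kˣ)
    (x : LL C K) :
    tr (br : LL C K →ₗ[K] LL C K →ₗ[K] LL C K) fm (g (e K a)) (g (e K (ng a))) (c : K) x
      = (g * hd C a.1 c * g⁻¹) x := by
  have h1 : g (g⁻¹ x) = x := g.apply_symm_apply x
  have h2 := map_tr g hg.1 hg.2 (v := e K a) (w := e K (ng a)) (c : K) (g⁻¹ x)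
  rw [h1] at h2
  rw [← h2, tr_e H]
  rfl

end Pool.Agent.H26.E2
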