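import Pool.Agent.H33.EQ.CCa
import Pool.Agent.H26.E2.Fr0

/-!
# E2-21: V0 and EV in the frame
-/

namespace Pool.Agent.H26.E2

open Pool.Agent.H33.EQ

variable {n : ℕ} {C : Matrix (Fin n) (Fin n) ℤ} {K : Type} [Field K] [Fintype (Rt C)]
variable {F : Subgroup (LL C K ≃ₗ[K] LL C K)}

/-! ### the field -/

theorem Fr1_charP (H : Hyp C K) : CharP K 2 :=
  CharTwo.of_one_ne_zero_of_two_eq_zero one_ne_zero H.two

/-- `c^7 = 1` -/
theorem unit_pow7 (H : Hyp C K) (c : Kˣ) : c ^ 7 = 1 := by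
  have h8 := Pool.Agent.H27.Q8.pow8 H.card (c : K)
  have h1 : (c : K) * ((c : K) ^ 7 - 1) = 0 := by linear_combination h8
  rcases mul_eq_zero.1 h1 with h | h
  · exact absurd h c.ne_zero
  · refine Units.ext ?_
    rw [Units.val_pow_eq_pow_val, Units.val_one]
    linear_combination h

/-- a unit `≠ 1` has order 7 -/
theorem unit_zpow_ne (H : Hyp C K) {c : Kˣ} (hc : c ≠ 1) (j : ℤ) (h0 : 0 < j) (h1 : j < 7) :
    c ^ j ≠ 1 := by
  intro h
  have hp : Fact (Nat.Prime 7) := ⟨by norm_num⟩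
  have ho : orderOf c = 7 := orderOf_eq_prime (unit_pow7 H c) hc
  have h2 := orderOf_dvd_iff_zpow_eq_one.2 h
  rw [ho] at h2
  have := Int.le_of_dvd h0 h2
  norm_num at this
  omega

/-- a generator -/
theorem exists_unit (H : Hyp C K) : ∃ z : Kˣ, z ≠ 1 := by
  obtain ⟨z, hz, -, -, hz1, -⟩ := exists_zeta H.card H.two
  refine ⟨Units.mk0 z hz, fun h => ?_⟩
  have h2 := congrArg Units.val h
  rw [Units.val_mk0, Units.val_one] at h2
  exact hz1 1 (by norm_num) (by norm_num) (by rw [pow_one, h2])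

/-- all units are powers of a unit `≠ 1` -/
theorem unit_gen (H : Hyp C K) {d : Kˣ} (hd : d ≠ 1) (c : Kˣ) : ∃ m : ℕ, c = d ^ m := by
  obtain ⟨k, -, hk⟩ := pow_gen8 H.card (d := (d : K)) d.ne_zero
    (fun h => hd (Units.ext (by rw [h, Units.val_one]))) (c : K) c.ne_zero
  exact ⟨k, Units.ext (by rw [hk, Units.val_pow_eq_pow_val])⟩

/-! ### EV -/

theorem ev' (H : Hyp C K) {m : LL C K ≃ₗ[K] LL C K} (hm : m ∈ NN C K) (h7 : m ^ 7 = 1) (z : K)
    (hz : z ^ 7 = 1) (hno : ∀ x : LL C K, m x = z • x → x = 0) : m ∈ TT C K := by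
  obtain ⟨w, k, hk, hw, -, -, -⟩ := NN_perm H hm
  refine mem_TT_of H hm.1 fun b => ?_
  by_cases hb : w b = b
  · exact ⟨k b, by rw [hw, hb]⟩
  exfalso
  have hz0 : z ≠ 0 := by
    rintro rfl
    norm_num at hz
  have hpow : ∀ i : ℕ, ∃ s : K, s ≠ 0 ∧ (m ^ i) (e K b) = s • e K ((w ^ i) b) := by
    intro i
    induction i with
    | zero => exact ⟨1, one_ne_zero, by simp⟩
    | succ i ih =>
      obtain ⟨s, hs, h1⟩ := ih
      refine ⟨s * k ((w ^ i) b), mul_ne_zero hs (hk _), ?_⟩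
      rw [pow_succ', LinearEquiv.mul_apply, h1, map_smul, hw, smul_smul, pow_succ',
        Equiv.Perm.mul_apply]
  have hw7 : (w ^ 7) b = b := by
    obtain ⟨s, hs, h1⟩ := hpow 7
    rw [h7] at h1
    have h2 : (1 : K) • e K b = s • e K ((w ^ 7) b) := by rw [one_smul]; exact h1
    exact (nor_root_eq one_ne_zero h2).symm
  have hper : Function.minimalPeriod w b = 7 := by
    have h1 : Function.minimalPeriod w b ∣ 7 := by
      apply Function.IsPeriodicPt.minimalPeriod_dvd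
      show (w^[7]) b = b
      rw [← Equiv.Perm.coe_pow]
      exact hw7
    rcases (Nat.dvd_prime (by norm_num : Nat.Prime 7)).1 h1 with h2 | h2
    · exact absurd (Function.minimalPeriod_eq_one_iff_isFixedPt.1 h2) hb
    · exact h2
  have hdist : ∀ i : ℕ, 0 < i → i < 7 → (w ^ i) b ≠ b := by
    intro i hi hi7 h1
    have h2 : Function.IsPeriodicPt w i b := by
      show w^[i] b = b
      rw [← Equiv.Perm.coe_pow]
      exact h1
    have h3 := h2.minimalPeriod_le hi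
    omega
  -- the eigenvector
  have hx : ∑ i ∈ Finset.range 7, (z⁻¹ ^ i) • (m ^ i) (e K b) = 0 := by
    apply hno
    rw [map_sum, Finset.smul_sum, Finset.sum_range_succ, Finset.sum_range_succ' (n := 6)]
    have h6 : m (z⁻¹ ^ 6 • (m ^ 6) (e K b)) = z • (z⁻¹ ^ 0 • (m ^ 0) (e K b)) := by
      rw [map_smul, ← LinearEquiv.mul_apply, ← pow_succ', h7, pow_zero, pow_zero, one_smul]
      congr 1
      have : z⁻¹ ^ 7 = 1 := by rw [inv_pow, hz, inv_one]
      have e1 : z * z⁻¹ = 1 := mul_inv_cancel₀ hz0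
      calc z⁻¹ ^ 6 = (z * z⁻¹) * z⁻¹ ^ 6 := by rw [e1, one_mul]
        _ = z * z⁻¹ ^ 7 := by rw [pow_succ' z⁻¹ 6, mul_assoc]
        _ = z := by rw [this, mul_one]
    rw [h6]
    congr 1
    refine Finset.sum_congr rfl fun i _ => ?_
    rw [map_smul, ← LinearEquiv.mul_apply, ← pow_succ', smul_smul, pow_succ' z⁻¹, ← mul_assoc,
      mul_inv_cancel₀ hz0, one_mul]
  have h1 := congrFun (congrArg Prod.snd hx) b
  rw [Prod.snd_sum, Finset.sum_apply, Finset.sum_eq_single 0] at h1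
  · have h2 : (1 : K) = 0 := by
      have h3 : (z⁻¹ ^ 0 • (m ^ 0) (e K b) : LL C K).2 b = 1 := by
        rw [pow_zero, one_smul, pow_zero]
        exact e_snd_self b
      rw [← h3]
      exact h1
    exact one_ne_zero h2
  · intro i hi hi0
    obtain ⟨s, -, h3⟩ := hpow i
    rw [h3]
    show z⁻¹ ^ i * (s * (e K ((w ^ i) b)).2 b) = 0
    rw [e_snd_ne (hdist i (Nat.pos_of_ne_zero hi0) (Finset.mem_range.1 hi)).symm, mul_zero,
      mul_zero]
  · intro h
    exact absurd (Finset.mem_range.2 (by norm_num)) h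

/-- a conjugate of a coroot torus element in `NN` is in `TT` -/
theorem ev (H : Hyp C K) {g : LL C K ≃ₗ[K] LL C K} (hg : g ∈ GG C K) (a : Rt C) (c : Kˣ)
    (h : g * hd C a.1 c * g⁻¹ ∈ NN C K) : g * hd C a.1 c * g⁻¹ ∈ TT C K := by
  have h7 : (g * hd C a.1 c * g⁻¹) ^ 7 = 1 := by
    have h1 : (hd C a.1 c : LL C K ≃ₗ[K] LL C K) ^ 7 = 1 := by
      refine LinearEquiv.ext fun x => ?_
      have h2 : ∀ m : ℕ, ((hd C a.1 c : LL C K ≃ₗ[K] LL C K) ^ m) x =
          (x.1, fun r => ((c ^ (ip C a.1 r.1) : Kˣ) : K) ^ m * x.2 r) := by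
        intro m
        induction m with
        | zero =>
          refine Prod.ext rfl (funext fun r => ?_)
          show x.2 r = ((c ^ (ip C a.1 r.1) : Kˣ) : K) ^ 0 * x.2 r
          rw [pow_zero, one_mul]
        | succ m ih =>
          rw [pow_succ', LinearEquiv.mul_apply, ih]
          refine Prod.ext rfl (funext fun r => ?_)
          show ((c ^ (ip C a.1 r.1) : Kˣ) : K) * (((c ^ (ip C a.1 r.1) : Kˣ) : K) ^ m * x.2 r) =
            ((c ^ (ip C a.1 r.1) : Kˣ) : K) ^ (m + 1) * x.2 r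
          ring
      rw [h2]
      refine Prod.ext rfl (funext fun r => ?_)
      show ((c ^ (ip C a.1 r.1) : Kˣ) : K) ^ 7 * x.2 r = x.2 r
      rw [← Units.val_pow_eq_pow_val, unit_pow7 H, Units.val_one, one_mul]
    rw [conj_pow, h1]
    group
  by_cases hc : c = 1
  · have h1 : (hd C a.1 c : LL C K ≃ₗ[K] LL C K) = 1 := by
      refine LinearEquiv.ext fun x => Prod.ext rfl (funext fun r => ?_)
      show ((c ^ (ip C a.1 r.1) : Kˣ) : K) * x.2 r = x.2 r
      rw [hc, one_zpow, Units.val_one, one_mul]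
    rw [h1, mul_one, mul_inv_cancel]
    exact one_mem _
  refine ev' H h h7 ((c ^ (3 : ℤ) : Kˣ) : K) ?_ ?_
  · rw [← Units.val_pow_eq_pow_val, unit_pow7 H, Units.val_one]
  · intro x hx
    have h1 : hd C a.1 c (g⁻¹ x) = ((c ^ (3 : ℤ) : Kˣ) : K) • g⁻¹ x := by
      apply g.injective
      rw [map_smul, nor_inv_apply]
      exact hx
    have h2 : g⁻¹ x = 0 := by
      have h3 : (g⁻¹ x).1 = ((c ^ (3 : ℤ) : Kˣ) : K) • (g⁻¹ x).1 := congrArg Prod.fst h1
      have h4 : ∀ b, ((c ^ (ip C a.1 b.1) : Kˣ) : K) * (g⁻¹ x).2 b =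
          ((c ^ (3 : ℤ) : Kˣ) : K) * (g⁻¹ x).2 b := fun b => congrFun (congrArg Prod.snd h1) b
      refine Prod.ext ?_ (funext fun b => ?_)
      · by_contra hne
        have h5 : (1 : K) • (g⁻¹ x).1 = ((c ^ (3 : ℤ) : Kˣ) : K) • (g⁻¹ x).1 := by
          rw [one_smul]
          exact h3
        have h6 := smul_left_injective K hne h5
        exact unit_zpow_ne H hc 3 (by norm_num) (by norm_num)
          (Units.ext (by rw [← h6, Units.val_one]))
      · by_contra hne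
        have h5 := mul_right_cancel₀ hne (h4 b)
        have h6 : c ^ (ip C a.1 b.1) = c ^ (3 : ℤ) := Units.ext h5
        have h7 : c ^ (3 - ip C a.1 b.1) = 1 := by
          rw [zpow_sub, h6, mul_inv_cancel]
        have h8 := ip_le_two H a b
        have h9 := neg_two_le_ip H a b
        exact unit_zpow_ne H hc _ (by omega) (by omega) h7
    rw [← nor_inv_apply g x, h2, map_zero]

/-! ### V0 -/

theorem par_of_line (H : Hyp C K) {g : LL C K ≃ₗ[K] LL C K} (hg : g ∈ GG C K) {a : Rt C} {k : K}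
    (h : g (e K a) = k • e K a) : g ∈ Par C K a.1 :=
  ⟨hg, fun i x => Fil_map H hg h i x⟩

/-- the stabiliser of `K e_a` in `F` centralises `H_a` -/
theorem stab_comm (H : Hyp C K) (X : Ctx F)
    {f : LL C K ≃ₗ[K] LL C K} (hf : f ∈ F) {a : Rt C} {k : K} (h : f (e K a) = k • e K a)
    (c : Kˣ) : f * hd C a.1 c = hd C a.1 c * f := by
  have hp : Fact (Nat.Prime 2) := ⟨by norm_num⟩
  have hch := Fr1_charP H
  have hh1 : hd C a.1 c ∈ T1 C K := hd_mem_T1 H a.1 c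
  have hbot : F ⊓ Rad H a.1 = ⊥ := by
    have h1 := pg H (p := 2) (F ⊓ Rad H a.1) ((Rad_pgroup H a.1).to_le inf_le_right)
      (inf_le_left.trans X.hF) (fun t ht u hu =>
        Subgroup.mem_inf.2 ⟨mul_mem (mul_mem (X.hT ht) hu.1) (inv_mem (X.hT ht)),
          Rad_normal H (TT_le_Par H _ (T1_le_TT H ht)) hu.2⟩)
    rw [eq_bot_iff]
    refine h1.trans ?_
    rw [Subgroup.closure_le]
    rintro g ⟨b, hb, s, rfl⟩
    exact absurd (fun s => (hb s).1) (X.hS b)
  have hfP : f ∈ Par C K a.1 := par_of_line H (X.hF hf) h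
  have hhP : hd C a.1 c ∈ Par C K a.1 := TT_le_Par H _ (hd_mem_TT H _ _)
  have h2 : f * hd C a.1 c * f⁻¹ * (hd C a.1 c)⁻¹ ∈ F ⊓ Rad H a.1 := by
    refine Subgroup.mem_inf.2
      ⟨mul_mem (mul_mem (mul_mem hf (X.hT hh1)) (inv_mem hf)) (inv_mem (X.hT hh1)), ?_⟩
    let f' : Par C K a.1 := ⟨f, hfP⟩
    let h' : Par C K a.1 := ⟨hd C a.1 c, hhP⟩
    show ((f' * h' * f'⁻¹ * h'⁻¹ : Par C K a.1) : LL C K ≃ₗ[K] LL C K) ∈ Rad H a.1
    rw [mem_Rad, map_mul, map_mul, map_mul, map_inv, map_inv]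
    have h3 : gr H a.1 h' = hd C a.1 c := gr_TT H (hd_mem_TT H a.1 c)
    rw [h3, gr_comm_hd]
    group
  rw [hbot, Subgroup.mem_bot] at h2
  have h4 : f * hd C a.1 c * f⁻¹ = hd C a.1 c := by
    rwa [mul_inv_eq_one] at h2
  rwa [mul_inv_eq_iff_eq_mul] at h4

/-- the eigenspace of `h_a(ζ)` for `ζ^2` is the root line -/
theorem line_eig (H : Hyp C K) {z : Kˣ} (hz : z ≠ 1) {a : Rt C}
    {x : LL C K} (h : hd C a.1 z x = ((z ^ (2 : ℤ) : Kˣ) : K) • x) : x = x.2 a • e K a := by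
  have h1 : x.1 = ((z ^ (2 : ℤ) : Kˣ) : K) • x.1 := congrArg Prod.fst h
  have h2 : ∀ b, ((z ^ (ip C a.1 b.1) : Kˣ) : K) * x.2 b = ((z ^ (2 : ℤ) : Kˣ) : K) * x.2 b :=
    fun b => congrFun (congrArg Prod.snd h) b
  have hx1 : x.1 = 0 := by
    by_contra hne
    have h3 : (1 : K) • x.1 = ((z ^ (2 : ℤ) : Kˣ) : K) • x.1 := by rw [one_smul]; exact h1
    have h4 := smul_left_injective K hne h3
    exact unit_zpow_ne H hz 2 (by norm_num) (by norm_num)
      (Units.ext (by rw [← h4, Units.val_one]))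
  refine Prod.ext ?_ (funext fun b => ?_)
  · rw [hx1, Prod.smul_fst, e_fst, smul_zero]
  · show x.2 b = x.2 a * (e K a).2 b
    by_cases hb : b = a
    · rw [hb, e_snd_self, mul_one]
    · rw [e_snd_ne hb, mul_zero]
      by_contra hne
      have h3 := mul_right_cancel₀ hne (h2 b)
      have h4 : z ^ (ip C a.1 b.1) = z ^ (2 : ℤ) := Units.ext h3
      have h5 : z ^ (2 - ip C a.1 b.1) = 1 := by
        rw [zpow_sub, h4, mul_inv_cancel]
      have h6 := ip_le_two H a b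
      have h7 := neg_two_le_ip H a b
      have h8 : ip C a.1 b.1 ≠ 2 := by
        intro h9
        exact hb (eq_of_ip_two H h9).symm
      exact unit_zpow_ne H hz _ (by omega) (by omega) h5

theorem hd_ng (a : Rt C) (c : Kˣ) :
    (hd C (ng a).1 c : LL C K ≃ₗ[K] LL C K) = (hd C a.1 c)⁻¹ := by
  apply eq_inv_of_mul_eq_one_left
  rw [← hd_add]
  have : (ng a).1 + a.1 = 0 := by
    rw [ng_val, neg_add_cancel]
  rw [this, TorA_hd_zero]

theorem hd_pow (y : Fin n → ℤ) (c : Kˣ) (m : ℕ) :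
    (hd C y (c ^ m) : LL C K ≃ₗ[K] LL C K) = hd C y c ^ m := by
  induction m with
  | zero =>
    refine LinearEquiv.ext fun x => Prod.ext rfl (funext fun r => ?_)
    show ((((c ^ 0) ^ (ip C y r.1) : Kˣ) : K)) * x.2 r = x.2 r
    rw [pow_zero, one_zpow, Units.val_one, one_mul]
  | succ m ih =>
    rw [pow_succ (hd C y c), ← ih]
    refine LinearEquiv.ext fun x => Prod.ext rfl (funext fun r => ?_)
    show ((((c ^ (m + 1)) ^ (ip C y r.1) : Kˣ) : K)) * x.2 r =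
      ((((c ^ m) ^ (ip C y r.1) : Kˣ) : K)) * (((c ^ (ip C y r.1) : Kˣ) : K) * x.2 r)
    rw [pow_succ, mul_zpow, Units.val_mul, mul_assoc]

/-- the eigenspace of `h_a(ζ)` for `ζ^(-2)` -/
theorem line_eig' (H : Hyp C K) {z : Kˣ} (hz : z ≠ 1) {a : Rt C}
    {x : LL C K} (h : hd C a.1 z x = ((z ^ (-2 : ℤ) : Kˣ) : K) • x) :
    x = x.2 (ng a) • e K (ng a) := by
  refine line_eig H hz ?_
  rw [hd_ng]
  have h1 : x = (hd C a.1 z)⁻¹ (((z ^ (-2 : ℤ) : Kˣ) : K) • x) := by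
    rw [← h, nor_apply_inv]
  rw [map_smul] at h1
  conv_rhs => rw [h1]
  rw [smul_smul, ← Units.val_mul, ← zpow_add]
  norm_num

theorem stab_ng (H : Hyp C K) (X : Ctx F) {z : Kˣ} (hz : z ≠ 1)
    {f : LL C K ≃ₗ[K] LL C K} (hf : f ∈ F) {a : Rt C} {k : K} (h : f (e K a) = k • e K a) :
    f (e K (ng a)) = k⁻¹ • e K (ng a) := by
  have h1 := stab_comm H X hf h z
  have h2 : hd C a.1 z (f (e K (ng a))) = ((z ^ (-2 : ℤ) : Kˣ) : K) • f (e K (ng a)) := by
    rw [← LinearEquiv.mul_apply, ← h1, LinearEquiv.mul_apply, hd_e, map_smul, ng_val,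
      ip_neg_right, a.2]
  have h3 := line_eig' H hz h2
  have h4 := (X.hF hf).2 (e K a) (e K (ng a))
  rw [h, h3] at h4
  simp only [map_smul, LinearMap.smul_apply, smul_eq_mul, fm_e_left, e_snd_self] at h4
  have h5 : k * (f (e K (ng a))).2 (ng a) = 1 := by linear_combination -h4
  have h6 : (f (e K (ng a))).2 (ng a) = k⁻¹ := by
    exact eq_inv_of_mul_eq_one_right h5
  rw [h6] at h3
  exact h3

theorem v0_root (H : Hyp C K) (X : Ctx F) {g : LL C K ≃ₗ[K] LL C K} (hg : g ∈ F) {a b : Rt C}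
    {k : K} (h : g (e K b) = k • e K a) : g (e K (ng b)) = k⁻¹ • e K (ng a) := by
  obtain ⟨z, hz⟩ := exists_unit H
  have hk0 : k ≠ 0 := by
    rintro rfl
    rw [zero_smul] at h
    exact e_ne_zero b (g.map_eq_zero_iff.1 h)
  have ht : g * hd C b.1 z * g⁻¹ ∈ F := mul_mem (mul_mem hg (X.hT (hd_mem_T1 H _ _))) (inv_mem hg)
  have h0 : g⁻¹ (e K a) = k⁻¹ • e K b := by
    apply g.injective
    rw [nor_inv_apply, map_smul, h, smul_smul, inv_mul_cancel₀ hk0, one_smul]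
  have h1 : (g * hd C b.1 z * g⁻¹) (e K a) = ((z ^ (2 : ℤ) : Kˣ) : K) • e K a := by
    rw [LinearEquiv.mul_apply, LinearEquiv.mul_apply, h0, map_smul, hd_e, b.2, map_smul, map_smul, h,
      smul_smul, smul_smul]
    congr 1
    field_simp
  have h2 := stab_ng H X hz ht h1
  have h3 : hd C b.1 z (g⁻¹ (e K (ng a))) = ((z ^ (-2 : ℤ) : Kˣ) : K) • g⁻¹ (e K (ng a)) := by
    apply g.injective
    rw [map_smul, nor_inv_apply]
    rw [LinearEquiv.mul_apply, LinearEquiv.mul_apply] at h2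
    rw [h2, ← Units.val_inv_eq_inv_val, ← zpow_neg]
  have h4 := line_eig' H hz h3
  set m := (g⁻¹ (e K (ng a))).2 (ng b) with hm
  have h5 : e K (ng a) = m • g (e K (ng b)) := by
    rw [← map_smul, ← h4, nor_inv_apply]
  have hm0 : m ≠ 0 := by
    intro h6
    rw [h6, zero_smul] at h5
    exact e_ne_zero (ng a) h5
  have h6 : g (e K (ng b)) = m⁻¹ • e K (ng a) := by
    rw [h5, smul_smul, inv_mul_cancel₀ hm0, one_smul]
  have h7 := (X.hF hg).2 (e K b) (e K (ng b))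
  rw [h, h6] at h7
  simp only [map_smul, LinearMap.smul_apply, smul_eq_mul, fm_e_left, e_snd_self] at h7
  have h8 : k * m⁻¹ = 1 := by linear_combination -h7
  rw [h6, eq_inv_of_mul_eq_one_right h8]

theorem v0f (H : Hyp C K) (X : Ctx F) {f : LL C K ≃ₗ[K] LL C K} (hf : f ∈ F) {a b : Rt C}
    {k : K} (hk : k ≠ 0) (h : f (e K b) = k • e K a) :
    (∀ c : Kˣ, f * hd C b.1 c * f⁻¹ = hd C a.1 c) ∧ f (e K (ng b)) = k⁻¹ • e K (ng a) := by
  have h2 := v0_root H X hf h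
  refine ⟨fun c => ?_, h2⟩
  refine LinearEquiv.ext fun x => ?_
  rw [← tr_g H (X.hF hf) b c x, h, h2, tr_scale (c : K) k hk, tr_e H]

end Pool.Agent.H26.E2
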