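import Pool.Agent.H26.E2.Fr1

/-!
# E2-22: commuting tori in the frame (CM, COM1)
-/

namespace Pool.Agent.H26.E2

open Pool.Agent.H33.EQ

variable {n : ℕ} {C : Matrix (Fin n) (Fin n) ℤ} {K : Type} [Field K] [Fintype (Rt C)]
variable {F : Subgroup (LL C K ≃ₗ[K] LL C K)}

theorem c1' (H : Hyp C K) (X : Ctx F) {f s : LL C K ≃ₗ[K] LL C K} (hf : f ∈ F) (hs : s ∈ F)
    (hs' : s ∈ TT C K) (hsZ : s ∉ Zc F) (h : f * s = s * f) : f ∈ NN C K := by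
  have hT : T1 C K ≤ F ⊓ Subgroup.centralizer {s} := by
    intro t ht
    refine Subgroup.mem_inf.2 ⟨X.hT ht, ?_⟩
    rw [Subgroup.mem_centralizer_singleton_iff]
    exact TT_comm H (T1_le_TT H ht) hs'
  have hne : F ⊓ Subgroup.centralizer {s} ≠ F := by
    intro he
    apply hsZ
    refine CCa_mk hs fun f hf => ?_
    rw [← he] at hf
    exact Subgroup.mem_centralizer_singleton_iff.1 hf.2
  refine X.hmin _ inf_le_left hT hne (Subgroup.mem_inf.2 ⟨hf, ?_⟩)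
  rw [Subgroup.mem_centralizer_singleton_iff]
  exact h

/-- commuting non central tori are in the same maximal torus -/
theorem ti1 (H : Hyp C K) (X : Ctx F) {g : LL C K ≃ₗ[K] LL C K} (hg : g ∈ F) {a b : Rt C}
    {c0 d0 : Kˣ} (ha : hd C a.1 c0 ∉ Zc F) (hb : hd C b.1 d0 ∉ Zc F)
    (hcomm : hd C a.1 c0 * (g * hd C b.1 d0 * g⁻¹) = (g * hd C b.1 d0 * g⁻¹) * hd C a.1 c0) :
    g ∈ NN C K := by
  have hbF : hd C b.1 d0 ∈ F := X.hT (hd_mem_T1 H _ _)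
  have haF : hd C a.1 c0 ∈ F := X.hT (hd_mem_T1 H _ _)
  have h1 : g * hd C b.1 d0 * g⁻¹ ∈ NN C K :=
    c1' H X (mul_mem (mul_mem hg hbF) (inv_mem hg)) haF (hd_mem_TT H _ _) ha hcomm.symm
  have h2 := ev H (X.hF hg) b d0 h1
  have h3 : g⁻¹ ∈ NN C K := by
    refine lemC H (inv_mem (X.hF hg)) fun t ht => ?_
    refine c1' H X ?_ hbF (hd_mem_TT H _ _) hb ?_
    · rw [inv_inv]
      exact mul_mem (mul_mem (inv_mem hg) (X.hT ht)) hg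
    · rw [inv_inv]
      have h4 := TT_comm H (T1_le_TT H ht) h2
      calc g⁻¹ * t * g * hd C b.1 d0 = g⁻¹ * (t * (g * hd C b.1 d0 * g⁻¹)) * g := by group
        _ = g⁻¹ * ((g * hd C b.1 d0 * g⁻¹) * t) * g := by rw [h4]
        _ = hd C b.1 d0 * (g⁻¹ * t * g) := by group
  exact inv_mem_iff.1 h3

theorem cm (H : Hyp C K) (X : Ctx F) {g : LL C K ≃ₗ[K] LL C K} (hg : g ∈ F) {a b : Rt C}
    (h : ∀ c d : Kˣ, g * hd C b.1 d * g⁻¹ * hd C a.1 c = hd C a.1 c * (g * hd C b.1 d * g⁻¹))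
    (hZ : ∃ c : Kˣ, hd C a.1 c ∉ Zc F) : ∃ (b' : Rt C) (k : K), k ≠ 0 ∧
      g (e K b) = k • e K b' := by
  obtain ⟨c0, hc0⟩ := hZ
  by_cases hb : ∃ d : Kˣ, hd C b.1 d ∉ Zc F
  · obtain ⟨d0, hd0⟩ := hb
    obtain ⟨w, k, hk, hw, -, -, -⟩ := NN_perm H (ti1 H X hg hc0 hd0 (h c0 d0).symm)
    exact ⟨w b, k b, hk b, hw b⟩
  · push Not at hb
    obtain ⟨z, hz⟩ := exists_unit H
    have h1 := CCa_comm (hb z) hg
    have h2 : hd C b.1 z (g (e K b)) = ((z ^ (2 : ℤ) : Kˣ) : K) • g (e K b) := by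
      rw [← LinearEquiv.mul_apply, ← h1, LinearEquiv.mul_apply, hd_e, map_smul, b.2]
    have h3 := line_eig H hz h2
    refine ⟨b, _, ?_, h3⟩
    intro h4
    rw [h4, zero_smul] at h3
    exact e_ne_zero b (g.map_eq_zero_iff.1 h3)

theorem com1f (H : Hyp C K) (X : Ctx F) {g : LL C K ≃ₗ[K] LL C K} (hg : g ∈ F) {a b : Rt C}
    {d : Kˣ} (_hd1 : d ≠ 1)
    (h : ∀ c c' : Kˣ, (g * hd C b.1 d * g⁻¹) * hd C a.1 c' * (g * hd C b.1 d * g⁻¹)⁻¹ *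
      hd C a.1 c = hd C a.1 c *
        ((g * hd C b.1 d * g⁻¹) * hd C a.1 c' * (g * hd C b.1 d * g⁻¹)⁻¹)) (c : Kˣ) :
    (g * hd C b.1 d * g⁻¹) * hd C a.1 c = hd C a.1 c * (g * hd C b.1 d * g⁻¹) := by
  have hgF : g * hd C b.1 d * g⁻¹ ∈ F :=
    mul_mem (mul_mem hg (X.hT (hd_mem_T1 H _ _))) (inv_mem hg)
  by_cases hz : ∀ c, hd C a.1 c ∈ Zc F
  · rw [CCa_comm (hz c) hgF]
  push Not at hz
  obtain ⟨c0, hc0⟩ := hz
  have h1 := ti1 H X hgF hc0 hc0 (h c0 c0).symm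
  have h2 := ev H (X.hF hg) b d h1
  exact TT_comm H h2 (hd_mem_TT H a.1 c)

end Pool.Agent.H26.E2
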