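import Pool.Agent.H27.Q8.Fld

/-!
# E2-19: representations of the additive group of a field with 8 elements in characteristic two

`q : K → End V`, `q 0 = 1`, `q (s + t) = q s * q t`.  Put `Ck q k = ∑_(s ∈ K^*) s^(-k) q s`.
Then the `Ck q k` commute and `q 1 = (1 + Ck q 1) (1 + Ck q 2) (1 + Ck q 4)`.

Proof.  Choose `z ∈ K` with `z³ = z + 1` (its powers are all non zero elements; the file `FPS` has
`exists_zeta`, to be repeated here).  With `a = q 1`, `b = q z`, `c = q z²` (commuting,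
`a² = b² = c² = 1` since `2 = 0`): `q z³ = ab`, `q z⁴ = bc`, `q z⁵ = abc`, `q z⁶ = ac`
(`z⁴ = z² + z`, `z⁵ = z² + z + 1`, `z⁶ = z² + 1`).
`C_k = a + z^(-k) b + z^(-2k) c + z^(-3k) ab + z^(-4k) bc + z^(-5k) abc + z^(-6k) ac`.
The identity `a = (1+C_1)(1+C_2)(1+C_4)` is an identity in a commutative ring with
`2 = 0`, `z³ = z + 1`, `a² = b² = c² = 1` (expand; `C_1C_2 = C_3 := ∑ s^(-3) q s`,
`C_1C_4 = C_5`, `C_2C_4 = C_6`, `C_1C_2C_4 = C_7 := ∑_(s ∈ K) q s`, and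
`1 + ∑_(k=1..7) C_k = q 1 + ...` since `∑_(k=0..6) s^(-k) = 0` for `s ≠ 0, 1`).
E.g. `∑_(k=1..6) C_k = ∑_(s≠0) (∑_(k=1..6) s^(-k)) q s = ∑_(s≠0,1) q s` (char 2; for `s = 1` the
sum is `6 = 0`), and `1 + C_7 = ∑_(s≠0) q s`.  Total: `q 1`.
-/

namespace Pool.Agent.H26.E2

variable {K V : Type} [Field K] [AddCommGroup V] [Module K V]

/-- `∑ s^(-k) q s` over the non zero elements -/
noncomputable def Ck [Fintype Kˣ] (q : K → Module.End K V) (k : ℕ) : Module.End K V :=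
  ∑ s : Kˣ, (((s : K) ^ k)⁻¹) • q (s : K)

theorem Ck_comm [Fintype Kˣ] (q : K → Module.End K V) (hq : ∀ s t, q (s + t) = q s * q t)
    (k l : ℕ) : Ck q k * Ck q l = Ck q l * Ck q k := by
  unfold Ck
  rw [Finset.sum_mul_sum, Finset.sum_mul_sum, Finset.sum_comm]
  apply Finset.sum_congr rfl
  intro s _
  apply Finset.sum_congr rfl
  intro t _
  rw [smul_mul_smul_comm, smul_mul_smul_comm, ← hq, ← hq, add_comm (t : K) (s : K), mul_comm]

theorem Rep_id {R : Type} [CommRing R] (z a b c : R) (h2 : (2 : R) = 0) (hz : z ^ 3 = z + 1)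
    (ha : a ^ 2 = 1) (hb : b ^ 2 = 1) (hc : c ^ 2 = 1) :
    (1 + (a + (z ^ 2 + 1) * b + (z ^ 2 + z + 1) * c + (z ^ 2 + z) * (a * b) + (z + 1) * (b * c) +
      z ^ 2 * (a * b * c) + z * (a * c))) *
    (1 + (a + (z ^ 2 + z + 1) * b + (z + 1) * c + z * (a * b) + (z ^ 2 + 1) * (b * c) +
      (z ^ 2 + z) * (a * b * c) + z ^ 2 * (a * c))) *
    (1 + (a + (z + 1) * b + (z ^ 2 + 1) * c + z ^ 2 * (a * b) + (z ^ 2 + z + 1) * (b * c) +
      z * (a * b * c) + (z ^ 2 + z) * (a * c))) = a := by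
  grind

/-- sums over the non zero elements -/
theorem Rep_sum [Fintype Kˣ] (hK : Nat.card K = 8) {z : K} (hz : Pool.Agent.H27.Q8.Gen z)
    {M : Type} [AddCommMonoid M] (f : K → M) : ∑ s : Kˣ, f (s : K) =
      f 1 + f z + f (z ^ 2) + f (z ^ 3) + f (z ^ 4) + f (z ^ 5) + f (z ^ 6) := by
  classical
  have h1 : z ≠ 1 := (hz.val_ne Pool.Agent.H27.Q8.C.z1).2
  have h0 : z ≠ 0 := (hz.val_ne Pool.Agent.H27.Q8.C.z1).1
  have hp : Fact (Nat.Prime 7) := ⟨by norm_num⟩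
  have ho : orderOf z = 7 := orderOf_eq_prime hz.z7 h1
  have hinj : Function.Injective (fun i : Fin 7 => (Units.mk0 z h0) ^ (i : ℕ)) := by
    intro i j hij
    have h3 : z ^ (i : ℕ) = z ^ (j : ℕ) := by
      have := congrArg Units.val hij
      simpa using this
    apply Fin.ext
    exact pow_injOn_Iio_orderOf (x := z) (by rw [ho]; exact i.2) (by rw [ho]; exact j.2) h3
  have hcard : Fintype.card (Fin 7) = Fintype.card Kˣ := by
    have hfin : Finite K := Nat.finite_of_card_ne_zero (by rw [hK]; norm_num)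
    have : Fintype K := Fintype.ofFinite K
    rw [Fintype.card_fin, ← Nat.card_eq_fintype_card, Nat.card_units, hK]
  have hbij := (Fintype.bijective_iff_injective_and_card _).2 ⟨hinj, hcard⟩
  rw [← hbij.sum_comp (fun s : Kˣ => f (s : K)), Fin.sum_univ_seven]
  simp

theorem rep_fac [Fintype Kˣ] (hK : Nat.card K = 8) (q : K → Module.End K V) (h0 : q 0 = 1)
    (hq : ∀ s t, q (s + t) = q s * q t) :
    q 1 = (1 + Ck q 1) * (1 + Ck q 2) * (1 + Ck q 4) := by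
  obtain ⟨z, hz⟩ := Pool.Agent.H27.Q8.exists_gen hK
  have h2 := hz.two
  have hc := hz.cub
  have hz0 : z ≠ 0 := (hz.val_ne Pool.Agent.H27.Q8.C.z1).1
  have z4 : z ^ 4 = z ^ 2 + z := by linear_combination z * hc
  have z5 : z ^ 5 = z ^ 2 + (z + 1) := by linear_combination (z ^ 2 + 1) * hc
  have z6 : z ^ 6 = z ^ 2 + 1 := by linear_combination (z ^ 3 + z + 1) * hc + z * h2
  have z7 := hz.z7
  have hself : ∀ s : K, s + s = 0 := by
    intro s
    linear_combination s * h2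
  have hsq : ∀ s, q s * q s = 1 := by
    intro s
    rw [← hq, hself, h0]
  have hcm : ∀ s t, q s * q t = q t * q s := by
    intro s t
    rw [← hq, ← hq, add_comm]
  have inv1 : z⁻¹ = z ^ 2 + 1 := by
    rw [← z6]
    exact inv_eq_of_mul_eq_one_right (by linear_combination z7)
  have iv : ∀ i j : ℕ, i + j = 7 → (z ^ i)⁻¹ = z ^ j := by
    intro i j hij
    apply inv_eq_of_mul_eq_one_right
    rw [← pow_add, hij, z7]
  have red : ∀ i j k : ℕ, i = j + 7 * k → z ^ i = z ^ j := by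
    intro i j k hij
    rw [hij, pow_add, pow_mul, z7, one_pow, mul_one]
  have e3 : q (z ^ 3) = q 1 * q z := by rw [hc, hq, hcm]
  have e4 : q (z ^ 4) = q z * q (z ^ 2) := by rw [z4, hq, hcm]
  have e5 : q (z ^ 5) = q 1 * q z * q (z ^ 2) := by
    rw [z5, hq, add_comm z 1, hcm, hq 1 z]
  have e6 : q (z ^ 6) = q 1 * q (z ^ 2) := by rw [z6, hq, hcm]
  have C1 : Ck q 1 = q 1 + (z ^ 2 + 1) • q z + (z ^ 2 + z + 1) • q (z ^ 2) +
      (z ^ 2 + z) • (q 1 * q z) + (z + 1) • (q z * q (z ^ 2)) +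
      z ^ 2 • (q 1 * q z * q (z ^ 2)) + z • (q 1 * q (z ^ 2)) := by
    unfold Ck
    rw [Rep_sum hK hz (fun s => (s ^ 1)⁻¹ • q s)]
    simp only [pow_one]
    rw [e3, e4, e5, e6, inv_one, one_smul, inv1, iv 2 5 rfl, iv 3 4 rfl, iv 4 3 rfl, iv 5 2 rfl,
      iv 6 1 rfl, z5, z4, hc, pow_one, ← add_assoc]
  have C2 : Ck q 2 = q 1 + (z ^ 2 + z + 1) • q z + (z + 1) • q (z ^ 2) +
      z • (q 1 * q z) + (z ^ 2 + 1) • (q z * q (z ^ 2)) +
      (z ^ 2 + z) • (q 1 * q z * q (z ^ 2)) + z ^ 2 • (q 1 * q (z ^ 2)) := by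
    unfold Ck
    rw [Rep_sum hK hz (fun s => (s ^ 2)⁻¹ • q s)]
    simp only [← pow_mul, one_pow]
    rw [e3, e4, e5, e6, inv_one, one_smul, iv 2 5 rfl, show 2 * 2 = 4 from rfl,
      show 3 * 2 = 6 from rfl, show 4 * 2 = 8 from rfl, show 5 * 2 = 10 from rfl,
      show 6 * 2 = 12 from rfl, red 8 1 1 rfl, red 10 3 1 rfl, red 12 5 1 rfl, iv 4 3 rfl,
      iv 6 1 rfl, iv 1 6 rfl, iv 3 4 rfl, iv 5 2 rfl, z5, z4, z6, hc, pow_one, ← add_assoc]
  have C4 : Ck q 4 = q 1 + (z + 1) • q z + (z ^ 2 + 1) • q (z ^ 2) +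
      z ^ 2 • (q 1 * q z) + (z ^ 2 + z + 1) • (q z * q (z ^ 2)) +
      z • (q 1 * q z * q (z ^ 2)) + (z ^ 2 + z) • (q 1 * q (z ^ 2)) := by
    unfold Ck
    rw [Rep_sum hK hz (fun s => (s ^ 4)⁻¹ • q s)]
    simp only [← pow_mul, one_pow]
    rw [e3, e4, e5, e6, inv_one, one_smul, show 2 * 4 = 8 from rfl,
      show 3 * 4 = 12 from rfl, show 4 * 4 = 16 from rfl, show 5 * 4 = 20 from rfl,
      show 6 * 4 = 24 from rfl, red 8 1 1 rfl, red 12 5 1 rfl, red 16 2 2 rfl, red 20 6 2 rfl,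
      red 24 3 3 rfl, iv 4 3 rfl, iv 1 6 rfl, iv 5 2 rfl, iv 2 5 rfl, iv 6 1 rfl, iv 3 4 rfl,
      z5, z4, z6, hc, pow_one, ← add_assoc]
  let S : Set (Module.End K V) := {q 1, q z, q (z ^ 2)}
  have hS : ∀ x ∈ S, ∀ y ∈ S, x * y = y * x := by
    intro x hx y hy
    have hx' : ∃ s, x = q s := by
      rcases hx with h | h | h
      · exact ⟨_, h⟩
      · exact ⟨_, h⟩
      · exact ⟨_, h⟩
    have hy' : ∃ s, y = q s := by
      rcases hy with h | h | h
      · exact ⟨_, h⟩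
      · exact ⟨_, h⟩
      · exact ⟨_, h⟩
    obtain ⟨s, rfl⟩ := hx'
    obtain ⟨t, rfl⟩ := hy'
    exact hcm s t
  have hmc : IsMulCommutative (Algebra.adjoin K S) := Algebra.isMulCommutative_adjoin K hS
  let CR : CommRing (Algebra.adjoin K S) :=
    { Subalgebra.toRing (Algebra.adjoin K S) with
      mul_comm := fun x y => hmc.is_comm.comm x y }
  let a : Algebra.adjoin K S := ⟨q 1, Algebra.subset_adjoin (Or.inl rfl)⟩
  let b : Algebra.adjoin K S := ⟨q z, Algebra.subset_adjoin (Or.inr (Or.inl rfl))⟩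
  let c : Algebra.adjoin K S := ⟨q (z ^ 2), Algebra.subset_adjoin (Or.inr (Or.inr rfl))⟩
  let y : Algebra.adjoin K S := algebraMap K (Algebra.adjoin K S) z
  have k2 : (2 : Algebra.adjoin K S) = 0 := by
    have := congrArg (algebraMap K (Algebra.adjoin K S)) h2
    rw [map_zero, map_ofNat] at this
    exact this
  have kz : y ^ 3 = y + 1 := by
    have := congrArg (algebraMap K (Algebra.adjoin K S)) hc
    rw [map_pow, map_add, map_one] at this
    exact this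
  have ka : a ^ 2 = 1 := by
    rw [pow_two]
    exact Subtype.ext (hsq 1)
  have kb : b ^ 2 = 1 := by
    rw [pow_two]
    exact Subtype.ext (hsq z)
  have kc : c ^ 2 = 1 := by
    rw [pow_two]
    exact Subtype.ext (hsq (z ^ 2))
  have key := congrArg Subtype.val (Rep_id y a b c k2 kz ka kb kc)
  rw [C1, C2, C4]
  simp only [Algebra.smul_def, map_add, map_pow, map_one]
  exact key.symm

/-- equivariance -/
theorem Ck_conj [Fintype Kˣ] (q : K → Module.End K V) (f g : Module.End K V) (c : K)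
    (hc : c ≠ 0) (hfg : f * g = 1) (h : ∀ s, f * q s * g = q (c * s)) (k : ℕ) :
    f * Ck q k * g = c ^ k • Ck q k := by
  unfold Ck
  rw [Finset.mul_sum, Finset.sum_mul, Finset.smul_sum]
  rw [← Equiv.sum_comp (Equiv.mulLeft (Units.mk0 c hc))
    (fun s : Kˣ => c ^ k • (((s : K) ^ k)⁻¹ • q (s : K)))]
  apply Finset.sum_congr rfl
  intro s _
  rw [mul_smul_comm, smul_mul_assoc, h]
  show _ = c ^ k • (((((Units.mk0 c hc) * s : Kˣ) : K) ^ k)⁻¹ • q (((Units.mk0 c hc) * s : Kˣ) : K))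
  rw [Units.val_mul, Units.val_mk0, mul_pow, mul_inv, smul_smul, ← mul_assoc,
    mul_inv_cancel₀ (pow_ne_zero k hc), one_mul]

end Pool.Agent.H26.E2
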