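import Pool.Agent.H33.EQ.Nor
import Pool.Agent.H26.E2.Rep

/-!
# E2-23: (3'): no equivariant 2^3

`q : K → GG` additive with `h_a(c) q_s h_a(c)⁻¹ = q_(c s)`.  Then `q_1 e_a = e_a`.

Grading: `L_i` = vectors with coordinates at roots `d` with `(a,d) = i` (and toral part for `i = 0`),
`i = -2..2`; `L_2 = K e_a`, `L_(-2) = K e_(-a)`; `h_a(c)` is `c^i` on `L_i`.
`C_k = Ck q k` (`Rep`), `k = 1, 2, 4`, `q_1 = (1+C_1)(1+C_2)(1+C_4)`, commuting,
`h_a(c) C_k h_a(c)⁻¹ = c^k C_k` (`Ck_conj`).  So `C_k` maps `x ∈ L_i` to the eigenspace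
`c^(k+i)` of `h_a(c)` (`c` a generator of `K^*`, order 7): to the sum of the `L_j` with
`j ≡ i + k mod 7`.  So `C_1 L_2 = 0`, `C_1 L_i ≤ L_(i+1)`, `C_2 L_i ≤ L_(i+2)` (in particular
`C_2 L_1 = C_2 L_2 = 0`), `C_4 L_2 ≤ L_(-1)`, `C_4 L_1 ≤ L_(-2)`.
Let `n = C_4 e_a ∈ L_(-1)`, and for `y ∈ L_1`: `C_4 y = β(y) e_(-a)`.  Then
`q_1 e_a = e_a + (1+C_1)(1+C_2) n`, `q_1 y = y + C_1 y + β(y) (1+C_1)(1+C_2) e_(-a)`
(use commutativity).  `[e_a, y] = 0`, so `[q_1 e_a, q_1 y] = 0`.  Its component in `L_0`: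
`[n, y] + β(y) X = 0`, where `X` is the `L_0` component of
`[e_a + (1+C_1)(1+C_2) n, (1+C_1)(1+C_2) e_(-a)]` (`[q_1 e_a, C_1 y]` has no `L_0` component since
`q_1 e_a` has no component in `L_(-2)`; `[e_a + (C_1 + C_2 + C_1C_2) n, y]` has none since
these terms are in `L_(≥0)` and `y ∈ L_1`).  So all `[n, y]`, `y ∈ L_1`, are multiples of `X`.
Suppose `n ≠ 0`, `n = ∑ n_b e_b`, `(a,b) = -1`.  `n_b ≠ 0`: `[n, e_(-b)]` has toral part
`± n_b h_b`.  If `n_b, n_b' ≠ 0`, `b ≠ b'`: the toral parts `n_b h_b`, `n_b' h_b'` are both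
multiples of the toral part of `X`, but `h_b`, `h_b'` are linearly independent for
`b' ≠ ±b` (find `y` with `(y,b) = 1`, `(y,b') = 0` by `H.ra` if `(b,b') ∈ {0,1,-1}`), and `b' = -b`
is impossible as `(a,b) = (a,b') = -1`.  So `n = n_b e_b`.  `c = a + b` is a root,
`(a,c) = 1`; `H.ra` for `(a,c)`: a root `d` with `(d,a) = 1`, `(d,c) = 0`, so `(d,b) = -1`,
`e_d ∈ L_1`, `[n, e_d] = ± n_b e_(b+d)` is not zero and has toral part 0, but it is a multiple of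
`X`, whose toral part is not zero.  Contradiction.  So `n = 0` and `q_1 e_a = e_a`.
-/

namespace Pool.Agent.H26.E2

open Pool.Agent.H33.EQ

variable {n : ℕ} {C : Matrix (Fin n) (Fin n) ℤ} {K : Type} [Field K] [Fintype (Rt C)]

/-- the part of degree `i` for the grading by the inner product with the root `a` -/
def Fr3_L (K : Type) [Field K] (a : Rt C) (i : ℤ) : Submodule K (LL C K) where
  carrier := {u | (i ≠ 0 → u.1 = 0) ∧ ∀ b : Rt C, ip C a.1 b.1 ≠ i → u.2 b = 0}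
  add_mem' := by
    rintro u v ⟨h1, h2⟩ ⟨h3, h4⟩
    refine ⟨fun h => ?_, fun b h => ?_⟩
    · show u.1 + v.1 = 0
      rw [h1 h, h3 h, add_zero]
    · show u.2 b + v.2 b = 0
      rw [h2 b h, h4 b h, add_zero]
  zero_mem' := ⟨fun _ => rfl, fun _ _ => rfl⟩
  smul_mem' := by
    rintro c u ⟨h1, h2⟩
    refine ⟨fun h => ?_, fun b h => ?_⟩
    · show c • u.1 = 0
      rw [h1 h, smul_zero]
    · show c * u.2 b = 0
      rw [h2 b h, mul_zero]

omit [Fintype (Rt C)] in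
theorem Fr3_mem {a : Rt C} {i : ℤ} {u : LL C K} : u ∈ Fr3_L K a i ↔
    (i ≠ 0 → u.1 = 0) ∧ ∀ b : Rt C, ip C a.1 b.1 ≠ i → u.2 b = 0 := Iff.rfl

omit [Fintype (Rt C)] in
theorem Fr3_e {a b : Rt C} {i : ℤ} (h : ip C a.1 b.1 = i) : e K b ∈ Fr3_L K a i := by
  refine ⟨fun _ => rfl, fun d hd => ?_⟩
  refine e_snd_ne ?_
  rintro rfl
  exact hd h

/-- the projection to the degree `0` -/
def Fr3_P (K : Type) [Field K] (a : Rt C) : LL C K →ₗ[K] LL C K where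
  toFun u := (u.1, fun b => if ip C a.1 b.1 = 0 then u.2 b else 0)
  map_add' := by
    intro u v
    refine Prod.ext rfl (funext fun b => ?_)
    show (if ip C a.1 b.1 = 0 then u.2 b + v.2 b else 0) = (if ip C a.1 b.1 = 0 then u.2 b else 0) +
      (if ip C a.1 b.1 = 0 then v.2 b else 0)
    split_ifs
    · rfl
    · rw [add_zero]
  map_smul' := by
    intro c u
    refine Prod.ext rfl (funext fun b => ?_)
    show (if ip C a.1 b.1 = 0 then c * u.2 b else 0) = c * (if ip C a.1 b.1 = 0 then u.2 b else 0)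
    split_ifs
    · rfl
    · rw [mul_zero]

omit [Fintype (Rt C)] in
theorem Fr3_P0 {a : Rt C} {u : LL C K} (h : u ∈ Fr3_L K a 0) : Fr3_P K a u = u := by
  refine Prod.ext rfl (funext fun b => ?_)
  show (if ip C a.1 b.1 = 0 then u.2 b else 0) = u.2 b
  split_ifs with h1
  · rfl
  · exact (h.2 b h1).symm

omit [Fintype (Rt C)] in
theorem Fr3_Pne {a : Rt C} {i : ℤ} (hi : i ≠ 0) {u : LL C K} (h : u ∈ Fr3_L K a i) :
    Fr3_P K a u = 0 := by
  refine Prod.ext (h.1 hi) (funext fun b => ?_)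
  show (if ip C a.1 b.1 = 0 then u.2 b else 0) = 0
  split_ifs with h1
  · exact h.2 b (fun h2 => hi (h2.symm.trans h1))
  · rfl

theorem Fr3_br {a : Rt C} {i j : ℤ} {u v : LL C K} (hu : u ∈ Fr3_L K a i)
    (hv : v ∈ Fr3_L K a j) : br u v ∈ Fr3_L K a (i + j) := by
  have hf0 : ∀ k : Fin n → K, fk C 0 k = 0 := by
    intro k
    simp [fk]
  refine ⟨fun hij => ?_, fun r hr => ?_⟩
  · show -∑ d : Rt C, (u.2 d * v.2 (ng d)) • (zk d.1 : Fin n → K) = 0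
    rw [Finset.sum_eq_zero, neg_zero]
    intro d _
    by_cases h1 : ip C a.1 d.1 = i
    · have h2 : ip C a.1 (ng d).1 ≠ j := by
        rw [ng_val, ip_neg_right]
        omega
      rw [hv.2 _ h2, mul_zero, zero_smul]
    · rw [hu.2 _ h1, zero_mul, zero_smul]
  · show fk C u.1 (zk r.1) * v.2 r - fk C v.1 (zk r.1) * u.2 r
      + ∑ d : Rt C, (if h : ip C (r.1 - d.1) (r.1 - d.1) = 2 then
          ek K C d.1 (r.1 - d.1) * (u.2 d * v.2 ⟨r.1 - d.1, h⟩) else 0) = 0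
    have h1 : fk C u.1 (zk r.1) * v.2 r = 0 := by
      by_cases hi : i = 0
      · rw [hv.2 r (by omega), mul_zero]
      · rw [hu.1 hi, hf0, zero_mul]
    have h2 : fk C v.1 (zk r.1) * u.2 r = 0 := by
      by_cases hj : j = 0
      · rw [hu.2 r (by omega), mul_zero]
      · rw [hv.1 hj, hf0, zero_mul]
    rw [h1, h2, sub_zero, zero_add]
    refine Finset.sum_eq_zero fun d _ => ?_
    split_ifs with h
    · by_cases h3 : ip C a.1 d.1 = i
      · have h4 : ip C a.1 (⟨r.1 - d.1, h⟩ : Rt C).1 ≠ j := by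
          show ip C a.1 (r.1 - d.1) ≠ j
          rw [ip_sub_right]
          omega
        rw [hv.2 _ h4, mul_zero, mul_zero]
      · rw [hu.2 _ h3, zero_mul, mul_zero]
    · rfl

theorem Fr3_Pbr0 {a : Rt C} {i j : ℤ} (h : i + j = 0) {u v : LL C K} (hu : u ∈ Fr3_L K a i)
    (hv : v ∈ Fr3_L K a j) : Fr3_P K a (br u v) = br u v := by
  have h1 := Fr3_br hu hv
  rw [h] at h1
  exact Fr3_P0 h1

theorem Fr3_Pbr {a : Rt C} {i j : ℤ} (h : i + j ≠ 0) {u v : LL C K} (hu : u ∈ Fr3_L K a i)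
    (hv : v ∈ Fr3_L K a j) : Fr3_P K a (br u v) = 0 := Fr3_Pne h (Fr3_br hu hv)

/-- the component of degree zero of a bracket -/
theorem Fr3_conv {a : Rt C} {x1 x2 x3 x4 x5 y1 y2 y3 y4 : LL C K} (hx1 : x1 ∈ Fr3_L K a (-2))
    (hx2 : x2 ∈ Fr3_L K a (-1)) (hx3 : x3 ∈ Fr3_L K a 0) (hx4 : x4 ∈ Fr3_L K a 1)
    (hx5 : x5 ∈ Fr3_L K a 2) (hy1 : y1 ∈ Fr3_L K a (-1)) (hy2 : y2 ∈ Fr3_L K a 0)
    (hy3 : y3 ∈ Fr3_L K a 1) (hy4 : y4 ∈ Fr3_L K a 2) :
    Fr3_P K a (br (x1 + x2 + x3 + x4 + x5) (y1 + y2 + y3 + y4)) =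
      br x1 y4 + br x2 y3 + br x3 y2 + br x4 y1 := by
  simp only [map_add, LinearMap.add_apply]
  rw [Fr3_Pbr (by norm_num) hx1 hy1,
    Fr3_Pbr (by norm_num) hx2 hy1,
    Fr3_Pbr (by norm_num) hx3 hy1,
    Fr3_Pbr0 (by norm_num) hx4 hy1,
    Fr3_Pbr (by norm_num) hx5 hy1,
    Fr3_Pbr (by norm_num) hx1 hy2,
    Fr3_Pbr (by norm_num) hx2 hy2,
    Fr3_Pbr0 (by norm_num) hx3 hy2,
    Fr3_Pbr (by norm_num) hx4 hy2,
    Fr3_Pbr (by norm_num) hx5 hy2,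
    Fr3_Pbr (by norm_num) hx1 hy3,
    Fr3_Pbr0 (by norm_num) hx2 hy3,
    Fr3_Pbr (by norm_num) hx3 hy3,
    Fr3_Pbr (by norm_num) hx4 hy3,
    Fr3_Pbr (by norm_num) hx5 hy3,
    Fr3_Pbr0 (by norm_num) hx1 hy4,
    Fr3_Pbr (by norm_num) hx2 hy4,
    Fr3_Pbr (by norm_num) hx3 hy4,
    Fr3_Pbr (by norm_num) hx4 hy4,
    Fr3_Pbr (by norm_num) hx5 hy4]
  abel

theorem Fr3_gen (hK : Nat.card K = 8) : ∃ c : Kˣ, orderOf c = 7 := by
  have hfin : Finite K := Nat.finite_of_card_ne_zero (by rw [hK]; norm_num)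
  have h1 : Nat.card Kˣ = 7 := by rw [Nat.card_units, hK]
  have h7 : Fact (Nat.Prime 7) := ⟨by norm_num⟩
  exact exists_prime_orderOf_dvd_card' 7 (by rw [h1])

omit [Fintype (Rt C)] in
theorem Fr3_hd {a : Rt C} {i : ℤ} {u : LL C K} (hu : u ∈ Fr3_L K a i) (c : Kˣ) :
    hd C a.1 c u = ((c ^ i : Kˣ) : K) • u := by
  refine Prod.ext ?_ (funext fun b => ?_)
  · show u.1 = ((c ^ i : Kˣ) : K) • u.1
    by_cases hi : i = 0
    · rw [hi, zpow_zero, Units.val_one, one_smul]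
    · rw [hu.1 hi, smul_zero]
  · show ((c ^ (ip C a.1 b.1) : Kˣ) : K) * u.2 b = ((c ^ i : Kˣ) : K) * u.2 b
    by_cases hb : ip C a.1 b.1 = i
    · rw [hb]
    · rw [hu.2 b hb, mul_zero, mul_zero]

omit [Fintype (Rt C)] in
theorem Fr3_coord {a : Rt C} {c : Kˣ} (ho : orderOf c = 7) {v : LL C K} {m : ℤ}
    (hv : hd C a.1 c v = ((c ^ m : Kˣ) : K) • v) :
    (∀ b : Rt C, ip C a.1 b.1 % 7 ≠ m % 7 → v.2 b = 0) ∧ (m % 7 ≠ 0 → v.1 = 0) := by
  have key : ∀ i : ℤ, i % 7 ≠ m % 7 → ((c ^ i : Kˣ) : K) ≠ ((c ^ m : Kˣ) : K) := by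
    intro i hi h
    have h1 := Units.ext h
    rw [zpow_eq_zpow_iff_modEq, ho] at h1
    exact hi h1
  constructor
  · intro b hb
    have h1 : ((c ^ (ip C a.1 b.1) : Kˣ) : K) * v.2 b = ((c ^ m : Kˣ) : K) * v.2 b :=
      congrFun (congrArg Prod.snd hv) b
    have h2 : (((c ^ (ip C a.1 b.1) : Kˣ) : K) - ((c ^ m : Kˣ) : K)) * v.2 b = 0 := by
      rw [sub_mul, h1, sub_self]
    exact (mul_eq_zero.1 h2).resolve_left (sub_ne_zero.2 (key _ hb))
  · intro hm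
    have h1 : v.1 = ((c ^ m : Kˣ) : K) • v.1 := congrArg Prod.fst hv
    funext i
    have h3 := congrFun h1 i
    change v.1 i = ((c ^ m : Kˣ) : K) * v.1 i at h3
    have h4 := key 0 (by rw [Int.zero_emod]; exact hm.symm)
    rw [zpow_zero, Units.val_one] at h4
    have h2 : (1 - ((c ^ m : Kˣ) : K)) * v.1 i = 0 := by
      rw [sub_mul, one_mul, ← h3, sub_self]
    exact (mul_eq_zero.1 h2).resolve_left (sub_ne_zero.2 h4)

theorem Fr3_to (H : Hyp C K) {a : Rt C} {c : Kˣ} (ho : orderOf c = 7) {v : LL C K} {m : ℤ} (j : ℤ)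
    (hv : hd C a.1 c v = ((c ^ m : Kˣ) : K) • v) (hj1 : -2 ≤ j) (hj2 : j ≤ 2)
    (hmj : m % 7 = j % 7) : v ∈ Fr3_L K a j := by
  obtain ⟨h1, h2⟩ := Fr3_coord ho hv
  refine ⟨fun h => h2 (by omega), fun b hb => h1 b ?_⟩
  have h3 := ip_le_two H a b
  have h4 := neg_two_le_ip H a b
  omega

theorem Fr3_to0 (H : Hyp C K) {a : Rt C} {c : Kˣ} (ho : orderOf c = 7) {v : LL C K} {m : ℤ}
    (hv : hd C a.1 c v = ((c ^ m : Kˣ) : K) • v) (hm : m % 7 = 3 ∨ m % 7 = 4) : v = 0 := by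
  obtain ⟨h1, h2⟩ := Fr3_coord ho hv
  refine Prod.ext (h2 (by omega)) (funext fun b => h1 b ?_)
  have h3 := ip_le_two H a b
  have h4 := neg_two_le_ip H a b
  omega

theorem Fr3_three (H : Hyp C K) {a : Rt C} {v : LL C K} (hv : v ∈ Fr3_L K a 3) : v = 0 := by
  refine Prod.ext (hv.1 (by norm_num)) (funext fun b => hv.2 b ?_)
  have h3 := ip_le_two H a b
  omega

theorem Fr3_low (H : Hyp C K) {a : Rt C} {z : LL C K} (hz : z ∈ Fr3_L K a (-2)) :
    z = z.2 (ng a) • e K (ng a) := by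
  refine Prod.ext ?_ (funext fun b => ?_)
  · show z.1 = z.2 (ng a) • (e K (ng a)).1
    rw [e_fst, smul_zero]
    exact hz.1 (by norm_num)
  · show z.2 b = z.2 (ng a) * (e K (ng a)).2 b
    by_cases hb : b = ng a
    · rw [hb, e_snd_self, mul_one]
    · rw [e_snd_ne hb, mul_zero]
      exact hz.2 b fun h => hb (eq_ng_of_ip H h)

/-- the last step: brackets of a vector of degree `-1` with all vectors of degree `1` -/
theorem Fr3_end (H : Hyp C K) {a : Rt C} {m X : LL C K} (hm : m ∈ Fr3_L K a (-1))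
    (h : ∀ y ∈ Fr3_L K a 1, ∃ β : K, br y m = β • X) : m = 0 := by
  by_contra hne
  have hm1 : m.1 = 0 := hm.1 (by norm_num)
  have hex : ∃ b, m.2 b ≠ 0 := by
    by_contra hcon
    push Not at hcon
    exact hne (Prod.ext hm1 (funext hcon))
  have hip : ∀ b, m.2 b ≠ 0 → ip C a.1 b.1 = -1 := by
    intro b hb
    by_contra hcon
    exact hb (hm.2 b hcon)
  have hX : ∀ b, m.2 b ≠ 0 → ∃ β : K, m.2 b • (zk b.1 : Fin n → K) = β • X.1 := by
    intro b hb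
    obtain ⟨β, hβ⟩ := h (e K (ng b)) (Fr3_e (by rw [ng_val, ip_neg_right, hip b hb]; norm_num))
    refine ⟨β, ?_⟩
    have h1 := congrArg Prod.fst hβ
    rw [br_e_fst H, ng_ng, ng_val, zk_neg, neg_smul_neg] at h1
    exact h1
  obtain ⟨b, hb⟩ := hex
  obtain ⟨β, hβ⟩ := hX b hb
  have huniq : ∀ b', b' ≠ b → m.2 b' = 0 := by
    intro b' hbb
    by_contra hb'
    obtain ⟨β', hβ'⟩ := hX b' hb'
    have h1 : ip C b.1 b'.1 = 0 ∨ ip C b.1 b'.1 = 1 ∨ ip C b.1 b'.1 = -1 := by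
      rcases ip_cases H b b' with h2 | h2 | h2 | h2 | h2
      · have h3 := hip b' hb'
        rw [h2, ng_val, ip_neg_right, hip b hb] at h3
        norm_num at h3
      · exact Or.inr (Or.inr h2)
      · exact Or.inl h2
      · exact Or.inr (Or.inl h2)
      · exact absurd h2 hbb
    obtain ⟨y, hy1, hy2⟩ := H.ra b b' h1
    have e1 := congrArg (fk C (zk y.1)) hβ
    have e2 := congrArg (fk C (zk y.1)) hβ'
    rw [fk_smul_right, fk_smul_right, fk_zk_zk, hy1, Int.cast_one, mul_one] at e1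
    rw [fk_smul_right, fk_smul_right, fk_zk_zk, hy2, Int.cast_zero, mul_zero] at e2
    have hx : fk C (zk y.1) X.1 ≠ 0 := by
      intro h0
      rw [h0, mul_zero] at e1
      exact hb e1
    have hβ0 : β' = 0 := (mul_eq_zero.1 e2.symm).resolve_right hx
    obtain ⟨y', hy'⟩ := exists_one H b'
    have e3 := congrArg (fk C (zk y'.1)) hβ'
    rw [fk_smul_right, fk_smul_right, fk_zk_zk, hy', Int.cast_one, mul_one, hβ0, zero_mul] at e3
    exact hb' e3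
  have hme : m = m.2 b • e K b := by
    refine Prod.ext ?_ (funext fun d => ?_)
    · show m.1 = m.2 b • (e K b).1
      rw [e_fst, smul_zero]
      exact hm1
    · show m.2 d = m.2 b * (e K b).2 d
      by_cases hd : d = b
      · rw [hd, e_snd_self, mul_one]
      · rw [e_snd_ne hd, mul_zero]
        exact huniq d hd
  have hab := hip b hb
  have haa : ip C a.1 a.1 = 2 := a.2
  obtain ⟨d, hd1, hd2⟩ := H.ra a ⟨a.1 + b.1, root_add H hab⟩ (by
    right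
    left
    show ip C a.1 (a.1 + b.1) = 1
    rw [ip_add_right, haa, hab]
    norm_num)
  have hd3 : ip C d.1 b.1 = -1 := by
    have h1 : ip C d.1 (a.1 + b.1) = 0 := hd2
    rw [ip_add_right, hd1] at h1
    omega
  obtain ⟨β₁, hβ₁⟩ := h (e K d) (Fr3_e (by rw [ip_comm H.symm]; exact hd1))
  have h2 : br (e K d) (e K b) = ek K C d.1 b.1 • e K (⟨d.1 + b.1, root_add H hd3⟩ : Rt C) :=
    br_e_e_add H rfl
  rw [hme, map_smul, h2] at hβ₁
  have hX1 : X.1 ≠ 0 := by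
    intro h0
    rw [h0, smul_zero] at hβ
    obtain ⟨y, hy⟩ := exists_one H b
    have e1 := congrArg (fk C (zk y.1)) hβ
    rw [fk_smul_right, fk_zk_zk, hy, Int.cast_one, mul_one] at e1
    have h3 : fk C (zk y.1) (0 : Fin n → K) = 0 := by simp [fk]
    rw [h3] at e1
    exact hb e1
  have e1 : m.2 b • (ek K C d.1 b.1 • (0 : Fin n → K)) = β₁ • X.1 := congrArg Prod.fst hβ₁
  rw [smul_zero, smul_zero] at e1
  have hβ0 : β₁ = 0 := (smul_eq_zero.1 e1.symm).resolve_right hX1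
  rw [hβ0, zero_smul] at hβ₁
  have e2 : m.2 b * (ek K C d.1 b.1 *
      (e K (⟨d.1 + b.1, root_add H hd3⟩ : Rt C)).2 ⟨d.1 + b.1, root_add H hd3⟩) = 0 :=
    congrFun (congrArg Prod.snd hβ₁) _
  rw [e_snd_self, mul_one] at e2
  rcases mul_eq_zero.1 e2 with h3 | h3
  · exact hb h3
  · exact ek_ne_zero _ _ h3

theorem three_e (H : Hyp C K) (a : Rt C) (q : K → (LL C K ≃ₗ[K] LL C K))
    (hq : ∀ s, q s ∈ GG C K) (q0 : q 0 = 1) (qadd : ∀ s t, q (s + t) = q s * q t)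
    (hc : ∀ (c : Kˣ) (s : K), hd C a.1 c * q s * (hd C a.1 c)⁻¹ = q (c * s)) :
    q 1 (e K a) = e K a := by
  have hK : Nat.card K = 8 := H.card
  have hfin : Finite K := Nat.finite_of_card_ne_zero (by rw [hK]; norm_num)
  have hft : Fintype Kˣ := Fintype.ofFinite _
  obtain ⟨c, ho⟩ := Fr3_gen hK
  obtain ⟨Q, hQ⟩ : ∃ Q : K → Module.End K (LL C K), ∀ s, Q s = (q s).toLinearMap :=
    ⟨fun s => (q s).toLinearMap, fun _ => rfl⟩
  have Q0 : Q 0 = 1 := by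
    rw [hQ, q0]
    rfl
  have Qadd : ∀ s t, Q (s + t) = Q s * Q t := by
    intro s t
    rw [hQ, hQ, hQ, qadd]
    rfl
  have hrep := rep_fac hK Q Q0 Qadd
  have hconj : ∀ k : ℕ, (hd C a.1 c).toLinearMap * Ck Q k * ((hd C a.1 c)⁻¹).toLinearMap =
      ((c : K) ^ k) • Ck Q k := by
    intro k
    refine Ck_conj Q _ _ (c : K) (Units.ne_zero c) ?_ ?_ k
    · refine LinearMap.ext fun u => ?_
      show hd C a.1 c ((hd C a.1 c)⁻¹ u) = u
      exact (hd C a.1 c).apply_symm_apply u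
    · intro s
      rw [hQ, hQ, ← hc c s]
      rfl
  have hEq : ∀ (k : ℕ) (u : LL C K), hd C a.1 c (Ck Q k u) =
      ((c : K) ^ k) • Ck Q k (hd C a.1 c u) := by
    intro k u
    have h1 := LinearMap.congr_fun (hconj k) (hd C a.1 c u)
    change hd C a.1 c (Ck Q k ((hd C a.1 c)⁻¹ (hd C a.1 c u))) =
      ((c : K) ^ k) • Ck Q k (hd C a.1 c u) at h1
    rw [← h1]
    congr 2
    exact ((hd C a.1 c).symm_apply_apply u).symm
  have hk : ∀ (k : ℕ) {i : ℤ} {u : LL C K}, u ∈ Fr3_L K a i →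
      hd C a.1 c (Ck Q k u) = ((c ^ ((k : ℤ) + i) : Kˣ) : K) • Ck Q k u := by
    intro k i u hu
    rw [hEq, Fr3_hd hu, map_smul, smul_smul, zpow_add, zpow_natCast, Units.val_mul,
      Units.val_pow_eq_pow_val]
  obtain ⟨A1, hA1⟩ : ∃ A, A = Ck Q 1 := ⟨_, rfl⟩
  obtain ⟨A2, hA2⟩ : ∃ A, A = Ck Q 2 := ⟨_, rfl⟩
  obtain ⟨A4, hA4⟩ : ∃ A, A = Ck Q 4 := ⟨_, rfl⟩
  have k1 : ∀ {i : ℤ} {u : LL C K}, u ∈ Fr3_L K a i →
      hd C a.1 c (A1 u) = ((c ^ (1 + i) : Kˣ) : K) • A1 u := by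
    intro i u hu
    rw [hA1]
    exact hk 1 hu
  have k2 : ∀ {i : ℤ} {u : LL C K}, u ∈ Fr3_L K a i →
      hd C a.1 c (A2 u) = ((c ^ (2 + i) : Kˣ) : K) • A2 u := by
    intro i u hu
    rw [hA2]
    exact hk 2 hu
  have k4 : ∀ {i : ℤ} {u : LL C K}, u ∈ Fr3_L K a i →
      hd C a.1 c (A4 u) = ((c ^ (4 + i) : Kˣ) : K) • A4 u := by
    intro i u hu
    rw [hA4]
    exact hk 4 hu
  have hqQ : ∀ u, q 1 u = (u + A4 u + A2 (u + A4 u)) + A1 (u + A4 u + A2 (u + A4 u)) := by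
    intro u
    have h1 := LinearMap.congr_fun hrep u
    rw [← hA1, ← hA2, ← hA4, hQ] at h1
    exact h1
  have ha2 : e K a ∈ Fr3_L K a 2 := Fr3_e a.2
  obtain ⟨m, hm⟩ : ∃ m, m = A4 (e K a) := ⟨_, rfl⟩
  have hmL : m ∈ Fr3_L K a (-1) := by
    rw [hm]
    exact Fr3_to H ho (-1) (k4 ha2) (by norm_num) (by norm_num) (by norm_num)
  have A1m : A1 m ∈ Fr3_L K a 0 :=
    Fr3_to H ho 0 (k1 hmL) (by norm_num) (by norm_num) (by norm_num)
  have A2m : A2 m ∈ Fr3_L K a 1 :=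
    Fr3_to H ho 1 (k2 hmL) (by norm_num) (by norm_num) (by norm_num)
  have A12m : A1 (A2 m) ∈ Fr3_L K a 2 :=
    Fr3_to H ho 2 (k1 A2m) (by norm_num) (by norm_num) (by norm_num)
  have A1e : A1 (e K a) = 0 := Fr3_to0 H ho (k1 ha2) (by norm_num)
  have A2e : A2 (e K a) = 0 := Fr3_to0 H ho (k2 ha2) (by norm_num)
  have hEa : q 1 (e K a) = m + A1 m + A2 m + (e K a + A1 (A2 m)) := by
    rw [hqQ, ← hm, map_add, A2e, zero_add, map_add, map_add, A1e, zero_add]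
    abel
  have hm0 : m = 0 := by
    refine Fr3_end H hmL (X := br (e K (ng a)) (e K a + A1 (A2 m)) +
      br (A1 (e K (ng a))) (A2 m) + br (A2 (e K (ng a))) (A1 m) +
      br (A1 (A2 (e K (ng a)))) m) ?_
    intro y hy
    obtain ⟨z, hz⟩ : ∃ z, z = A4 y := ⟨_, rfl⟩
    have hzL : z ∈ Fr3_L K a (-2) := by
      rw [hz]
      exact Fr3_to H ho (-2) (k4 hy) (by norm_num) (by norm_num) (by norm_num)
    have A1z : A1 z ∈ Fr3_L K a (-1) :=
      Fr3_to H ho (-1) (k1 hzL) (by norm_num) (by norm_num) (by norm_num)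
    have A2z : A2 z ∈ Fr3_L K a 0 :=
      Fr3_to H ho 0 (k2 hzL) (by norm_num) (by norm_num) (by norm_num)
    have A12z : A1 (A2 z) ∈ Fr3_L K a 1 :=
      Fr3_to H ho 1 (k1 A2z) (by norm_num) (by norm_num) (by norm_num)
    have A1y : A1 y ∈ Fr3_L K a 2 :=
      Fr3_to H ho 2 (k1 hy) (by norm_num) (by norm_num) (by norm_num)
    have A2y : A2 y = 0 := Fr3_to0 H ho (k2 hy) (by norm_num)
    have hY : q 1 y = z + A1 z + A2 z + (y + A1 (A2 z)) + A1 y := by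
      rw [hqQ, ← hz, map_add A2, A2y, zero_add, map_add A1, map_add A1]
      abel
    have h0 : br (q 1 y) (q 1 (e K a)) = 0 := by
      have h1 : br y (e K a) = 0 := Fr3_three H (Fr3_br hy ha2)
      rw [← (hq 1).1, h1, map_zero]
    have h1 := congrArg (Fr3_P K a) h0
    rw [hEa, hY, map_zero, Fr3_conv hzL A1z A2z (add_mem hy A12z) A1y hmL A1m A2m
      (add_mem ha2 A12m), map_add br y, LinearMap.add_apply] at h1
    refine ⟨-z.2 (ng a), ?_⟩
    have h2 : br y m = -(br z (e K a + A1 (A2 m)) + br (A1 z) (A2 m) + br (A2 z) (A1 m) +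
        br (A1 (A2 z)) m) := by
      rw [eq_neg_iff_add_eq_zero, ← h1]
      abel
    have h3 : z = z.2 (ng a) • e K (ng a) := Fr3_low H hzL
    obtain ⟨t, ht⟩ : ∃ t, t = z.2 (ng a) := ⟨_, rfl⟩
    rw [← ht] at h3 ⊢
    rw [h2, h3]
    simp only [map_smul, LinearMap.smul_apply, neg_smul, smul_add, neg_add]
  rw [hEa, hm0, map_zero, map_zero, map_zero, zero_add, zero_add, add_zero, zero_add]

end Pool.Agent.H26.E2
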