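import Pool.Agent.H26.E2.GRa

/-!
# E2-18: an element of order 7 acting on a 2-group

`gr_two`: `h^7 = 1`, `Q` a finite 2-subgroup normalised but not centralised by `h`.  Then there is
`x ∈ Q`, `x ≠ 1`, `x² = 1`, with commuting conjugates `x, x^h, x^(h²)` and
`h³xh⁻³ = x·hxh⁻¹` or `h³xh⁻³ = x·h²xh⁻²`.

Write `q^h = h q h⁻¹`.
`gr_fix`: `N ≤ Q` normal in `Q`, `h`-invariant, `q ∈ Q`, `q^h ∈ q N`: then `q N` contains a fixed
point of `h` (the group `⟨h⟩` of order 1 or 7 acts on the finite set `q N` whose cardinality is a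
power of 2, so prime to 7: `IsPGroup.card_modEq_card_fixedPoints` for `p = 7`, or: the orbits of
the permutation `y ↦ y^h` with 7th power 1 have 1 or 7 elements).

Proof of `gr_two`: choose `Q` of minimal cardinality.  Every proper `h`-invariant subgroup of `Q` is
centralised by `h`, so it is contained in `C = C_Q(h)`, and `C ≠ Q`.
(1) `C` is normal in `Q`: its normaliser in `Q` is `h`-invariant and larger than `C` (2-groups
satisfy the normaliser condition), so it is `Q`.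
(2) `[Q,Q] ≤ C`, and `q² ∈ C` for `q ∈ Q`: `Q/C ≠ 1` is a 2-group, so its commutator subgroup and
its Frattini subgroup are proper, their preimages in `Q` are proper and `h`-invariant.
(Alternatively: a maximal subgroup `M ≥ C` ...; or: the preimage `R` of the centre of `Q/C` is
`h`-invariant and larger than `C`, so it is `Q`: `Q/C` is abelian; then
`{q : q² ∈ C}` is an `h`-invariant subgroup larger than `C` (there is an element of order 2 in
`Q/C`), so it is `Q`.)
(3) If `q ∈ Q`, `q^h q⁻¹ ∈ C` then `q ∈ C` by `gr_fix`.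
(4) The elements `q^h q⁻¹` generate `Q`: the subgroup generated is `h`-invariant; otherwise it is in
`C` and `Q ≤ C` by (3).
(5) `C` is central in `Q`: for `c ∈ C`: `q⁻¹cq ∈ C` is fixed by `h`, so `q^h q⁻¹` commutes with `c`.
(6) There is `x ∈ Q`, `x ∉ C` with `h³x ≡ x·hx` or `h³x ≡ x·h²x` modulo `C`: in the abelian group
`Q/C` of exponent 2, written additively, `(h³+h+1)(h³+h²+1)(h-1) = h^7 - 1 = 0` and `h - 1` is
injective by (3); take `y ∉ C`; if `(h³+h²+1) y ∈ C` put `x = y`, else `x = (h³+h²+1) y`.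
(7) Replacing `h` by `h⁻¹`?  no: do both cases.  `x_i = h^i x h^-i`, `F(k) = [x_k, x_0] ∈ C`,
`[x_(i+k), x_i] = F(k)` (fixed by `h`), commutators are bimultiplicative (`[Q,Q]` central),
`F(-k) = F(k)⁻¹`.  Case `x_3 ≡ x_0 x_1`: `F(k-3) = [x_k,x_3] = F(k) F(k-1)`: `F(-2) = F(1)`,
`F(-1) = F(2) F(1) = F(-2)⁻¹ F(1) = 1`.  So `F(1) = F(2) = 1`.
Case `x_3 ≡ x_0 x_2`: `F(k-3) = F(k) F(k-2)`: `k = 1`: `F(-2) = F(1) F(-1) = 1`;
`k = 2`: `F(-1) = F(2) F(0) = 1`.
(8) `⟨C, x_0, x_1, x_2⟩` is abelian, `h`-invariant, not in `C`: `Q` is abelian.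
(9) `y = x_1 x_0⁻¹` is not in `C` by (3), `y² = h(x²) x⁻² = 1`, and
`h³y = y·hy` (resp. `y·h²y`) exactly, since the error term is in `C`, fixed by `h`.
-/

namespace Pool.Agent.H26.E2

open scoped commutatorElement

section gr18

universe u18

variable {P : Type u18} [Group P]

theorem gr18_fix (hP : IsPGroup 2 P) (σ : P →* P) (h7 : ∀ x, σ^[7] x = x) {q c : P}
    (hq : σ q = q * c) (hc : σ c = c) : c = 1 := by
  have h1 : ∀ k : ℕ, σ^[k] q = q * c ^ k := by
    intro k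
    induction k with
    | zero => simp
    | succ k ih =>
      rw [Function.iterate_succ_apply', ih, map_mul, map_pow, hc, hq, mul_assoc, ← pow_succ']
  have h2 : c ^ 7 = 1 := by
    have h3 := h1 7
    rw [h7] at h3
    exact mul_eq_left.1 h3.symm
  obtain ⟨k, hk⟩ := hP c
  have h3 := pow_gcd_eq_one.2 ⟨h2, hk⟩
  have h4 : Nat.gcd 7 (2 ^ k) = 1 := Nat.Coprime.pow_right k (by norm_num)
  rwa [h4, pow_one] at h3

theorem gr18_mem (hP : IsPGroup 2 P) (σ : P →* P) (h7 : ∀ x, σ^[7] x = x) {q : P}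
    (h : σ (σ q * q⁻¹) = σ q * q⁻¹) : σ q = q := by
  have h1 : σ q⁻¹ = q⁻¹ * (σ q * q⁻¹)⁻¹ := by
    rw [map_inv]
    group
  have h2 : (σ q * q⁻¹)⁻¹ = 1 :=
    gr18_fix hP σ h7 h1 (by rw [map_inv, h])
  rw [inv_eq_one] at h2
  exact mul_inv_eq_one.1 h2

theorem gr18_comm [Finite P] (hP : IsPGroup 2 P) (σ : P →* P)
    (hmin : ∀ M : Subgroup P, (∀ m ∈ M, σ m ∈ M) → M ≠ ⊤ → ∀ m ∈ M, σ m = m)
    (hne : ∃ x, σ x ≠ x) (a b : P) : σ ⁅a, b⁆ = ⁅a, b⁆ := by
  haveI : Nontrivial P := by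
    obtain ⟨x, hx⟩ := hne
    exact ⟨σ x, x, hx⟩
  haveI : Fact (Nat.Prime 2) := ⟨Nat.prime_two⟩
  haveI : Group.IsNilpotent P := hP.isNilpotent
  have h1 : commutator P ≤ (commutator P).comap σ := by
    rw [commutator_def, Subgroup.commutator_le]
    intro a _ b _
    rw [Subgroup.mem_comap, map_commutatorElement]
    exact Subgroup.commutator_mem_commutator trivial trivial
  refine hmin (commutator P) (fun m hm => h1 hm)
    (IsSolvable.commutator_lt_top_of_nontrivial P).ne _ ?_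
  rw [commutator_def]
  exact Subgroup.commutator_mem_commutator trivial trivial

theorem gr18_sq (hP : IsPGroup 2 P) (σ : P →* P)
    (hmin : ∀ M : Subgroup P, (∀ m ∈ M, σ m ∈ M) → M ≠ ⊤ → ∀ m ∈ M, σ m = m)
    (hne : ∃ x, σ x ≠ x) (hcomm : ∀ a b : P, σ ⁅a, b⁆ = ⁅a, b⁆) (a : P) :
    σ (a * a) = a * a := by
  let D : Subgroup P :=
    { carrier := {q | σ (q * q) = q * q}
      one_mem' := by simp
      mul_mem' := by
        intro a b ha hb
        have ha' : σ (a * a) = a * a := ha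
        have hb' : σ (b * b) = b * b := hb
        have e : (a * b) * (a * b) = (a * a) * ⁅a⁻¹, b⁆ * (b * b) := by
          rw [commutatorElement_def]
          group
        show σ ((a * b) * (a * b)) = (a * b) * (a * b)
        rw [e, map_mul, map_mul, ha', hb', hcomm]
      inv_mem' := by
        intro a ha
        have ha' : σ (a * a) = a * a := ha
        show σ (a⁻¹ * a⁻¹) = a⁻¹ * a⁻¹
        rw [← mul_inv_rev, map_inv, ha'] }
  have hinv : ∀ m ∈ D, σ m ∈ D := by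
    intro m hm
    have hm' : σ (m * m) = m * m := hm
    show σ (σ m * σ m) = σ m * σ m
    rw [← map_mul, hm', hm']
  by_contra hcon
  have hD : D ≠ ⊤ := by
    intro h
    apply hcon
    have : a ∈ D := by rw [h]; trivial
    exact this
  have h1 := hmin D hinv hD
  obtain ⟨x, hx⟩ := hne
  obtain ⟨k, hk⟩ := hP x
  have h2 : ∀ k : ℕ, σ (x ^ 2 ^ k) = x ^ 2 ^ k → σ x = x := by
    intro k
    induction k with
    | zero => intro h; simpa using h
    | succ k ih =>
      intro h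
      apply ih
      apply h1
      show σ (x ^ 2 ^ k * x ^ 2 ^ k) = x ^ 2 ^ k * x ^ 2 ^ k
      rw [← pow_add, ← two_mul, ← pow_succ']
      exact h
  exact hx (h2 k (by rw [hk, map_one]))

theorem gr18_cen (hP : IsPGroup 2 P) (σ : P →* P) (h7 : ∀ x, σ^[7] x = x)
    (hmin : ∀ M : Subgroup P, (∀ m ∈ M, σ m ∈ M) → M ≠ ⊤ → ∀ m ∈ M, σ m = m)
    (hne : ∃ x, σ x ≠ x) (hcomm : ∀ a b : P, σ ⁅a, b⁆ = ⁅a, b⁆) (c : P) (hc : σ c = c) (a : P) :
    a * c = c * a := by
  have hinv : ∀ m ∈ Subgroup.centralizer {c : P | σ c = c},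
      σ m ∈ Subgroup.centralizer {c : P | σ c = c} := by
    intro m hm
    rw [Subgroup.mem_centralizer_iff] at hm ⊢
    intro c hc
    have hc' : σ c = c := hc
    have h1 := congrArg σ (hm c hc)
    rw [map_mul, map_mul, hc'] at h1
    exact h1
  have htop : Subgroup.centralizer {c : P | σ c = c} = ⊤ := by
    by_contra hcon
    have h1 := hmin _ hinv hcon
    obtain ⟨q, hq⟩ := hne
    apply hq
    apply gr18_mem hP σ h7
    apply h1
    rw [Subgroup.mem_centralizer_iff]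
    intro d hd
    have hd' : σ d = d := hd
    have h2 : σ (q⁻¹ * d * q) = q⁻¹ * d * q := by
      have e : q⁻¹ * d * q = ⁅q⁻¹, d⁆ * d := by
        rw [commutatorElement_def]
        group
      rw [e, map_mul, hcomm, hd']
    rw [map_mul, map_mul, map_inv, hd'] at h2
    have h3 : d * σ q = σ q * (q⁻¹ * d * q) := by
      rw [← h2]
      group
    rw [← mul_assoc, h3]
    group
  have h1 : a ∈ Subgroup.centralizer {c : P | σ c = c} := by rw [htop]; trivial
  rw [Subgroup.mem_centralizer_iff] at h1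
  exact (h1 c hc).symm

theorem gr18_quot (σ : P →* P) (hcomm : ∀ a b : P, σ ⁅a, b⁆ = ⁅a, b⁆)
    (hsq : ∀ a : P, σ (a * a) = a * a) :
    ∃ (A : Type u18) (_ : CommGroup A) (π : P →* A), (∀ w, π w = 1 ↔ σ w = w) ∧
      ∀ w, π w * π w = 1 := by
  let C : Subgroup P :=
    { carrier := {q | σ q = q}
      one_mem' := map_one σ
      mul_mem' := by
        intro a b ha hb
        have ha' : σ a = a := ha
        have hb' : σ b = b := hb
        show σ (a * b) = a * b
        rw [map_mul, ha', hb']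
      inv_mem' := by
        intro a ha
        have ha' : σ a = a := ha
        show σ a⁻¹ = a⁻¹
        rw [map_inv, ha'] }
  have hN : C.Normal := by
    refine ⟨fun d hd g => ?_⟩
    have hd' : σ d = d := hd
    show σ (g * d * g⁻¹) = g * d * g⁻¹
    have e : g * d * g⁻¹ = ⁅g, d⁆ * d := by
      rw [commutatorElement_def]
      group
    rw [e, map_mul, hcomm, hd']
  let inst : CommGroup (P ⧸ C) :=
    { (inferInstance : Group (P ⧸ C)) with
      mul_comm := by
        intro a b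
        induction a using QuotientGroup.induction_on with
        | H a =>
          induction b using QuotientGroup.induction_on with
          | H b =>
            show (QuotientGroup.mk (a * b) : P ⧸ C) = QuotientGroup.mk (b * a)
            rw [QuotientGroup.eq]
            show σ ((a * b)⁻¹ * (b * a)) = (a * b)⁻¹ * (b * a)
            have e : (a * b)⁻¹ * (b * a) = ⁅b⁻¹, a⁻¹⁆ := by
              rw [commutatorElement_def]
              group
            rw [e, hcomm] }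
  refine ⟨P ⧸ C, inst, QuotientGroup.mk' C, ?_, ?_⟩
  · intro w
    exact QuotientGroup.eq_one_iff w
  · intro w
    show (QuotientGroup.mk (w * w) : P ⧸ C) = 1
    rw [QuotientGroup.eq_one_iff]
    exact hsq w

theorem gr18_ex (hP : IsPGroup 2 P) (σ : P →* P) (h7 : ∀ x, σ^[7] x = x)
    (hne : ∃ x, σ x ≠ x) (hcomm : ∀ a b : P, σ ⁅a, b⁆ = ⁅a, b⁆)
    (hsq : ∀ a : P, σ (a * a) = a * a) :
    ∃ x, σ x ≠ x ∧ ((∃ z, σ z = z ∧ σ (σ (σ x)) = x * σ x * z) ∨
      ∃ z, σ z = z ∧ σ (σ (σ x)) = x * σ (σ x) * z) := by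
  obtain ⟨A, hA, π, hπ, hπ2⟩ := gr18_quot σ hcomm hsq
  obtain ⟨y, hy⟩ := hne
  have h7y : σ (σ (σ (σ (σ (σ (σ y)))))) = y := h7 y
  by_cases hg : σ (σ (σ (σ y)) * σ (σ y) * y) = σ (σ (σ y)) * σ (σ y) * y
  · refine ⟨y, hy, Or.inr ⟨(y * σ (σ y))⁻¹ * σ (σ (σ y)), ?_, by group⟩⟩
    rw [← hπ] at hg ⊢
    rw [map_mul, map_mul] at hg
    rw [map_mul, map_inv, map_mul, inv_mul_eq_one]
    have h1 := hπ2 (σ (σ y))
    have h2 := hπ2 y
    generalize π (σ (σ (σ y))) = a3 at *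
    generalize π (σ (σ y)) = a2 at *
    generalize π y = a0 at *
    calc a0 * a2 = (a3 * a2 * a0) * (a0 * a2) := by rw [hg, one_mul]
      _ = a3 * ((a2 * a2) * (a0 * a0)) := by ac_rfl
      _ = a3 := by rw [h1, h2, one_mul, mul_one]
  · refine ⟨σ (σ (σ y)) * σ (σ y) * y, hg, Or.inl ?_⟩
    have key : σ (σ (σ (σ (σ (σ (σ y)) * σ (σ y) * y))) * σ (σ (σ (σ y)) * σ (σ y) * y) *
        (σ (σ (σ y)) * σ (σ y) * y)) = σ (σ (σ (σ (σ (σ y)) * σ (σ y) * y))) *
        σ (σ (σ (σ y)) * σ (σ y) * y) * (σ (σ (σ y)) * σ (σ y) * y) := by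
      apply gr18_mem hP σ h7
      rw [← hπ, map_mul π, map_inv π, mul_inv_eq_one]
      simp only [map_mul]
      rw [h7y]
      have h3 := hπ2 (σ (σ (σ y)))
      have h4 := hπ2 (σ (σ (σ (σ y))))
      generalize π (σ (σ (σ (σ (σ (σ y)))))) = a6 at *
      generalize π (σ (σ (σ (σ (σ y))))) = a5 at *
      generalize π (σ (σ (σ (σ y)))) = a4 at *
      generalize π (σ (σ (σ y))) = a3 at *
      generalize π (σ (σ y)) = a2 at *
      generalize π (σ y) = a1 at *
      generalize π y = a0 at *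
      calc a0 * a6 * a4 * (a5 * a4 * a2) * (a4 * a3 * a1)
          = (a4 * a4) * (a0 * a1 * a2 * a3 * a4 * a5 * a6) := by ac_rfl
        _ = (a3 * a3) * (a0 * a1 * a2 * a3 * a4 * a5 * a6) := by rw [h3, h4]
        _ = a6 * a5 * a3 * (a4 * a3 * a1) * (a3 * a2 * a0) := by ac_rfl
    generalize σ (σ (σ y)) * σ (σ y) * y = x at *
    refine ⟨(x * σ x)⁻¹ * σ (σ (σ x)), ?_, by group⟩
    rw [← hπ] at key ⊢
    rw [map_mul, map_mul] at key
    rw [map_mul, map_inv, map_mul, inv_mul_eq_one]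
    have h1 := hπ2 (σ x)
    have h2 := hπ2 x
    generalize π (σ (σ (σ x))) = a3 at *
    generalize π (σ x) = a1 at *
    generalize π x = a0 at *
    calc a0 * a1 = (a3 * a1 * a0) * (a0 * a1) := by rw [key, one_mul]
      _ = a3 * ((a1 * a1) * (a0 * a0)) := by ac_rfl
      _ = a3 := by rw [h1, h2, one_mul, mul_one]

theorem gr18_bil {a b c : P} (h : ∀ d, d * ⁅a, c⁆ = ⁅a, c⁆ * d) : ⁅a, b * c⁆ = ⁅a, b⁆ * ⁅a, c⁆ := by
  have e : ⁅a, b * c⁆ = ⁅a, b⁆ * (b * ⁅a, c⁆ * b⁻¹) := by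
    simp only [commutatorElement_def]
    group
  rw [e, h b, mul_assoc, mul_inv_cancel, mul_one]

theorem gr18_commute {a b : P} (h : ⁅a, b⁆ = 1) : a * b = b * a :=
  commutatorElement_eq_one_iff_mul_comm.1 h

theorem gr18_main [Finite P] (hP : IsPGroup 2 P) (σ : P →* P) (h7 : ∀ x, σ^[7] x = x)
    (hmin : ∀ M : Subgroup P, (∀ m ∈ M, σ m ∈ M) → M ≠ ⊤ → ∀ m ∈ M, σ m = m)
    (hne : ∃ x, σ x ≠ x) :
    ∃ x : P, x ≠ 1 ∧ x * x = 1 ∧ x * σ x = σ x * x ∧ x * σ (σ x) = σ (σ x) * x ∧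
      (σ (σ (σ x)) = x * σ x ∨ σ (σ (σ x)) = x * σ (σ x)) := by
  have hcomm := gr18_comm hP σ hmin hne
  have hsq := gr18_sq hP σ hmin hne hcomm
  have hcen := gr18_cen hP σ h7 hmin hne hcomm
  have hcc : ∀ a b d : P, d * ⁅a, b⁆ = ⁅a, b⁆ * d := fun a b d => hcen _ (hcomm a b) d
  have hz1 : ∀ a z : P, σ z = z → ⁅a, z⁆ = 1 := fun a z hz =>
    commutatorElement_eq_one_iff_mul_comm.2 (hcen z hz a)
  have hsh : ∀ a b : P, ⁅σ a, σ b⁆ = ⁅a, b⁆ := fun a b => by
    rw [← map_commutatorElement, hcomm]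
  obtain ⟨x, hx, hcase⟩ := gr18_ex hP σ h7 hne hcomm hsq
  -- the generators commute
  have hF : ⁅σ x, x⁆ = 1 ∧ ⁅σ (σ x), x⁆ = 1 := by
    rcases hcase with ⟨z, hz, h3⟩ | ⟨z, hz, h3⟩
    · have e1 : ⁅σ x, x * σ x * z⁆ = ⁅σ x, x⁆ := by
        rw [gr18_bil (hcc _ _), gr18_bil (hcc _ _), hz1 _ z hz, commutatorElement_self, mul_one,
          mul_one]
      have e2 : ⁅σ (σ x), x * σ x * z⁆ = ⁅σ (σ x), x⁆ * ⁅σ x, x⁆ := by
        rw [gr18_bil (hcc _ _), gr18_bil (hcc _ _), hz1 _ z hz, mul_one, hsh]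
      rw [← h3, hsh, ← commutatorElement_inv] at e1
      rw [← h3, hsh, hsh, ← commutatorElement_inv, ← e1] at e2
      rw [inv_inv, mul_inv_cancel] at e2
      rw [e2] at e1
      exact ⟨e1.symm.trans (by simp), e2⟩
    · have e1 : ⁅σ x, x * σ (σ x) * z⁆ = ⁅σ x, x⁆ * ⁅σ x, σ (σ x)⁆ := by
        rw [gr18_bil (hcc _ _), gr18_bil (hcc _ _), hz1 _ z hz, mul_one]
      have e2 : ⁅σ (σ x), x * σ (σ x) * z⁆ = ⁅σ (σ x), x⁆ := by
        rw [gr18_bil (hcc _ _), gr18_bil (hcc _ _), hz1 _ z hz, commutatorElement_self, mul_one,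
          mul_one]
      rw [← h3, hsh, hsh, ← commutatorElement_inv, ← commutatorElement_inv (σ x) x,
        mul_inv_cancel, inv_eq_one] at e1
      rw [← h3, hsh, hsh, ← commutatorElement_inv, e1, inv_eq_one] at e2
      exact ⟨e2, e1⟩
  obtain ⟨hF1, hF2⟩ := hF
  have c10 : Commute (σ x) x := gr18_commute hF1
  have c20 : Commute (σ (σ x)) x := gr18_commute hF2
  have c21 : Commute (σ (σ x)) (σ x) := gr18_commute (by rw [hsh, hF1])
  have c31 : Commute (σ (σ (σ x))) (σ x) := gr18_commute (by rw [hsh, hF2])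
  have c32 : Commute (σ (σ (σ x))) (σ (σ x)) := gr18_commute (by rw [hsh, hsh, hF1])
  have c30 : Commute (σ (σ (σ x))) x := by
    rcases hcase with ⟨z, hz, h3⟩ | ⟨z, hz, h3⟩
    · rw [h3]
      exact ((Commute.refl x).mul_left c10).mul_left (hcen z hz x).symm
    · rw [h3]
      exact ((Commute.refl x).mul_left c20).mul_left (hcen z hz x).symm
  refine ⟨σ x * x⁻¹, ?_, ?_, ?_, ?_, ?_⟩
  · intro h
    exact hx (mul_inv_eq_one.1 h)
  · have e : σ x * x⁻¹ * (σ x * x⁻¹) = (σ x * σ x) * (x * x)⁻¹ := by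
      calc σ x * x⁻¹ * (σ x * x⁻¹) = σ x * (x⁻¹ * σ x) * x⁻¹ := by group
        _ = σ x * (σ x * x⁻¹) * x⁻¹ := by rw [(c10.inv_right).eq]
        _ = (σ x * σ x) * (x * x)⁻¹ := by group
    rw [e, ← map_mul, hsq, mul_inv_cancel]
  · rw [map_mul, map_inv]
    exact (((c21.symm).mul_right (Commute.refl _).inv_right).mul_left
      ((c20.symm).mul_right c10.symm.inv_right).inv_left)
  · simp only [map_mul, map_inv]
    exact ((c31.symm.mul_right c21.symm.inv_right).mul_left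
      (c30.symm.mul_right c20.symm.inv_right).inv_left)
  · rcases hcase with ⟨z, hz, h3⟩ | ⟨z, hz, h3⟩
    · left
      have h4 : σ (σ (σ (σ x))) = σ x * σ (σ x) * z := by
        conv_lhs => rw [h3]
        rw [map_mul, map_mul, hz]
      simp only [map_mul, map_inv]
      rw [h4, h3]
      calc σ x * σ (σ x) * z * (x * σ x * z)⁻¹ = (σ x * σ (σ x)) * (σ x)⁻¹ * x⁻¹ := by group
        _ = (σ (σ x) * σ x) * (σ x)⁻¹ * x⁻¹ := by rw [c21.eq]
        _ = σ (σ x) * x⁻¹ := by group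
        _ = x⁻¹ * σ (σ x) := by rw [(c20.inv_right).eq]
        _ = x⁻¹ * (σ x * (σ x)⁻¹) * σ (σ x) := by group
        _ = (x⁻¹ * σ x) * ((σ x)⁻¹ * σ (σ x)) := by group
        _ = (σ x * x⁻¹) * (σ (σ x) * (σ x)⁻¹) := by
          rw [(c10.inv_right).eq, (c21.inv_right).eq]
    · right
      have h4 : σ (σ (σ (σ x))) = σ x * σ (σ (σ x)) * z := by
        conv_lhs => rw [h3]
        rw [map_mul, map_mul, hz]
      simp only [map_mul, map_inv]
      rw [h4]
      have h5 : z * (σ (σ (σ x)))⁻¹ = (σ (σ x))⁻¹ * x⁻¹ := by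
        rw [h3]
        group
      calc σ x * σ (σ (σ x)) * z * (σ (σ (σ x)))⁻¹
          = σ x * σ (σ (σ x)) * (z * (σ (σ (σ x)))⁻¹) := by group
        _ = σ x * (σ (σ (σ x)) * ((σ (σ x))⁻¹ * x⁻¹)) := by rw [h5]; group
        _ = σ x * (((σ (σ x))⁻¹ * x⁻¹) * σ (σ (σ x))) := by
          rw [(c32.inv_right.mul_right c30.inv_right).eq]
        _ = σ x * ((x⁻¹ * (σ (σ x))⁻¹) * σ (σ (σ x))) := by
          rw [(c20.inv_inv).eq]
        _ = σ x * x⁻¹ * ((σ (σ x))⁻¹ * σ (σ (σ x))) := by group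
        _ = σ x * x⁻¹ * (σ (σ (σ x)) * (σ (σ x))⁻¹) := by rw [(c32.inv_right).eq]

end gr18

theorem gr_two {G : Type*} [Group G] [Finite G] (h : G) (h7 : h ^ 7 = 1) (Q : Subgroup G)
    (hQ : IsPGroup 2 Q) (hn : ∀ q ∈ Q, h * q * h⁻¹ ∈ Q) (hc : ¬ ∀ q ∈ Q, h * q = q * h) :
    ∃ x ∈ Q, x ≠ 1 ∧ x * x = 1 ∧
      x * (h * x * h⁻¹) = (h * x * h⁻¹) * x ∧
      x * (h ^ 2 * x * (h ^ 2)⁻¹) = (h ^ 2 * x * (h ^ 2)⁻¹) * x ∧
      (h ^ 3 * x * (h ^ 3)⁻¹ = x * (h * x * h⁻¹) ∨
        h ^ 3 * x * (h ^ 3)⁻¹ = x * (h ^ 2 * x * (h ^ 2)⁻¹)) := by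
  suffices H : ∀ (N : ℕ) (Q : Subgroup G), Nat.card Q = N → IsPGroup 2 Q →
      (∀ q ∈ Q, h * q * h⁻¹ ∈ Q) → (¬ ∀ q ∈ Q, h * q = q * h) →
      ∃ x ∈ Q, x ≠ 1 ∧ x * x = 1 ∧
      x * (h * x * h⁻¹) = (h * x * h⁻¹) * x ∧
      x * (h ^ 2 * x * (h ^ 2)⁻¹) = (h ^ 2 * x * (h ^ 2)⁻¹) * x ∧
      (h ^ 3 * x * (h ^ 3)⁻¹ = x * (h * x * h⁻¹) ∨
        h ^ 3 * x * (h ^ 3)⁻¹ = x * (h ^ 2 * x * (h ^ 2)⁻¹)) from H _ Q rfl hQ hn hc
  intro N
  induction N using Nat.strong_induction_on with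
  | _ N ih =>
    intro Q hN hQ hn hc
    by_cases hex : ∃ Q' : Subgroup G, Q' ≤ Q ∧ Q' ≠ Q ∧ (∀ q ∈ Q', h * q * h⁻¹ ∈ Q') ∧
        ¬ ∀ q ∈ Q', h * q = q * h
    · obtain ⟨Q', h1, h2, h3, h4⟩ := hex
      have h5 : Nat.card Q' < N := by
        rw [← hN]
        exact (Set.ncard_lt_ncard (s := (Q' : Set G)) (t := (Q : Set G))
          (lt_of_le_of_ne h1 (fun hh => h2 (SetLike.coe_injective hh))))
      obtain ⟨x, hx, hx'⟩ := ih _ h5 Q' rfl (hQ.to_le h1) h3 h4
      exact ⟨x, h1 hx, hx'⟩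
    · let σ : Q →* Q :=
        { toFun := fun q => ⟨h * q * h⁻¹, hn q q.2⟩
          map_one' := by ext; simp
          map_mul' := by
            intro a b
            ext
            show h * (a * b) * h⁻¹ = (h * a * h⁻¹) * (h * b * h⁻¹)
            group }
      have hσ : ∀ q : Q, ((σ q : Q) : G) = h * q * h⁻¹ := fun _ => rfl
      have h7' : ∀ x : Q, σ^[7] x = x := by
        intro x
        have h1 : ∀ k : ℕ, ((σ^[k] x : Q) : G) = h ^ k * x * (h ^ k)⁻¹ := by
          intro k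
          induction k with
          | zero => simp
          | succ k ihk =>
            rw [Function.iterate_succ_apply', hσ, ihk, pow_succ']
            group
        ext
        rw [h1, h7]
        simp
      have hmin : ∀ M : Subgroup Q, (∀ m ∈ M, σ m ∈ M) → M ≠ ⊤ → ∀ m ∈ M, σ m = m := by
        intro M hM hMt m hm
        by_contra hcon
        apply hex
        refine ⟨M.map Q.subtype, ?_, ?_, ?_, ?_⟩
        · rintro _ ⟨a, -, rfl⟩
          exact a.2
        · intro hh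
          apply hMt
          rw [eq_top_iff]
          intro a _
          have h1 : (a : G) ∈ M.map Q.subtype := by rw [hh]; exact a.2
          obtain ⟨b, hb, hb'⟩ := h1
          have : b = a := Subtype.ext hb'
          rwa [← this]
        · rintro _ ⟨a, ha, rfl⟩
          exact ⟨σ a, hM a ha, rfl⟩
        · intro hh
          apply hcon
          have h1 := hh (m : G) ⟨m, hm, rfl⟩
          ext
          rw [hσ, h1]
          group
      have hne : ∃ x, σ x ≠ x := by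
        by_contra hcon
        apply hc
        intro q hq
        have h1 : σ ⟨q, hq⟩ = ⟨q, hq⟩ := by
          by_contra h2
          exact hcon ⟨_, h2⟩
        have h2 : h * q * h⁻¹ = q := congrArg Subtype.val h1
        calc h * q = (h * q * h⁻¹) * h := by group
          _ = q * h := by rw [h2]
      obtain ⟨x, x1, x2, x3, x4, x5⟩ := gr18_main hQ σ h7' hmin hne
      have s2 : ((σ (σ x) : Q) : G) = h ^ 2 * x * (h ^ 2)⁻¹ := by
        rw [hσ, hσ, pow_two, mul_inv_rev]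
        simp only [mul_assoc]
      have s3 : ((σ (σ (σ x)) : Q) : G) = h ^ 3 * x * (h ^ 3)⁻¹ := by
        rw [hσ, hσ, hσ, pow_succ, pow_two, mul_inv_rev, mul_inv_rev]
        simp only [mul_assoc]
      refine ⟨x, x.2, fun hh => x1 (Subtype.ext hh), congrArg Subtype.val x2,
        congrArg Subtype.val x3, ?_, ?_⟩
      · have := congrArg Subtype.val x4
        rw [← s2]
        exact this
      · rw [← s2, ← s3]
        rcases x5 with h1 | h1
        · left
          exact congrArg Subtype.val h1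
        · right
          exact congrArg Subtype.val h1

end Pool.Agent.H26.E2
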