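import Pool.Agent.H26.E2.Fr1
import Pool.Agent.H26.E2.Fr3
import Pool.Agent.H26.E2.GR

/-!
# E2-24: 2-subgroups of `F` normalised by a coroot torus (proved, helper89)

`Q ≤ F` a 2-group with `h_a(c) Q h_a(c)⁻¹ ≤ Q` for all `c`.  Then every `h_a(c)` commutes with all
elements of `Q`.
Let `z` be a generator of `K^*` with `z³ = z + 1` (`exists_zeta`), `h = h_a(z)`, `h^7 = 1`.  If `h` does
not centralise `Q`, `gr_two` (the group `LL ≃ LL` is finite, `finite_group`) gives `x ∈ Q`,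
`x ≠ 1`, `x² = 1`, commuting conjugates `x_0 = x`, `x_1 = h x h⁻¹`, `x_2 = h² x h⁻²` (`x_1`, `x_2`
commute: conjugate) and (I) `h³ x h⁻³ = x_0 x_1` or (II) `h³ x h⁻³ = x_0 x_2`.
(I): every `s ∈ K` is `a_0 + a_1 z + a_2 z²` with unique `a_i ∈ {0,1}`; `q_s = x_0^(a_0) x_1^(a_1)
x_2^(a_2)` is additive (`x_i² = 1`, `1 + 1 = 0`) and `h q_s h⁻¹ = q_(z s)`
(`z³ = 1 + z`, `h x_2 h⁻¹ = x_0 x_1`), so `h_a(c) q_s h_a(c)⁻¹ = q_(c s)` for all `c = z^i`.
(An elegant definition of `q`: `q 0 = 1`, `q (z^i) = h^i x h^(-i)`; additivity: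
`h^i x h^-i * h^j x h^-j = h^k x h^-k` whenever `z^i + z^j = z^k`, seven relations up to the
action of `h`.)  `three_e`: `q_1 e_a = e_a`, i.e. `x e_a = e_a`; by `v0f` (`f = x`, `a = b`, `k = 1`)
`x h_a(c) x⁻¹ = h_a(c)`, so `h x h⁻¹ = x`, `q_z = q_1`, `q_(z+1) = 1`, so `x = 1` after conjugating by
a power of `h`.  Contradiction.
(II): `z⁻¹` satisfies... `(z⁻¹)³ = (z⁻¹)² + 1`.  Put `q 0 = 1`, `q (z^(-i)) = h^i x h^(-i)`: additive,
`h_a(c) q_s h_a(c)⁻¹ = q_(c⁻¹ s)`, so `h_(-a)(c) q_s h_(-a)(c)⁻¹ = q_(c s)` (`h_(-a)(c) = h_a(c⁻¹)`);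
`three_e` for `ng a`.
Then `h` centralises `Q`, so all `h_a(c)`, which are powers of `h`.
-/

namespace Pool.Agent.H26.E2

open Pool.Agent.H33.EQ

variable {n : ℕ} {C : Matrix (Fin n) (Fin n) ℤ} {K : Type} [Field K] [Fintype (Rt C)]
variable {F : Subgroup (LL C K ≃ₗ[K] LL C K)}

/-- the representation attached to a sequence of involutions with `X (i+3) = X i * X (i+1)` -/
theorem fr4_rep {K : Type} [Field K] (h2 : (2 : K) = 0) {z : K} (hz0 : z ≠ 0)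
    (hz3 : z ^ 3 = z + 1) (hz7 : z ^ 7 = 1) (hzk : ∀ k : ℕ, 0 < k → k < 7 → z ^ k ≠ 1)
    (hzg : ∀ c : K, c ≠ 0 → ∃ k : ℕ, k < 7 ∧ c = z ^ k) {G : Type*} [Group G]
    (X : ℕ → G) (h7 : ∀ i, X (i + 7) = X i) (hXX : ∀ i, X i * X i = 1)
    (h01 : ∀ i, X i * X (i + 1) = X (i + 1) * X i) (h02 : ∀ i, X i * X (i + 2) = X (i + 2) * X i)
    (h3 : ∀ i, X (i + 3) = X i * X (i + 1)) :
    ∃ q : K → G, q 0 = 1 ∧ (∀ i : ℕ, q (z ^ i) = X i) ∧ ∀ s t, q (s + t) = q s * q t := by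
  classical
  have hinj : ∀ i j : ℕ, i < 7 → j < 7 → z ^ i = z ^ j → i = j := by
    have key : ∀ i j : ℕ, i < 7 → j < 7 → i < j → z ^ i ≠ z ^ j := by
      intro i j hi hj hij h
      apply hzk (j - i) (by omega) (by omega)
      have h1 : z ^ i * z ^ (j - i) = z ^ i * 1 := by
        rw [← pow_add, Nat.add_sub_cancel' hij.le, mul_one, h]
      exact mul_left_cancel₀ (pow_ne_zero i hz0) h1
    intro i j hi hj h
    rcases lt_trichotomy i j with h1 | h1 | h1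
    · exact absurd h (key i j hi hj h1)
    · exact h1
    · exact absurd h.symm (key j i hj hi h1)
  have hmod : ∀ i : ℕ, X i = X (i % 7) := by
    intro i
    conv_lhs => rw [← Nat.mod_add_div i 7]
    generalize i / 7 = k
    induction k with
    | zero => simp
    | succ k ih => rw [← ih, mul_add, mul_one, ← add_assoc, h7]
  have hzmod : ∀ i : ℕ, z ^ i = z ^ (i % 7) := by
    intro i
    conv_lhs => rw [← Nat.mod_add_div i 7, pow_add, pow_mul, hz7, one_pow, mul_one]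
  have hlog : ∀ c : K, ∃ k : ℕ, c ≠ 0 → k < 7 ∧ c = z ^ k := by
    intro c
    by_cases hc : c = 0
    · exact ⟨0, fun h => absurd hc h⟩
    · obtain ⟨k, hk⟩ := hzg c hc
      exact ⟨k, fun _ => hk⟩
  choose L hL using hlog
  have hq : ∀ i : ℕ, X (L (z ^ i)) = X i := by
    intro i
    obtain ⟨h1, h2⟩ := hL (z ^ i) (pow_ne_zero i hz0)
    rw [hmod i]
    congr 1
    apply hinj _ _ h1 (Nat.mod_lt _ (by norm_num))
    rw [← h2, ← hzmod]
  refine ⟨fun s => if s = 0 then 1 else X (L s), ?_, ?_, ?_⟩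
  · simp
  · intro i
    simp only [pow_ne_zero i hz0, if_false]
    exact hq i
  · have hXi : ∀ i, (X i)⁻¹ = X i := fun i => by
      rw [inv_eq_iff_mul_eq_one]
      exact hXX i
    have add_self : ∀ s : K, s + s = 0 := fun s => by
      rw [← two_mul, h2, zero_mul]
    -- the relations
    have r1 : ∀ i, X i * X (i + 1) = X (i + 3) := fun i => (h3 i).symm
    have r3 : ∀ i, X i * X (i + 3) = X (i + 1) := fun i => by
      rw [h3, ← mul_assoc, hXX, one_mul]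
    have r6' : ∀ i, X (i + 6) = X i * X (i + 2) := fun i => by
      have e1 := h3 (i + 3)
      have e2 := h3 (i + 1)
      have e3 := h3 i
      have : X (i + 6) = X (i + 3) * X (i + 4) := e1
      rw [this, e3]
      have e4 : X (i + 4) = X (i + 1) * X (i + 2) := e2
      rw [e4, mul_assoc, ← mul_assoc (X (i + 1)), hXX, one_mul]
    have r2 : ∀ i, X i * X (i + 2) = X (i + 6) := fun i => (r6' i).symm
    have r6 : ∀ i, X i * X (i + 6) = X (i + 2) := fun i => by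
      rw [r6', ← mul_assoc, hXX, one_mul]
    have r4 : ∀ i, X i * X (i + 4) = X (i + 5) := fun i => by
      have e4 : X (i + 4) = X (i + 1) * X (i + 2) := h3 (i + 1)
      have e5 : X (i + 5) = X (i + 2) * X (i + 3) := h3 (i + 2)
      rw [e4, e5, h3 i, ← mul_assoc, ← mul_assoc]
      have e12 : X (i + 1) * X (i + 2) = X (i + 2) * X (i + 1) := h01 (i + 1)
      rw [mul_assoc, e12, ← mul_assoc, h02 i]
    have r5 : ∀ i, X i * X (i + 5) = X (i + 4) := fun i => by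
      rw [← r4 i, ← mul_assoc, hXX, one_mul]
    have z3 : z ^ 3 = 1 + z := by rw [hz3, add_comm]
    have hz1 : ∀ k : ℕ, 0 < k → k < 7 → ∀ i : ℕ, ∃ j : ℕ, z ^ i + z ^ (i + k) = z ^ j ∧
        X i * X (i + k) = X j := by
      have base : ∀ k m : ℕ, 1 + z ^ k = z ^ m → ∀ i : ℕ, z ^ i + z ^ (i + k) = z ^ (i + m) := by
        intro k m h i
        rw [pow_add, pow_add, ← h]
        ring
      have h2z : ∀ s : K, 2 * s = 0 := fun s => by rw [h2, zero_mul]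
      intro k hk hk7 i
      interval_cases k
      · exact ⟨i + 3, base 1 3 (by rw [hz3]; ring) i, r1 i⟩
      · refine ⟨i + 6, base 2 6 ?_ i, r2 i⟩
        have : z ^ 6 = z ^ 2 + 1 + 2 * z := by
          calc z ^ 6 = (z ^ 3) ^ 2 := by ring
            _ = _ := by rw [hz3]; ring
        rw [this, h2z]
        ring
      · refine ⟨i + 1, base 3 1 ?_ i, r3 i⟩
        rw [hz3, pow_one]
        have := h2z 1
        linear_combination this
      · refine ⟨i + 5, base 4 5 ?_ i, r4 i⟩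
        have : z ^ 5 = z ^ 3 + z ^ 2 := by
          calc z ^ 5 = z ^ 3 * z ^ 2 := by ring
            _ = (z + 1) * z ^ 2 := by rw [hz3]
            _ = _ := by ring
        have h4 : z ^ 4 = z ^ 2 + z := by
          calc z ^ 4 = z ^ 3 * z := by ring
            _ = (z + 1) * z := by rw [hz3]
            _ = _ := by ring
        rw [this, h4, hz3]
        ring
      · refine ⟨i + 4, base 5 4 ?_ i, r5 i⟩
        have : z ^ 5 = z ^ 3 + z ^ 2 := by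
          calc z ^ 5 = z ^ 3 * z ^ 2 := by ring
            _ = (z + 1) * z ^ 2 := by rw [hz3]
            _ = _ := by ring
        have h4 : z ^ 4 = z ^ 2 + z := by
          calc z ^ 4 = z ^ 3 * z := by ring
            _ = (z + 1) * z := by rw [hz3]
            _ = _ := by ring
        rw [this, h4, hz3]
        have := h2z 1
        linear_combination this
      · refine ⟨i + 2, base 6 2 ?_ i, r6 i⟩
        have : z ^ 6 = z ^ 2 + 1 + 2 * z := by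
          calc z ^ 6 = (z ^ 3) ^ 2 := by ring
            _ = _ := by rw [hz3]; ring
        rw [this, h2z]
        have := h2z 1
        linear_combination this
    have hcomm : ∀ k : ℕ, 0 < k → k < 7 → ∀ i : ℕ, X i * X (i + k) = X (i + k) * X i := by
      intro k hk hk7 i
      obtain ⟨j, -, hj⟩ := hz1 k hk hk7 i
      have e1 : (X i * X (i + k))⁻¹ = X i * X (i + k) := by rw [hj, hXi]
      rw [mul_inv_rev, hXi, hXi] at e1
      exact e1.symm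
    intro s t
    by_cases hs : s = 0
    · subst hs
      simp
    by_cases ht : t = 0
    · subst ht
      simp
    obtain ⟨i, hi, rfl⟩ := hzg s hs
    obtain ⟨j, hj, rfl⟩ := hzg t ht
    simp only [hs, ht, if_false]
    rw [hq, hq]
    rcases lt_trichotomy i j with hij | hij | hij
    · obtain ⟨m, hm1, hm2⟩ := hz1 (j - i) (by omega) (by omega) i
      rw [Nat.add_sub_cancel' hij.le] at hm1 hm2
      rw [hm1, hm2, if_neg (pow_ne_zero m hz0), hq]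
    · subst hij
      rw [add_self, if_pos rfl, hXX]
    · obtain ⟨m, hm1, hm2⟩ := hz1 (i - j) (by omega) (by omega) j
      have hc := hcomm (i - j) (by omega) (by omega) j
      rw [Nat.add_sub_cancel' hij.le] at hm1 hm2 hc
      rw [add_comm, hm1, ← hc, hm2, if_neg (pow_ne_zero m hz0), hq]

omit [Fintype (Rt C)] in
theorem fr4_hd_mul (y : Fin n → ℤ) (c d : Kˣ) :
    (hd C y (c * d) : LL C K ≃ₗ[K] LL C K) = hd C y c * hd C y d := by
  refine LinearEquiv.ext fun u => ?_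
  refine Prod.ext rfl (funext fun b => ?_)
  change (((c * d) ^ (ip C y b.1) : Kˣ) : K) * u.2 b =
    ((c ^ (ip C y b.1) : Kˣ) : K) * (((d ^ (ip C y b.1) : Kˣ) : K) * u.2 b)
  rw [mul_zpow, Units.val_mul, mul_assoc]

omit [Fintype (Rt C)] in
theorem fr4_hd_one (y : Fin n → ℤ) : (hd C y (1 : Kˣ) : LL C K ≃ₗ[K] LL C K) = 1 := by
  have h := fr4_hd_mul (C := C) (K := K) y 1 1
  rw [mul_one] at h
  exact (mul_eq_left.1 h.symm)

omit [Fintype (Rt C)] in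
theorem fr4_hd_pow (y : Fin n → ℤ) (c : Kˣ) (k : ℕ) :
    (hd C y (c ^ k) : LL C K ≃ₗ[K] LL C K) = hd C y c ^ k := by
  induction k with
  | zero => rw [pow_zero, pow_zero, fr4_hd_one]
  | succ k ih => rw [pow_succ, pow_succ, fr4_hd_mul, ih]

theorem fr4_hd_neg (a : Rt C) (c : Kˣ) :
    (hd C (ng a).1 c : LL C K ≃ₗ[K] LL C K) = (hd C a.1 c)⁻¹ := by
  apply eq_inv_of_mul_eq_one_left
  rw [← hd_add, ng_val, neg_add_cancel, TorA_hd_zero]

/-- case (I) -/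
theorem fr4_one (H : Hyp C K) (X : Ctx F) (a : Rt C) {z : K} (hz0 : z ≠ 0)
    (hz3 : z ^ 3 = z + 1) (hz7 : z ^ 7 = 1) (hzk : ∀ k : ℕ, 0 < k → k < 7 → z ^ k ≠ 1)
    (hzg : ∀ c : K, c ≠ 0 → ∃ k : ℕ, k < 7 ∧ c = z ^ k) (h2 : (2 : K) = 0)
    {x h : LL C K ≃ₗ[K] LL C K} (hh : h = hd C a.1 (Units.mk0 z hz0)) (hx : x ∈ F)
    (hx1 : x * x = 1) (h01 : x * (h * x * h⁻¹) = (h * x * h⁻¹) * x)
    (h02 : x * (h ^ 2 * x * (h ^ 2)⁻¹) = (h ^ 2 * x * (h ^ 2)⁻¹) * x)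
    (h3 : h ^ 3 * x * (h ^ 3)⁻¹ = x * (h * x * h⁻¹)) : x = 1 := by
  have hzu : Units.mk0 z hz0 ^ 7 = 1 := by
    ext
    rw [Units.val_pow_eq_pow_val, Units.val_mk0, hz7, Units.val_one]
  have h7 : h ^ 7 = 1 := by
    rw [hh, ← fr4_hd_pow, hzu, fr4_hd_one]
  have hhF : h ∈ F := by
    rw [hh]
    exact X.hT (hd_mem_T1 H _ _)
  have hsh : ∀ i k : ℕ, h ^ (i + k) * x * (h ^ (i + k))⁻¹ = h ^ i * (h ^ k * x * (h ^ k)⁻¹) * (h ^ i)⁻¹ := by
    intro i k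
    rw [pow_add]
    group
  obtain ⟨q, q0, qz, qadd⟩ := fr4_rep h2 hz0 hz3 hz7 hzk hzg
    (fun i => h ^ i * x * (h ^ i)⁻¹)
    (fun i => by
      show h ^ (i + 7) * x * (h ^ (i + 7))⁻¹ = h ^ i * x * (h ^ i)⁻¹
      rw [pow_add, h7, mul_one])
    (fun i => by
      show h ^ i * x * (h ^ i)⁻¹ * (h ^ i * x * (h ^ i)⁻¹) = 1
      calc h ^ i * x * (h ^ i)⁻¹ * (h ^ i * x * (h ^ i)⁻¹) = h ^ i * (x * x) * (h ^ i)⁻¹ := by group
        _ = 1 := by rw [hx1, mul_one, mul_inv_cancel])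
    (fun i => by
      show h ^ i * x * (h ^ i)⁻¹ * (h ^ (i + 1) * x * (h ^ (i + 1))⁻¹) =
        h ^ (i + 1) * x * (h ^ (i + 1))⁻¹ * (h ^ i * x * (h ^ i)⁻¹)
      rw [hsh i 1, pow_one]
      calc h ^ i * x * (h ^ i)⁻¹ * (h ^ i * (h * x * h⁻¹) * (h ^ i)⁻¹)
          = h ^ i * (x * (h * x * h⁻¹)) * (h ^ i)⁻¹ := by group
        _ = h ^ i * ((h * x * h⁻¹) * x) * (h ^ i)⁻¹ := by rw [h01]
        _ = _ := by group)
    (fun i => by
      show h ^ i * x * (h ^ i)⁻¹ * (h ^ (i + 2) * x * (h ^ (i + 2))⁻¹) =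
        h ^ (i + 2) * x * (h ^ (i + 2))⁻¹ * (h ^ i * x * (h ^ i)⁻¹)
      rw [hsh i 2]
      calc h ^ i * x * (h ^ i)⁻¹ * (h ^ i * (h ^ 2 * x * (h ^ 2)⁻¹) * (h ^ i)⁻¹)
          = h ^ i * (x * (h ^ 2 * x * (h ^ 2)⁻¹)) * (h ^ i)⁻¹ := by group
        _ = h ^ i * ((h ^ 2 * x * (h ^ 2)⁻¹) * x) * (h ^ i)⁻¹ := by rw [h02]
        _ = _ := by group)
    (fun i => by
      show h ^ (i + 3) * x * (h ^ (i + 3))⁻¹ =
        h ^ i * x * (h ^ i)⁻¹ * (h ^ (i + 1) * x * (h ^ (i + 1))⁻¹)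
      rw [hsh i 3, hsh i 1, pow_one, h3]
      group)
  have qF : ∀ s, q s ∈ F := by
    intro s
    by_cases hs : s = 0
    · rw [hs, q0]
      exact one_mem F
    · obtain ⟨i, -, rfl⟩ := hzg s hs
      rw [qz]
      exact mul_mem (mul_mem (pow_mem hhF i) hx) (inv_mem (pow_mem hhF i))
  have hc : ∀ (c : Kˣ) (s : K), hd C a.1 c * q s * (hd C a.1 c)⁻¹ = q (c * s) := by
    intro c s
    obtain ⟨k, -, hk⟩ := hzg c c.ne_zero
    have hck : c = Units.mk0 z hz0 ^ k := by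
      ext
      rw [hk, Units.val_pow_eq_pow_val, Units.val_mk0]
    have hd1 : (hd C a.1 c : LL C K ≃ₗ[K] LL C K) = h ^ k := by
      rw [hck, fr4_hd_pow, hh]
    rw [hd1]
    by_cases hs : s = 0
    · rw [hs, mul_zero, q0, mul_one, mul_inv_cancel]
    · obtain ⟨i, -, rfl⟩ := hzg s hs
      rw [hk, ← pow_add, qz, qz, hsh k i]
  have he := three_e H a q (fun s => X.hF (qF s)) q0 qadd hc
  have hq1 : q 1 = x := by
    have h1 := qz 0
    rw [pow_zero] at h1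
    rw [h1, pow_zero]
    group
  rw [hq1] at he
  have hv := (v0f H X hx (a := a) (b := a) (one_ne_zero (α := K)) (by rw [he, one_smul])).1
    (Units.mk0 z hz0)
  rw [← hh] at hv
  have hcm : h * x * h⁻¹ = x := by
    have h1 : x * h = h * x := mul_inv_eq_iff_eq_mul.1 hv
    rw [← h1]
    group
  have h1 : h ^ 3 * x * (h ^ 3)⁻¹ = x := by
    have e1 : h ^ 3 * x * (h ^ 3)⁻¹ = h * (h * (h * x * h⁻¹) * h⁻¹) * h⁻¹ := by
      simp only [pow_succ, pow_zero, one_mul, mul_inv_rev, mul_assoc]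
    rw [e1, hcm, hcm, hcm]
  rw [h1, hcm] at h3
  exact (mul_eq_left.1 h3.symm)

theorem two_f (H : Hyp C K) (X : Ctx F) (a : Rt C) (Q : Subgroup (LL C K ≃ₗ[K] LL C K))
    (hQF : Q ≤ F) (hQ : IsPGroup 2 Q)
    (hn : ∀ c : Kˣ, ∀ u ∈ Q, hd C a.1 c * u * (hd C a.1 c)⁻¹ ∈ Q) :
    ∀ c : Kˣ, ∀ u ∈ Q, hd C a.1 c * u = u * hd C a.1 c := by
  have hK : Nat.card K = 8 := H.card
  have h2 : (2 : K) = 0 := H.two
  obtain ⟨z, hz0, hz3, hz7, hzk, hzg⟩ := exists_zeta hK h2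
  obtain ⟨h, hh⟩ : ∃ h, h = (hd C a.1 (Units.mk0 z hz0) : LL C K ≃ₗ[K] LL C K) := ⟨_, rfl⟩
  have hfin := finite_group H
  have hzu : Units.mk0 z hz0 ^ 7 = 1 := by
    ext
    rw [Units.val_pow_eq_pow_val, Units.val_mk0, hz7, Units.val_one]
  have h7 : h ^ 7 = 1 := by
    rw [hh, ← fr4_hd_pow, hzu, fr4_hd_one]
  have key : ∀ u ∈ Q, h * u = u * h := by
    by_contra hc
    obtain ⟨x, hxQ, hx1, hxx, c1, c2, h3⟩ := gr_two h h7 Q hQ
      (fun q hq => by rw [hh]; exact hn _ q hq) hc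
    apply hx1
    rcases h3 with h3 | h3
    · exact fr4_one H X a hz0 hz3 hz7 hzk hzg h2 hh (hQF hxQ) hxx c1 c2 h3
    · have hh' : h⁻¹ = hd C (ng a).1 (Units.mk0 z hz0) := by
        rw [fr4_hd_neg, hh]
      refine fr4_one H X (ng a) hz0 hz3 hz7 hzk hzg h2 hh' (hQF hxQ) hxx ?_ ?_ ?_
      · -- conjugate c1 by h⁻¹
        have e1 : x * (h⁻¹ * x * h⁻¹⁻¹) = h⁻¹ * ((h * x * h⁻¹) * x) * h := by group
        have e2 : (h⁻¹ * x * h⁻¹⁻¹) * x = h⁻¹ * (x * (h * x * h⁻¹)) * h := by group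
        rw [e1, e2, c1]
      · have e1 : x * (h⁻¹ ^ 2 * x * (h⁻¹ ^ 2)⁻¹) =
            (h ^ 2)⁻¹ * ((h ^ 2 * x * (h ^ 2)⁻¹) * x) * h ^ 2 := by group
        have e2 : (h⁻¹ ^ 2 * x * (h⁻¹ ^ 2)⁻¹) * x =
            (h ^ 2)⁻¹ * (x * (h ^ 2 * x * (h ^ 2)⁻¹)) * h ^ 2 := by group
        rw [e1, e2, c2]
      · -- x = (h⁻³ x h³) (h⁻¹ x h)
        have e1 : x = (h⁻¹ ^ 3 * x * (h⁻¹ ^ 3)⁻¹) * (h⁻¹ * x * h⁻¹⁻¹) := by
          calc x = (h ^ 3)⁻¹ * (h ^ 3 * x * (h ^ 3)⁻¹) * h ^ 3 := by group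
            _ = (h ^ 3)⁻¹ * (x * (h ^ 2 * x * (h ^ 2)⁻¹)) * h ^ 3 := by rw [h3]
            _ = _ := by group
        have e2 : (h⁻¹ * x * h⁻¹⁻¹) * (h⁻¹ * x * h⁻¹⁻¹) = 1 := by
          calc (h⁻¹ * x * h⁻¹⁻¹) * (h⁻¹ * x * h⁻¹⁻¹) = h⁻¹ * (x * x) * h := by group
            _ = 1 := by rw [hxx]; group
        calc h⁻¹ ^ 3 * x * (h⁻¹ ^ 3)⁻¹
            = h⁻¹ ^ 3 * x * (h⁻¹ ^ 3)⁻¹ * ((h⁻¹ * x * h⁻¹⁻¹) * (h⁻¹ * x * h⁻¹⁻¹)) := by
              rw [e2, mul_one]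
          _ = (h⁻¹ ^ 3 * x * (h⁻¹ ^ 3)⁻¹ * (h⁻¹ * x * h⁻¹⁻¹)) * (h⁻¹ * x * h⁻¹⁻¹) := by
              exact (mul_assoc _ _ _).symm
          _ = x * (h⁻¹ * x * h⁻¹⁻¹) := by rw [← e1]
  intro c u hu
  obtain ⟨k, -, hk⟩ := hzg c c.ne_zero
  have hck : c = Units.mk0 z hz0 ^ k := by
    ext
    rw [hk, Units.val_pow_eq_pow_val, Units.val_mk0]
  have hd1 : (hd C a.1 c : LL C K ≃ₗ[K] LL C K) = h ^ k := by
    rw [hck, fr4_hd_pow, hh]
  rw [hd1]
  exact (Commute.pow_left (key u hu) k)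

end Pool.Agent.H26.E2
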