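import Pool.Agent.H26.E2.Fr2
import Pool.Agent.H26.E2.Fr4

/-!
# E2-25: the `F`-pairs form a system of pairs

`FPr F v w`: `v = g e_a`, `w = g e_(-a)` for some `g ∈ F` and some root `a`.
* `lb`: `lbE`; `card`: `H.card`; `fin`: `finite_group H`; `aut`: `X.hF` and the definition of `GG`;
  `pair`: `pair_g`; `mv`: `f g ∈ F`; `sw`: `ng (ng a) = a`;
* `sc`: a root `y` with `(y,a) = 1` (`H.ra a (ng a)`.. or `exists_one`), `g' = g h_y(c)`: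
  `h_y(c) e_a = c e_a`, `h_y(c) e_(-a) = c⁻¹ e_(-a)`, `h_y(c) ∈ T1 ≤ F`;
* `tor`: `tr_g`: `t = g h_a(c) g⁻¹`;
* `v0`: `(g e_a, g e_(-a))`, `(g' e_b, g' e_(-b))` with `g e_a = g' e_b`: `f = g⁻¹ g'`,
  `f e_b = e_a`, `v0f`: `f e_(-b) = e_(-a)`;
* `com1`: conjugate by `g⁻¹` where `(v,w) = (g e_a, g e_(-a))`: `com1f`.  The hypothesis `Cm` speaks
  about `te`: `te br fm (f e_a) (f e_(-a)) c = f h_a(c) f⁻¹` for `f ∈ F` (`te_f` below), and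
  `tr v' w' d v = t v`, `t = g' h_b(d) g'⁻¹`.  From `com1f`: `t` commutes with the torus of `(v,w)`,
  `t` generates the torus of `(v',w')` (`d ≠ 1` has order 7, `K^*` has order 7).
* `two`: conjugate by `g⁻¹`: `two_f` for `g⁻¹ Q g`.
-/

namespace Pool.Agent.H26.E2

open Pool.Agent.H33.EQ

variable {n : ℕ} {C : Matrix (Fin n) (Fin n) ℤ} {K : Type} [Field K] [Fintype (Rt C)]
variable {F : Subgroup (LL C K ≃ₗ[K] LL C K)}

/-- the `F`-pairs -/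
def FPr (F : Subgroup (LL C K ≃ₗ[K] LL C K)) (v w : LL C K) : Prop :=
  ∃ g ∈ F, ∃ a : Rt C, v = g (e K a) ∧ w = g (e K (ng a))

theorem te_f (H : Hyp C K) {g : LL C K ≃ₗ[K] LL C K} (hg : g ∈ GG C K) (a : Rt C) (c : Kˣ) :
    te (br : LL C K →ₗ[K] LL C K →ₗ[K] LL C K) fm (g (e K a)) (g (e K (ng a))) (c : K)
      = g * hd C a.1 c * g⁻¹ := by
  have hex : ∃ t : LL C K ≃ₗ[K] LL C K, ∀ x,
      t x = tr (br : LL C K →ₗ[K] LL C K →ₗ[K] LL C K) fm (g (e K a)) (g (e K (ng a))) (c : K) x :=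
    ⟨g * hd C a.1 c * g⁻¹, fun x => (tr_g H hg a c x).symm⟩
  unfold te
  rw [dif_pos hex]
  apply LinearEquiv.ext
  intro x
  rw [hex.choose_spec x, tr_g H hg]

omit [Fintype (Rt C)] in
theorem Fr5_hd_mul (y : Fin n → ℤ) (c d : Kˣ) :
    (hd C y (c * d) : LL C K ≃ₗ[K] LL C K) = hd C y c * hd C y d := by
  refine LinearEquiv.ext fun x => Prod.ext rfl (funext fun r => ?_)
  show (((c * d) ^ (ip C y r.1) : Kˣ) : K) * x.2 r =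
    ((c ^ (ip C y r.1) : Kˣ) : K) * (((d ^ (ip C y r.1) : Kˣ) : K) * x.2 r)
  rw [mul_zpow, Units.val_mul, mul_assoc]

omit [Fintype (Rt C)] in
theorem Fr5_hd_pow (y : Fin n → ℤ) (c : Kˣ) (k : ℕ) :
    (hd C y (c ^ k) : LL C K ≃ₗ[K] LL C K) = hd C y c ^ k := by
  induction k with
  | zero =>
    rw [pow_zero, pow_zero]
    refine LinearEquiv.ext fun x => Prod.ext rfl (funext fun r => ?_)
    show (((1 : Kˣ) ^ (ip C y r.1) : Kˣ) : K) * x.2 r = x.2 r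
    rw [one_zpow, Units.val_one, one_mul]
  | succ k ih => rw [pow_succ, pow_succ, Fr5_hd_mul, ih]

theorem Fr5_mem (H : Hyp C K) (X : Ctx F) {g : LL C K ≃ₗ[K] LL C K} (hg : g ∈ F) (a : Rt C)
    (c : Kˣ) : g * hd C a.1 c * g⁻¹ ∈ F :=
  F.mul_mem (F.mul_mem hg (X.hT (hd_mem_T1 H _ _))) (F.inv_mem hg)

theorem Fr5_sc (H : Hyp C K) (X : Ctx F) (v w : LL C K) (h : FPr F v w) (c : K) (hc : c ≠ 0) :
    FPr F (c • v) (c⁻¹ • w) := by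
  obtain ⟨g, hg, a, rfl, rfl⟩ := h
  obtain ⟨y, hy⟩ := exists_one H a
  refine ⟨g * hd C y.1 (Units.mk0 c hc), F.mul_mem hg (X.hT (hd_mem_T1 H _ _)), a, ?_, ?_⟩
  · rw [LinearEquiv.mul_apply, hd_e, map_smul, hy, zpow_one, Units.val_mk0]
  · rw [LinearEquiv.mul_apply, hd_e, map_smul, ng_val, ip_neg_right, hy, zpow_neg, zpow_one,
      Units.val_inv_eq_inv_val, Units.val_mk0]

theorem Fr5_v0 (H : Hyp C K) (X : Ctx F) (v w w' : LL C K) (h : FPr F v w) (h' : FPr F v w') :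
    w' = w := by
  obtain ⟨g, hg, a, rfl, rfl⟩ := h
  obtain ⟨g', hg', b, h1, rfl⟩ := h'
  have hf : g⁻¹ * g' ∈ F := F.mul_mem (F.inv_mem hg) hg'
  have h2 : (g⁻¹ * g') (e K b) = (1 : K) • e K a := by
    rw [LinearEquiv.mul_apply, ← h1, nor_apply_inv, one_smul]
  have h3 := (v0f H X hf one_ne_zero h2).2
  rw [LinearEquiv.mul_apply, inv_one, one_smul] at h3
  rw [← h3, nor_inv_apply]

theorem Fr5_com1 (H : Hyp C K) (X : Ctx F) (hK : Nat.card K = 8) (v w v' w' : LL C K)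
    (h : FPr F v w) (h' : FPr F v' w') (d : K) (hd0 : d ≠ 0) (hd1 : d ≠ 1)
    (hcm : Cm (br : LL C K →ₗ[K] LL C K →ₗ[K] LL C K) fm v w (tr br fm v' w' d v)
      (tr br fm v' w' d w)) : Cm (br : LL C K →ₗ[K] LL C K →ₗ[K] LL C K) fm v w v' w' := by
  obtain ⟨g, hg, a, rfl, rfl⟩ := h
  obtain ⟨g', hg', b, rfl, rfl⟩ := h'
  have hu1 : Units.mk0 d hd0 ≠ 1 := by
    intro h1
    apply hd1
    have := congrArg Units.val h1
    simpa using this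
  have hdu : d = ((Units.mk0 d hd0 : Kˣ) : K) := rfl
  generalize Units.mk0 d hd0 = δ at hu1 hdu
  subst hdu
  -- the torus element
  have ht : ∀ x, tr (br : LL C K →ₗ[K] LL C K →ₗ[K] LL C K) fm (g' (e K b)) (g' (e K (ng b)))
      (δ : K) x = (g' * hd C b.1 δ * g'⁻¹) x := fun x => tr_g H (X.hF hg') b δ x
  have htm := Fr5_mem H X hg' b δ
  rw [ht, ht] at hcm
  have hg2 : g⁻¹ * g' ∈ F := F.mul_mem (F.inv_mem hg) hg'
  have key : ∀ c c' : Kˣ, ((g⁻¹ * g') * hd C b.1 δ * (g⁻¹ * g')⁻¹) * hd C a.1 c' *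
      ((g⁻¹ * g') * hd C b.1 δ * (g⁻¹ * g')⁻¹)⁻¹ * hd C a.1 c = hd C a.1 c *
        (((g⁻¹ * g') * hd C b.1 δ * (g⁻¹ * g')⁻¹) * hd C a.1 c' *
          ((g⁻¹ * g') * hd C b.1 δ * (g⁻¹ * g')⁻¹)⁻¹) := by
    intro c c'
    have h1 := hcm (c : K) (c' : K) c.ne_zero c'.ne_zero
    rw [te_f H (X.hF hg) a c] at h1
    have h2 : te (br : LL C K →ₗ[K] LL C K →ₗ[K] LL C K) fm
        ((g' * hd C b.1 δ * g'⁻¹) (g (e K a))) ((g' * hd C b.1 δ * g'⁻¹) (g (e K (ng a))))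
        (c' : K) = (g' * hd C b.1 δ * g'⁻¹ * g) * hd C a.1 c' * (g' * hd C b.1 δ * g'⁻¹ * g)⁻¹ :=
      te_f H (X.hF (F.mul_mem htm hg)) a c'
    rw [h2] at h1
    generalize (hd C b.1 δ : LL C K ≃ₗ[K] LL C K) = B at h1 ⊢
    generalize (hd C a.1 c : LL C K ≃ₗ[K] LL C K) = A at h1 ⊢
    generalize (hd C a.1 c' : LL C K ≃ₗ[K] LL C K) = A' at h1 ⊢
    have h3 : g⁻¹ * (g * A * g⁻¹ * (g' * B * g'⁻¹ * g * A' * (g' * B * g'⁻¹ * g)⁻¹)) * g =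
        g⁻¹ * (g' * B * g'⁻¹ * g * A' * (g' * B * g'⁻¹ * g)⁻¹ * (g * A * g⁻¹)) * g := by
      rw [h1]
    have e1 : g⁻¹ * (g * A * g⁻¹ * (g' * B * g'⁻¹ * g * A' * (g' * B * g'⁻¹ * g)⁻¹)) * g =
        A * ((g⁻¹ * g') * B * (g⁻¹ * g')⁻¹ * A' * ((g⁻¹ * g') * B * (g⁻¹ * g')⁻¹)⁻¹) := by group
    have e2 : g⁻¹ * (g' * B * g'⁻¹ * g * A' * (g' * B * g'⁻¹ * g)⁻¹ * (g * A * g⁻¹)) * g =
        (g⁻¹ * g') * B * (g⁻¹ * g')⁻¹ * A' * ((g⁻¹ * g') * B * (g⁻¹ * g')⁻¹)⁻¹ * A := by group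
    rw [e1, e2] at h3
    exact h3.symm
  have key2 := com1f H X hg2 hu1 key
  intro c d' hc hd'
  obtain ⟨k, -, hk⟩ := pow_gen8 hK hd0 hd1 d' hd'
  have hcu : c = ((Units.mk0 c hc : Kˣ) : K) := rfl
  have hdk : d' = ((δ ^ k : Kˣ) : K) := by rw [hk, Units.val_pow_eq_pow_val]
  have key3 := key2 (Units.mk0 c hc)
  rw [hcu, hdk, te_f H (X.hF hg), te_f H (X.hF hg'), Fr5_hd_pow, ← conj_pow]
  generalize (hd C b.1 δ : LL C K ≃ₗ[K] LL C K) = B at key3 ⊢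
  generalize (hd C a.1 (Units.mk0 c hc) : LL C K ≃ₗ[K] LL C K) = A at key3 ⊢
  have h4 : Commute (g * A * g⁻¹) (g' * B * g'⁻¹) := by
    have h5 : g * (g⁻¹ * g' * B * (g⁻¹ * g')⁻¹ * A) * g⁻¹ =
        g * (A * (g⁻¹ * g' * B * (g⁻¹ * g')⁻¹)) * g⁻¹ := by rw [key3]
    have e1 : g * (g⁻¹ * g' * B * (g⁻¹ * g')⁻¹ * A) * g⁻¹ = (g' * B * g'⁻¹) * (g * A * g⁻¹) := by
      group
    have e2 : g * (A * (g⁻¹ * g' * B * (g⁻¹ * g')⁻¹)) * g⁻¹ = (g * A * g⁻¹) * (g' * B * g'⁻¹) := by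
      group
    rw [e1, e2] at h5
    exact h5.symm
  exact (h4.pow_right k).eq

theorem Fr5_two (H : Hyp C K) (X : Ctx F) (v w : LL C K) (h : FPr F v w)
    (Q : Subgroup (LL C K ≃ₗ[K] LL C K)) (hQF : Q ≤ F) (hQ : IsPGroup 2 Q)
    (hn : ∀ c : K, c ≠ 0 → ∀ q ∈ Q,
      te (br : LL C K →ₗ[K] LL C K →ₗ[K] LL C K) fm v w c * q *
        (te (br : LL C K →ₗ[K] LL C K →ₗ[K] LL C K) fm v w c)⁻¹ ∈ Q) :
    ∀ q ∈ Q, ∀ c : K, c ≠ 0 → te (br : LL C K →ₗ[K] LL C K →ₗ[K] LL C K) fm v w c * q =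
      q * te (br : LL C K →ₗ[K] LL C K →ₗ[K] LL C K) fm v w c := by
  obtain ⟨g, hg, a, rfl, rfl⟩ := h
  let Q' : Subgroup (LL C K ≃ₗ[K] LL C K) := Q.comap (MulAut.conj g).toMonoidHom
  have hQ' : IsPGroup 2 Q' := IsPGroup.comap_of_injective hQ _ (MulAut.conj g).injective
  have hmem : ∀ x, x ∈ Q' ↔ g * x * g⁻¹ ∈ Q := fun x => Iff.rfl
  have hQF' : Q' ≤ F := by
    intro x hx
    have h1 := hQF ((hmem x).1 hx)
    have h2 := F.mul_mem (F.mul_mem (F.inv_mem hg) h1) hg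
    have h3 : g⁻¹ * (g * x * g⁻¹) * g = x := by group
    rwa [h3] at h2
  have hn' : ∀ c : Kˣ, ∀ u ∈ Q', hd C a.1 c * u * (hd C a.1 c)⁻¹ ∈ Q' := by
    intro c u hu
    have h1 := hn (c : K) c.ne_zero _ ((hmem u).1 hu)
    rw [te_f H (X.hF hg)] at h1
    rw [hmem]
    have h3 : g * (hd C a.1 c * u * (hd C a.1 c)⁻¹) * g⁻¹ =
        g * hd C a.1 c * g⁻¹ * (g * u * g⁻¹) * (g * hd C a.1 c * g⁻¹)⁻¹ := by group
    rw [h3]
    exact h1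
  have key := two_f H X a Q' hQF' hQ' hn'
  intro q hq c hc
  have hcu : c = ((Units.mk0 c hc : Kˣ) : K) := rfl
  have hq' : g⁻¹ * q * g ∈ Q' := by
    rw [hmem]
    have h3 : g * (g⁻¹ * q * g) * g⁻¹ = q := by group
    rw [h3]
    exact hq
  have h1 := key (Units.mk0 c hc) _ hq'
  rw [hcu, te_f H (X.hF hg)]
  generalize (hd C a.1 (Units.mk0 c hc) : LL C K ≃ₗ[K] LL C K) = A at h1 ⊢
  have h2 : g * (A * (g⁻¹ * q * g)) * g⁻¹ = g * (g⁻¹ * q * g * A) * g⁻¹ := by rw [h1]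
  have e1 : g * (A * (g⁻¹ * q * g)) * g⁻¹ = g * A * g⁻¹ * q := by group
  have e2 : g * (g⁻¹ * q * g * A) * g⁻¹ = q * (g * A * g⁻¹) := by group
  rw [e1, e2] at h2
  exact h2

theorem fps (H : Hyp C K) (X : Ctx F) :
    FPS (br : LL C K →ₗ[K] LL C K →ₗ[K] LL C K) fm F (FPr F) where
  lb := lbE H
  card := H.card
  fin := finite_group H
  aut f hf := ⟨(X.hF hf).1, (X.hF hf).2⟩
  pair v w h := by
    obtain ⟨g, hg, a, rfl, rfl⟩ := h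
    exact pair_g H (X.hF hg) a
  mv f hf v w h := by
    obtain ⟨g, hg, a, rfl, rfl⟩ := h
    exact ⟨f * g, F.mul_mem hf hg, a, rfl, rfl⟩
  sw v w h := by
    obtain ⟨g, hg, a, rfl, rfl⟩ := h
    exact ⟨g, hg, ng a, rfl, by rw [ng_ng]⟩
  sc v w h c hc := Fr5_sc H X v w h c hc
  tor v w h c hc := by
    obtain ⟨g, hg, a, rfl, rfl⟩ := h
    exact ⟨g * hd C a.1 (Units.mk0 c hc) * g⁻¹, Fr5_mem H X hg a _,
      fun x => (tr_g H (X.hF hg) a (Units.mk0 c hc) x).symm⟩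
  v0 v w w' h h' := Fr5_v0 H X v w w' h h'
  com1 v w v' w' h h' d hd0 hd1 hcm := Fr5_com1 H X H.card v w v' w' h h' d hd0 hd1 hcm
  two v w h Q hQF hQ hn := Fr5_two H X v w h Q hQF hQ hn

end Pool.Agent.H26.E2
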