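import Mathlib

/-!
# E2-17: fixed points in cosets

`⟨h⟩` (order 1 or 7) acts on the coset `q N` by conjugation; `|q N|` is a power of 2, so it is not
divisible by 7 and there is a fixed point (`IsPGroup.card_modEq_card_fixedPoints` with `p = 7`, or
count the orbits of the permutation `y ↦ h y h⁻¹` of the finite set `q N`: its 7th power is 1).
-/

namespace Pool.Agent.H26.E2

theorem gr_fix {G : Type*} [Group G] [Finite G] (h : G) (h7 : h ^ 7 = 1) (N : Subgroup G)
    (hN : IsPGroup 2 N) (hinv : ∀ n ∈ N, h * n * h⁻¹ ∈ N) (q : G)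
    (hq : q⁻¹ * (h * q * h⁻¹) ∈ N) : ∃ n ∈ N, h * (q * n) = (q * n) * h := by
  classical
  have : Fintype N := Fintype.ofFinite N
  have p7 : Fact (Nat.Prime 7) := ⟨by norm_num⟩
  have p2 : Fact (Nat.Prime 2) := ⟨by norm_num⟩
  let f : Function.End N := fun n => ⟨q⁻¹ * (h * q * h⁻¹) * (h * n * h⁻¹),
    mul_mem hq (hinv n n.2)⟩
  have hf : ∀ (k : ℕ) (n : N), (((f ^ k) n : N) : G) = q⁻¹ * h ^ k * q * n * (h ^ k)⁻¹ := by
    intro k
    induction k with
    | zero =>
      intro n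
      rw [pow_zero, pow_zero]
      show (n : G) = _
      group
    | succ k ih =>
      intro n
      have e1 : (f ^ (k + 1)) n = f ((f ^ k) n) := by
        rw [pow_succ' f k]
        rfl
      rw [e1]
      show q⁻¹ * (h * q * h⁻¹) * (h * (((f ^ k) n : N) : G) * h⁻¹) = _
      rw [ih n, pow_succ']
      group
  have hf7 : f ^ 7 ^ 1 = 1 := by
    funext n
    apply Subtype.ext
    rw [pow_one, hf 7 n, h7]
    show _ = (n : G)
    group
  have hmod := Equiv.Perm.card_fixedPoints_modEq hf7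
  obtain ⟨k, hk⟩ := (IsPGroup.iff_card).1 hN
  have hne : Nonempty f.fixedPoints := by
    by_contra hcon
    rw [not_nonempty_iff] at hcon
    rw [Fintype.card_eq_zero_iff.2 hcon, ← Nat.card_eq_fintype_card, hk] at hmod
    have h8 : 7 ∣ 2 ^ k := (Nat.modEq_zero_iff_dvd).1 hmod
    have h9 := (Nat.Prime.dvd_of_dvd_pow p7.out h8)
    revert h9
    decide
  obtain ⟨⟨n, hn⟩⟩ := hne
  refine ⟨n, n.2, ?_⟩
  have h1 : (f n : G) = n := congrArg Subtype.val hn
  have h2 : q⁻¹ * (h * q * h⁻¹) * (h * n * h⁻¹) = (n : G) := h1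
  nth_rewrite 2 [← h2]
  group

end Pool.Agent.H26.E2
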