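import Mathlib

/-!
# E_8(8), Proposition C: Lie algebras with an alternating invariant form in characteristic two
(helper26, MP_a408f4_al)

`LB br B`: `br` is a Lie bracket, `B` an alternating invariant form, characteristic two.
`Ext2 br B v`: `v` is extremal: (P0) and (P2).  `Pair2 br B v w`: two extremal elements with
`B v w = 1` and `br v w ≠ 0`.  `tr br B v w c`: the torus element of the pair, as a function.

How to prove identities: the scalar parts of an identity between linear combinations of vectors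
are checked by
`linear_combination (norm := (match_scalars <;> grind)) h1 + a • h2 + ...`
(`grind` knows `2 = 0` if there is an instance `CharP K 2`; get one by
`haveI := H.charP`).
-/

namespace Pool.Agent.H26.E2

variable {K L : Type} [Field K] [AddCommGroup L] [Module K L]

/-- a Lie algebra in characteristic two with an invariant alternating form -/
structure LB (br : L →ₗ[K] L →ₗ[K] L) (B : L →ₗ[K] L →ₗ[K] K) : Prop where
  two : (2 : K) = 0
  alt : ∀ x, br x x = 0
  jac : ∀ x y z, br (br x y) z = br x (br y z) + br y (br x z)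
  balt : ∀ x, B x x = 0
  inv : ∀ x y z, B (br x y) z = B x (br y z)

/-- extremal elements in characteristic two -/
structure Ext2 (br : L →ₗ[K] L →ₗ[K] L) (B : L →ₗ[K] L →ₗ[K] K) (v : L) : Prop where
  p0 : ∀ x, br v (br v x) = 0
  p2 : ∀ x y, br v (br y (br v x)) = B v (br y x) • v + B v y • br v x + B v x • br v y

/-- pairs of extremal elements with `B v w = 1` -/
structure Pair2 (br : L →ₗ[K] L →ₗ[K] L) (B : L →ₗ[K] L →ₗ[K] K) (v w : L) : Prop where
  ev : Ext2 br B v
  ew : Ext2 br B w
  one : B v w = 1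
  hne : br v w ≠ 0

/-- the torus element of a pair, as a function -/
def tr (br : L →ₗ[K] L →ₗ[K] L) (B : L →ₗ[K] L →ₗ[K] K) (v w : L) (c : K) (x : L) : L :=
  x + ((c ^ 2 + 1) * B w x) • v + ((c⁻¹ ^ 2 + 1) * B v x) • w
    + (c + 1) • (br v (br w x) + B (br v w) x • br v w)
    + (c⁻¹ + 1) • (br w (br v x) + B (br v w) x • br v w)

variable {br : L →ₗ[K] L →ₗ[K] L} {B : L →ₗ[K] L →ₗ[K] K}

theorem LB.add_self (H : LB br B) (x : L) : x + x = 0 := by
  rw [← two_smul K x, H.two, zero_smul]

theorem LB.neg_eq (H : LB br B) (x : L) : -x = x :=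
  neg_eq_of_add_eq_zero_right (H.add_self x)

theorem LB.sub_eq (H : LB br B) (x y : L) : x - y = x + y := by
  rw [sub_eq_add_neg, H.neg_eq]

theorem LB.add_self' (H : LB br B) (x : K) : x + x = 0 := by
  rw [← two_mul x, H.two, zero_mul]

theorem LB.neg_eq' (H : LB br B) (x : K) : -x = x :=
  neg_eq_of_add_eq_zero_right (H.add_self' x)

theorem LB.sub_eq' (H : LB br B) (x y : K) : x - y = x + y := by
  rw [sub_eq_add_neg, H.neg_eq']

theorem LB.eq_iff (H : LB br B) (x y : L) : x = y ↔ x + y = 0 := by
  rw [← H.sub_eq, sub_eq_zero]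

theorem LB.eq_iff' (H : LB br B) (x y : K) : x = y ↔ x + y = 0 := by
  rw [← H.sub_eq', sub_eq_zero]

theorem LB.charP (H : LB br B) : CharP K 2 :=
  CharTwo.of_one_ne_zero_of_two_eq_zero one_ne_zero H.two

theorem LB.symm (H : LB br B) (x y : L) : br x y = br y x := by
  have h := H.alt (x + y)
  rw [LinearMap.map_add₂, map_add, map_add, H.alt, H.alt, zero_add, add_zero] at h
  rw [H.eq_iff]
  exact h

theorem LB.bsymm (H : LB br B) (x y : L) : B x y = B y x := by
  have h := H.balt (x + y)
  rw [LinearMap.map_add₂, map_add, map_add, H.balt, H.balt, zero_add, add_zero] at h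
  rw [H.eq_iff']
  exact h

theorem LB.inv' (H : LB br B) (x y z : L) : B x (br y z) = B y (br x z) := by
  rw [← H.inv, H.symm x y, H.inv]

/-- `[h, v] = 0` -/
theorem Pair2.brh (H : LB br B) {v w : L} (P : Pair2 br B v w) : br v (br v w) = 0 := P.ev.p0 w

/-- `[w, [v, w]] = 0` -/
theorem Pair2.brh' (H : LB br B) {v w : L} (P : Pair2 br B v w) : br w (br v w) = 0 := by
  rw [H.symm v w]
  exact P.ew.p0 v

theorem Pair2.swap (H : LB br B) {v w : L} (P : Pair2 br B v w) : Pair2 br B w v where
  ev := P.ew
  ew := P.ev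
  one := by rw [H.bsymm, P.one]
  hne := by rw [H.symm]; exact P.hne

/-- `B (h, v) = 0` -/
theorem Pair2.bh (H : LB br B) {v w : L} (_P : Pair2 br B v w) : B (br v w) v = 0 := by
  rw [H.symm v w, H.inv, H.alt, map_zero]

/-- `B (h, w) = 0` -/
theorem Pair2.bh' (H : LB br B) {v w : L} (_P : Pair2 br B v w) : B (br v w) w = 0 := by
  rw [H.inv, H.alt, map_zero]

theorem Pair2.one' (H : LB br B) {v w : L} (P : Pair2 br B v w) : B w v = 1 := by
  rw [H.bsymm, P.one]

end Pool.Agent.H26.E2
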