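import Pool.Agent.H26.E2.SpeR

/-!
# E2-14: coordinates of the special module: torus elements

See the header of `Spe`.
-/

namespace Pool.Agent.H26.E2

variable {K L : Type} [Field K] [AddCommGroup L] [Module K L]
variable {br : L →ₗ[K] L →ₗ[K] L} {B : L →ₗ[K] L →ₗ[K] K} {v w v' w' : L}

theorem spe_realX (H : LB br B) (S : SpH br B v w v' w') (hp : B v w' = 1) (c : K)
    {x : V8 K} {y : L} (hxy : Rel8 br v w v' w' x y) :
    Rel8 br v w v' w' (speX (B w v') (B (br v w) (br v' w')) (B (br v v') (br w w')) c x)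
      (tr br B v w c y) := by
  have := H.charP
  obtain ⟨h1, -, h3, -, h5, -, h7, -⟩ := spe_fun H S hp hxy
  obtain ⟨t', ht'⟩ := spe_PX H S hp hxy
  obtain ⟨t, ht⟩ := hxy
  refine ⟨t + (c + 1) * t', ?_⟩
  rw [tr, h3, h5, h7, h1, map_smul, ht', ht]
  simp only [R8, speX]
  have e1 : (speP (B w v') (B (br v w) (br v' w')) x).a1 = 0 := rfl
  have e2 : (speP (B w v') (B (br v w) (br v' w')) x).a2 = 0 := rfl
  have e7 : (speP (B w v') (B (br v w) (br v' w')) x).a7 = 0 := rfl
  rw [e1, e2, e7]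
  module

theorem spe_realY (H : LB br B) (S : SpH br B v w v' w') (hp : B v w' = 1) (c : K)
    {x : V8 K} {y : L} (hxy : Rel8 br v w v' w' x y) :
    Rel8 br v w v' w' (speY (B w v') (B (br v w) (br v' w')) (B (br v v') (br w w')) c x)
      (tr br B v' w' c y) := by
  have := H.charP
  obtain ⟨-, h2, -, h4, -, h6, -, h8⟩ := spe_fun H S hp hxy
  obtain ⟨t', ht'⟩ := spe_PY H S hp hxy
  obtain ⟨t, ht⟩ := hxy
  refine ⟨t + (c + 1) * t', ?_⟩
  rw [tr, h4, h6, h8, h2, map_smul, ht', ht]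
  simp only [R8, speY]
  have e1 : (speP' (B (br v w) (br v' w')) x).a0 = 0 := rfl
  have e2 : (speP' (B (br v w) (br v' w')) x).a3 = 0 := rfl
  have e7 : (speP' (B (br v w) (br v' w')) x).a6 = 0 := rfl
  rw [e1, e2, e7]
  module

end Pool.Agent.H26.E2
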