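import Pool.Agent.H26.E2.Sym
import Pool.Agent.H26.E2.SpeS

/-!
# E2-15: special pairs: `p = 0` and the exceptional parameters

See the header of `Spe`.
-/

namespace Pool.Agent.H26.E2

variable {K L : Type} [Field K] [AddCommGroup L] [Module K L]
variable {br : L →ₗ[K] L →ₗ[K] L} {B : L →ₗ[K] L →ₗ[K] K} {F : Subgroup (L ≃ₗ[K] L)}
  {FP : L → L → Prop} {v w v' w' : L}

/-- the image of `z` -/
private theorem SpeE_trz (H : LB br B) (S : SpH br B v w v' w') (c : K) :
    tr br B v w c (br v v') = c • br v v' := by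
  haveI := H.charP
  obtain ⟨h1, h2, h3⟩ := spe_B_z H S
  unfold tr
  rw [h1, h2, h3, spe_X_z H S, spe_X_sx H S]
  simp only [mul_zero, zero_smul, add_zero, map_zero, smul_zero]
  have h4 : (2 : K) = 0 := H.two
  match_scalars
  linear_combination h4

theorem spe_p0 (A : FPS br B F FP) (h : FP v w) (h' : FP v' w') (S : SpH br B v w v' w')
    (hp : B v w' = 0) : Cm br B v w v' w' := by
  have H := A.lb
  obtain ⟨z, hz0, -, -, hzk, -⟩ := exists_zeta A.card H.two
  have hz1 : z ≠ 1 := by
    have h1 := hzk 1 (by norm_num) (by norm_num)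
    rwa [pow_one] at h1
  obtain ⟨t, htF, ht⟩ := A.tor v' w' h' z hz0
  have hFP : FP (tr br B v' w' z v) (tr br B v' w' z w) := by
    rw [← ht, ← ht]
    exact A.mv t htF v w h
  refine A.com1 v w v' w' h h' z hz0 hz1 (sc A h hFP ?_)
  have e1 : B w' v = 0 := by rw [H.bsymm, hp]
  have e2 : B v' v = 0 := by rw [H.bsymm, S.b0]
  have e3 : br v' v = br v v' := H.symm _ _
  unfold tr
  rw [e1, e2, S.b2, e3]
  simp only [mul_zero, zero_smul, add_zero, map_add, map_smul]
  rw [H.alt, spe_X_v1 H S, spe_X_sy H S, hp]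
  simp only [zero_smul, smul_zero, add_zero]

/-- a triangular basis gives a flag -/
private theorem SpeE_flag (T : L → L) (hadd : ∀ x y, T (x + y) = T x + T y)
    (hsmul : ∀ (a : K) x, T (a • x) = a • T x) (u : ℕ → L) (k : ℕ → K) (n : ℕ)
    (h : ∀ i, i < n → T (u i) - k i • u i ∈ Submodule.span K (u '' {j | j < i})) :
    ∀ i, i < n → ∀ x ∈ Submodule.span K (u '' {j | j < i + 1}),
      T x - k i • x ∈ Submodule.span K (u '' {j | j < i}) := by
  intro i hi x hx
  have hmono : ∀ a b : ℕ, a ≤ b → Submodule.span K (u '' {j | j < a}) ≤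
      Submodule.span K (u '' {j | j < b}) := fun a b hab =>
    Submodule.span_mono (Set.image_mono fun j (hj : j < a) => lt_of_lt_of_le hj hab)
  have hmem : ∀ a b : ℕ, a < b → u a ∈ Submodule.span K (u '' {j | j < b}) := fun a b hab =>
    Submodule.subset_span ⟨a, hab, rfl⟩
  induction hx using Submodule.span_induction with
  | mem x hx =>
    obtain ⟨j, hj, rfl⟩ := hx
    rcases Nat.lt_succ_iff_lt_or_eq.1 hj with hj' | rfl
    · have h1 : T (u j) - k j • u j ∈ Submodule.span K (u '' {l | l < i}) :=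
        hmono j i hj'.le (h j (hj'.trans hi))
      have h2 : T (u j) - k i • u j = (T (u j) - k j • u j) + (k j • u j - k i • u j) := by
        abel
      rw [h2]
      refine Submodule.add_mem _ h1 (Submodule.sub_mem _ ?_ ?_) <;>
        exact Submodule.smul_mem _ _ (hmem j i hj')
    · exact h j hi
  | zero =>
    have h1 : T 0 = 0 := by
      have h2 := hsmul 0 0
      rwa [zero_smul, zero_smul] at h2
    rw [h1, smul_zero, sub_zero]
    exact Submodule.zero_mem _
  | add x y _ _ hx hy =>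
    have h1 : T (x + y) - k i • (x + y) = (T x - k i • x) + (T y - k i • y) := by
      rw [hadd, smul_add]
      abel
    rw [h1]
    exact Submodule.add_mem _ hx hy
  | smul a x _ hx =>
    have h1 : T (a • x) - k i • (a • x) = a • (T x - k i • x) := by
      rw [hsmul, smul_sub, smul_comm (k i) a]
    rw [h1]
    exact Submodule.smul_mem _ _ hx

/-- coordinates of the vectors of the flag -/
private def SpeE_xs (K : Type) [Field K] : ℕ → V8 K
  | 1 => ⟨0, 0, 1, 0, 0, 1, 1, 0⟩
  | 2 => ⟨0, 0, 0, 1, 1, 0, 0, 1⟩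
  | 3 => ⟨0, 0, 1, 0, 1, 1, 0, 0⟩
  | 4 => ⟨0, 0, 0, 0, 0, 1, 0, 1⟩
  | 5 => ⟨0, 0, 0, 1, 0, 0, 0, 0⟩
  | 6 => ⟨1, 1, 0, 0, 0, 1, 0, 0⟩
  | 7 => ⟨0, 0, 0, 0, 0, 1, 0, 0⟩
  | _ => ⟨1, 0, 0, 0, 0, 0, 0, 0⟩

/-- the scalars of the flag -/
private def SpeE_k (z : K) : ℕ → K
  | 0 => z
  | 1 => 1
  | 2 => 1
  | 3 => z
  | 4 => z
  | 5 => z⁻¹
  | 6 => 1
  | 7 => z
  | _ => z ^ 2

/-- the vectors of the flag -/
private def SpeE_u (br : L →ₗ[K] L →ₗ[K] L) (v w v' w' : L) : ℕ → L
  | 0 => br v v'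
  | i + 1 => R8 br v w v' w' (SpeE_xs K (i + 1))

private theorem SpeE_mem {u : ℕ → L} {i j : ℕ} (h : j < i) (c : K) :
    c • u j ∈ Submodule.span K (u '' {j | j < i}) :=
  Submodule.smul_mem _ _ (Submodule.subset_span ⟨j, h, rfl⟩)

private theorem SpeE_X (h2 : (2 : K) = 0) {z : K} (hz : z ≠ 0) (t : K) (i : ℕ) (hi : i < 9)
    (hi0 : i ≠ 0) {y : L}
    (hy : y = R8 br v w v' w' (speX 1 0 0 z (SpeE_xs K i)) + t • br v v') :
    y - SpeE_k z i • SpeE_u (K := K) br v w v' w' i ∈
      Submodule.span K (SpeE_u (K := K) br v w v' w' '' {j | j < i}) := by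
  haveI : CharP K 2 := CharTwo.of_one_ne_zero_of_two_eq_zero one_ne_zero h2
  have hzz : z * z⁻¹ = 1 := mul_inv_cancel₀ hz
  subst hy
  interval_cases i
  · exact absurd rfl hi0
  · have h : R8 br v w v' w' (speX 1 0 0 z (SpeE_xs K 1)) + t • br v v' -
        SpeE_k z 1 • SpeE_u (K := K) br v w v' w' 1 = t • SpeE_u (K := K) br v w v' w' 0 := by
      simp only [R8, speX, speB, speP, speO, SpeE_xs, SpeE_k, SpeE_u]
      match_scalars <;> grind
    rw [h]
    exact SpeE_mem (by norm_num) t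
  · have h : R8 br v w v' w' (speX 1 0 0 z (SpeE_xs K 2)) + t • br v v' -
        SpeE_k z 2 • SpeE_u (K := K) br v w v' w' 2 = t • SpeE_u (K := K) br v w v' w' 0 := by
      simp only [R8, speX, speB, speP, speO, SpeE_xs, SpeE_k, SpeE_u]
      match_scalars <;> grind
    rw [h]
    exact SpeE_mem (by norm_num) t
  · have h : R8 br v w v' w' (speX 1 0 0 z (SpeE_xs K 3)) + t • br v v' -
        SpeE_k z 3 • SpeE_u (K := K) br v w v' w' 3 = t • SpeE_u (K := K) br v w v' w' 0 +
          (z + 1) • SpeE_u (K := K) br v w v' w' 1 := by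
      simp only [R8, speX, speB, speP, speO, SpeE_xs, SpeE_k, SpeE_u]
      match_scalars <;> grind
    rw [h]
    exact add_mem (SpeE_mem (by norm_num) t) (SpeE_mem (by norm_num) _)
  · have h : R8 br v w v' w' (speX 1 0 0 z (SpeE_xs K 4)) + t • br v v' -
        SpeE_k z 4 • SpeE_u (K := K) br v w v' w' 4 = t • SpeE_u (K := K) br v w v' w' 0 +
          (z + 1) • SpeE_u (K := K) br v w v' w' 2 := by
      simp only [R8, speX, speB, speP, speO, SpeE_xs, SpeE_k, SpeE_u]
      match_scalars <;> grind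
    rw [h]
    exact add_mem (SpeE_mem (by norm_num) t) (SpeE_mem (by norm_num) _)
  · have h : R8 br v w v' w' (speX 1 0 0 z (SpeE_xs K 5)) + t • br v v' -
        SpeE_k z 5 • SpeE_u (K := K) br v w v' w' 5 = t • SpeE_u (K := K) br v w v' w' 0 +
          (z + 1) • SpeE_u (K := K) br v w v' w' 1 + (z + z⁻¹) • SpeE_u (K := K) br v w v' w' 2 +
          (z + z⁻¹) • SpeE_u (K := K) br v w v' w' 3 +
          (z + z⁻¹) • SpeE_u (K := K) br v w v' w' 4 := by
      simp only [R8, speX, speB, speP, speO, SpeE_xs, SpeE_k, SpeE_u]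
      match_scalars <;> grind
    rw [h]
    exact add_mem (add_mem (add_mem (add_mem (SpeE_mem (by norm_num) t)
      (SpeE_mem (by norm_num) _)) (SpeE_mem (by norm_num) _)) (SpeE_mem (by norm_num) _))
      (SpeE_mem (by norm_num) _)
  · have h : R8 br v w v' w' (speX 1 0 0 z (SpeE_xs K 6)) + t • br v v' -
        SpeE_k z 6 • SpeE_u (K := K) br v w v' w' 6 = t • SpeE_u (K := K) br v w v' w' 0 +
          (z + 1) • SpeE_u (K := K) br v w v' w' 1 + (z + 1) • SpeE_u (K := K) br v w v' w' 3 := by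
      simp only [R8, speX, speB, speP, speO, SpeE_xs, SpeE_k, SpeE_u]
      match_scalars <;> grind
    rw [h]
    exact add_mem (add_mem (SpeE_mem (by norm_num) t) (SpeE_mem (by norm_num) _))
      (SpeE_mem (by norm_num) _)
  · have h : R8 br v w v' w' (speX 1 0 0 z (SpeE_xs K 7)) + t • br v v' -
        SpeE_k z 7 • SpeE_u (K := K) br v w v' w' 7 = t • SpeE_u (K := K) br v w v' w' 0 +
          (z + 1) • SpeE_u (K := K) br v w v' w' 1 + (z + z⁻¹) • SpeE_u (K := K) br v w v' w' 2 +
          (z + z⁻¹) • SpeE_u (K := K) br v w v' w' 3 +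
          (z + z⁻¹) • SpeE_u (K := K) br v w v' w' 4 +
          (z + z⁻¹) • SpeE_u (K := K) br v w v' w' 5 := by
      simp only [R8, speX, speB, speP, speO, SpeE_xs, SpeE_k, SpeE_u]
      match_scalars <;> grind
    rw [h]
    exact add_mem (add_mem (add_mem (add_mem (add_mem (SpeE_mem (by norm_num) t)
      (SpeE_mem (by norm_num) _)) (SpeE_mem (by norm_num) _)) (SpeE_mem (by norm_num) _))
      (SpeE_mem (by norm_num) _)) (SpeE_mem (by norm_num) _)
  · have h : R8 br v w v' w' (speX 1 0 0 z (SpeE_xs K 8)) + t • br v v' -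
        SpeE_k z 8 • SpeE_u (K := K) br v w v' w' 8 = t • SpeE_u (K := K) br v w v' w' 0 := by
      simp only [R8, speX, speB, speP, speO, SpeE_xs, SpeE_k, SpeE_u]
      match_scalars <;> grind
    rw [h]
    exact SpeE_mem (by norm_num) t

private theorem SpeE_Y (h2 : (2 : K) = 0) {z : K} (hz : z ≠ 0) (t : K) (i : ℕ) (hi : i < 9)
    (hi0 : i ≠ 0) {y : L}
    (hy : y = R8 br v w v' w' (speY 1 0 0 z (SpeE_xs K i)) + t • br v v') :
    y - SpeE_k z i • SpeE_u (K := K) br v w v' w' i ∈
      Submodule.span K (SpeE_u (K := K) br v w v' w' '' {j | j < i}) := by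
  haveI : CharP K 2 := CharTwo.of_one_ne_zero_of_two_eq_zero one_ne_zero h2
  have hzz : z * z⁻¹ = 1 := mul_inv_cancel₀ hz
  subst hy
  have aux : ∀ i, 0 < i → R8 br v w v' w' (speY 1 0 0 z (SpeE_xs K i)) + t • br v v' -
        SpeE_k z i • SpeE_u (K := K) br v w v' w' i = t • SpeE_u (K := K) br v w v' w' 0 →
      R8 br v w v' w' (speY 1 0 0 z (SpeE_xs K i)) + t • br v v' -
        SpeE_k z i • SpeE_u (K := K) br v w v' w' i ∈
        Submodule.span K (SpeE_u (K := K) br v w v' w' '' {j | j < i}) := by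
    intro i hi h
    rw [h]
    exact SpeE_mem hi t
  interval_cases i
  · exact absurd rfl hi0
  · refine aux 1 (by norm_num) ?_
    simp only [R8, speY, speB', speP', speO', SpeE_xs, SpeE_k, SpeE_u]
    match_scalars <;> grind
  · refine aux 2 (by norm_num) ?_
    simp only [R8, speY, speB', speP', speO', SpeE_xs, SpeE_k, SpeE_u]
    match_scalars <;> grind
  · refine aux 3 (by norm_num) ?_
    simp only [R8, speY, speB', speP', speO', SpeE_xs, SpeE_k, SpeE_u]
    match_scalars <;> grind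
  · refine aux 4 (by norm_num) ?_
    simp only [R8, speY, speB', speP', speO', SpeE_xs, SpeE_k, SpeE_u]
    match_scalars <;> grind
  · refine aux 5 (by norm_num) ?_
    simp only [R8, speY, speB', speP', speO', SpeE_xs, SpeE_k, SpeE_u]
    match_scalars <;> grind
  · have h : R8 br v w v' w' (speY 1 0 0 z (SpeE_xs K 6)) + t • br v v' -
        SpeE_k z 6 • SpeE_u (K := K) br v w v' w' 6 = t • SpeE_u (K := K) br v w v' w' 0 +
          (z⁻¹ + 1) • SpeE_u (K := K) br v w v' w' 5 := by
      simp only [R8, speY, speB', speP', speO', SpeE_xs, SpeE_k, SpeE_u]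
      match_scalars <;> grind
    rw [h]
    exact add_mem (SpeE_mem (by norm_num) t) (SpeE_mem (by norm_num) _)
  · refine aux 7 (by norm_num) ?_
    simp only [R8, speY, speB', speP', speO', SpeE_xs, SpeE_k, SpeE_u]
    match_scalars <;> grind
  · have h : R8 br v w v' w' (speY 1 0 0 z (SpeE_xs K 8)) + t • br v v' -
        SpeE_k z 8 • SpeE_u (K := K) br v w v' w' 8 = t • SpeE_u (K := K) br v w v' w' 0 +
          (z⁻¹ + 1) • SpeE_u (K := K) br v w v' w' 5 +
          (z ^ 2 + 1) • SpeE_u (K := K) br v w v' w' 6 +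
          (z ^ 2 + z) • SpeE_u (K := K) br v w v' w' 7 := by
      simp only [R8, speY, speB', speP', speO', SpeE_xs, SpeE_k, SpeE_u]
      match_scalars <;> grind
    rw [h]
    exact add_mem (add_mem (add_mem (SpeE_mem (by norm_num) t) (SpeE_mem (by norm_num) _))
      (SpeE_mem (by norm_num) _)) (SpeE_mem (by norm_num) _)

theorem spe_exc (A : FPS br B F FP) (h : FP v w) (h' : FP v' w') (S : SpH br B v w v' w')
    (hp : B v w' = 1) (hq : B w v' = 1) (hd1 : B (br v w) (br v' w') = 0)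
    (hd2 : B (br v v') (br w w') = 0) : Cm br B v w v' w' := by
  have H := A.lb
  haveI := H.charP
  obtain ⟨z, hz0, -, -, -, hzg⟩ := exists_zeta A.card H.two
  have hu0 : SpeE_u (K := K) br v w v' w' 0 = br v v' := rfl
  have hui : ∀ i, i ≠ 0 → SpeE_u (K := K) br v w v' w' i = R8 br v w v' w' (SpeE_xs K i) := by
    intro i hi
    cases i with
    | zero => exact absurd rfl hi
    | succ i => rfl
  have hmem0 : ∀ c : K, c • br v v' - SpeE_k c 0 • SpeE_u (K := K) br v w v' w' 0 = 0 := by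
    intro c
    rw [hu0]
    exact sub_self _
  refine exc A h h' hz0 hzg (fun i => Submodule.span K (SpeE_u (K := K) br v w v' w' '' {j | j < i}))
    (SpeE_k z) 9 (by norm_num) ?_ ?_ ?_ ?_ ?_ ?_ ?_
  · have h1 : {j : ℕ | j < 0} = ∅ := by
      ext j
      simp
    show Submodule.span K (SpeE_u (K := K) br v w v' w' '' {j | j < 0}) = ⊥
    rw [h1, Set.image_empty, Submodule.span_empty]
  · intro i _
    exact Submodule.span_mono (Set.image_mono fun j (hj : j < i) => Nat.lt_succ_of_lt hj)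
  · intro i hi
    interval_cases i <;> simp [SpeE_k, hz0]
  · have h1 : v = SpeE_u (K := K) br v w v' w' 8 := by
      rw [hui 8 (by norm_num)]
      simp only [R8, SpeE_xs, one_smul, zero_smul, add_zero]
    have h2 : SpeE_u (K := K) br v w v' w' 8 ∈
        Submodule.span K (SpeE_u (K := K) br v w v' w' '' {j | j < 9}) :=
      Submodule.subset_span ⟨8, by norm_num, rfl⟩
    rw [← h1] at h2
    exact h2
  · have h1 : v' = (1 : K) • SpeE_u (K := K) br v w v' w' 6 +
        (1 : K) • SpeE_u (K := K) br v w v' w' 7 + (1 : K) • SpeE_u (K := K) br v w v' w' 8 := by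
      rw [hui 6 (by norm_num), hui 7 (by norm_num), hui 8 (by norm_num)]
      simp only [R8, SpeE_xs]
      match_scalars <;> grind
    have h2 : (1 : K) • SpeE_u (K := K) br v w v' w' 6 +
        (1 : K) • SpeE_u (K := K) br v w v' w' 7 + (1 : K) • SpeE_u (K := K) br v w v' w' 8 ∈
        Submodule.span K (SpeE_u (K := K) br v w v' w' '' {j | j < 9}) :=
      add_mem (add_mem (SpeE_mem (by norm_num) _) (SpeE_mem (by norm_num) _))
        (SpeE_mem (by norm_num) _)
    rw [← h1] at h2
    exact h2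
  · refine SpeE_flag _ (tr_add z) (tr_smul z) _ _ 9 fun i hi => ?_
    by_cases hi0 : i = 0
    · subst hi0
      rw [hu0, SpeE_trz H S]
      have h1 := hmem0 z
      rw [hu0] at h1
      rw [h1]
      exact zero_mem _
    · have hr : Rel8 br v w v' w' (SpeE_xs K i) (SpeE_u (K := K) br v w v' w' i) :=
        ⟨0, by rw [hui i hi0, zero_smul, add_zero]⟩
      obtain ⟨t, ht⟩ := spe_realX H S hp z hr
      rw [hq, hd1, hd2] at ht
      exact SpeE_X H.two hz0 t i hi hi0 ht
  · refine SpeE_flag _ (tr_add z) (tr_smul z) _ _ 9 fun i hi => ?_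
    by_cases hi0 : i = 0
    · subst hi0
      have h2 := SpeE_trz H (S.swap H) z
      rw [H.symm v' v] at h2
      rw [hu0, h2]
      have h1 := hmem0 z
      rw [hu0] at h1
      rw [h1]
      exact zero_mem _
    · have hr : Rel8 br v w v' w' (SpeE_xs K i) (SpeE_u (K := K) br v w v' w' i) :=
        ⟨0, by rw [hui i hi0, zero_smul, add_zero]⟩
      obtain ⟨t, ht⟩ := spe_realY H S hp z hr
      rw [hq, hd1, hd2] at ht
      exact SpeE_Y H.two hz0 t i hi hi0 ht

end Pool.Agent.H26.E2
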