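import Pool.Agent.H26.E2.Wt

/-!
# E2-04, E2-05: identities for special pairs

Two pairs `(v,w)`, `(v',w')` with `B v v' = 0`, `B h v' = 0`, `B h' v = 0` (`SpH`), `h = [v,w]`,
`h' = [v',w']`.  Notation: `p = B v w'`, `q = B w v'`, `D1 = B h h'`, `D2 = B [v,v'] [w,w']`,
`z = [v,v']`, `sx = [w,z]` (called `x*`), `sy = [w',z]`, `w1 = [v,[w,v']]`, `v1 = [v',[w',v]]`,
`c0 = [v,[w,v1]]`, `d0 = [v',[w',w1]]`.  Exchange of the two pairs: `z`, `D1`, `D2` are fixed,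
`p, q`; `sx, sy`; `w1, v1`; `c0, d0` are exchanged (`SpH.swap`, `H.symm`), so only the statements
for `v, w` are needed.  `X, W, X', W'` are `ad v, ad w, ad v', ad w'`.

E2-04 (brackets with `v`):
* `X z = 0`, `X sx = XWXv' = z` ((P2): `B v [w,v'] = B h v' = 0`, `B v w = 1`, `B v v' = 0`),
  `X sy = XW'Xv' = p z` (`B v [w',v'] = B v h' = 0`), `X w1 = X c0 = 0`,
  `v1 = X'Xw'` (`[w',v] = [v,w']`), `X v1 = XX'Xw' = p z` ((P2), `B v [v',w'] = 0`,
  `B v v' = 0`, `B v w' = p`), `X' v1 = 0`, `X' w1 = q z` (exchange).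
* `X d0`: `d0 = X'W'XWv'`; with `y = Wv'`: `X X'W'X y = X ad(h') X y + X W'X' X y`,
  `X ad(h') X y = B v [h',y] v + B v h' Xy + B v y Xh'`, `B v h' = 0`, `B v y = B h v' = 0`;
  `X'Xy = X' w1 = q z`, `X W'(q z) = q X sy = p q z`.  `B v [h',y] = B [v,h'] [w,v']
  = B [v,h'] [v',w] = B [v',[v,h']] w` and `[v',[v,h']] = X'X X'w' = z` ((P2) for `v'`), `B z w =
  B [v,v'] w = B v' [v,w] = 0`.  So `X d0 = p q z`.
E2-05 (the table of `XW`), modulo nothing:
* `XW v = X h = 0`, `XW sx = 0`, `XW w1 = w1`, `XW c0 = c0` ((P2); `B v (W u) = B h u = 0`,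
  `B v [w,Wu] = 0`).
* `XW sy + c0 = XW (W'X' + X'W') v = XW [h',v] = XWX h' = D1 v + [v,h']` ((P2):
  `B v [w,h'] = B h h' = D1`, `B v w = 1`, `B v h' = 0`) and
  `[v,h'] = [z,w'] + [v',[v,w']] = sy + v1`.  So `XW sy = D1 v + sy + v1 + c0`.
* `XW d0`: `d0 = X'W'w1 = W'X'w1 + [h',w1] = q sy + [h',w1]`.  With `y = Wv'`, `w1 = Xy`:
  `XW[h',w1] = X [h',[w,Xy]] + X [[w,h'],Xy]`.
  Second term: (P2) with middle term `[w,h']`: `B v [[w,h'],y] v + D1 w1 + 0`.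
  First term: `WXWv' = Wv' + q h` ((P2) for `w`, `B w z = 0`), `X[h', Wv'] = X[h',[w,v']] =
  X [w,[h',v']] + X [[h',w],v'] = X X' W h'` (`[h',v'] = 0`), `X'Wh' = X'WX'w' =
  T v' + q h' + [v',w]`, `T = B v' [w,w']`, so `X X'Wh' = T z + q [v,h'] + w1`
  (`X[v',w] = X[w,v'] = w1`); `q X[h',h] = q XH'Xw = q (D1 v + [v,h'])` ((P2):
  `B v [h',w] = D1`, `B v h' = 0`, `B v w = 1`).  So the first term is `T z + w1 + q D1 v`.
  `B v [[w,h'],Wv'] = B (XWh') (Wv') = B (WXWh') v' = q D1` (`WXWh' = D1 w + Wh' + B w h' h`,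
  `B (Wh') v' = B w [h',v'] = 0`, `B h v' = 0`).  Total
  `XW d0 = q D1 v + q sy + (1 + D1) w1 + q v1 + q c0 + T z`.
E2-06 (forms): `B h x = B w (X x)` is a multiple of `B w z = B v' h = 0`.
`B v`: `v, v'`: 0; `B v sx = B h z = 0`, `B v sy = B [v,w'] z = B w' [v,z] = 0`, `w1, c0`: 0,
`B v v1 = B z [w',v] = B sy v = 0`, `B v d0 = B z (W'w1) = B sy w1 = B sy (XWv') = B (X sy) (Wv')
= p B z (Wv') = p B sx v' = 0`.  `B w`: `v`: 1, `v'`: q, `sx`: 0, `sy`: `B [w,w'] z = D2`,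
`w1, c0`: `B h (W·) = 0`, `v1`: `B [w,v'] [w',v] = D1 + D2` (Jacobi),
`d0 = q sy + [h',w1]`: `q D2 + B [w,h'] w1 = q D2 + q D1`.
-/

namespace Pool.Agent.H26.E2

variable {K L : Type} [Field K] [AddCommGroup L] [Module K L]

/-- the hypotheses on two pairs -/
structure SpH (br : L →ₗ[K] L →ₗ[K] L) (B : L →ₗ[K] L →ₗ[K] K) (v w v' w' : L) : Prop where
  P : Pair2 br B v w
  P' : Pair2 br B v' w'
  b0 : B v v' = 0
  b1 : B (br v w) v' = 0
  b2 : B (br v' w') v = 0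

/-- `z = [v,v']` -/
def sz (br : L →ₗ[K] L →ₗ[K] L) (v v' : L) : L := br v v'
/-- `x* = [w,[v,v']]` -/
def sx (br : L →ₗ[K] L →ₗ[K] L) (v w v' : L) : L := br w (br v v')
/-- `w1 = [v,[w,v']]` -/
def sw1 (br : L →ₗ[K] L →ₗ[K] L) (v w v' : L) : L := br v (br w v')
/-- `c0 = [v,[w,[v',[w',v]]]]` -/
def sc0 (br : L →ₗ[K] L →ₗ[K] L) (v w v' w' : L) : L := br v (br w (br v' (br w' v)))

variable {br : L →ₗ[K] L →ₗ[K] L} {B : L →ₗ[K] L →ₗ[K] K} {v w v' w' : L}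

theorem SpH.swap (H : LB br B) (S : SpH br B v w v' w') : SpH br B v' w' v w where
  P := S.P'
  P' := S.P
  b0 := by rw [H.bsymm, S.b0]
  b1 := S.b2
  b2 := S.b1

/-! ### E2-04: brackets with `v` -/

theorem SpH.c0 (H : LB br B) (S : SpH br B v w v' w') : B v' v = 0 := by rw [H.bsymm, S.b0]

theorem SpH.c1 (H : LB br B) (S : SpH br B v w v' w') : B v (br w v') = 0 := by
  rw [← H.inv, S.b1]

theorem SpH.c2 (H : LB br B) (S : SpH br B v w v' w') : B v (br w' v') = 0 := by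
  rw [H.bsymm, H.symm w' v', S.b2]

theorem SpH.c3 (H : LB br B) (S : SpH br B v w v' w') : B v (br v' w') = 0 := by
  rw [H.bsymm, S.b2]

theorem SpH.c4 (H : LB br B) (S : SpH br B v w v' w') : B v' (br v w') = 0 := by
  rw [H.inv' v' v w', S.c3 H]

theorem SpH.c5 (H : LB br B) (S : SpH br B v w v' w') : B (br v v') w = 0 := by
  rw [H.symm v v', H.inv, H.bsymm, S.b1]

theorem SpH.c6 (H : LB br B) (S : SpH br B v w v' w') : B (br v v') w' = 0 := by
  rw [H.inv, S.c3 H]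

theorem spe_X_z (H : LB br B) (S : SpH br B v w v' w') : br v (br v v') = 0 := S.P.ev.p0 v'

theorem spe_X_sx (H : LB br B) (S : SpH br B v w v' w') :
    br v (br w (br v v')) = br v v' := by
  rw [S.P.ev.p2 v' w, S.c1 H, S.P.one, S.b0, zero_smul, zero_smul, one_smul, zero_add, add_zero]

theorem spe_X_sy (H : LB br B) (S : SpH br B v w v' w') :
    br v (br w' (br v v')) = B v w' • br v v' := by
  rw [S.P.ev.p2 v' w', S.c2 H, S.b0, zero_smul, zero_smul, zero_add, add_zero]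

theorem spe_X_v1 (H : LB br B) (S : SpH br B v w v' w') :
    br v (br v' (br w' v)) = B v w' • br v v' := by
  rw [H.symm w' v, S.P.ev.p2 w' v', S.c3 H, S.b0, zero_smul, zero_smul, zero_add, zero_add]

/-- `[v', [v, h']] = z` -/
theorem spe_aux (H : LB br B) (S : SpH br B v w v' w') :
    br v' (br v (br v' w')) = br v v' := by
  rw [S.P'.ev.p2 w' v, S.c4 H, S.c0 H, S.P'.one, zero_smul, zero_smul, one_smul, zero_add, zero_add,
    H.symm]

theorem spe_X_d0 (H : LB br B) (S : SpH br B v w v' w') :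
    br v (br v' (br w' (br v (br w v')))) = (B v w' * B w v') • br v v' := by
  have j : ∀ u, br v' (br w' u) = br (br v' w') u + br w' (br v' u) := fun u => by
    rw [H.jac v' w' u, add_assoc, H.add_self, add_zero]
  have e1 : br v' (br v (br w v')) = B w v' • br v v' := by
    have := spe_X_v1 H (S.swap H)
    rw [this, H.bsymm, H.symm v' v]
  have e2 : B v (br (br v' w') (br w v')) = 0 := by
    rw [← H.inv, H.symm w v', ← H.inv, H.symm _ v', spe_aux H S, S.c5 H]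
  rw [j, map_add, S.P.ev.p2 (br w v') (br v' w'), e2, S.c3 H, S.c1 H, e1, map_smul, map_smul,
    spe_X_sy H S, zero_smul, zero_smul, zero_smul, add_zero, add_zero, zero_add, smul_smul, mul_comm]

end Pool.Agent.H26.E2
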