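import Pool.Agent.H26.E2.SpeI

/-!
# E2-05: the table of `ad v ad w` for special pairs; see the header of `SpeI`
-/

namespace Pool.Agent.H26.E2

variable {K L : Type} [Field K] [AddCommGroup L] [Module K L]
variable {br : L →ₗ[K] L →ₗ[K] L} {B : L →ₗ[K] L →ₗ[K] K} {v w v' w' : L}

/-! ### E2-05: the table of `ad v ad w` -/

theorem spe_P_sx (H : LB br B) (S : SpH br B v w v' w') :
    br v (br w (br w (br v v'))) = 0 := by
  rw [S.P.ew.p0, map_zero]

theorem SpeJ_bvh (H : LB br B) (S : SpH br B v w v' w') : B v (br v' w') = 0 := by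
  rw [H.bsymm, S.b2]

theorem SpeJ_bvy (H : LB br B) (S : SpH br B v w v' w') : B v (br w v') = 0 := by
  rw [← H.inv, S.b1]

/-- `[v,h'] = sy + v1` -/
theorem SpeJ_vh (H : LB br B) (v v' w' : L) :
    br v (br v' w') = br w' (br v v') + br v' (br w' v) := by
  have h1 := H.jac v' w' v
  rw [H.symm (br v' w') v, H.symm v' v] at h1
  rw [h1, add_comm]

/-- `XWXu`, (P2) -/
theorem SpeJ_xwx (H : LB br B) (P : Pair2 br B v w) (u : L) :
    br v (br w (br v u)) = B (br v w) u • v + br v u + B v u • br v w := by
  rw [P.ev.p2 u w, ← H.inv v w u, P.one, one_smul]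

theorem SpeJ_jac (H : LB br B) (x y z : L) :
    br x (br y z) = br (br x y) z + br y (br x z) := by
  rw [H.jac, add_assoc, H.add_self, add_zero]

theorem spe_P_sy (H : LB br B) (S : SpH br B v w v' w') :
    br v (br w (br w' (br v v'))) = B (br v w) (br v' w') • v + br w' (br v v')
      + br v' (br w' v) + br v (br w (br v' (br w' v))) := by
  have h1 : br w' (br v v') = br v (br v' w') + br v' (br w' v) := by
    rw [SpeJ_vh H v v' w', add_assoc, H.add_self, add_zero]
  have h2 := SpeJ_xwx H S.P (br v' w')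
  rw [SpeJ_bvh H S, zero_smul, add_zero] at h2
  have h3 : br v (br w (br w' (br v v'))) =
      br v (br w (br v (br v' w'))) + br v (br w (br v' (br w' v))) := by
    conv_lhs => rw [h1]
    rw [map_add, map_add]
  rw [h3, h2, SpeJ_vh H v v' w']
  abel

theorem spe_P_w1 (H : LB br B) (S : SpH br B v w v' w') :
    br v (br w (br v (br w v'))) = br v (br w v') := by
  have h := SpeJ_xwx H S.P (br w v')
  have h1 : B (br v w) (br w v') = 0 := by
    rw [H.inv, S.P.ew.p0, map_zero]
  rw [h1, SpeJ_bvy H S, zero_smul, zero_smul, zero_add, add_zero] at h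
  exact h

theorem spe_P_c0 (H : LB br B) (S : SpH br B v w v' w') :
    br v (br w (br v (br w (br v' (br w' v))))) = br v (br w (br v' (br w' v))) := by
  have h := SpeJ_xwx H S.P (br w (br v' (br w' v)))
  have h1 : B (br v w) (br w (br v' (br w' v))) = 0 := by
    rw [H.inv, S.P.ew.p0, map_zero]
  have h2 : B v (br w (br v' (br w' v))) = 0 := by
    rw [← H.inv, H.symm v w, H.inv, spe_X_v1 H S, map_smul, ← H.inv, H.symm w v, S.b1, smul_zero]
  rw [h1, h2, zero_smul, zero_smul, zero_add, add_zero] at h
  exact h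

/-- `X' w1 = q z` -/
theorem SpeJ_xw1 (H : LB br B) (S : SpH br B v w v' w') :
    br v' (br v (br w v')) = B w v' • br v v' := by
  rw [spe_X_v1 H (S.swap H), H.bsymm v' w, H.symm v' v]

/-- `d0 = q sy + [h', w1]` -/
theorem SpeJ_d0 (H : LB br B) (S : SpH br B v w v' w') :
    br v' (br w' (br v (br w v'))) =
      B w v' • br w' (br v v') + br (br v' w') (br v (br w v')) := by
  rw [SpeJ_jac H v' w' (br v (br w v')), SpeJ_xw1 H S, map_smul, add_comm]

/-- `WXWv' = Wv' + q h` -/
theorem SpeJ_wxw (H : LB br B) (S : SpH br B v w v' w') :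
    br w (br v (br w v')) = br w v' + B w v' • br v w := by
  have h := SpeJ_xwx H (S.P.swap H) v'
  rw [H.symm w v, S.b1, zero_smul, zero_add] at h
  exact h

/-- `X [h', h] = D1 v + X h'` -/
theorem SpeJ_xhh (H : LB br B) (S : SpH br B v w v' w') :
    br v (br (br v' w') (br v w)) = B (br v w) (br v' w') • v + br v (br v' w') := by
  rw [S.P.ev.p2 w (br v' w'), SpeJ_bvh H S, S.P.one, one_smul, zero_smul, add_zero,
    H.symm (br v' w') w, ← H.inv v w]

/-- `X [h', Wv'] = T z + q X h' + w1` -/
theorem SpeJ_xhw (H : LB br B) (S : SpH br B v w v' w') :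
    br v (br (br v' w') (br w v')) =
      B v' (br w w') • br v v' + B w v' • br v (br v' w') + br v (br w v') := by
  have h1 : br (br v' w') (br w v') = br v' (br w (br v' w')) := by
    rw [SpeJ_jac H (br v' w') w v', H.symm (br v' w') v', S.P'.brh H, map_zero, add_zero,
      H.symm (br v' w') w, H.symm (br w (br v' w')) v']
  rw [h1, S.P'.ev.p2 w' w, S.P'.one, one_smul, map_add, map_add, map_smul, map_smul,
    H.symm v' w, H.bsymm v' w]

/-- `B v [[w,h'], Wv'] = q D1` -/
theorem SpeJ_bq (H : LB br B) (S : SpH br B v w v' w') :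
    B v (br (br w (br v' w')) (br w v')) = B w v' * B (br v w) (br v' w') := by
  have h := SpeJ_xwx H (S.P.swap H) (br v' w')
  have h1 : B (br w (br v' w')) v' = 0 := by
    rw [H.inv, H.symm (br v' w') v', S.P'.brh H, map_zero]
  rw [← H.inv, ← H.inv, H.symm (br v (br w (br v' w'))) w, h, H.symm w v]
  simp only [map_add, LinearMap.add_apply, map_smul, LinearMap.smul_apply, h1, S.b1, smul_eq_mul]
  ring

theorem spe_P_d0 (H : LB br B) (S : SpH br B v w v' w') :
    br v (br w (br v' (br w' (br v (br w v'))))) =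
      (B w v' * B (br v w) (br v' w')) • v + B w v' • br w' (br v v')
      + (1 + B (br v w) (br v' w')) • br v (br w v') + B w v' • br v' (br w' v)
      + B w v' • br v (br w (br v' (br w' v))) + B v' (br w w') • br v v' := by
  have hsy := spe_P_sy H S
  have h1 : br w (br (br v' w') (br v (br w v'))) =
      br (br w (br v' w')) (br v (br w v')) + br (br v' w') (br w v') +
        B w v' • br (br v' w') (br v w) := by
    rw [SpeJ_jac H w (br v' w') (br v (br w v')), SpeJ_wxw H S, map_add, map_smul, add_assoc]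
  have h2 : br v (br (br w (br v' w')) (br v (br w v'))) =
      (B w v' * B (br v w) (br v' w')) • v + B (br v w) (br v' w') • br v (br w v') := by
    rw [S.P.ev.p2 (br w v') (br w (br v' w')), SpeJ_bq H S, SpeJ_bvy H S, zero_smul, add_zero,
      ← H.inv v w]
  have h3 : br v (br w (br (br v' w') (br v (br w v')))) =
      (B w v' * B (br v w) (br v' w')) • v + B (br v w) (br v' w') • br v (br w v') +
      (B v' (br w w') • br v v' + B w v' • br v (br v' w') + br v (br w v')) +
      B w v' • (B (br v w) (br v' w') • v + br v (br v' w')) := by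
    rw [h1, map_add, map_add, map_smul, h2, SpeJ_xhw H S, SpeJ_xhh H S]
  have h4 : br v (br w (br v' (br w' (br v (br w v'))))) =
      B w v' • br v (br w (br w' (br v v'))) + br v (br w (br (br v' w') (br v (br w v')))) := by
    rw [SpeJ_d0 H S, map_add, map_add, map_smul, map_smul]
  haveI := H.charP
  rw [h4, hsy, h3]
  match_scalars <;> grind

end Pool.Agent.H26.E2
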