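import Pool.Agent.H26.E2.SpeI

/-!
# E2-06: forms for special pairs; see the header of `SpeI`
-/

namespace Pool.Agent.H26.E2

variable {K L : Type} [Field K] [AddCommGroup L] [Module K L]
variable {br : L →ₗ[K] L →ₗ[K] L} {B : L →ₗ[K] L →ₗ[K] K} {v w v' w' : L}

/-! ### E2-06: forms -/

private theorem SpeK_vv (H : LB br B) (v y : L) : B v (br v y) = 0 := by
  rw [← H.inv, H.alt, map_zero, LinearMap.zero_apply]

theorem spe_B_z (H : LB br B) (S : SpH br B v w v' w') :
    B v (br v v') = 0 ∧ B w (br v v') = 0 ∧ B (br v w) (br v v') = 0 := by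
  refine ⟨SpeK_vv H _ _, by rw [H.bsymm, S.c5 H], ?_⟩
  rw [← H.inv, H.symm _ v, S.P.brh H, map_zero, LinearMap.zero_apply]

/-- `B h x = B w [v, x]` -/
private theorem SpeK_h (H : LB br B) (x : L) : B (br v w) x = B w (br v x) := by
  rw [H.symm v w, H.inv]

private theorem SpeK_0 (H : LB br B) (E : Ext2 br B v) (a b : L) : B (br v a) (br v b) = 0 := by
  rw [H.symm v a, H.inv, E.p0, map_zero]

/-- `B v` and `B h` vanish on the module -/
theorem spe_B_v (H : LB br B) (S : SpH br B v w v' w') :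
    B v (br w (br v v')) = 0 ∧ B v (br w' (br v v')) = 0 ∧ B v (br v (br w v')) = 0 ∧
    B v (br v' (br w' v)) = 0 ∧ B v (br v (br w (br v' (br w' v)))) = 0 ∧
    B v (br v' (br w' (br v (br w v')))) = 0 := by
  refine ⟨?_, ?_, SpeK_vv H _ _, ?_, SpeK_vv H _ _, ?_⟩
  · rw [← H.inv, (spe_B_z H S).2.2]
  · rw [← H.inv, SpeK_0 H S.P.ev]
  · rw [← H.inv, H.symm w' v, SpeK_0 H S.P.ev]
  · rw [← H.inv, ← H.inv, H.symm _ w', ← H.inv, H.symm _ v, spe_X_sy H S, map_smul,
      LinearMap.smul_apply, H.symm v v', H.symm w v', SpeK_0 H S.P'.ev, smul_zero]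

theorem spe_B_h (H : LB br B) (S : SpH br B v w v' w') :
    B (br v w) (br w (br v v')) = 0 ∧ B (br v w) (br w' (br v v')) = 0 ∧
    B (br v w) (br v (br w v')) = 0 ∧ B (br v w) (br v' (br w' v)) = 0 ∧
    B (br v w) (br v (br w (br v' (br w' v)))) = 0 ∧
    B (br v w) (br v' (br w' (br v (br w v')))) = 0 := by
  have z := (spe_B_z H S).2.1
  refine ⟨?_, ?_, ?_, ?_, ?_, ?_⟩
  · rw [SpeK_h H, spe_X_sx H S, z]
  · rw [SpeK_h H, spe_X_sy H S, map_smul, z, smul_zero]
  · rw [SpeK_h H, S.P.ev.p0, map_zero]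
  · rw [SpeK_h H, spe_X_v1 H S, map_smul, z, smul_zero]
  · rw [SpeK_h H, S.P.ev.p0, map_zero]
  · rw [SpeK_h H, spe_X_d0 H S, map_smul, z, smul_zero]

private theorem SpeK_3 (H : LB br B) (y z a b : L) :
    B (br a z) (br b y) = B (br a y) (br b z) + B (br a b) (br y z) := by
  have h1 : br z (br b y) = br y (br b z) + br b (br y z) := by
    have h := H.jac b y z
    rw [H.symm z (br b y), h, add_comm]
  rw [H.inv, h1, map_add, ← H.inv a y (br b z), ← H.inv a b (br y z)]

theorem spe_B_w (H : LB br B) (S : SpH br B v w v' w') :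
    B w (br w (br v v')) = 0 ∧ B w (br w' (br v v')) = B (br v v') (br w w') ∧
    B w (br v (br w v')) = 0 ∧
    B w (br v' (br w' v)) = B (br v w) (br v' w') + B (br v v') (br w w') ∧
    B w (br v (br w (br v' (br w' v)))) = 0 ∧
    B w (br v' (br w' (br v (br w v')))) =
      B w v' * (B (br v w) (br v' w') + B (br v v') (br w w')) := by
  have e2 : B w (br w' (br v v')) = B (br v v') (br w w') := by rw [← H.inv, H.bsymm]
  refine ⟨SpeK_vv H _ _, e2, ?_, ?_, ?_, ?_⟩
  · rw [← H.inv, SpeK_0 H S.P.ew]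
  · rw [← H.inv, H.symm w' v, SpeK_3 H w' v' w v, H.bsymm (br w w'), H.symm w v, H.symm w' v',
      add_comm]
  · rw [← H.inv, SpeK_0 H S.P.ew]
  · have j : ∀ u, br v' (br w' u) = br (br v' w') u + br w' (br v' u) := fun u => by
      rw [H.jac v' w' u, add_assoc, H.add_self, add_zero]
    have e1 : br v' (br v (br w v')) = B w v' • br v v' := by
      have := spe_X_v1 H (S.swap H)
      rw [this, H.bsymm, H.symm v' v]
    have e3 : B w (br (br v' w') (br v (br w v'))) = B w v' * B (br v w) (br v' w') := by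
      have h1 : br w (br v (br w (br v' w'))) = B (br v w) (br v' w') • w + br w (br v' w')
          + B w (br v' w') • br v w := by
        rw [S.P.ew.p2 (br v' w') v, ← H.inv w v, S.P.one' H, one_smul, H.symm w v]
      have h2 : B (br w (br v' w')) v' = 0 := by
        rw [H.inv, H.symm _ v', S.P'.ev.p0, map_zero]
      rw [← H.inv, ← H.inv, H.symm _ v, ← H.inv, H.symm _ w, h1, LinearMap.map_add₂,
        LinearMap.map_add₂, LinearMap.map_smul₂, LinearMap.map_smul₂, h2, S.b1, smul_zero, add_zero,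
        add_zero, smul_eq_mul, mul_comm]
    rw [j, map_add, e3, e1, map_smul, map_smul, e2, smul_eq_mul]
    ring

/-- the exchange of the pairs fixes `D1`, `D2` -/
theorem spe_swap_D (H : LB br B) :
    B (br v' w') (br v w) = B (br v w) (br v' w') ∧
    B (br v' v) (br w' w) = B (br v v') (br w w') := by
  rw [H.symm v' v, H.symm w' w, H.bsymm]
  exact ⟨rfl, rfl⟩

end Pool.Agent.H26.E2
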