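import Pool.Agent.H26.E2.SpeJ
import Pool.Agent.H26.E2.SpeK
import Pool.Agent.H26.E2.CertP

/-!
# E2-13: coordinates of the special module: functionals and projections

See the header of `Spe`.
-/

namespace Pool.Agent.H26.E2

variable {K L : Type} [Field K] [AddCommGroup L] [Module K L]
variable {br : L →ₗ[K] L →ₗ[K] L} {B : L →ₗ[K] L →ₗ[K] K} {v w v' w' : L}

/-- the vector with given coordinates -/
def R8 (br : L →ₗ[K] L →ₗ[K] L) (v w v' w' : L) (x : V8 K) : L :=
  x.a0 • v + x.a1 • v' + x.a2 • br w (br v v') + x.a3 • br w' (br v v')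
    + x.a4 • br v (br w v') + x.a5 • br v' (br w' v)
    + x.a6 • br v (br w (br v' (br w' v))) + x.a7 • br v' (br w' (br v (br w v')))

/-- coordinates modulo `z` -/
def Rel8 (br : L →ₗ[K] L →ₗ[K] L) (v w v' w' : L) (x : V8 K) (y : L) : Prop :=
  ∃ t : K, y = R8 br v w v' w' x + t • br v v'

theorem spe_fun (H : LB br B) (S : SpH br B v w v' w') (hp : B v w' = 1) {x : V8 K} {y : L}
    (hxy : Rel8 br v w v' w' x y) :
    br v y = speO (B w v') x • br v v' ∧ br v' y = speO' (B w v') x • br v v' ∧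
    B w y = speB (B w v') (B (br v w) (br v' w')) (B (br v v') (br w w')) x ∧
    B w' y = speB' (B (br v w) (br v' w')) (B (br v v') (br w w')) x ∧
    B v y = 0 ∧ B v' y = 0 ∧ B (br v w) y = 0 ∧ B (br v' w') y = 0 := by
  obtain ⟨t, rfl⟩ := hxy
  have T := S.swap H
  have hz : br v' v = br v v' := H.symm v' v
  have hp' : B w' v = 1 := by rw [H.bsymm, hp]
  have hq' : B v' w = B w v' := H.bsymm v' w
  obtain ⟨hD1, hD2⟩ := spe_swap_D (v := v) (w := w) (v' := v') (w' := w') H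
  -- brackets
  have x1 := spe_X_sx H S
  have x2 := spe_X_sy H S
  have x3 := spe_X_v1 H S
  have x4 := spe_X_d0 H S
  have y1 := spe_X_sx H T
  have y2 := spe_X_sy H T
  have y3 := spe_X_v1 H T
  have y4 := spe_X_d0 H T
  rw [hz] at y1 y2 y3 y4
  rw [hq'] at y2 y3 y4
  rw [hp'] at y4
  rw [hp] at x2 x3 x4
  have e1 : br v (br v (br w v')) = 0 := S.P.ev.p0 _
  have e2 : br v (br v (br w (br v' (br w' v)))) = 0 := S.P.ev.p0 _
  have e3 : br v (br v v') = 0 := S.P.ev.p0 _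
  have e4 : br v' (br v' (br w' v)) = 0 := S.P'.ev.p0 _
  have e5 : br v' (br v' (br w' (br v (br w v')))) = 0 := S.P'.ev.p0 _
  have e6 : br v' (br v v') = 0 := by rw [← hz]; exact S.P'.ev.p0 _
  -- forms
  obtain ⟨z1, z2, z3⟩ := spe_B_z H S
  obtain ⟨z1', z2', z3'⟩ := spe_B_z H T
  obtain ⟨v1, v2, v3, v4, v5, v6⟩ := spe_B_v H S
  obtain ⟨v1', v2', v3', v4', v5', v6'⟩ := spe_B_v H T
  obtain ⟨h1, h2, h3, h4, h5, h6⟩ := spe_B_h H S
  obtain ⟨h1', h2', h3', h4', h5', h6'⟩ := spe_B_h H T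
  obtain ⟨w1, w2, w3, w4, w5, w6⟩ := spe_B_w H S
  obtain ⟨w1', w2', w3', w4', w5', w6'⟩ := spe_B_w H T
  rw [hz] at z1' z2' z3' v1' v2' h1' h2' w1' w2'
  rw [hD1] at w4' w6'
  rw [← hz, hD2, hz] at w2'
  rw [hD2] at w4' w6'
  rw [hp'] at w6'
  have b0' : B v' v = 0 := by rw [H.bsymm, S.b0]
  have hPb := S.P.bh H
  have hPb' := S.P'.bh H
  refine ⟨?_, ?_, ?_, ?_, ?_, ?_, ?_, ?_⟩
  · simp only [R8, map_add, map_smul, H.alt, x1, x2, x3, x4, e1, e2, e3, speO]
    module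
  · simp only [R8, map_add, map_smul, H.alt, hz, y1, y2, y3, y4, e4, e5, e6, speO']
    module
  · simp only [R8, map_add, map_smul, smul_eq_mul, S.P.one' H, w1, w2, w3, w4, w5, w6, z2, speB]
    ring
  · simp only [R8, map_add, map_smul, smul_eq_mul, T.P.one' H, hp', w1', w2', w3', w4', w5', w6',
      z2', speB']
    ring
  · simp only [R8, map_add, map_smul, smul_eq_mul, H.balt, S.b0, v1, v2, v3, v4, v5, v6, z1]
    ring
  · simp only [R8, map_add, map_smul, smul_eq_mul, H.balt, b0', v1', v2', v3', v4', v5', v6', z1']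
    ring
  · simp only [R8, map_add, map_smul, smul_eq_mul, hPb, S.b1, h1, h2, h3, h4, h5, h6, z3]
    ring
  · simp only [R8, map_add, map_smul, smul_eq_mul, hPb', S.b2, h1', h2', h3', h4', h5', h6', z3']
    ring

theorem spe_PX (H : LB br B) (S : SpH br B v w v' w') (hp : B v w' = 1) {x : V8 K} {y : L}
    (hxy : Rel8 br v w v' w' x y) :
    Rel8 br v w v' w' (speP (B w v') (B (br v w) (br v' w')) x) (br v (br w y)) := by
  obtain ⟨t, rfl⟩ := hxy
  have p0 : br v (br w v) = 0 := by rw [H.symm w v]; exact S.P.ev.p0 _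
  have p1 := spe_P_sx H S
  have p2 := spe_P_sy H S
  have p3 := spe_P_w1 H S
  have p4 := spe_P_c0 H S
  have p5 := spe_P_d0 H S
  have p6 := spe_X_sx H S
  refine ⟨x.a7 * B v' (br w w') + t, ?_⟩
  simp only [R8, map_add, map_smul, p0, p1, p2, p3, p4, p5, p6, speP]
  module

theorem spe_PY (H : LB br B) (S : SpH br B v w v' w') (hp : B v w' = 1) {x : V8 K} {y : L}
    (hxy : Rel8 br v w v' w' x y) :
    Rel8 br v w v' w' (speP' (B (br v w) (br v' w')) x) (br v' (br w' y)) := by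
  obtain ⟨t, rfl⟩ := hxy
  have T := S.swap H
  have hz : br v' v = br v v' := H.symm v' v
  have hp' : B w' v = 1 := by rw [H.bsymm, hp]
  obtain ⟨hD1, hD2⟩ := spe_swap_D (v := v) (w := w) (v' := v') (w' := w') H
  have p0 : br v' (br w' v') = 0 := by rw [H.symm w' v']; exact S.P'.ev.p0 _
  have p1 := spe_P_sx H T
  have p2 := spe_P_sy H T
  have p3 := spe_P_w1 H T
  have p4 := spe_P_c0 H T
  have p5 := spe_P_d0 H T
  have p6 := spe_X_sx H T
  rw [hz] at p1 p2 p5 p6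
  rw [hD1] at p2 p5
  rw [hp'] at p5
  refine ⟨x.a6 * B v (br w' w) + t, ?_⟩
  simp only [R8, map_add, map_smul, p0, p1, p2, p3, p4, p5, p6, speP']
  module

end Pool.Agent.H26.E2
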