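import Pool.Agent.H26.E2.SymE

/-!
# E2-12: pairs with `[v, v'] = 0`

`w0 = th v v' w`, `v0 = th v v' w'`, `p = B v w'`, `q = B w v'`, `d = B w v0` (`= B w' w0`,
`sc_delta`).  If `w0 = 0` use `col`; if `v0 = 0` use `col` for the exchanged pairs (`th_symm`).
`R x = x.a0 • v + x.a1 • w0 + x.a2 • v' + x.a3 • v0`.

E2-10 (file `SymR`): if `p = 1`: `tr v w c (R x) = R (symX q d c x)`, `tr v' w' c (R x) = R (symY q d c x)`
(`tr_add`, `tr_smul`, `tr_v`, `sc_tr_v'`, `sc_tr_w0`, `sc_tr_v0` and the same for the exchanged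
pairs, where `w0, v0` are exchanged by `th_symm`).
Functionals: `B w (R x) = symBw x` (`B w v = 1`, `B w w0 = 0`, `B w v' = q`, `B w v0 = d`),
`B w' (R x) = symBw' x`, `th v (R x) w = symBv x • w0`, `th v' (R x) w = symBv' x • w0`
(`th_add`, `th_smul`, `th_self`, `th_w0`, `th_v0`, for `v'` with the exchanged pairs:
`th v' w0 y = q th v v' y` is `th_v0` of the exchanged pairs, `th v' v0 y = th v v' y`),
`[v, R x] = 0`.

E2-11 (`sym_p0`; file `SymE`): `p = 0`: `x = tr v' w' z v = z v + (1+z) v0` (`sc_tr_v'` exchanged) has `[v,x] = 0`,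
`th v x w = (1+z) p w0 = 0`, so by `col` for the pairs `(v,w)`, `(t v, t w)`, `t = te v' w' z`, the
tori commute; `A.com1`.  `q = 0`: exchange.
(`sym_exc`): `p = q = 1`, `d = 0`: `exc`, `n = 4`, `M 1 = <v0+w0>`, `M 2 = <v0+w0, w0>`,
`M 3 = M 2 + <v+v'>`, `M 4 = M 3 + <v>`, scalars `z, 1, z, z²`:
`te v w z`: `v0+w0 ↦ z(v0+w0)`, `w0 ↦ w0`, `v+v' ↦ z(v+v') + (1+z) w0`, `v ↦ z² v`;
`te v' w' z`: `v0+w0 ↦ z (v0+w0)`, `w0 ↦ z w0 + (1+z) v0 = w0 + (1+z)(v0+w0)`,
`v+v' ↦ z (v+v') + (1+z) v0`, `v ↦ z v + (1+z) v0 + (z²+z) v' = z² v + (z²+z)(v+v') + (1+z) v0`.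
E2-12 (`sym_gen`): `p = 1`, `q ≠ 0`, `(q,d) ≠ (1,0)`: `sym_cert` gives `l`, `x`, `y`;
`g = ru l`, `g v = R x`, `g w0 = R y` (`ru_real`).  `symBv x = 0`: `[v, g v] = 0`,
`th v (g v) w = 0`, so by `col` the tori of `(v,w)` and `(g v, g w)` commute, by `Cm.eig`
`tr v w z (R x) = k R x`; `B w (R x) = symBw x = α ≠ 0`, so by `tr_eig` `k = z²`, by `weight_two`
`R x = α v`.  So `symBv' x • w0 = th v' (α v) w = α w0`, `symBw' x = B w' (α v) = α`
(`p = 1`): the first two alternatives of `symViol` are impossible.  By `v0a` `g` commutes with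
`te v w z`, which fixes `w0` (`sc_tr_w0`), so `tr v w z (R y) = R y`, by `tr_eig` (`k = 1`)
`B w (R y) = 0` (third alternative impossible), `q1 (R y) = 0` etc., so `R y = q0 (R y)`
and (`q0 v = 0`, `q0 w0 = w0`, `q0 v' = w0`, `q0 v0 = w0` since
`[v,[w,v']] = v' + w0 + q v` ...) `R y = symBv y • w0 =: κ w0`.  Then
`symBv' y • w0 = th v' (κ w0) w = κ q w0`, `symBw' y = B w' (κ w0) = κ d`.
(To get `R y = κ w0` one may also use: `th v (R y) w = symBv y • w0` and
`th v x w = q0 x` for `x` with `[v,x] = 0`, `B v x = 0`, `B h x = 0`: indeed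
`th v x w = [v,[x,w]] + x + B x w v`.)
-/

namespace Pool.Agent.H26.E2

variable {K L : Type} [Field K] [AddCommGroup L] [Module K L]
variable {br : L →ₗ[K] L →ₗ[K] L} {B : L →ₗ[K] L →ₗ[K] K} {F : Subgroup (L ≃ₗ[K] L)}
  {FP : L → L → Prop} {v w v' w' : L}

/-- the action of a letter -/
def Sym_act (q d : K) (t : Bool × K) (x : V4 K) : V4 K :=
  if t.1 then symY q d t.2 x else symX q d t.2 x

theorem Sym_run (A : FPS br B F FP) (h : FP v w) (h' : FP v' w') (hz : br v v' = 0)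
    (hp : B v w' = 1) (l : List (Bool × K)) (hl : ∀ t ∈ l, t.2 ≠ 0) (x : V4 K) :
    ru br B v w v' w' l (R4 br B v w v' w' x) =
      R4 br B v w v' w' (symRun (B w v') (B w (th br B v v' w')) l x) := by
  refine ru_real A h h' (fun x y => y = R4 br B v w v' w' x)
    (Sym_act (B w v') (B w (th br B v v' w'))) (symRun (B w v') (B w (th br B v v' w')))
    (fun x => rfl) ?_ ?_ ?_ l hl x _ rfl
  · rintro ⟨b, c⟩ l x
    rfl
  · rintro c - x y rfl
    exact sym_X A.lb (A.pair _ _ h) (A.pair _ _ h') hz hp c x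
  · rintro c - x y rfl
    exact sym_Y A.lb (A.pair _ _ h) (A.pair _ _ h') hz hp c x

theorem Sym_zeta (A : FPS br B F FP) : ∃ z : K, z ≠ 0 ∧ z ^ 2 ≠ z⁻¹ ^ 2 ∧ z ^ 2 ≠ z ∧
    z ^ 2 ≠ z⁻¹ ∧ z ^ 2 ≠ 1 ∧ z ≠ 1 := by
  obtain ⟨z, hz, hz3, hz7, hzk, -⟩ := exists_zeta A.card A.lb.two
  have e : z * z⁻¹ = 1 := mul_inv_cancel₀ hz
  refine ⟨z, hz, ?_, ?_, ?_, ?_, ?_⟩
  · intro hz2
    refine hzk 4 (by norm_num) (by norm_num) ?_
    calc z ^ 4 = z ^ 2 * z ^ 2 := by ring
      _ = z⁻¹ ^ 2 * z ^ 2 := by rw [← hz2]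
      _ = (z * z⁻¹) ^ 2 := by ring
      _ = 1 := by rw [e, one_pow]
  · intro hz2
    refine hzk 1 (by norm_num) (by norm_num) ?_
    have : z * (z - 1) = 0 := by linear_combination hz2
    rcases mul_eq_zero.mp this with h0 | h0
    · exact absurd h0 hz
    · linear_combination h0
  · intro hz2
    refine hzk 3 (by norm_num) (by norm_num) ?_
    calc z ^ 3 = z * z ^ 2 := by ring
      _ = z * z⁻¹ := by rw [hz2]
      _ = 1 := e
  · exact hzk 2 (by norm_num) (by norm_num)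
  · intro h1
    exact hzk 1 (by norm_num) (by norm_num) (by rw [pow_one, h1])

theorem Sym_Bh (H : LB br B) (P : Pair2 br B v w) (P' : Pair2 br B v' w') (hz : br v v' = 0)
    (x : V4 K) : B (br v w) (R4 br B v w v' w' x) = 0 := by
  obtain ⟨⟨-, -, h1⟩, -, -, h2⟩ := sc_zero H P P' hz
  have h3 := (sc_B H P P' hz).2.1
  unfold R4
  simp only [map_add, map_smul, h1, h2, h3, P.bh H, smul_zero, add_zero]

theorem sym_gen (A : FPS br B F FP) (h : FP v w) (h' : FP v' w') (hz : br v v' = 0)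
    (h0 : th br B v v' w ≠ 0) (hp : B v w' = 1) (hq : B w v' ≠ 0)
    (hd : ¬ (B w v' = 1 ∧ B w (th br B v v' w') = 0)) : Cm br B v w v' w' := by
  exfalso
  have H := A.lb
  have P := A.pair _ _ h
  have P' := A.pair _ _ h'
  obtain ⟨l, hl, hV⟩ := sym_cert A.card (B w v') (B w (th br B v v' w')) hq hd
  obtain ⟨x, hx⟩ : ∃ x, x = symRun (B w v') (B w (th br B v v' w')) l ⟨1, 0, 0, 0⟩ := ⟨_, rfl⟩
  obtain ⟨y, hy⟩ : ∃ y, y = symRun (B w v') (B w (th br B v v' w')) l ⟨0, 1, 0, 0⟩ := ⟨_, rfl⟩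
  rw [← hx, ← hy] at hV
  obtain ⟨g, hg⟩ : ∃ g, g = ru br B v w v' w' l := ⟨_, rfl⟩
  have hgF : g ∈ F := by
    rw [hg]
    exact ru_mem A h h' l hl
  have gv : g v = R4 br B v w v' w' x := by
    have h1 := Sym_run A h h' hz hp l hl ⟨1, 0, 0, 0⟩
    rw [← hg, ← hx] at h1
    rw [← h1]
    simp [R4]
  have gw : g (th br B v v' w) = R4 br B v w v' w' y := by
    have h1 := Sym_run A h h' hz hp l hl ⟨0, 1, 0, 0⟩
    rw [← hg, ← hy] at h1
    rw [← h1]
    simp [R4]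
  obtain ⟨x1, x2, x3, x4, x5⟩ := sym_fun H P P' hz hp x
  obtain ⟨y1, y2, y3, y4, y5⟩ := sym_fun H P P' hz hp y
  obtain ⟨z, hz0, z1, z2, z3, z4, z5⟩ := Sym_zeta A
  obtain ⟨V1, V2, V3⟩ := hV
  have hgp : FP (g v) (g w) := A.mv g hgF v w h
  have hC : Cm br B v w (g v) (g w) := by
    refine col A h hgp ?_ ?_
    · rw [gv, x5]
    · rw [gv, x3, V1, zero_smul]
  obtain ⟨k, hk⟩ := Cm.eig A h hgp hC hz0
  have hk2 : k = z ^ 2 := by
    rcases (tr_eig H P hk).1 with h1 | h1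
    · exact h1
    · exfalso
      rw [gv, x1] at h1
      exact V2 h1
  rw [hk2] at hk
  have hgα := weight_two H P z1 z2 z3 z4 hk
  obtain ⟨α, hα⟩ : ∃ α, α = symBw (B w v') (B w (th br B v v' w')) x := ⟨_, rfl⟩
  have hα' : B w (g v) = α := by rw [gv, x1, hα]
  rw [hα'] at hgα
  have hα0 : α ≠ 0 := by
    rw [hα]
    exact V2
  -- first alternative
  have c1 : symBv' (B w v') x = α := by
    rw [← gv, hgα, th_smul, ← th_symm H hz] at x4
    exact (smul_left_injective K h0 x4).symm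
  have c2 : symBw' (B w (th br B v v' w')) x = α := by
    rw [← gv, hgα, map_smul, H.bsymm, hp, smul_eq_mul, mul_one] at x2
    exact x2.symm
  -- `g` commutes with the torus
  obtain ⟨-, hcom⟩ := v0a A h hgF hα0 hgα
  have hfix : tr br B v w z (R4 br B v w v' w' y) = (1 : K) • R4 br B v w v' w' y := by
    rw [one_smul, ← gw, ← te_apply A h hz0]
    have h1 := LinearEquiv.congr_fun (hcom z hz0) (th br B v v' w)
    rw [LinearEquiv.mul_apply, LinearEquiv.mul_apply, te_apply A h hz0, sc_tr_w0 H P P' hz] at h1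
    exact h1.symm
  obtain ⟨e1, -, e3, -, -⟩ := tr_eig H P hfix
  have c3 : symBw (B w v') (B w (th br B v v' w')) y = 0 := by
    rw [← y1]
    exact e1.resolve_left (fun h => z4 h.symm)
  have e3' := e3.resolve_left (fun h => z5 h.symm)
  have hRy : R4 br B v w v' w' y = symBv y • th br B v v' w := by
    rw [← y3]
    unfold q1 at e3'
    rw [Sym_Bh H P P' hz, zero_smul, add_zero] at e3'
    unfold th
    rw [H.symm _ w, e3', P.one, one_smul, zero_add, H.bsymm _ w, y1, c3, zero_smul, add_zero]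
  have c4 : symBv' (B w v') y = B w v' * symBv y := by
    rw [hRy, th_smul, th_symm H hz w, th_v0 H P' P (by rw [H.symm]; exact hz) w, H.bsymm v' w,
      ← th_symm H hz w, smul_smul] at y4
    rw [mul_comm]
    exact (smul_left_injective K h0 y4).symm
  have c5 : symBw' (B w (th br B v v' w')) y = B w (th br B v v' w') * symBv y := by
    rw [hRy, map_smul, sc_delta H P P' hz, smul_eq_mul] at y2
    rw [mul_comm]
    exact y2.symm
  rcases V3 with h1 | h1 | h1 | h1 | h1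
  · exact h1 (by rw [c1, hα])
  · exact h1 (by rw [c2, hα])
  · exact h1 c3
  · exact h1 c4
  · exact h1 c5

/-- pairs with commuting first vectors have commuting tori -/
theorem sc (A : FPS br B F FP) (h : FP v w) (h' : FP v' w') (hz : br v v' = 0) :
    Cm br B v w v' w' := by
  have H := A.lb
  have hz' : br v' v = 0 := by rw [H.symm]; exact hz
  by_cases h0 : th br B v v' w = 0
  · exact col A h h' hz h0
  by_cases hp : B v w' = 0
  · exact sym_p0 A h h' hz hp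
  by_cases hq : B w v' = 0
  · exact (sym_p0 A h' h hz' (by rw [H.bsymm]; exact hq)).symm
  obtain ⟨p, hpe⟩ : ∃ p, p = B v w' := ⟨_, rfl⟩
  rw [← hpe] at hp
  rw [← Cm.scale A h h' hp]
  have h'' := A.sc _ _ h' p hp
  have e1 : br v (p • v') = 0 := by rw [map_smul, hz, smul_zero]
  have e2 : B v (p⁻¹ • w') = 1 := by
    rw [map_smul, ← hpe, smul_eq_mul, inv_mul_cancel₀ hp]
  have e3 : th br B v (p • v') w ≠ 0 := by
    rw [th_smul]
    exact smul_ne_zero hp h0
  have e4 : B w (p • v') ≠ 0 := by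
    rw [map_smul]
    exact smul_ne_zero hp hq
  by_cases hx : B w (p • v') = 1 ∧ B w (th br B v (p • v') (p⁻¹ • w')) = 0
  · exact sym_exc A h h'' e1 e2 hx.1 hx.2
  · exact sym_gen A h h'' e1 e3 e2 e4 hx

end Pool.Agent.H26.E2
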