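import Pool.Agent.H26.E2.Sc
import Pool.Agent.H26.E2.CertP

/-!
# E2-10: coordinates of the symplectic module

See the first part of the header of `Sym` (`sym_real`, functionals).
-/

namespace Pool.Agent.H26.E2

variable {K L : Type} [Field K] [AddCommGroup L] [Module K L]
variable {br : L →ₗ[K] L →ₗ[K] L} {B : L →ₗ[K] L →ₗ[K] K} {v w v' w' : L}

/-- the vector with given coordinates -/
def R4 (br : L →ₗ[K] L →ₗ[K] L) (B : L →ₗ[K] L →ₗ[K] K) (v w v' w' : L) (x : V4 K) : L :=
  x.a0 • v + x.a1 • th br B v v' w + x.a2 • v' + x.a3 • th br B v v' w'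

private theorem SymR_tr (a b : L) (k : K) (x : V4 K) :
    tr br B a b k (R4 br B v w v' w' x) =
      x.a0 • tr br B a b k v + x.a1 • tr br B a b k (th br B v v' w) + x.a2 • tr br B a b k v' +
        x.a3 • tr br B a b k (th br B v v' w') := by
  unfold R4
  rw [tr_add, tr_add, tr_add, tr_smul, tr_smul, tr_smul, tr_smul]

theorem sym_X (H : LB br B) (P : Pair2 br B v w) (P' : Pair2 br B v' w') (hz : br v v' = 0)
    (hp : B v w' = 1) (c : K) (x : V4 K) :
    tr br B v w c (R4 br B v w v' w' x) =
      R4 br B v w v' w' (symX (B w v') (B w (th br B v v' w')) c x) := by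
  rw [SymR_tr v w, tr_v H P, sc_tr_w0 H P P' hz, sc_tr_v' H P P' hz, sc_tr_v0 H P P' hz, hp]
  unfold R4 symX
  module

private theorem SymR_swap (H : LB br B) (hz : br v v' = 0) : br v' v = 0 := by
  rw [H.symm]
  exact hz

theorem sym_Y (H : LB br B) (P : Pair2 br B v w) (P' : Pair2 br B v' w') (hz : br v v' = 0)
    (hp : B v w' = 1) (c : K) (x : V4 K) :
    tr br B v' w' c (R4 br B v w v' w' x) =
      R4 br B v w v' w' (symY (B w v') (B w (th br B v v' w')) c x) := by
  have hz' := SymR_swap H hz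
  have h1 := sc_tr_w0 H P' P hz' c
  have h2 := sc_tr_v' H P' P hz' c
  have h3 := sc_tr_v0 H P' P hz' c
  rw [← th_symm H hz] at h1 h2 h3
  rw [← th_symm H hz, sc_delta H P P' hz, H.bsymm v' w] at h3
  rw [H.bsymm w' v, hp] at h2
  rw [SymR_tr v' w', tr_v H P', h1, h2, h3]
  unfold R4 symY
  module

theorem sym_fun (H : LB br B) (P : Pair2 br B v w) (P' : Pair2 br B v' w') (hz : br v v' = 0)
    (hp : B v w' = 1) (x : V4 K) :
    B w (R4 br B v w v' w' x) = symBw (B w v') (B w (th br B v v' w')) x ∧
    B w' (R4 br B v w v' w' x) = symBw' (B w (th br B v v' w')) x ∧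
    th br B v (R4 br B v w v' w' x) w = symBv x • th br B v v' w ∧
    th br B v' (R4 br B v w v' w' x) w = symBv' (B w v') x • th br B v v' w ∧
    br v (R4 br B v w v' w' x) = 0 := by
  have hz' := SymR_swap H hz
  refine ⟨?_, ?_, ?_, ?_, ?_⟩
  · unfold R4 symBw
    rw [map_add, map_add, map_add, map_smul, map_smul, map_smul, map_smul, P.one' H,
      (sc_w0 H P P' hz).2]
    simp only [smul_eq_mul]
    ring
  · have h1 := (sc_w0 H P' P hz').2
    rw [← th_symm H hz] at h1
    unfold R4 symBw'
    rw [map_add, map_add, map_add, map_smul, map_smul, map_smul, map_smul, P'.one' H,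
      sc_delta H P P' hz, h1, H.bsymm w' v, hp]
    simp only [smul_eq_mul]
    ring
  · unfold R4 symBv
    rw [th_add, th_add, th_add, th_smul, th_smul, th_smul, th_smul, th_self H P.ev,
      th_w0 H P P' hz, th_v0 H P P' hz, hp]
    module
  · have h1 := th_w0 H P' P hz' w
    have h2 := th_v0 H P' P hz' w
    rw [← th_symm H hz] at h1 h2
    rw [← th_symm H hz] at h1
    rw [H.bsymm v' w] at h2
    unfold R4 symBv'
    rw [th_add, th_add, th_add, th_smul, th_smul, th_smul, th_smul, th_self H P'.ev, h1, h2,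
      ← th_symm H hz]
    module
  · unfold R4
    rw [map_add, map_add, map_add, map_smul, map_smul, map_smul, map_smul, H.alt, hz,
      (sc_zero H P P' hz).1.1, (sc_zero H P P' hz).2.1]
    simp only [smul_zero, add_zero]

end Pool.Agent.H26.E2
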