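import Pool.Agent.H26.E2.Col
import Pool.Agent.H26.E2.SymR

/-!
# E2-11: pairs with `[v, v'] = 0`: `p = 0` and the exceptional parameters

See the header of `Sym`.
-/

namespace Pool.Agent.H26.E2

variable {K L : Type} [Field K] [AddCommGroup L] [Module K L]
variable {br : L →ₗ[K] L →ₗ[K] L} {B : L →ₗ[K] L →ₗ[K] K} {F : Subgroup (L ≃ₗ[K] L)}
  {FP : L → L → Prop} {v w v' w' : L}

theorem sym_p0 (A : FPS br B F FP) (h : FP v w) (h' : FP v' w') (hz : br v v' = 0)
    (hp : B v w' = 0) : Cm br B v w v' w' := by
  have H := A.lb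
  have P := A.pair _ _ h
  have P' := A.pair _ _ h'
  obtain ⟨z, hz0, -, -, hzk, -⟩ := exists_zeta A.card H.two
  have hz1 : z ≠ 1 := by
    have := hzk 1 (by norm_num) (by norm_num)
    rwa [pow_one] at this
  have hz' : br v' v = 0 := by rw [H.symm, hz]
  have hx : tr br B v' w' z v = z • v + (1 + z) • th br B v v' w' := by
    rw [sc_tr_v' H P' P hz', H.bsymm w' v, hp, mul_zero, zero_smul, add_zero, th_symm H hz]
  have hm := A.mv _ (te_mem A h' hz0) _ _ h
  rw [te_apply A h' hz0, te_apply A h' hz0] at hm
  apply A.com1 _ _ _ _ h h' z hz0 hz1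
  refine col A h hm ?_ ?_
  · rw [hx, map_add, map_smul, map_smul, H.alt, (sc_zero H P P' hz).2.1, smul_zero, smul_zero,
      add_zero]
  · rw [hx, th_add, th_smul, th_smul, th_self H P.ev, th_v0 H P P' hz, hp, zero_smul, smul_zero,
      smul_zero, add_zero]

private theorem SymE_span (T : L → L) (hadd : ∀ x y, T (x + y) = T x + T y)
    (hsmul : ∀ (a : K) x, T (a • x) = a • T x) (S : Set L) (N : Submodule K L) (k : K)
    (h : ∀ g ∈ S, T g - k • g ∈ N) : ∀ x ∈ Submodule.span K S, T x - k • x ∈ N := by
  intro x hx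
  induction hx using Submodule.span_induction with
  | mem x hx => exact h x hx
  | zero =>
    have h0 : T 0 = 0 := by
      have := hsmul 0 0
      simpa using this
    rw [h0, smul_zero, sub_zero]
    exact N.zero_mem
  | add x y _ _ hx hy =>
    have e : T (x + y) - k • (x + y) = (T x - k • x) + (T y - k • y) := by
      rw [hadd]
      module
    rw [e]
    exact N.add_mem hx hy
  | smul a x _ hx =>
    have e : T (a • x) - k • (a • x) = a • (T x - k • x) := by
      rw [hsmul]
      module
    rw [e]
    exact N.smul_mem a hx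

/-- the flag -/
private def SymE_M (K : Type) {L : Type} [Field K] [AddCommGroup L] [Module K L]
    (s1 s2 s3 s4 : L) : ℕ → Submodule K L
  | 0 => ⊥
  | 1 => Submodule.span K {s1}
  | 2 => Submodule.span K {s1, s2}
  | 3 => Submodule.span K {s1, s2, s3}
  | _ => Submodule.span K {s1, s2, s3, s4}

/-- the scalars -/
private def SymE_k (z : K) : ℕ → K
  | 0 => z
  | 1 => 1
  | 2 => z
  | _ => z ^ 2

private theorem SymE_m1 (s1 : L) (a : K) : a • s1 ∈ Submodule.span K {s1} :=
  Submodule.smul_mem _ _ (Submodule.subset_span (by simp))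

private theorem SymE_m2 (s1 s2 : L) (a b : K) : a • s1 + b • s2 ∈ Submodule.span K {s1, s2} :=
  Submodule.add_mem _ (Submodule.smul_mem _ _ (Submodule.subset_span (by simp)))
    (Submodule.smul_mem _ _ (Submodule.subset_span (by simp)))

private theorem SymE_m3 (s1 s2 s3 : L) (a b c : K) :
    a • s1 + b • s2 + c • s3 ∈ Submodule.span K {s1, s2, s3} :=
  Submodule.add_mem _ (Submodule.add_mem _
    (Submodule.smul_mem _ _ (Submodule.subset_span (by simp)))
    (Submodule.smul_mem _ _ (Submodule.subset_span (by simp))))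
    (Submodule.smul_mem _ _ (Submodule.subset_span (by simp)))

private theorem SymE_flag (T : L → L) (hadd : ∀ x y, T (x + y) = T x + T y)
    (hsmul : ∀ (a : K) x, T (a • x) = a • T x) (s1 s2 s3 s4 : L) (z a b1 b2 c1 c2 c3 : K)
    (h1 : T s1 = z • s1) (h2 : T s2 = s2 + a • s1) (h3 : T s3 = z • s3 + b1 • s1 + b2 • s2)
    (h4 : T s4 = z ^ 2 • s4 + c1 • s1 + c2 • s2 + c3 • s3) :
    ∀ i, i < 4 → ∀ x ∈ SymE_M K s1 s2 s3 s4 (i + 1),
      T x - SymE_k z i • x ∈ SymE_M K s1 s2 s3 s4 i := by
  intro i hi
  interval_cases i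
  · refine SymE_span T hadd hsmul _ _ _ ?_
    intro g hg
    rw [Set.mem_singleton_iff] at hg
    subst hg
    show T g - z • g ∈ (⊥ : Submodule K L)
    rw [h1, sub_self]
    exact Submodule.zero_mem _
  · refine SymE_span T hadd hsmul _ _ _ ?_
    intro g hg
    simp only [Set.mem_insert_iff, Set.mem_singleton_iff] at hg
    show T g - (1 : K) • g ∈ Submodule.span K {s1}
    rcases hg with hg | hg
    · have e : T g - (1 : K) • g = (z - 1) • s1 := by
        rw [hg, h1]
        module
      rw [e]
      exact SymE_m1 _ _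
    · have e : T g - (1 : K) • g = a • s1 := by
        rw [hg, h2]
        module
      rw [e]
      exact SymE_m1 _ _
  · refine SymE_span T hadd hsmul _ _ _ ?_
    intro g hg
    simp only [Set.mem_insert_iff, Set.mem_singleton_iff] at hg
    show T g - z • g ∈ Submodule.span K {s1, s2}
    rcases hg with hg | hg | hg
    · have e : T g - z • g = (0 : K) • s1 + (0 : K) • s2 := by
        rw [hg, h1]
        module
      rw [e]
      exact SymE_m2 _ _ _ _
    · have e : T g - z • g = a • s1 + (1 - z) • s2 := by
        rw [hg, h2]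
        module
      rw [e]
      exact SymE_m2 _ _ _ _
    · have e : T g - z • g = b1 • s1 + b2 • s2 := by
        rw [hg, h3]
        module
      rw [e]
      exact SymE_m2 _ _ _ _
  · refine SymE_span T hadd hsmul _ _ _ ?_
    intro g hg
    simp only [Set.mem_insert_iff, Set.mem_singleton_iff] at hg
    show T g - z ^ 2 • g ∈ Submodule.span K {s1, s2, s3}
    rcases hg with hg | hg | hg | hg
    · have e : T g - z ^ 2 • g = (z - z ^ 2) • s1 + (0 : K) • s2 + (0 : K) • s3 := by
        rw [hg, h1]
        module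
      rw [e]
      exact SymE_m3 _ _ _ _ _ _
    · have e : T g - z ^ 2 • g = a • s1 + (1 - z ^ 2) • s2 + (0 : K) • s3 := by
        rw [hg, h2]
        module
      rw [e]
      exact SymE_m3 _ _ _ _ _ _
    · have e : T g - z ^ 2 • g = b1 • s1 + b2 • s2 + (z - z ^ 2) • s3 := by
        rw [hg, h3]
        module
      rw [e]
      exact SymE_m3 _ _ _ _ _ _
    · have e : T g - z ^ 2 • g = c1 • s1 + c2 • s2 + c3 • s3 := by
        rw [hg, h4]
        module
      rw [e]
      exact SymE_m3 _ _ _ _ _ _

theorem sym_exc (A : FPS br B F FP) (h : FP v w) (h' : FP v' w') (hz : br v v' = 0)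
    (hp : B v w' = 1) (hq : B w v' = 1) (hd : B w (th br B v v' w') = 0) :
    Cm br B v w v' w' := by
  have H := A.lb
  have P := A.pair _ _ h
  have P' := A.pair _ _ h'
  haveI := H.charP
  obtain ⟨z, hz0, -, -, hzk, hgen⟩ := exists_zeta A.card H.two
  have hz' : br v' v = 0 := by rw [H.symm, hz]
  have hp' : B v' w = 1 := by rw [H.bsymm, hq]
  have hq' : B w' v = 1 := by rw [H.bsymm, hp]
  have hd' : B w' (th br B v v' w) = 0 := by rw [sc_delta H P P' hz, hd]
  -- the first torus element
  have t1 : tr br B v w z v = z ^ 2 • v := tr_v H P z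
  have t2 : tr br B v w z v' = z • v' + (1 + z) • th br B v v' w + (z ^ 2 + z) • v := by
    rw [sc_tr_v' H P P' hz, hq, mul_one]
  have t3 : tr br B v w z (th br B v v' w) = th br B v v' w := sc_tr_w0 H P P' hz z
  have t4 : tr br B v w z (th br B v v' w') = z • th br B v v' w' + (1 + z) • th br B v v' w := by
    rw [sc_tr_v0 H P P' hz, hp, hd, mul_zero, zero_smul, add_zero, mul_one]
  -- the second torus element
  have u1 : tr br B v' w' z v' = z ^ 2 • v' := tr_v H P' z
  have u2 : tr br B v' w' z v = z • v + (1 + z) • th br B v v' w' + (z ^ 2 + z) • v' := by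
    rw [sc_tr_v' H P' P hz', hq', mul_one, th_symm H hz]
  have u3 : tr br B v' w' z (th br B v v' w') = th br B v v' w' := by
    have := sc_tr_w0 H P' P hz' z
    rwa [← th_symm H hz] at this
  have u4 : tr br B v' w' z (th br B v v' w) =
      z • th br B v v' w + (1 + z) • th br B v v' w' := by
    have := sc_tr_v0 H P' P hz' z
    rw [← th_symm H hz, ← th_symm H hz, hp', hd', mul_zero, zero_smul, add_zero, mul_one] at this
    exact this
  generalize th br B v v' w = w0 at *
  generalize th br B v v' w' = v0 at *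
  refine exc A h h' hz0 hgen (SymE_M K (v0 + w0) w0 (v + v') v) (SymE_k z) 4 (by norm_num) rfl ?_ ?_ ?_
    ?_ ?_ ?_
  · intro i hi
    interval_cases i
    · exact bot_le
    · exact Submodule.span_mono (by intro x hx; simp only [Set.mem_insert_iff, Set.mem_singleton_iff] at hx ⊢; tauto)
    · exact Submodule.span_mono (by intro x hx; simp only [Set.mem_insert_iff, Set.mem_singleton_iff] at hx ⊢; tauto)
    · exact Submodule.span_mono (by intro x hx; simp only [Set.mem_insert_iff, Set.mem_singleton_iff] at hx ⊢; tauto)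
  · intro i hi
    interval_cases i
    · exact hz0
    · exact one_ne_zero
    · exact hz0
    · exact pow_ne_zero 2 hz0
  · show v ∈ Submodule.span K {v0 + w0, w0, v + v', v}
    exact Submodule.subset_span (by simp)
  · show v' ∈ Submodule.span K {v0 + w0, w0, v + v', v}
    have e : v' = (v + v') - v := by abel
    have h1 : v + v' ∈ Submodule.span K ({v0 + w0, w0, v + v', v} : Set L) :=
      Submodule.subset_span (by simp)
    have h2 : v ∈ Submodule.span K ({v0 + w0, w0, v + v', v} : Set L) :=
      Submodule.subset_span (by simp)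
    have h3 := Submodule.sub_mem _ h1 h2
    rwa [← e] at h3
  · refine SymE_flag (tr br B v w z) (tr_add z) (fun a x => tr_smul z a x) _ _ _ _ z 0 0 (1 + z) 0 0 0
      ?_ ?_ ?_ ?_
    · rw [tr_add, t3, t4]
      linear_combination (norm := (match_scalars <;> grind))
    · rw [t3, zero_smul, add_zero]
    · rw [tr_add, t1, t2]
      linear_combination (norm := (match_scalars <;> grind))
    · rw [t1]
      module
  · refine SymE_flag (tr br B v' w' z) (tr_add z) (fun a x => tr_smul z a x) _ _ _ _ z (1 + z) (1 + z)
      (1 + z) (1 + z) (1 + z) (z ^ 2 + z) ?_ ?_ ?_ ?_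
    · rw [tr_add, u3, u4]
      linear_combination (norm := (match_scalars <;> grind))
    · rw [u4]
      linear_combination (norm := (match_scalars <;> grind))
    · rw [tr_add, u1, u2]
      linear_combination (norm := (match_scalars <;> grind))
    · rw [u2]
      linear_combination (norm := (match_scalars <;> grind))

end Pool.Agent.H26.E2
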