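import Pool.Agent.H26.E2.LB

/-!
# E2-01: weights of the torus element of a pair

`h = [v, w]`.  Components of `x`: weight 2: `B w x • v`, weight -2: `B v x • w`, weight 1:
`q1 x = [v,[w,x]] + B h x • h`, weight -1: `q1 (w,v) x = [w,[v,x]] + B h x • h` (note
`br w v = br v w`, `q1 br B w v`), weight 0: the rest `q0 x`.

Identities (`H.inv`, `H.inv'`, `P.brh`, `P.brh'`, `P.bh`, `P.bh'`):
* `B (w, [v,[w,x]]) = B (h, [w,x]) = B ([h,w], x) = 0`, `B (v, [v,·]) = 0`,
  `B (h, [v, y]) = B ([h,v], y) = 0`, `B (h,h) = 0`.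
* (P2) for `w`: `[w,[v,[w,x]]] = B (w,[v,x]) w + [w,x] + B (w,x) h` and `B (w,[v,x]) = B (h,x)`.
  So for `y = q1 x`: `B w y = 0`, `B v y = 0`, `B h y = 0`, `[v,y] = 0`,
  `[w,y] = B (h,x) w + [w,x] + B (w,x) h`, `[v,[w,y]] = B (h,x) h + [v,[w,x]] = y`; `tr c y = c y`.
* `y0 = q0 x`: `B w y0 = B v y0 = 0`, `B h y0 = B h x`, `[w,y0] = B (h,x) w`,
  `[v,y0] = B (h,x) v`, so `[v,[w,y0]] = B (h,x) h`, `q1 y0 = 0`, `tr c y0 = y0`.
* `tr_decomp`: `tr c x = q0 x + c² B w x v + c⁻² B v x w + c q1 x + c⁻¹ q1' x`.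
* `tr_tr`: from the decomposition.  `tr_eig`: the components of `tr c x`.
-/

namespace Pool.Agent.H26.E2

variable {K L : Type} [Field K] [AddCommGroup L] [Module K L]

/-- the weight one component -/
def q1 (br : L →ₗ[K] L →ₗ[K] L) (B : L →ₗ[K] L →ₗ[K] K) (v w x : L) : L :=
  br v (br w x) + B (br v w) x • br v w

/-- the weight zero component -/
def q0 (br : L →ₗ[K] L →ₗ[K] L) (B : L →ₗ[K] L →ₗ[K] K) (v w x : L) : L :=
  x + B w x • v + B v x • w + br v (br w x) + br w (br v x)

variable {br : L →ₗ[K] L →ₗ[K] L} {B : L →ₗ[K] L →ₗ[K] K} {v w : L}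

theorem q1_add (x y : L) : q1 br B v w (x + y) = q1 br B v w x + q1 br B v w y := by
  simp only [q1, map_add, add_smul]
  abel

theorem q1_smul (a : K) (x : L) : q1 br B v w (a • x) = a • q1 br B v w x := by
  simp only [q1, map_smul, smul_eq_mul, mul_smul, smul_add]

theorem q0_add (x y : L) : q0 br B v w (x + y) = q0 br B v w x + q0 br B v w y := by
  simp only [q0, map_add, add_smul]
  abel

theorem q0_smul (a : K) (x : L) : q0 br B v w (a • x) = a • q0 br B v w x := by
  simp only [q0, map_smul, smul_eq_mul, mul_smul, smul_add]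

theorem tr_add (c : K) (x y : L) : tr br B v w c (x + y) = tr br B v w c x + tr br B v w c y := by
  simp only [tr, map_add, mul_add, add_smul, smul_add]
  abel

theorem tr_smul (c a : K) (x : L) : tr br B v w c (a • x) = a • tr br B v w c x := by
  simp only [tr, map_smul, smul_eq_mul, smul_add]
  simp only [smul_smul]
  rw [show (c ^ 2 + 1) * (a * B w x) = a * ((c ^ 2 + 1) * B w x) by ring,
    show (c⁻¹ ^ 2 + 1) * (a * B v x) = a * ((c⁻¹ ^ 2 + 1) * B v x) by ring,
    mul_comm (c + 1) a, mul_comm (c⁻¹ + 1) a,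
    show (c + 1) * (a * B (br v w) x) = a * ((c + 1) * B (br v w) x) by ring,
    show (c⁻¹ + 1) * (a * B (br v w) x) = a * ((c⁻¹ + 1) * B (br v w) x) by ring]

theorem tr_zero (c : K) : tr br B v w c 0 = 0 := by
  have := tr_smul (br := br) (B := B) (v := v) (w := w) c 0 0
  simpa using this

private theorem Wt_q1 (x : L) : q1 br B v w x = br v (br w x) + B (br v w) x • br v w := rfl

private theorem Wt_q0 (x : L) : q0 br B v w x =
    x + B w x • v + B v x • w + br v (br w x) + br w (br v x) := rfl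

private theorem Wt_Bvv (H : LB br B) (v y : L) : B v (br v y) = 0 := by
  rw [← H.inv, H.alt, map_zero, LinearMap.zero_apply]

private theorem Wt_h (H : LB br B) (P : Pair2 br B v w) (y : L) :
    B (br v w) (br v y) = 0 ∧ B (br v w) (br w y) = 0 := by
  constructor
  · rw [← H.inv, H.symm (br v w) v, P.brh H, map_zero, LinearMap.zero_apply]
  · rw [← H.inv, H.symm (br v w) w, P.brh' H, map_zero, LinearMap.zero_apply]

private theorem Wt_p2 (H : LB br B) (P : Pair2 br B v w) (x : L) :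
    br w (br v (br w x)) = B (br v w) x • w + br w x + B w x • br v w := by
  rw [P.ew.p2 x v, ← H.inv w v x, H.symm w v, P.one' H, one_smul]

private theorem Wt_two (H : LB br B) (x : L) (a b : L) (h : a = b + x + x) : a = b := by
  rw [h, add_assoc, H.add_self, add_zero]

theorem tr_decomp (H : LB br B) (P : Pair2 br B v w) (c : K) (x : L) :
    tr br B v w c x = q0 br B v w x + (c ^ 2 * B w x) • v + (c⁻¹ ^ 2 * B v x) • w
      + c • q1 br B v w x + c⁻¹ • q1 br B w v x := by
  unfold tr q0 q1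
  rw [H.symm w v]
  refine (Wt_two H (B (br v w) x • br v w) _ _ ?_)
  module

theorem q1_v (H : LB br B) (P : Pair2 br B v w) : q1 br B v w v = 0 := by
  unfold q1
  rw [H.symm w v, P.brh H, P.bh H, zero_smul, add_zero]

theorem q1_w (H : LB br B) (P : Pair2 br B v w) : q1 br B v w w = 0 := by
  unfold q1
  rw [H.alt, map_zero, P.bh' H, zero_smul, add_zero]

theorem B_q1 (H : LB br B) (P : Pair2 br B v w) (x : L) :
    B v (q1 br B v w x) = 0 ∧ B w (q1 br B v w x) = 0 ∧ B (br v w) (q1 br B v w x) = 0 ∧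
      br v (q1 br B v w x) = 0 := by
  unfold q1
  refine ⟨?_, ?_, ?_, ?_⟩
  · rw [map_add, map_smul, Wt_Bvv H, Wt_Bvv H, smul_zero, add_zero]
  · rw [map_add, map_smul, ← H.inv w v, H.symm w v, (Wt_h H P x).2, H.bsymm w, P.bh' H, smul_zero,
      add_zero]
  · rw [map_add, map_smul, (Wt_h H P _).1, H.balt, smul_zero, add_zero]
  · rw [map_add, map_smul, P.ev.p0, P.brh H, smul_zero, add_zero]

theorem q1_q1 (H : LB br B) (P : Pair2 br B v w) (x : L) :
    q1 br B v w (q1 br B v w x) = q1 br B v w x := by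
  have h := (B_q1 H P x).2.2.1
  have e : br w (q1 br B v w x) = B (br v w) x • w + br w x + B w x • br v w := by
    unfold q1
    rw [map_add, map_smul, P.brh' H, smul_zero, add_zero, Wt_p2 H P]
  rw [Wt_q1 (q1 br B v w x), h, zero_smul, add_zero, e, map_add, map_add, map_smul, map_smul, P.brh H, smul_zero, add_zero]
  unfold q1
  rw [add_comm]

theorem q1_q1' (H : LB br B) (P : Pair2 br B v w) (x : L) :
    q1 br B w v (q1 br B v w x) = 0 := by
  have h := B_q1 H P x
  rw [Wt_q1 (q1 br B v w x), h.2.2.2, H.symm w v, h.2.2.1, map_zero, zero_smul, add_zero]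

private theorem Wt_w_q0 (H : LB br B) (P : Pair2 br B v w) (x : L) :
    br w (q0 br B v w x) = B (br v w) x • w := by
  unfold q0
  rw [map_add, map_add, map_add, map_add, map_smul, map_smul, H.alt, H.symm w v, P.ew.p0,
    Wt_p2 H P, smul_zero, add_zero, add_zero]
  refine (Wt_two H (br w x + B w x • br v w) _ _ ?_)
  abel

private theorem Wt_h_q0 (H : LB br B) (P : Pair2 br B v w) (x : L) :
    B (br v w) (q0 br B v w x) = B (br v w) x := by
  unfold q0
  rw [map_add, map_add, map_add, map_add, map_smul, map_smul, P.bh H, P.bh' H, (Wt_h H P _).1,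
    (Wt_h H P _).2, smul_zero, smul_zero, add_zero, add_zero, add_zero, add_zero]

theorem q1_q0 (H : LB br B) (P : Pair2 br B v w) (x : L) :
    q1 br B v w (q0 br B v w x) = 0 := by
  unfold q1
  rw [Wt_w_q0 H P, Wt_h_q0 H P, map_smul, H.add_self]

theorem B_q0 (H : LB br B) (P : Pair2 br B v w) (x : L) :
    B v (q0 br B v w x) = 0 ∧ B w (q0 br B v w x) = 0 := by
  unfold q0
  constructor
  · rw [map_add, map_add, map_add, map_add, map_smul, map_smul, H.balt, P.one, Wt_Bvv H,
      ← H.inv v w, (Wt_h H P x).1, smul_eq_mul, smul_eq_mul]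
    linear_combination B v x * H.two
  · rw [map_add, map_add, map_add, map_add, map_smul, map_smul, H.balt, P.one' H, Wt_Bvv H w,
      ← H.inv w v, H.symm w v, (Wt_h H P x).2, smul_eq_mul, smul_eq_mul]
    linear_combination B w x * H.two

theorem q0_swap (H : LB br B) (x : L) : q0 br B w v x = q0 br B v w x := by
  unfold q0
  abel

theorem q0_q0 (H : LB br B) (P : Pair2 br B v w) (x : L) :
    q0 br B v w (q0 br B v w x) = q0 br B v w x := by
  have h1 := B_q0 H P x
  have h2 := Wt_w_q0 H P x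
  have h3 : br v (q0 br B v w x) = B (br v w) x • v := by
    have := Wt_w_q0 H (P.swap H) x
    rwa [q0_swap H, H.symm w v] at this
  rw [Wt_q0 (q0 br B v w x), h1.1, h1.2, h2, h3, map_smul, map_smul, zero_smul, zero_smul, add_zero, add_zero, H.symm w v,
    add_assoc, H.add_self, add_zero]

theorem q0_v (H : LB br B) (P : Pair2 br B v w) : q0 br B v w v = 0 := by
  unfold q0
  rw [P.one' H, H.balt, H.alt, H.symm w v, P.brh H, map_zero, one_smul, zero_smul, H.add_self,
    add_zero, add_zero, add_zero]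

theorem q0_w (H : LB br B) (P : Pair2 br B v w) : q0 br B v w w = 0 := by
  rw [← q0_swap H]
  exact q0_v H (P.swap H)

theorem q0_q1 (H : LB br B) (P : Pair2 br B v w) (x : L) :
    q0 br B v w (q1 br B v w x) = 0 := by
  have h := B_q1 H P x
  have h1 := q1_q1 H P x
  have h2 : br v (br w (q1 br B v w x)) = q1 br B v w x := by
    rw [Wt_q1 (q1 br B v w x), h.2.2.1, zero_smul, add_zero] at h1
    exact h1
  rw [Wt_q0 (q1 br B v w x), h.1, h.2.1, h.2.2.2, h2, zero_smul, zero_smul, add_zero, add_zero, map_zero, add_zero,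
    H.add_self]

theorem tr_v (H : LB br B) (P : Pair2 br B v w) (c : K) : tr br B v w c v = c ^ 2 • v := by
  rw [tr_decomp H P, q0_v H P, q1_v H P, q1_w H (P.swap H), H.balt, P.one' H]
  simp

theorem tr_w (H : LB br B) (P : Pair2 br B v w) (c : K) : tr br B v w c w = c⁻¹ ^ 2 • w := by
  rw [tr_decomp H P, q0_w H P, q1_w H P, q1_v H (P.swap H), H.balt, P.one]
  simp

theorem tr_one (H : LB br B) (x : L) : tr br B v w 1 x = x := by
  have h : (1 : K) + 1 = 0 := by rw [one_add_one_eq_two, H.two]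
  unfold tr
  simp [h]

theorem tr_swap (H : LB br B) (c : K) (x : L) :
    tr br B w v c x = tr br B v w c⁻¹ x := by
  unfold tr
  rw [inv_inv, H.symm w v]
  abel

theorem tr_scale (c a : K) (ha : a ≠ 0) (x : L) :
    tr br B (a • v) (a⁻¹ • w) c x = tr br B v w c x := by
  have e : a * a⁻¹ = 1 := mul_inv_cancel₀ ha
  have e' : a⁻¹ * a = 1 := inv_mul_cancel₀ ha
  unfold tr
  simp only [map_smul, LinearMap.smul_apply, smul_smul, smul_eq_mul, e, e', one_mul, mul_one,
    one_smul]
  rw [mul_assoc (c ^ 2 + 1), mul_comm (a⁻¹ * B w x) a, ← mul_assoc a, e, one_mul,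
    mul_assoc (c⁻¹ ^ 2 + 1), mul_comm (a * B v x) a⁻¹, ← mul_assoc a⁻¹, e', one_mul]

/-- the components of `tr c x` -/
theorem tr_comp (H : LB br B) (P : Pair2 br B v w) (c : K) (x : L) :
    B w (tr br B v w c x) = c ^ 2 * B w x ∧ B v (tr br B v w c x) = c⁻¹ ^ 2 * B v x ∧
      q1 br B v w (tr br B v w c x) = c • q1 br B v w x ∧
      q1 br B w v (tr br B v w c x) = c⁻¹ • q1 br B w v x ∧
      q0 br B v w (tr br B v w c x) = q0 br B v w x := by
  have P' := P.swap H
  have b1 := B_q1 H P x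
  have b2 := B_q1 H P' x
  have b0 := B_q0 H P x
  refine ⟨?_, ?_, ?_, ?_, ?_⟩
  · rw [tr_decomp H P]
    simp [b1.2.1, b2.1, b0.2, H.balt, P.one' H]
  · rw [tr_decomp H P]
    simp [b1.1, b2.2.1, b0.1, H.balt, P.one]
  · rw [tr_decomp H P, q1_add, q1_add, q1_add, q1_add, q1_smul, q1_smul, q1_smul, q1_smul,
      q1_q0 H P, q1_v H P, q1_w H P, q1_q1 H P, q1_q1' H P']
    simp
  · rw [tr_decomp H P, q1_add, q1_add, q1_add, q1_add, q1_smul, q1_smul, q1_smul, q1_smul,
      ← q0_swap H, q1_q0 H P', q1_v H P', q1_w H P', q1_q1 H P', q1_q1' H P]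
    simp
  · rw [tr_decomp H P, q0_add, q0_add, q0_add, q0_add, q0_smul, q0_smul, q0_smul, q0_smul,
      q0_q0 H P, q0_v H P, q0_w H P, q0_q1 H P, ← q0_swap H (q1 br B w v x), q0_q1 H P']
    simp

theorem tr_tr (H : LB br B) (P : Pair2 br B v w) (c d : K) (hc : c ≠ 0) (hd : d ≠ 0) (x : L) :
    tr br B v w c (tr br B v w d x) = tr br B v w (c * d) x := by
  obtain ⟨h1, h2, h3, h4, h5⟩ := tr_comp H P d x
  rw [tr_decomp H P c, h1, h2, h3, h4, h5, tr_decomp H P (c * d), mul_inv]
  module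

/-- components of an eigenvector -/
theorem tr_eig (H : LB br B) (P : Pair2 br B v w) {c k : K} {x : L}
    (h : tr br B v w c x = k • x) :
    (k = c ^ 2 ∨ B w x = 0) ∧ (k = c⁻¹ ^ 2 ∨ B v x = 0) ∧ (k = c ∨ q1 br B v w x = 0) ∧
      (k = c⁻¹ ∨ q1 br B w v x = 0) ∧ (k = 1 ∨ q0 br B v w x = 0) := by
  obtain ⟨h1, h2, h3, h4, h5⟩ := tr_comp H P c x
  rw [h] at h1 h2 h3 h4 h5
  rw [map_smul, smul_eq_mul] at h1 h2
  rw [q1_smul] at h3 h4
  rw [q0_smul] at h5
  refine ⟨?_, ?_, ?_, ?_, ?_⟩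
  · rcases mul_eq_mul_right_iff.mp h1 with h | h
    · exact Or.inl h
    · exact Or.inr h
  · rcases mul_eq_mul_right_iff.mp h2 with h | h
    · exact Or.inl h
    · exact Or.inr h
  · by_cases hx : q1 br B v w x = 0
    · exact Or.inr hx
    · exact Or.inl (smul_left_injective K hx h3)
  · by_cases hx : q1 br B w v x = 0
    · exact Or.inr hx
    · exact Or.inl (smul_left_injective K hx h4)
  · by_cases hx : q0 br B v w x = 0
    · exact Or.inr hx
    · refine Or.inl (smul_left_injective K hx ?_)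
      show k • _ = (1 : K) • _
      rw [h5, one_smul]

/-- the weight two space is `K v` -/
theorem weight_two (H : LB br B) (P : Pair2 br B v w) {c : K} {x : L}
    (h1 : c ^ 2 ≠ c⁻¹ ^ 2) (h2 : c ^ 2 ≠ c) (h3 : c ^ 2 ≠ c⁻¹) (h4 : c ^ 2 ≠ 1)
    (h : tr br B v w c x = c ^ 2 • x) : x = B w x • v := by
  obtain ⟨-, a2, a3, a4, a5⟩ := tr_eig H P h
  have b2 := a2.resolve_left h1
  have b3 := a3.resolve_left h2
  have b4 := a4.resolve_left h3
  have b5 := a5.resolve_left h4
  have := tr_decomp H P 1 x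
  rw [tr_one H, b2, b3, b4, b5] at this
  simpa using this

/-- a linear map preserving bracket and form conjugates torus elements -/
theorem map_tr (g : L ≃ₗ[K] L) (h1 : ∀ x y, g (br x y) = br (g x) (g y))
    (h2 : ∀ x y, B (g x) (g y) = B x y) (c : K) (x : L) :
    g (tr br B v w c x) = tr br B (g v) (g w) c (g x) := by
  simp only [tr, map_add, map_smul, h1, h2]
  rw [← h1 v w, h2]

end Pool.Agent.H26.E2
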